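import Pool.Agent.K3h89.QU.Remove

/-!
# Dual rank functions
-/

set_option autoImplicit false
set_option linter.unusedSectionVars false

namespace Pool.Agent.K3h89.QU

open Finset

variable {α : Type*} [DecidableEq α]

/-- Rank function of the dual matroid. -/
def dl (r : Finset α → ℕ) (E : Finset α) : Finset α → ℕ :=
  fun X => (X ∩ E).card + r (E \ X) - r E

lemma IsRank.diff {r : Finset α → ℕ} (hr : IsRank r) (U V : Finset α) :
    r U ≤ r V + (U \ V).card := by
  have h1 := hr.sm (X := V) (Y := U \ V) (U := U) (I := ∅) (by grind) (by grind)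
  have h2 := hr.le_card (U \ V)
  omega

lemma dl_aux {r : Finset α → ℕ} (hr : IsRank r) (E X : Finset α) :
    r E ≤ (X ∩ E).card + r (E \ X) := by
  have h1 := hr.diff E (E \ X)
  have h2 : E \ (E \ X) = X ∩ E := by grind
  rw [h2] at h1; omega

lemma isRank_dl {r : Finset α → ℕ} (hr : IsRank r) (E : Finset α) : IsRank (dl r E) where
  empty := by simp [dl]
  mono := fun {X Y} h => by
    unfold dl
    have h1 := hr.diff (E \ X) (E \ Y)
    have h2 : (E \ X) \ (E \ Y) = (Y ∩ E) \ (X ∩ E) := by grind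
    have h3 : (X ∩ E) ⊆ (Y ∩ E) := by grind
    have h4 := Finset.card_sdiff_add_card_eq_card h3
    rw [h2] at h1
    omega
  sub := fun X Y => by
    unfold dl
    have h1 := hr.sm (X := E \ X) (Y := E \ Y) (U := E \ (X ∩ Y)) (I := E \ (X ∪ Y))
      (by grind) (by grind)
    have h2 := Finset.card_union_add_card_inter (X ∩ E) (Y ∩ E)
    have h3 : (X ∩ E) ∪ (Y ∩ E) = (X ∪ Y) ∩ E := by grind
    have h4 : (X ∩ E) ∩ (Y ∩ E) = (X ∩ Y) ∩ E := by grind
    rw [h3, h4] at h2
    have h5 := dl_aux hr E X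
    have h6 := dl_aux hr E Y
    have h7 := dl_aux hr E (X ∪ Y)
    have h8 := dl_aux hr E (X ∩ Y)
    omega
  one := fun e X => by
    unfold dl
    have h1 := hr.mm (X := E \ insert e X) (Y := E \ X) (by grind)
    have h2 : (insert e X ∩ E).card ≤ (X ∩ E).card + 1 := by
      refine (Finset.card_le_card (t := insert e (X ∩ E)) (by grind)).trans ?_
      exact Finset.card_insert_le _ _
    omega

lemma dl_of_sub {r : Finset α → ℕ} {E X : Finset α} (h : X ⊆ E) :
    dl r E X = X.card + r (E \ X) - r E := by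
  unfold dl; rw [Finset.inter_eq_left.2 h]

lemma dl_prt {r : Finset α → ℕ} (hr : IsRank r) {X Y E : Finset α} (h : Prt X Y E) :
    dl r E X + r E = X.card + r Y := by
  have h1 : E \ X = Y := by
    ext z; have := h.1 z; have := h.2 z; simp only [mem_sdiff]; tauto
  have h2 := dl_aux hr E X
  have h3 : X ∩ E = X := Finset.inter_eq_left.2 h.subL
  rw [dl_of_sub h.subL]
  rw [h1] at *
  rw [h3] at h2
  omega

lemma dl_full {r : Finset α → ℕ} (hr : IsRank r) (E : Finset α) :
    dl r E E + r E = E.card := by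
  have h1 := dl_prt hr (X := E) (Y := ∅) (E := E) (by simp [Prt])
  rw [hr.empty] at h1; omega

lemma dl_dl {r : Finset α → ℕ} (hr : IsRank r) {E X : Finset α} (h : X ⊆ E) :
    dl (dl r E) E X = r X := by
  have h1 := dl_prt (isRank_dl hr E) (Prt.sdiff h)
  have h2 := dl_prt hr (Prt.sdiff h).symm
  have h3 := dl_full hr E
  have h4 := (Prt.sdiff h).card
  omega

lemma Cn.dual {r : Finset α → ℕ} (hr : IsRank r) {E : Finset α} (h : Cn r E) :
    Cn (dl r E) E := by
  intro X Y hP hX hY
  have h1 := h X Y hP hX hY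
  have h2 := dl_prt hr hP
  have h3 := dl_prt hr hP.symm
  have h4 := dl_full hr E
  have h5 := hP.card
  omega

lemma TC.dual {r : Finset α → ℕ} (hr : IsRank r) {E : Finset α} (h : TC r E) :
    TC (dl r E) E := by
  refine ⟨h.1.dual hr, ?_⟩
  intro X Y hP hX hY
  have h1 := h.2 X Y hP hX hY
  have h2 := dl_prt hr hP
  have h3 := dl_prt hr hP.symm
  have h4 := dl_full hr E
  have h5 := hP.card
  omega

lemma Cn.congr {r r' : Finset α → ℕ} {E : Finset α} (h : Cn r E)
    (he : ∀ X ⊆ E, r X = r' X) : Cn r' E := fun X Y hP hX hY => by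
  rw [← he E (Finset.Subset.refl _), ← he X hP.subL, ← he Y hP.subR]
  exact h X Y hP hX hY

lemma TC.congr {r r' : Finset α → ℕ} {E : Finset α} (h : TC r E)
    (he : ∀ X ⊆ E, r X = r' X) : TC r' E := by
  refine ⟨h.1.congr he, fun X Y hP hX hY => ?_⟩
  rw [← he E (Finset.Subset.refl _), ← he X hP.subL, ← he Y hP.subR]
  exact h.2 X Y hP hX hY

lemma Cn.of_dual {r : Finset α → ℕ} (hr : IsRank r) {E : Finset α} (h : Cn (dl r E) E) :
    Cn r E := (h.dual (isRank_dl hr E)).congr fun _ hX => dl_dl hr hX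

lemma TC.of_dual {r : Finset α → ℕ} (hr : IsRank r) {E : Finset α} (h : TC (dl r E) E) :
    TC r E := (h.dual (isRank_dl hr E)).congr fun _ hX => dl_dl hr hX

lemma SI.congr {r r' : Finset α → ℕ} {E : Finset α} {x : α} (h : SI r E x) (hx : x ∈ E)
    (he : ∀ X ⊆ E, r X = r' X) : SI r' E x := fun X Y hP hX hY => by
  have h1 : insert x X ⊆ E := Finset.insert_subset hx (hP.subL.trans (Finset.erase_subset _ _))
  have h2 : insert x Y ⊆ E := Finset.insert_subset hx (hP.subR.trans (Finset.erase_subset _ _))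
  rw [← he E (Finset.Subset.refl _), ← he _ h1, ← he _ h2]
  exact h X Y hP hX hY

lemma CO.congr {r r' : Finset α → ℕ} {E : Finset α} {x : α} (h : CO r E x)
    (he : ∀ X ⊆ E, r X = r' X) : CO r' E x := fun X Y hP hX hY => by
  have h1 : X ⊆ E := hP.subL.trans (Finset.erase_subset _ _)
  have h2 : Y ⊆ E := hP.subR.trans (Finset.erase_subset _ _)
  rw [← he E (Finset.Subset.refl _), ← he _ h1, ← he _ h2]
  exact h X Y hP hX hY

lemma prt_ins {X Y E : Finset α} {x : α} (hx : x ∈ E) (h : Prt X Y (E.erase x)) :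
    Prt (insert x X) Y E := by
  simp only [Prt, mem_erase, mem_insert] at *; grind

lemma CO.dual {r : Finset α → ℕ} (hr : IsRank r) {E : Finset α} {x : α} (hx : x ∈ E)
    (h : CO r E x) : SI (dl r E) E x := by
  intro X Y hP hX hY hl
  have hxX : x ∉ X := fun hh => by have := hP.subL hh; simp at this
  have hxY : x ∉ Y := fun hh => by have := hP.subR hh; simp at this
  have h2 := dl_prt hr (prt_ins hx hP)
  have h3 := dl_prt hr (prt_ins hx hP.symm)
  have h4 := dl_full hr E
  have h5 := hP.card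
  have h6 := Finset.card_erase_of_mem hx
  have h7 := Finset.card_pos.2 ⟨x, hx⟩
  rw [Finset.card_insert_of_notMem hxX] at h2
  rw [Finset.card_insert_of_notMem hxY] at h3
  have h1 := h X Y hP hX hY (by omega)
  omega

lemma SI.dual {r : Finset α → ℕ} (hr : IsRank r) {E : Finset α} {x : α} (hx : x ∈ E)
    (h : SI r E x) : CO (dl r E) E x := by
  intro X Y hP hX hY hl
  have h2 := dl_prt hr (prt_ins hx hP).symm
  have h3 := dl_prt hr (prt_ins hx hP.symm).symm
  have h4 := dl_full hr E
  have h5 := hP.card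
  have h6 := Finset.card_erase_of_mem hx
  have h7 := Finset.card_pos.2 ⟨x, hx⟩
  have h1 := h X Y hP hX hY (by omega)
  omega

lemma CO.of_dual {r : Finset α → ℕ} (hr : IsRank r) {E : Finset α} {x : α} (hx : x ∈ E)
    (h : SI (dl r E) E x) : CO r E x :=
  (h.dual (isRank_dl hr E) hx).congr fun _ hX => dl_dl hr hX

lemma SI.of_dual {r : Finset α → ℕ} (hr : IsRank r) {E : Finset α} {x : α} (hx : x ∈ E)
    (h : CO (dl r E) E x) : SI r E x :=
  (h.dual (isRank_dl hr E) hx).congr hx fun _ hX => dl_dl hr hX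

lemma HasU.dual {r : Finset α → ℕ} (hr : IsRank r) {E : Finset α} {k n : ℕ}
    (hkn : k ≤ n) (h : HasU r E k n) : HasU (dl r E) E (n - k) n := by
  obtain ⟨T, S, hT, hS, hd, hc, hrk⟩ := h
  rw [Finset.disjoint_left] at hd
  refine ⟨E \ (T ∪ S), S, Finset.sdiff_subset, hS, ?_, hc, ?_⟩
  · rw [Finset.disjoint_left]; intro z hz; grind
  · intro Z hZ
    have hP1 : Prt (Z ∪ (E \ (T ∪ S))) ((S \ Z) ∪ T) E := by
      refine ⟨fun z => ?_, fun z => ?_⟩
      · have := @hT z; have := @hS z; have := @hZ z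
        simp only [mem_union, mem_sdiff]; tauto
      · have := @hd z; have := @hZ z
        simp only [mem_union, mem_sdiff]; tauto
    have hP2 : Prt (E \ (T ∪ S)) (S ∪ T) E := by
      refine ⟨fun z => ?_, fun z => ?_⟩
      · have := @hT z; have := @hS z
        simp only [mem_union, mem_sdiff]; tauto
      · simp only [mem_union, mem_sdiff]; tauto
    have h1 := dl_prt hr hP1
    have h2 := dl_prt hr hP2
    have h3 := hrk (S \ Z) Finset.sdiff_subset
    have h4 := hrk S (Finset.Subset.refl _)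
    have h5 : (Z ∪ (E \ (T ∪ S))).card = Z.card + (E \ (T ∪ S)).card := by
      apply Finset.card_union_of_disjoint
      rw [Finset.disjoint_left]; intro z hz; have := @hZ z; grind
    have h6 := Finset.card_sdiff_add_card_eq_card hZ
    omega

lemma dl_del {r : Finset α → ℕ} (hr : IsRank r) {E X : Finset α} {x : α} (hx : x ∈ E)
    (h : X ⊆ E.erase x) : dl r E X = dl (ctr r x) (E.erase x) X := by
  have hX : X ⊆ E := h.trans (Finset.erase_subset _ _)
  have hxX : x ∉ X := fun hh => by have := h hh; simp at this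
  have h1 := dl_prt hr (Prt.sdiff hX)
  have h2 := dl_prt (isRank_ctr hr x) (Prt.sdiff h)
  unfold ctr at h2 ⊢
  rw [Finset.insert_erase hx] at h2
  have h3 : insert x (E.erase x \ X) = E \ X := by
    ext z; simp only [mem_insert, mem_sdiff, mem_erase]
    by_cases hz : z = x
    · subst hz; tauto
    · tauto
  rw [h3] at h2
  have h4 : r {x} ≤ r E := hr.mm (by simpa using hx)
  have h5 : r {x} ≤ r (E \ X) := hr.mm (by intro z hz; simp at hz; subst hz; simp [hx, hxX])
  omega

lemma dl_ctr {r : Finset α → ℕ} (hr : IsRank r) {E X : Finset α} {x : α} (hx : x ∈ E)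
    (h : X ⊆ E.erase x) : ctr (dl r E) x X = dl r (E.erase x) X := by
  have hX : X ⊆ E := h.trans (Finset.erase_subset _ _)
  have hxX : x ∉ X := fun hh => by have := h hh; simp at this
  have h1 := dl_prt hr (Prt.sdiff (Finset.insert_subset hx hX))
  have h2 := dl_prt hr (Prt.sdiff (Finset.singleton_subset_iff.2 hx))
  have h3 := dl_prt hr (Prt.sdiff h)
  have e1 : E \ insert x X = E.erase x \ X := by
    ext z; simp only [mem_insert, mem_sdiff, mem_erase]; tauto
  have e2 : E \ {x} = E.erase x := by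
    ext z; simp only [mem_singleton, mem_sdiff, mem_erase]; tauto
  rw [e1, Finset.card_insert_of_notMem hxX] at h1
  rw [e2, Finset.card_singleton] at h2
  have h4 : dl r E {x} ≤ dl r E (insert x X) := (isRank_dl hr E).mm (by grind)
  unfold ctr
  omega

lemma HasU.conv_del {r : Finset α → ℕ} (hr : IsRank r) {E : Finset α} {x : α} (hx : x ∈ E)
    {k n : ℕ} (hkn : k ≤ n) (h : HasU (ctr r x) (E.erase x) k n) :
    HasU (dl r E) (E.erase x) (n - k) n :=
  (h.dual (isRank_ctr hr x) hkn).congr fun _ hX => (dl_del hr hx hX).symm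

lemma HasU.conv_ctr {r : Finset α → ℕ} (hr : IsRank r) {E : Finset α} {x : α} (hx : x ∈ E)
    {k n : ℕ} (hkn : k ≤ n) (h : HasU r (E.erase x) k n) :
    HasU (ctr (dl r E) x) (E.erase x) (n - k) n :=
  (h.dual hr hkn).congr fun _ hX => (dl_ctr hr hx hX).symm

lemma HasU.of_conv_del {r : Finset α → ℕ} (hr : IsRank r) {E : Finset α} {x : α} (hx : x ∈ E)
    {k n : ℕ} (hkn : k ≤ n) (h : HasU (dl r E) (E.erase x) k n) :
    HasU (ctr r x) (E.erase x) (n - k) n := by
  have h1 : HasU (dl (ctr r x) (E.erase x)) (E.erase x) k n :=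
    h.congr fun _ hX => dl_del hr hx hX
  exact (h1.dual (isRank_dl (isRank_ctr hr x) _) hkn).congr
    fun _ hX => dl_dl (isRank_ctr hr x) hX

lemma HasU.of_conv_ctr {r : Finset α → ℕ} (hr : IsRank r) {E : Finset α} {x : α} (hx : x ∈ E)
    {k n : ℕ} (hkn : k ≤ n) (h : HasU (ctr (dl r E) x) (E.erase x) k n) :
    HasU r (E.erase x) (n - k) n := by
  have h1 : HasU (dl r (E.erase x)) (E.erase x) k n := h.congr fun _ hX => dl_ctr hr hx hX
  exact (h1.dual (isRank_dl hr _) hkn).congr fun _ hX => dl_dl hr hX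

/-- Every 3-connected matroid with a uniform minor that is larger than the minor has an element
that can be removed up to simplification. -/
theorem removable {r : Finset α → ℕ} (hr : IsRank r) {E : Finset α} {k n : ℕ}
    (h : TC r E) (hk : 2 ≤ k) (hn : k + 2 ≤ n) (hU : HasU r E k n) (hlt : n < E.card) :
    ∃ x ∈ E, (SI r E x ∧ HasU (ctr r x) (E.erase x) k n) ∨ (CO r E x ∧ HasU r (E.erase x) k n) := by
  obtain ⟨T, S, hT, hS, hd, hc, hrk⟩ := hU
  have hex : ∃ e ∈ E, e ∉ S := by
    by_contra hh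
    push Not at hh
    have := Finset.card_le_card hh
    omega
  obtain ⟨e, he, heS⟩ := hex
  by_cases heT : e ∈ T
  · have h1 : HasU (ctr r e) (E.erase e) k n := hasU_ctr_of hr heT hT hS hd hc hrk
    have h2 := h1.conv_del hr he (by omega)
    obtain ⟨x, hx, hx'⟩ := removable_del (isRank_dl hr E) (h.dual hr) he (by omega) (by omega) h2
    refine ⟨x, hx, ?_⟩
    have e1 : n - (n - k) = k := by omega
    rcases hx' with ⟨h3, h4⟩ | ⟨h3, h4⟩
    · right
      have h5 := h4.of_conv_ctr hr hx (by omega)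
      rw [e1] at h5
      exact ⟨CO.of_dual hr hx h3, h5⟩
    · left
      have h5 := h4.of_conv_del hr hx (by omega)
      rw [e1] at h5
      exact ⟨SI.of_dual hr hx h3, h5⟩
  · refine removable_del hr h he hk hn ⟨T, S, ?_, ?_, hd, hc, hrk⟩
    · intro z hz; exact Finset.mem_erase.2 ⟨fun hh => heT (hh ▸ hz), hT hz⟩
    · intro z hz; exact Finset.mem_erase.2 ⟨fun hh => heS (hh ▸ hz), hS hz⟩

end Pool.Agent.K3h89.QU
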