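import Mathlib
import Pool.Agent.K3h89.QU.Dual

/-!
# Chain groups over a division ring: frames, ranks, minors

A frame of a left subspace `C` of `α → K` is a set `B` of coordinates with vectors `F b` of `C`
dual to `B` such that a vector of `C` vanishing on `B` is zero.
-/

set_option autoImplicit false
set_option linter.unusedSectionVars false
set_option linter.unusedSimpArgs false

namespace Pool.Agent.K3h89.QU

open Finset

variable {α : Type*} [DecidableEq α] {K : Type*} [DivisionRing K]

/-- Chains that vanish on `X`. -/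
def Zr (K : Type*) [DivisionRing K] (X : Finset α) : Submodule K (α → K) where
  carrier := {c | ∀ e ∈ X, c e = 0}
  add_mem' := fun {a b} ha hb e he => by simp [ha e he, hb e he]
  zero_mem' := fun e _ => rfl
  smul_mem' := fun k c hc e he => by simp [hc e he]

@[simp] lemma mem_Zr {X : Finset α} {c : α → K} : c ∈ Zr K X ↔ ∀ e ∈ X, c e = 0 := Iff.rfl

lemma Zr_union (X Y : Finset α) : Zr K (X ∪ Y) = Zr K X ⊓ Zr K Y := by
  ext c
  simp only [mem_Zr, Submodule.mem_inf, mem_union]
  grind

/-- Restriction of chains to `S`. -/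
def res (K : Type*) [DivisionRing K] (S : Finset α) : (α → K) →ₗ[K] (α → K) where
  toFun := fun c e => if e ∈ S then c e else 0
  map_add' := fun a b => by ext e; by_cases h : e ∈ S <;> simp [h]
  map_smul' := fun k c => by ext e; by_cases h : e ∈ S <;> simp [h]

lemma res_apply (S : Finset α) (c : α → K) (e : α) :
    res K S c e = if e ∈ S then c e else 0 := rfl

/-- A frame: a basis `B` of the matroid with its standard vectors. -/
structure Frame (C : Submodule K (α → K)) (B : Finset α) (F : α → α → K) : Prop where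
  mem : ∀ b ∈ B, F b ∈ C
  diag : ∀ b ∈ B, F b b = 1
  off : ∀ b ∈ B, ∀ b' ∈ B, b' ≠ b → F b b' = 0
  inj : ∀ c ∈ C, (∀ b ∈ B, c b = 0) → c = 0

namespace Frame

variable {C : Submodule K (α → K)} {B : Finset α} {F : α → α → K}

lemma sum_mem (h : Frame C B F) (t : α → K) : ∑ b ∈ B, t b • F b ∈ C :=
  Submodule.sum_mem _ fun b hb => C.smul_mem _ (h.mem b hb)

lemma sum_app (h : Frame C B F) (t : α → K) {b : α} (hb : b ∈ B) :
    (∑ b' ∈ B, t b' • F b') b = t b := by
  rw [Finset.sum_apply, Finset.sum_eq_single b]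
  · simp [h.diag b hb]
  · intro b' hb' hne
    simp [h.off b' hb' b hb (Ne.symm hne)]
  · intro hh; exact absurd hb hh

lemma span (h : Frame C B F) {c : α → K} (hc : c ∈ C) : c = ∑ b ∈ B, c b • F b := by
  have h1 := h.inj (c - ∑ b ∈ B, c b • F b) (C.sub_mem hc (h.sum_mem _)) fun b hb => by
    rw [Pi.sub_apply, h.sum_app _ hb, sub_self]
  exact sub_eq_zero.1 h1

lemma span_app (h : Frame C B F) {c : α → K} (hc : c ∈ C) (e : α) :
    c e = ∑ b ∈ B, c b * F b e := by
  conv_lhs => rw [h.span hc]
  simp

/-- Vectors of a frame are determined by the set. -/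
lemma uniq (h : Frame C B F) {c : α → K} (hc : c ∈ C) {b : α} (hb : b ∈ B) (h1 : c b = 1)
    (h0 : ∀ b' ∈ B, b' ≠ b → c b' = 0) : c = F b := by
  have := h.inj (c - F b) (C.sub_mem hc (h.mem b hb)) fun b' hb' => by
    by_cases hbb : b' = b
    · subst hbb; simp [h1, h.diag b' hb]
    · simp [h0 b' hb' hbb, h.off b hb b' hb' hbb]
  exact sub_eq_zero.1 this

lemma uniq' (h : Frame C B F) {F' : α → α → K} (h' : Frame C B F') {b : α} (hb : b ∈ B) :
    F' b = F b :=
  h.uniq (h'.mem b hb) hb (h'.diag b hb) (fun b' hb' hne => h'.off b hb b' hb' hne)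

/-- The coordinate isomorphism. -/
noncomputable def equiv (h : Frame C B F) : C ≃ₗ[K] (B → K) :=
  LinearEquiv.ofBijective
    ({ toFun := fun c b => c.1 b
       map_add' := fun _ _ => rfl
       map_smul' := fun _ _ => rfl } : C →ₗ[K] (B → K)) (by
    constructor
    · rw [← LinearMap.ker_eq_bot, LinearMap.ker_eq_bot']
      intro c hc
      apply Subtype.ext
      exact h.inj c.1 c.2 fun b hb => congrFun hc ⟨b, hb⟩
    · intro t
      refine ⟨⟨∑ b ∈ B, (if hb : b ∈ B then t ⟨b, hb⟩ else 0) • F b, h.sum_mem _⟩, ?_⟩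
      funext b
      simp only [LinearMap.coe_mk, AddHom.coe_mk]
      rw [h.sum_app _ b.2]; simp)

lemma card (h : Frame C B F) : Module.finrank K C = B.card := by
  rw [h.equiv.finrank_eq, Module.finrank_pi]; simp

lemma congr (h : Frame C B F) {F' : α → α → K} (he : ∀ b ∈ B, F' b = F b) : Frame C B F' where
  mem := fun b hb => by rw [he b hb]; exact h.mem b hb
  diag := fun b hb => by rw [he b hb]; exact h.diag b hb
  off := fun b hb b' hb' hne => by rw [he b hb]; exact h.off b hb b' hb' hne
  inj := h.inj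

/-- The vectors after an exchange. -/
def ex (F : α → α → K) (b e : α) : α → α → K := fun z =>
  if z = e then (F b e)⁻¹ • F b else F z - (F z e * (F b e)⁻¹) • F b

lemma ex_self (F : α → α → K) (b e f : α) : ex F b e e f = (F b e)⁻¹ * F b f := by
  simp [ex]

lemma ex_ne (F : α → α → K) (b e f : α) {z : α} (hz : z ≠ e) :
    ex F b e z f = F z f - F z e * (F b e)⁻¹ * F b f := by
  simp [ex, hz]

lemma exchange (h : Frame C B F) {b e : α} (hb : b ∈ B) (he : e ∉ B) (hbe : F b e ≠ 0) :
    Frame C (insert e (B.erase b)) (ex F b e) where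
  mem := fun z hz => by
    unfold ex
    split_ifs with h1
    · exact C.smul_mem _ (h.mem b hb)
    · have hz' : z ∈ B := by grind
      exact C.sub_mem (h.mem z hz') (C.smul_mem _ (h.mem b hb))
  diag := fun z hz => by
    by_cases h1 : z = e
    · subst h1; rw [ex_self]; exact inv_mul_cancel₀ hbe
    · have hz' : z ∈ B ∧ z ≠ b := by grind
      rw [ex_ne _ _ _ _ h1, h.diag z hz'.1, h.off b hb z hz'.1 hz'.2]; simp
  off := fun z hz z' hz' hne => by
    by_cases h1 : z = e
    · subst h1
      have hz2 : z' ∈ B ∧ z' ≠ b := by grind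
      rw [ex_self, h.off b hb z' hz2.1 hz2.2]; simp
    · have hz2 : z ∈ B ∧ z ≠ b := by grind
      rw [ex_ne _ _ _ _ h1]
      by_cases h2 : z' = e
      · subst h2; rw [mul_assoc, inv_mul_cancel₀ hbe]; simp
      · have hz3 : z' ∈ B ∧ z' ≠ b := by grind
        rw [h.off z hz2.1 z' hz3.1 hne, h.off b hb z' hz3.1 hz3.2]; simp
  inj := fun c hc h0 => by
    have h1 : c b = 0 := by
      have h2 := h.span_app hc e
      rw [h0 e (by simp), Finset.sum_eq_single b] at h2
      · rcases mul_eq_zero.1 h2.symm with h3 | h3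
        · exact h3
        · exact absurd h3 hbe
      · intro b' hb' hne
        rw [h0 b' (by simp [hb', hne]), zero_mul]
      · intro hh; exact absurd hb hh
    exact h.inj c hc fun b' hb' => by
      by_cases h3 : b' = b
      · rw [h3]; exact h1
      · exact h0 b' (by simp [hb', h3])

/-- If `B'` is another frame, we can exchange towards it. -/
lemma exists_ex (h : Frame C B F) {B' : Finset α} {F' : α → α → K} (h' : Frame C B' F')
    {b : α} (hb : b ∈ B) (hb' : b ∉ B') : ∃ e ∈ B', e ∉ B ∧ F b e ≠ 0 := by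
  by_contra hcon
  push Not at hcon
  have h1 := h'.inj (F b) (h.mem b hb) fun e he => by
    by_cases heB : e ∈ B
    · exact h.off b hb e heB (fun hh => hb' (hh ▸ he))
    · exact hcon e he heB
  have h2 := h.diag b hb
  rw [h1] at h2; simp at h2

/-- Induction along exchanges. -/
theorem induct (P : Finset α → Prop)
    (hP : ∀ B F b e, Frame C B F → P B → b ∈ B → e ∉ B → F b e ≠ 0 →
      P (insert e (B.erase b)))
    {B B' : Finset α} {F F' : α → α → K} (h : Frame C B F) (h' : Frame C B' F') (h0 : P B) :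
    P B' := by
  induction hn : (B \ B').card generalizing B F with
  | zero =>
    have h1 : B ⊆ B' := by
      rw [Finset.card_eq_zero, Finset.sdiff_eq_empty_iff_subset] at hn; exact hn
    have h2 : B = B' := Finset.eq_of_subset_of_card_le h1 (by rw [← h.card, ← h'.card])
    rw [← h2]; exact h0
  | succ n ih =>
    obtain ⟨b, hb⟩ : (B \ B').Nonempty := by rw [← Finset.card_pos]; omega
    rw [mem_sdiff] at hb
    obtain ⟨e, he, heB, hbe⟩ := h.exists_ex h' hb.1 hb.2
    refine ih (h.exchange hb.1 heB hbe) (hP B F b e h h0 hb.1 heB hbe) ?_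
    have h3 : insert e (B.erase b) \ B' = (B \ B').erase b := by grind
    rw [h3, Finset.card_erase_of_mem (by simp [hb]), hn]; rfl

end Frame

/-- A partial frame. -/
structure Pre (C : Submodule K (α → K)) (B : Finset α) (F : α → α → K) : Prop where
  mem : ∀ b ∈ B, F b ∈ C
  diag : ∀ b ∈ B, F b b = 1
  off : ∀ b ∈ B, ∀ b' ∈ B, b' ≠ b → F b b' = 0

lemma Pre.extend {C : Submodule K (α → K)} {B : Finset α} {F : α → α → K} (h : Pre C B F)
    {c : α → K} (hc : c ∈ C) (h0 : ∀ b ∈ B, c b = 0) {e : α} (he : c e ≠ 0) :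
    ∃ F', Pre C (insert e B) F' := by
  have heB : e ∉ B := fun hh => he (h0 e hh)
  refine ⟨fun z => if z = e then (c e)⁻¹ • c else F z - (F z e * (c e)⁻¹) • c, ?_, ?_, ?_⟩
  · intro z hz
    split_ifs with h1
    · exact C.smul_mem _ hc
    · exact C.sub_mem (h.mem z (by grind)) (C.smul_mem _ hc)
  · intro z hz
    split_ifs with h1
    · subst h1; simp [he]
    · have hz' : z ∈ B := by grind
      simp [h.diag z hz', h0 z hz']
  · intro z hz z' hz' hne
    split_ifs with h1
    · have hz2 : z' ∈ B := by grind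
      simp [h0 z' hz2]
    · have hz2 : z ∈ B := by grind
      by_cases h2 : z' = e
      · subst h2; simp [he]
      · have hz3 : z' ∈ B := by grind
        simp [h0 z' hz3, h.off z hz2 z' hz3 hne]

lemma Pre.maximal (C : Submodule K (α → K)) {B : Finset α} {F : α → α → K} (h : Pre C B F)
    (X : Finset α) (hB : B ⊆ X) :
    ∃ B' F', B ⊆ B' ∧ B' ⊆ X ∧ Pre C B' F' ∧ ∀ c ∈ C, (∀ b ∈ B', c b = 0) → ∀ e ∈ X, c e = 0 := by
  induction hn : (X \ B).card using Nat.strong_induction_on generalizing B F with
  | _ n ih =>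
    by_cases hcon : ∀ c ∈ C, (∀ b ∈ B, c b = 0) → ∀ e ∈ X, c e = 0
    · exact ⟨B, F, subset_rfl, hB, h, hcon⟩
    · push Not at hcon
      obtain ⟨c, hc, h0, e, he, hce⟩ := hcon
      have heB : e ∉ B := fun hh => hce (h0 e hh)
      obtain ⟨F', hF'⟩ := h.extend hc h0 hce
      have h3 : X \ insert e B = (X \ B).erase e := by grind
      have h4 : (X \ B).card ≠ 0 := by
        rw [Finset.card_ne_zero]; exact ⟨e, by simp [he, heB]⟩
      obtain ⟨B', F'', h5, h6, h7, h8⟩ := ih (X \ insert e B).card
        (by rw [h3, Finset.card_erase_of_mem (by simp [he, heB])]; omega) hF'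
        (by grind) rfl
      exact ⟨B', F'', (Finset.subset_insert _ _).trans h5, h6, h7, h8⟩

/-- A frame adapted to the set `X`. -/
theorem exists_frame [Fintype α] (C : Submodule K (α → K)) (X : Finset α) :
    ∃ B F, Frame C B F ∧ ∀ b ∈ B, b ∉ X → ∀ e ∈ X, F b e = 0 := by
  obtain ⟨B1, F1, -, hB1, h1, h1'⟩ := Pre.maximal C (B := ∅) (F := fun _ _ => 0)
    ⟨by simp, by simp, by simp⟩ X (by simp)
  obtain ⟨B, F, hB, -, h2, h2'⟩ := Pre.maximal C h1 Finset.univ (by simp)
  have hF : Frame C B F := ⟨h2.mem, h2.diag, h2.off, fun c hc h0 =>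
    funext fun e => h2' c hc h0 e (mem_univ e)⟩
  refine ⟨B, F, hF, fun b hb hbX e he => ?_⟩
  refine h1' (F b) (h2.mem b hb) (fun b' hb' => ?_) e he
  exact h2.off b hb b' (hB hb') (fun hh => hbX (hh ▸ hB1 hb'))

/-- The rank function of a chain group. -/
noncomputable def rk (C : Submodule K (α → K)) (X : Finset α) : ℕ :=
  Module.finrank K C - Module.finrank K (C ⊓ Zr K X : Submodule K (α → K))

lemma Frame.inf {C : Submodule K (α → K)} {B X : Finset α} {F : α → α → K} (h : Frame C B F)
    (hX : ∀ b ∈ B, b ∉ X → ∀ e ∈ X, F b e = 0) : Frame (C ⊓ Zr K X) (B \ X) F where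
  mem := fun b hb => by
    rw [mem_sdiff] at hb
    exact ⟨h.mem b hb.1, fun e he => hX b hb.1 hb.2 e he⟩
  diag := fun b hb => h.diag b (mem_sdiff.1 hb).1
  off := fun b hb b' hb' hne => h.off b (mem_sdiff.1 hb).1 b' (mem_sdiff.1 hb').1 hne
  inj := fun c hc h0 => h.inj c hc.1 fun b hb => by
    by_cases hbX : b ∈ X
    · exact hc.2 b hbX
    · exact h0 b (by simp [hb, hbX])

lemma Frame.rk_eq {C : Submodule K (α → K)} {B X : Finset α} {F : α → α → K} (h : Frame C B F)
    (hX : ∀ b ∈ B, b ∉ X → ∀ e ∈ X, F b e = 0) : rk C X = (B ∩ X).card := by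
  unfold rk
  rw [h.card, (h.inf hX).card]
  have := Finset.card_inter_add_card_sdiff B X
  omega

variable [Fintype α]

lemma finrank_inf (C : Submodule K (α → K)) (X : Finset α) :
    rk C X + Module.finrank K (C ⊓ Zr K X : Submodule K (α → K)) = Module.finrank K C := by
  have := Submodule.finrank_mono (inf_le_left : C ⊓ Zr K X ≤ C)
  unfold rk; omega

lemma isRank_rk (C : Submodule K (α → K)) : IsRank (rk C) where
  empty := by
    have : Zr K (∅ : Finset α) = ⊤ := by ext c; simp
    unfold rk
    rw [this, inf_top_eq]; exact Nat.sub_self _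
  mono := fun {X Y} h => by
    have h1 := finrank_inf C X
    have h2 := finrank_inf C Y
    have h3 : C ⊓ Zr K Y ≤ C ⊓ Zr K X := by
      intro c hc; exact ⟨hc.1, fun e he => hc.2 e (h he)⟩
    have := Submodule.finrank_mono h3
    omega
  sub := fun X Y => by
    have h1 := finrank_inf C X
    have h2 := finrank_inf C Y
    have h3 := finrank_inf C (X ∪ Y)
    have h4 := finrank_inf C (X ∩ Y)
    have h5 := Submodule.finrank_sup_add_finrank_inf_eq (C ⊓ Zr K X) (C ⊓ Zr K Y)
    have h6 : (C ⊓ Zr K X) ⊓ (C ⊓ Zr K Y) = C ⊓ Zr K (X ∪ Y) := by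
      rw [Zr_union]; ext c; simp only [Submodule.mem_inf]; tauto
    have h7 : (C ⊓ Zr K X) ⊔ (C ⊓ Zr K Y) ≤ C ⊓ Zr K (X ∩ Y) := by
      refine sup_le ?_ ?_
      · intro c hc; exact ⟨hc.1, fun e he => hc.2 e (mem_inter.1 he).1⟩
      · intro c hc; exact ⟨hc.1, fun e he => hc.2 e (mem_inter.1 he).2⟩
    have h8 := Submodule.finrank_mono h7
    rw [h6] at h5
    omega
  one := fun e X => by
    obtain ⟨B, F, hF, hX⟩ := exists_frame C X
    have h1 := finrank_inf C X
    have h2 := finrank_inf C (insert e X)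
    have h3 : Module.finrank K (C ⊓ Zr K X : Submodule K (α → K)) ≤
        Module.finrank K (C ⊓ Zr K (insert e X) : Submodule K (α → K)) + 1 := by
      set D := C ⊓ Zr K X with hD
      obtain ⟨B', F', hF', hX'⟩ := exists_frame D {e}
      have h4 := (hF'.inf hX').card
      have h5 := hF'.card
      have h6 : D ⊓ Zr K {e} = C ⊓ Zr K (insert e X) := by
        ext c; simp only [hD, Submodule.mem_inf, mem_Zr, mem_singleton, mem_insert]; grind
      rw [h6] at h4
      have h7 := Finset.card_inter_add_card_sdiff B' {e}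
      have h8 : (B' ∩ {e}).card ≤ 1 := (Finset.card_le_card Finset.inter_subset_right).trans
        (by simp)
      omega
    omega

/-- The chains live on `E`. -/
def Supp (C : Submodule K (α → K)) (E : Finset α) : Prop := ∀ c ∈ C, ∀ e, e ∉ E → c e = 0

variable {C : Submodule K (α → K)} {E : Finset α}

lemma Supp.sub (hS : Supp C E) {B : Finset α} {F : α → α → K} (h : Frame C B F) : B ⊆ E := by
  intro b hb
  by_contra hbE
  have := h.diag b hb
  rw [hS (F b) (h.mem b hb) b hbE] at this
  simp at this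

lemma Supp.rk_full (hS : Supp C E) : rk C E = Module.finrank K C := by
  have h1 := finrank_inf C E
  have h2 : C ⊓ Zr K E = ⊥ := by
    rw [eq_bot_iff]
    intro c hc
    rw [Submodule.mem_bot]
    funext e
    by_cases he : e ∈ E
    · exact hc.2 e he
    · exact hS c hc.1 e he
  rw [h2, finrank_bot] at h1
  omega

lemma Supp.card (hS : Supp C E) {B : Finset α} {F : α → α → K} (h : Frame C B F) :
    B.card = rk C E := by rw [hS.rk_full, h.card]

/-- A frame inside a spanning set. -/
lemma exists_frame_sub (hS : Supp C E) {X : Finset α} (hX : rk C E ≤ rk C X) :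
    ∃ B F, Frame C B F ∧ B ⊆ X := by
  obtain ⟨B, F, hF, h⟩ := exists_frame C X
  refine ⟨B, F, hF, ?_⟩
  have h1 := hF.rk_eq h
  have h2 := hS.card hF
  have h3 : B ∩ X = B := Finset.eq_of_subset_of_card_le Finset.inter_subset_left (by omega)
  rw [← h3]; exact Finset.inter_subset_right

/-- A frame containing an independent set. -/
lemma exists_frame_sup (C : Submodule K (α → K)) {X : Finset α} (hX : X.card ≤ rk C X) :
    ∃ B F, Frame C B F ∧ X ⊆ B := by
  obtain ⟨B, F, hF, h⟩ := exists_frame C X
  refine ⟨B, F, hF, ?_⟩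
  have h1 := hF.rk_eq h
  have h3 : B ∩ X = X := Finset.eq_of_subset_of_card_le Finset.inter_subset_right (by omega)
  rw [← h3]; exact Finset.inter_subset_left

/-- A basis is a frame. -/
lemma exists_frame_eq (hS : Supp C E) {X : Finset α} (h1 : rk C E ≤ rk C X)
    (h2 : X.card ≤ rk C E) : ∃ F, Frame C X F := by
  obtain ⟨B, F, hF, h⟩ := exists_frame_sub hS h1
  have h3 := hS.card hF
  have : B = X := Finset.eq_of_subset_of_card_le h (by omega)
  exact ⟨F, this ▸ hF⟩

lemma rk_inf (C : Submodule K (α → K)) (T X : Finset α) :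
    rk (C ⊓ Zr K T) X + rk C T = rk C (X ∪ T) := by
  have h1 := finrank_inf C T
  have h2 := finrank_inf (C ⊓ Zr K T) X
  have h3 := finrank_inf C (X ∪ T)
  have h4 : C ⊓ Zr K T ⊓ Zr K X = C ⊓ Zr K (X ∪ T) := by
    rw [Zr_union]; ext c; simp only [Submodule.mem_inf]; tauto
  rw [h4] at h2
  omega

lemma rk_ctr (C : Submodule K (α → K)) (x : α) (X : Finset α) :
    rk (C ⊓ Zr K {x}) X = ctr (rk C) x X := by
  have := rk_inf C {x} X
  unfold ctr
  have h2 : insert x X = X ∪ {x} := by grind
  rw [h2]; omega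

lemma Supp.inf (hS : Supp C E) (T : Finset α) : Supp (C ⊓ Zr K T) (E \ T) := by
  intro c hc e he
  by_cases h : e ∈ E
  · exact hc.2 e (by simp only [mem_sdiff] at he; tauto)
  · exact hS c hc.1 e h

lemma Supp.inf' (hS : Supp C E) (x : α) : Supp (C ⊓ Zr K {x}) (E.erase x) := by
  intro c hc e he
  by_cases h : e ∈ E
  · exact hc.2 e (by simp only [mem_erase] at he; simp only [mem_singleton]; tauto)
  · exact hS c hc.1 e h

lemma supp_res (C : Submodule K (α → K)) (S : Finset α) : Supp (C.map (res K S)) S := by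
  rintro c ⟨c', hc', rfl⟩ e he
  simp [res_apply, he]

lemma rk_add_map (C : Submodule K (α → K)) (X : Finset α) :
    Module.finrank K (C.map (res K X)) = rk C X := by
  have h1 := finrank_inf C X
  have h2 := (res K X).domRestrict C |>.finrank_range_add_finrank_ker
  have h3 : LinearMap.range ((res K X).domRestrict C) = C.map (res K X) := by
    ext c; simp [LinearMap.mem_range]
  have h4 : Module.finrank K (LinearMap.ker ((res K X).domRestrict C)) =
      Module.finrank K (C ⊓ Zr K X : Submodule K (α → K)) := by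
    have h5 : (LinearMap.ker ((res K X).domRestrict C)).map C.subtype = C ⊓ Zr K X := by
      ext c
      simp only [Submodule.mem_map, LinearMap.mem_ker, Submodule.mem_inf, mem_Zr]
      constructor
      · rintro ⟨c', hc', rfl⟩
        refine ⟨c'.2, fun e he => ?_⟩
        have := congrFun hc' e
        simpa [LinearMap.domRestrict_apply, res_apply, he] using this
      · rintro ⟨hc, h0⟩
        refine ⟨⟨c, hc⟩, ?_, rfl⟩
        funext e
        simp only [LinearMap.domRestrict_apply, res_apply, Pi.zero_apply]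
        split_ifs with h6
        · exact h0 e h6
        · rfl
    rw [← h5]
    exact (LinearEquiv.finrank_eq
      (Submodule.equivMapOfInjective C.subtype C.injective_subtype _))
  rw [h3, h4] at h2
  omega

lemma rk_res (C : Submodule K (α → K)) {S X : Finset α} (h : X ⊆ S) :
    rk (C.map (res K S)) X = rk C X := by
  rw [← rk_add_map, ← rk_add_map, ← Submodule.map_comp]
  have h1 : (res K X).comp (res K S) = res K X := by
    refine LinearMap.ext fun c => funext fun e => ?_
    simp only [LinearMap.comp_apply, res_apply]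
    have := @h e
    split_ifs <;> tauto
  rw [h1]

end Pool.Agent.K3h89.QU
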