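import Mathlib
import Pool.Agent.K3h89.QU.Chain

/-!
# Duality of chain groups
-/

set_option autoImplicit false
set_option linter.unusedSectionVars false
set_option linter.unusedSimpArgs false

namespace Pool.Agent.K3h89.QU

open Finset

variable {α : Type*} [DecidableEq α] [Fintype α] {K : Type*} [DivisionRing K] [StarRing K]

/-- The orthogonal chain group on `E`. -/
def perp (C : Submodule K (α → K)) (E : Finset α) : Submodule K (α → K) where
  carrier := {x | (∀ e, e ∉ E → x e = 0) ∧ ∀ c ∈ C, ∑ e ∈ E, x e * star (c e) = 0}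
  add_mem' := fun {a b} ha hb => ⟨fun e he => by simp [ha.1 e he, hb.1 e he], fun c hc => by
    simp only [Pi.add_apply, add_mul, Finset.sum_add_distrib]
    rw [ha.2 c hc, hb.2 c hc, add_zero]⟩
  zero_mem' := ⟨fun e _ => rfl, fun c _ => by simp⟩
  smul_mem' := fun k x hx => ⟨fun e he => by simp [hx.1 e he], fun c hc => by
    simp only [Pi.smul_apply, smul_eq_mul, mul_assoc]
    rw [← Finset.mul_sum, hx.2 c hc, mul_zero]⟩

lemma mem_perp {C : Submodule K (α → K)} {E : Finset α} {x : α → K} :
    x ∈ perp C E ↔ (∀ e, e ∉ E → x e = 0) ∧ ∀ c ∈ C, ∑ e ∈ E, x e * star (c e) = 0 := Iff.rfl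

lemma supp_perp (C : Submodule K (α → K)) (E : Finset α) : Supp (perp C E) E :=
  fun _ hc e he => hc.1 e he

/-- Vectors of the dual frame. -/
def pf (F : α → α → K) (B : Finset α) : α → α → K := fun e z =>
  if z = e then 1 else if z ∈ B then - star (F z e) else 0

variable {C : Submodule K (α → K)} {E : Finset α}

lemma Frame.perp (hS : Supp C E) {B : Finset α} {F : α → α → K} (h : Frame C B F) :
    Frame (perp C E) (E \ B) (pf F B) where
  mem := fun e he => by
    have hBE := hS.sub h
    rw [mem_sdiff] at he
    refine ⟨fun z hz => ?_, fun c hc => ?_⟩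
    · have h1 : z ≠ e := fun hh => hz (hh ▸ he.1)
      have h2 : z ∉ B := fun hh => hz (hBE hh)
      simp [pf, h1, h2]
    · rw [← Finset.sum_sdiff hBE, Finset.sum_eq_single e]
      · have h1 : ∑ b ∈ B, pf F B e b * star (c b) = - star (∑ b ∈ B, c b * F b e) := by
          rw [star_sum, ← Finset.sum_neg_distrib]
          refine Finset.sum_congr rfl fun b hb => ?_
          have h2 : b ≠ e := fun hh => he.2 (hh ▸ hb)
          simp [pf, h2, hb]
        rw [h1, ← h.span_app hc e]
        simp [pf]
      · intro z hz hne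
        rw [mem_sdiff] at hz
        simp [pf, hne, hz.2]
      · intro hh; exact absurd (by simp [he]) hh
  diag := fun e he => by simp [pf]
  off := fun e he z hz hne => by
    rw [mem_sdiff] at hz
    simp [pf, hne, hz.2]
  inj := fun x hx h0 => by
    have hBE := hS.sub h
    funext z
    by_cases hzE : z ∈ E
    · by_cases hz : z ∈ B
      · have h1 := hx.2 (F z) (h.mem z hz)
        rw [Finset.sum_eq_single z] at h1
        · rw [h.diag z hz] at h1; simpa using h1
        · intro e he hne
          by_cases heB : e ∈ B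
          · rw [h.off z hz e heB hne]; simp
          · rw [h0 e (by simp [he, heB])]; simp
        · intro hh; exact absurd hzE hh
      · exact h0 z (by simp [hz, hzE])
    · exact hx.1 z hzE

lemma perp_perp (hS : Supp C E) : perp (perp C E) E = C := by
  symm
  apply Submodule.eq_of_le_of_finrank_eq
  · intro c hc
    refine ⟨hS c hc, fun x hx => ?_⟩
    have h1 := congrArg star (hx.2 c hc)
    rw [star_sum] at h1
    simpa using h1
  · obtain ⟨B, F, h, -⟩ := exists_frame C E
    have h1 := h.perp hS
    have h2 := h1.perp (supp_perp C E)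
    rw [h.card, h2.card]
    have h3 : E \ (E \ B) = B := by
      have := hS.sub h
      grind
    rw [h3]

lemma rk_perp (hS : Supp C E) (X : Finset α) : rk (perp C E) X = dl (rk C) E X := by
  obtain ⟨B, F, h, h0⟩ := exists_frame C (E \ X)
  have hBE := hS.sub h
  have h1 := (h.perp hS).rk_eq (X := X) (by
    intro e he heX x hx
    rw [mem_sdiff] at he
    have h2 : x ≠ e := fun hh => heX (hh ▸ hx)
    by_cases h3 : x ∈ B
    · have h4 := h0 x h3 (by simp [hx]) e (by simp [he, heX])
      simp [pf, h2, h3, h4]
    · simp [pf, h2, h3])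
  rw [h1]
  have h2 := h.rk_eq h0
  have h3 := hS.card h
  unfold dl
  rw [h2, ← h3]
  have h4 : ((E \ B) ∩ X).card + (B ∩ X).card = (X ∩ E).card := by
    rw [← Finset.card_union_of_disjoint]
    · congr 1; grind
    · rw [Finset.disjoint_left]; grind
  have h5 : (B ∩ (E \ X)).card + (B ∩ X).card = B.card := by
    rw [← Finset.card_union_of_disjoint]
    · congr 1; grind
    · rw [Finset.disjoint_left]; grind
  omega

lemma perp_del {x : α} (hx : x ∈ E) :
    perp (C.map (res K (E.erase x))) (E.erase x) = perp C E ⊓ Zr K {x} := by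
  ext y
  simp only [Submodule.mem_inf, mem_perp, mem_Zr]
  constructor
  · rintro ⟨h1, h2⟩
    refine ⟨⟨fun e he => h1 e (by simp [he]), fun c hc => ?_⟩, fun e he => ?_⟩
    · have h3 := h2 _ (Submodule.mem_map_of_mem hc)
      rw [← Finset.add_sum_erase E _ hx, h1 x (by simp), zero_mul, zero_add, ← h3]
      refine Finset.sum_congr rfl fun e he => ?_
      rw [res_apply, if_pos he]
    · rw [mem_singleton] at he; subst he; exact h1 e (by simp)
  · rintro ⟨⟨h1, h2⟩, h3⟩
    refine ⟨fun e he => ?_, ?_⟩
    · by_cases h4 : e = x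
      · exact h3 e (by simp [h4])
      · exact h1 e (by simp only [mem_erase] at he; tauto)
    · rintro c ⟨c', hc', rfl⟩
      have h4 := h2 c' hc'
      rw [← Finset.add_sum_erase E _ hx, h3 x (by simp), zero_mul, zero_add] at h4
      rw [← h4]
      refine Finset.sum_congr rfl fun e he => ?_
      rw [res_apply, if_pos he]

lemma perp_ctr (hS : Supp C E) {x : α} (hx : x ∈ E) :
    perp (C ⊓ Zr K {x}) (E.erase x) = (perp C E).map (res K (E.erase x)) := by
  have h1 := perp_del (C := perp C E) hx
  rw [perp_perp hS] at h1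
  rw [← h1, perp_perp (supp_res _ _)]

end Pool.Agent.K3h89.QU
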