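import Mathlib
import Pool.Agent.K3h89.QU.Perp

/-!
# Unitary chain groups and conformity

`QUc C`: all entries of all frames are zero or unitary. `Conf R d C`: after scaling the coordinates
by `d`, all entries of all frames lie in the subring `R`.
-/

set_option autoImplicit false
set_option linter.unusedSectionVars false
set_option linter.unusedSimpArgs false

namespace Pool.Agent.K3h89.QU

open Finset

variable {α : Type*} [DecidableEq α] [Fintype α] {K : Type*} [DivisionRing K] [StarRing K]

/-- All entries of frames are zero or unitary. -/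
def QUc (C : Submodule K (α → K)) : Prop :=
  ∀ B F, Frame C B F → ∀ b ∈ B, ∀ e, F b e = 0 ∨ F b e ∈ unitary K

/-- After scaling by `d` all entries of frames lie in `R`. -/
def Conf (R : Subring K) (d : α → K) (C : Submodule K (α → K)) : Prop :=
  (∀ e, d e ∈ unitary K) ∧
    ∀ B F, Frame C B F → ∀ b ∈ B, ∀ e, star (d b) * F b e * d e ∈ R

/-- The ring is closed under the involution. -/
def StarCl (R : Subring K) : Prop := ∀ x ∈ R, star x ∈ R

lemma un_l {u : K} (h : u ∈ unitary K) : star u * u = 1 := (Unitary.mem_iff.1 h).1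

lemma un_r {u : K} (h : u ∈ unitary K) : u * star u = 1 := (Unitary.mem_iff.1 h).2

lemma un_ne {u : K} (h : u ∈ unitary K) : u ≠ 0 := by
  rintro rfl
  have := un_l h
  simp at this

lemma un_inv {u : K} (h : u ∈ unitary K) : u⁻¹ = star u := by
  have h1 := un_l h
  exact inv_eq_of_mul_eq_one_left h1

lemma un_star {u : K} (h : u ∈ unitary K) : star u ∈ unitary K := by
  rw [Unitary.mem_iff] at *
  simp [h.1, h.2]

lemma un_mul {u v : K} (h : u ∈ unitary K) (h' : v ∈ unitary K) : u * v ∈ unitary K :=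
  mul_mem h h'

lemma un_lc {u : K} (h : u ∈ unitary K) (t : K) : star u * (u * t) = t := by
  rw [← mul_assoc, un_l h, one_mul]

lemma un_rc {u : K} (h : u ∈ unitary K) (t : K) : u * (star u * t) = t := by
  rw [← mul_assoc, un_r h, one_mul]

/-- cancel `d * star d` in the middle -/
lemma un_mid {u : K} (h : u ∈ unitary K) (a b : K) : a * u * (star u * b) = a * b := by
  rw [mul_assoc, ← mul_assoc u, un_r h, one_mul]

lemma un_mid' {u : K} (h : u ∈ unitary K) (a b : K) : a * star u * (u * b) = a * b := by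
  rw [mul_assoc, ← mul_assoc (star u), un_l h, one_mul]

section lifts

variable {C : Submodule K (α → K)} {B S T : Finset α} {F : α → α → K}

/-- Frames of a contraction extend. -/
lemma Frame.lift_inf (h : Frame (C ⊓ Zr K T) B F) :
    ∃ B' F', Frame C B' F' ∧ B ⊆ B' ∧ ∀ b ∈ B, F' b = F b := by
  obtain ⟨B0, F0, h0, had⟩ := exists_frame C T
  have hBT : ∀ b ∈ B, b ∉ T := fun b hb hT => by
    have h1 := (h.mem b hb).2 b hT
    rw [h.diag b hb] at h1; exact one_ne_zero h1
  refine ⟨B ∪ (B0 ∩ T), fun z => if z ∈ B then F z else F0 z - ∑ b ∈ B, F0 z b • F b,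
    ⟨?_, ?_, ?_, ?_⟩, Finset.subset_union_left, fun b hb => by simp [hb]⟩
  · intro z hz
    split_ifs with h1
    · exact (h.mem z h1).1
    · have hz' : z ∈ B0 := by grind
      exact C.sub_mem (h0.mem z hz') (h.sum_mem _).1
  · intro z hz
    split_ifs with h1
    · exact h.diag z h1
    · have hz' : z ∈ B0 ∧ z ∈ T := by grind
      have h2 : (∑ b ∈ B, F0 z b • F b) z = 0 := (h.sum_mem _).2 z hz'.2
      rw [Pi.sub_apply, h2, h0.diag z hz'.1, sub_zero]
  · intro z hz z' hz' hne
    split_ifs with h1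
    · by_cases h2 : z' ∈ B
      · exact h.off z h1 z' h2 hne
      · exact (h.mem z h1).2 z' (by grind)
    · have hz2 : z ∈ B0 ∧ z ∈ T := by grind
      by_cases h2 : z' ∈ B
      · rw [Pi.sub_apply, h.sum_app _ h2, sub_self]
      · have h3 : z' ∈ B0 ∧ z' ∈ T := by grind
        have h4 : (∑ b ∈ B, F0 z b • F b) z' = 0 := (h.sum_mem _).2 z' h3.2
        rw [Pi.sub_apply, h4, h0.off z hz2.1 z' h3.1 hne, sub_zero]
  · intro c hc hz
    have h1 : c ∈ Zr K T := by
      intro e he
      rw [h0.span_app hc e]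
      refine Finset.sum_eq_zero fun b hb => ?_
      by_cases hbT : b ∈ T
      · rw [hz b (by simp [hb, hbT]), zero_mul]
      · rw [had b hb hbT e he, mul_zero]
    exact h.inj c ⟨hc, h1⟩ fun b hb => hz b (by simp [hb])

/-- Frames of a restriction extend. -/
lemma Frame.lift_res (h : Frame (C.map (res K S)) B F) :
    ∃ B' F', Frame C B' F' ∧ B ⊆ B' ∧ ∀ b ∈ B, ∀ e ∈ S, F' b e = F b e := by
  have hBS : B ⊆ S := (supp_res C S).sub h
  have hc : ∀ b, ∃ c : α → K, b ∈ B → c ∈ C ∧ res K S c = F b := by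
    intro b
    by_cases hb : b ∈ B
    · obtain ⟨c, hc, hc'⟩ := h.mem b hb
      exact ⟨c, fun _ => ⟨hc, hc'⟩⟩
    · exact ⟨0, fun h => absurd h hb⟩
  choose c hc using hc
  have hcF : ∀ b ∈ B, ∀ e ∈ S, c b e = F b e := fun b hb e he => by
    rw [← (hc b hb).2, res_apply, if_pos he]
  obtain ⟨B1, F1, h1, -⟩ := exists_frame (C ⊓ Zr K S) S
  have hB1 : ∀ b ∈ B1, b ∉ S := fun b hb hT => by
    have h2 := (h1.mem b hb).2 b hT
    rw [h1.diag b hb] at h2; exact one_ne_zero h2
  refine ⟨B ∪ B1, fun z => if z ∈ B then c z - ∑ b ∈ B1, c z b • F1 b else F1 z,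
    ⟨?_, ?_, ?_, ?_⟩, Finset.subset_union_left, fun b hb e he => ?_⟩
  · intro z hz
    split_ifs with h2
    · exact C.sub_mem (hc z h2).1 (h1.sum_mem _).1
    · exact (h1.mem z (by grind)).1
  · intro z hz
    split_ifs with h2
    · have h3 : (∑ b ∈ B1, c z b • F1 b) z = 0 := (h1.sum_mem _).2 z (hBS h2)
      rw [Pi.sub_apply, h3, hcF z h2 z (hBS h2), h.diag z h2, sub_zero]
    · exact h1.diag z (by grind)
  · intro z hz z' hz' hne
    split_ifs with h2
    · by_cases h3 : z' ∈ B
      · have h4 : (∑ b ∈ B1, c z b • F1 b) z' = 0 := (h1.sum_mem _).2 z' (hBS h3)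
        rw [Pi.sub_apply, h4, hcF z h2 z' (hBS h3), h.off z h2 z' h3 hne, sub_zero]
      · have h4 : z' ∈ B1 := by grind
        rw [Pi.sub_apply, h1.sum_app _ h4, sub_self]
    · have h3 : z ∈ B1 := by grind
      by_cases h4 : z' ∈ B
      · exact (h1.mem z h3).2 z' (hBS h4)
      · exact h1.off z h3 z' (by grind) hne
  · intro x hx hz
    have h2 := h.inj _ (Submodule.mem_map_of_mem hx) fun b hb => by
      rw [res_apply, if_pos (hBS hb)]; exact hz b (by simp [hb])
    refine h1.inj x ⟨hx, fun e he => ?_⟩ fun b hb => hz b (by simp [hb])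
    have h3 := congrFun h2 e
    rw [res_apply, if_pos he] at h3
    exact h3
  · have h3 : (∑ b' ∈ B1, c b b' • F1 b') e = 0 := (h1.sum_mem _).2 e he
    simp only [hb, if_true]
    rw [Pi.sub_apply, h3, hcF b hb e he, sub_zero]

lemma Frame.res (h : Frame C B F) (hB : B ⊆ S) :
    Frame (C.map (res K S)) B (fun b => QU.res K S (F b)) where
  mem := fun b hb => Submodule.mem_map_of_mem (h.mem b hb)
  diag := fun b hb => by rw [res_apply, if_pos (hB hb)]; exact h.diag b hb
  off := fun b hb b' hb' hne => by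
    rw [res_apply, if_pos (hB hb')]; exact h.off b hb b' hb' hne
  inj := by
    rintro c ⟨c', hc', rfl⟩ h0
    rw [h.inj c' hc' fun b hb => by
      have := h0 b hb
      rwa [res_apply, if_pos (hB hb)] at this]
    exact map_zero _

lemma Frame.inf_sub (h : Frame C B F) (hT : T ⊆ B) : Frame (C ⊓ Zr K T) (B \ T) F :=
  h.inf fun b hb hbT e he => h.off b hb e (hT he) (fun hh => hbT (hh ▸ he))

/-- Subsets of frames are independent. -/
lemma Frame.rk_sub (h : Frame C B F) (hT : T ⊆ B) : rk C T = T.card := by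
  rw [h.rk_eq fun b hb hbT e he => h.off b hb e (hT he) (fun hh => hbT (hh ▸ he))]
  congr 1; grind

lemma inf_inf_Zr (C : Submodule K (α → K)) (x y : α) :
    C ⊓ Zr K {x} ⊓ Zr K {y} = C ⊓ Zr K {y} ⊓ Zr K {x} := by
  ext c; simp only [Submodule.mem_inf]; tauto

lemma res_inf (C : Submodule K (α → K)) {S : Finset α} {x : α} (hx : x ∈ S) :
    (C.map (QU.res K S)) ⊓ Zr K {x} = (C ⊓ Zr K {x}).map (QU.res K (S.erase x)) := by
  ext c
  simp only [Submodule.mem_inf, Submodule.mem_map, mem_Zr, mem_singleton]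
  constructor
  · rintro ⟨⟨c', hc', rfl⟩, h0⟩
    have h1 := h0 x rfl
    rw [res_apply, if_pos hx] at h1
    refine ⟨c', ⟨hc', fun e he => he ▸ h1⟩, ?_⟩
    funext e
    rw [res_apply, res_apply]
    by_cases he : e = x
    · subst he; simp [hx, h1]
    · simp [he]
  · rintro ⟨c', ⟨hc', h1⟩, rfl⟩
    have h1 := h1 x rfl
    refine ⟨⟨c', hc', ?_⟩, fun e he => by subst he; simp [res_apply]⟩
    funext e
    rw [res_apply, res_apply]
    by_cases he : e = x
    · subst he; simp [hx, h1]
    · simp [he]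

lemma res_res (C : Submodule K (α → K)) {S S' : Finset α} (h : S' ⊆ S) :
    (C.map (QU.res K S)).map (QU.res K S') = C.map (QU.res K S') := by
  rw [← Submodule.map_comp]
  have h1 : (QU.res K S').comp (QU.res K S) = QU.res K S' := by
    refine LinearMap.ext fun c => funext fun e => ?_
    simp only [LinearMap.comp_apply, res_apply]
    have := @h e
    split_ifs <;> tauto
  rw [h1]

end lifts

section closure

variable {C : Submodule K (α → K)} {E : Finset α} {R : Subring K} {d : α → K}

lemma QUc.inf (h : QUc C) (T : Finset α) : QUc (C ⊓ Zr K T) := by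
  intro B F hF b hb e
  obtain ⟨B', F', h1, h2, h3⟩ := hF.lift_inf
  have := h B' F' h1 b (h2 hb) e
  rwa [h3 b hb] at this

lemma QUc.res (h : QUc C) (S : Finset α) : QUc (C.map (QU.res K S)) := by
  intro B F hF b hb e
  obtain ⟨B', F', h1, h2, h3⟩ := hF.lift_res
  by_cases he : e ∈ S
  · have := h B' F' h1 b (h2 hb) e
    rwa [h3 b hb e he] at this
  · exact Or.inl (supp_res C S (F b) (hF.mem b hb) e he)

lemma perp_frame (hS : Supp C E) {B : Finset α} {F : α → α → K} (h : Frame (perp C E) B F) :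
    ∃ G, Frame C (E \ B) G ∧ ∀ b ∈ B, F b = pf G (E \ B) b := by
  have h1 := h.perp (supp_perp C E)
  rw [perp_perp hS] at h1
  have h2 := h1.perp hS
  have h3 : E \ (E \ B) = B := by
    have := (supp_perp C E).sub h
    grind
  rw [h3] at h2
  exact ⟨_, h1, fun b hb => h2.uniq' h hb⟩

lemma QUc.perp (h : QUc C) (hS : Supp C E) : QUc (perp C E) := by
  intro B F hF b hb e
  obtain ⟨G, h1, h2⟩ := perp_frame hS hF
  rw [h2 b hb]
  unfold pf
  split_ifs with h3 h4
  · right; exact one_mem _
  · rcases h _ G h1 e h4 b with h5 | h5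
    · left; rw [h5]; simp
    · right
      have h6 := un_star h5
      rw [Unitary.mem_iff] at *
      simpa using h6
  · left; rfl

lemma Conf.inf (h : Conf R d C) (T : Finset α) : Conf R d (C ⊓ Zr K T) := by
  refine ⟨h.1, fun B F hF b hb e => ?_⟩
  obtain ⟨B', F', h1, h2, h3⟩ := hF.lift_inf
  have := h.2 B' F' h1 b (h2 hb) e
  rwa [h3 b hb] at this

lemma Conf.res (h : Conf R d C) (S : Finset α) : Conf R d (C.map (QU.res K S)) := by
  refine ⟨h.1, fun B F hF b hb e => ?_⟩
  obtain ⟨B', F', h1, h2, h3⟩ := hF.lift_res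
  by_cases he : e ∈ S
  · have := h.2 B' F' h1 b (h2 hb) e
    rwa [h3 b hb e he] at this
  · rw [supp_res C S (F b) (hF.mem b hb) e he]; simp

lemma Conf.perp (h : Conf R d C) (hS : Supp C E) (hR : StarCl R) : Conf R d (perp C E) := by
  refine ⟨h.1, fun B F hF b hb e => ?_⟩
  obtain ⟨G, h1, h2⟩ := perp_frame hS hF
  rw [h2 b hb]
  unfold pf
  split_ifs with h3 h4
  · subst h3; rw [mul_one, un_l (h.1 _)]; exact R.one_mem
  · have h5 := R.neg_mem (hR _ (h.2 _ G h1 e h4 b))
    simpa [mul_assoc] using h5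
  · simp

lemma Conf.of_perp (h : Conf R d (QU.perp C E)) (hS : Supp C E) (hR : StarCl R) :
    Conf R d C := by
  have h1 := h.perp (supp_perp C E) hR
  rwa [perp_perp hS] at h1

/-- One frame suffices. -/
theorem Conf.of_frame (hQ : QUc C) (hR : StarCl R) (hd : ∀ e, d e ∈ unitary K)
    {B : Finset α} {F : α → α → K} (hF : Frame C B F)
    (h : ∀ b ∈ B, ∀ e, star (d b) * F b e * d e ∈ R) : Conf R d C := by
  refine ⟨hd, fun B' F' hF' => ?_⟩
  have key := Frame.induct (C := C) (fun B => ∀ F, Frame C B F → ∀ b ∈ B, ∀ e,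
    star (d b) * F b e * d e ∈ R) ?_ hF hF' ?_
  · exact key F' hF'
  · intro B F b0 e0 hF hP hb0 he0 hne F' hF' b hb e
    have h1 := hF.exchange hb0 he0 hne
    rw [h1.uniq' hF' hb]
    have hU : F b0 e0 ∈ unitary K := by
      rcases hQ B F hF b0 hb0 e0 with h2 | h2
      · exact absurd h2 hne
      · exact h2
    have hP' := hP F hF
    by_cases hbe : b = e0
    · subst hbe
      rw [Frame.ex_self, un_inv hU]
      have h2 := R.mul_mem (hR _ (hP' b0 hb0 b)) (hP' b0 hb0 e)
      have h3 : star (star (d b0) * F b0 b * d b) * (star (d b0) * F b0 e * d e) =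
          star (d b) * (star (F b0 b) * F b0 e) * d e := by
        simp only [star_mul, star_star]
        have := un_mid (hd b0) (star (d b) * star (F b0 b)) (F b0 e * d e)
        simp only [mul_assoc] at this ⊢
        exact this
      rwa [h3] at h2
    · have hbB : b ∈ B := by grind
      rw [Frame.ex_ne _ _ _ _ hbe, un_inv hU]
      have h2 := R.sub_mem (hP' b hbB e) (R.mul_mem (R.mul_mem (hP' b hbB e0)
        (hR _ (hP' b0 hb0 e0))) (hP' b0 hb0 e))
      have h3 : star (d b) * F b e * d e - star (d b) * F b e0 * d e0 *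
          star (star (d b0) * F b0 e0 * d e0) * (star (d b0) * F b0 e * d e) =
          star (d b) * (F b e - F b e0 * star (F b0 e0) * F b0 e) * d e := by
        simp only [star_mul, star_star]
        have e1 := un_mid (hd e0) (star (d b) * F b e0) (star (F b0 e0) * d b0)
        have e2 := un_mid (hd b0) (star (d b) * F b e0 * star (F b0 e0)) (F b0 e * d e)
        rw [mul_sub, sub_mul]
        congr 1
        simp only [mul_assoc] at e1 e2 ⊢
        rw [← e2]
        simp only [← mul_assoc]
        simp only [← mul_assoc] at e1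
        rw [e1]
      rwa [h3] at h2
  · intro F' hF' b hb e
    rw [hF.uniq' hF' hb]
    exact h b hb e

end closure

end Pool.Agent.K3h89.QU
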