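import Pool.Agent.K3h89.QU.Lines

/-!
# Lifting removable elements
-/

set_option autoImplicit false
set_option linter.unusedSectionVars false

namespace Pool.Agent.K3h89.QU

open Finset

variable {α : Type*} [DecidableEq α] {r : Finset α → ℕ} {E : Finset α}

lemma hasU_of_ctr (hr : IsRank r) {x : α} (hx : x ∈ E) {k n : ℕ}
    (h : HasU (ctr r x) (E.erase x) k n) : HasU r E k n := by
  obtain ⟨T, S, hT, hS, hd, hc, hrk⟩ := h
  have hxS : x ∉ S := fun hh => by have := hS hh; simp at this
  refine ⟨insert x T, S, ?_, hS.trans (Finset.erase_subset _ _), ?_, hc, fun Z hZ => ?_⟩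
  · intro z hz; simp only [mem_insert] at hz
    rcases hz with rfl | hz
    · exact hx
    · exact Finset.erase_subset _ _ (hT hz)
  · rw [Finset.disjoint_left] at *
    intro z hz; simp only [mem_insert] at hz
    rcases hz with rfl | hz
    · exact hxS
    · exact hd hz
  · have h1 := hrk Z hZ
    simp only [ctr] at h1
    rw [Finset.union_insert]
    have h2 := hr.mm (X := {x}) (Y := insert x T) (by grind)
    have h3 := hr.mm (X := {x}) (Y := insert x (Z ∪ T)) (by grind)
    omega

lemma HasU.par (hr : IsRank r) {k n : ℕ} (hk : 2 ≤ k) (hn : 2 ≤ n) (h : HasU r E k n)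
    {p p' : α} (hp' : p' ∈ E) (hne : p' ≠ p) (h1 : r {p} = 1) (h1' : r {p'} = 1)
    (h2 : r {p, p'} ≤ 1) : HasU r (E.erase p) k n := by
  obtain ⟨T, S, hT, hS, hd, hc, hrk⟩ := h
  rw [Finset.disjoint_left] at hd
  have c1 : ∀ A : Finset α, p ∈ A → r (insert p' A) ≤ r A := fun A hA =>
    hr.cl_mono (A := {p}) (by intro z hz; simp only [mem_singleton] at hz; subst hz; exact hA)
      (by have : insert p' {p} = ({p, p'} : Finset α) := by grind
          rw [this]; omega)
  have c2 : ∀ A : Finset α, p' ∈ A → r (insert p A) ≤ r A := fun A hA =>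
    hr.cl_mono (A := {p'}) (by intro z hz; simp only [mem_singleton] at hz; subst hz; exact hA)
      (by omega)
  have m1 : ∀ A : Finset α, r A ≤ r (insert p' A) := fun A => hr.mm (by grind)
  have m2 : ∀ A : Finset α, r A ≤ r (insert p A) := fun A => hr.mm (by grind)
  by_cases hpT : p ∈ T
  · have hp'S : p' ∉ S := by
      intro hh
      have e1 := hrk {p'} (by simpa using hh)
      have e2 : ({p'} : Finset α) ∪ T = insert p' T := by grind
      rw [e2, Finset.card_singleton] at e1
      have := c1 T hpT
      omega
    have hpS : p ∉ S := hd hpT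
    have key : ∀ Z ⊆ S, r (Z ∪ insert p' (T.erase p)) = r (Z ∪ T) := by
      intro Z hZ
      have e1 : insert p (Z ∪ insert p' (T.erase p)) = insert p' (Z ∪ T) := by
        ext z; simp only [mem_insert, mem_union, mem_erase]
        by_cases hz : z = p
        · subst hz; tauto
        · tauto
      have e2 := c2 (Z ∪ insert p' (T.erase p)) (by simp)
      have e3 := m2 (Z ∪ insert p' (T.erase p))
      rw [e1] at e2 e3
      have e4 := c1 (Z ∪ T) (by simp [hpT])
      have e5 := m1 (Z ∪ T)
      omega
    refine ⟨insert p' (T.erase p), S, ?_, ?_, ?_, hc, fun Z hZ => ?_⟩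
    · intro z hz; simp only [mem_insert, mem_erase] at *
      rcases hz with rfl | hz
      · exact ⟨hne, hp'⟩
      · exact ⟨hz.1, hT hz.2⟩
    · intro z hz; exact Finset.mem_erase.2 ⟨fun hh => hpS (hh ▸ hz), hS hz⟩
    · rw [Finset.disjoint_left]
      intro z hz; simp only [mem_insert, mem_erase] at hz
      rcases hz with rfl | hz
      · exact hp'S
      · exact hd hz.2
    · have e1 := key Z hZ
      have e2 := key ∅ (by simp)
      have e3 := hrk Z hZ
      simp only [Finset.empty_union] at e2
      omega
  · by_cases hpS : p ∈ S
    · have hp'T : p' ∉ T := by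
        intro hh
        have e1 := hrk {p} (by simpa using hpS)
        have e2 : ({p} : Finset α) ∪ T = insert p T := by grind
        rw [e2, Finset.card_singleton] at e1
        have := c2 T hh
        omega
      have hp'S : p' ∉ S := by
        intro hh
        have e1 := hrk {p, p'} (by
          intro z hz; simp only [mem_insert, mem_singleton] at hz
          rcases hz with rfl | rfl <;> assumption)
        have e2 : ({p, p'} : Finset α) ∪ T = insert p' (insert p T) := by grind
        rw [e2, Finset.card_pair hne.symm] at e1
        have e3 := c1 (insert p T) (by simp)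
        have e4 := hr.one p T
        omega
      refine ⟨T, insert p' (S.erase p), ?_, ?_, ?_, ?_, fun Z hZ => ?_⟩
      · intro z hz; exact Finset.mem_erase.2 ⟨fun hh => hpT (hh ▸ hz), hT hz⟩
      · intro z hz; simp only [mem_insert, mem_erase] at *
        rcases hz with rfl | hz
        · exact ⟨hne, hp'⟩
        · exact ⟨hz.1, hS hz.2⟩
      · rw [Finset.disjoint_left]
        intro z hz hz2; simp only [mem_insert, mem_erase] at hz2
        rcases hz2 with rfl | hz2
        · exact hp'T hz
        · exact hd hz hz2.2
      · rw [Finset.card_insert_of_notMem (by simp [hp'S]), Finset.card_erase_of_mem hpS, hc]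
        omega
      · by_cases hpZ : p' ∈ Z
        · have e1 := hrk (insert p (Z.erase p')) (by
            intro z hz; simp only [mem_insert, mem_erase] at hz
            rcases hz with rfl | hz
            · exact hpS
            · have := hZ hz.2; simp only [mem_insert, mem_erase] at this; tauto)
          have hpZ' : p ∉ Z.erase p' := by
            intro hh
            have := hZ (Finset.erase_subset _ _ hh)
            simp only [mem_insert, mem_erase] at this
            rcases this with q | q
            · exact hne q.symm
            · exact q.1 rfl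
          have e2 : (insert p (Z.erase p')).card = Z.card := by
            rw [Finset.card_insert_of_notMem hpZ', Finset.card_erase_of_mem hpZ]
            have := Finset.card_pos.2 ⟨p', hpZ⟩; omega
          have e3 : insert p' (insert p (Z.erase p') ∪ T) = insert p (Z ∪ T) := by
            ext z; simp only [mem_insert, mem_union, mem_erase]
            by_cases hz : z = p'
            · subst hz; tauto
            · tauto
          have e4 := c1 (insert p (Z.erase p') ∪ T) (by simp)
          have e5 := m1 (insert p (Z.erase p') ∪ T)
          have e6 := c2 (Z ∪ T) (by simp [hpZ])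
          have e7 := m2 (Z ∪ T)
          rw [e3] at e4 e5
          rw [e2] at e1
          omega
        · exact hrk Z (by
            intro z hz
            have := hZ hz
            simp only [mem_insert, mem_erase] at this
            rcases this with q | q
            · exact absurd (q ▸ hz) hpZ
            · exact q.2)
    · exact ⟨T, S, fun z hz => Finset.mem_erase.2 ⟨fun hh => hpT (hh ▸ hz), hT hz⟩,
        fun z hz => Finset.mem_erase.2 ⟨fun hh => hpS (hh ▸ hz), hS hz⟩,
        by rw [Finset.disjoint_left]; exact hd, hc, hrk⟩

lemma Cn.par (hr : IsRank r) (h : Cn r E) {p p' : α} (hp : p ∈ E) (hp' : p' ∈ E)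
    (hne : p' ≠ p) (h2 : r {p, p'} ≤ r {p'}) : Cn r (E.erase p) := by
  have c2 : ∀ A : Finset α, p' ∈ A → r (insert p A) ≤ r A := fun A hA =>
    hr.cl_mono (A := {p'}) (by intro z hz; simp only [mem_singleton] at hz; subst hz; exact hA)
      h2
  have hE : r (E.erase p) ≤ r E := hr.mono (Finset.erase_subset _ _)
  have main : ∀ X Y, Prt X Y (E.erase p) → X.Nonempty → Y.Nonempty → p' ∈ X →
      r (E.erase p) + 1 ≤ r X + r Y := by
    intro X Y hP hX hY hpX
    have h1 := h (insert p X) Y (prt_ins hp hP) (by simp) hY
    have := c2 X hpX
    omega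
  intro X Y hP hX hY
  rcases (hP.1 p').1 (Finset.mem_erase.2 ⟨hne, hp'⟩) with q | q
  · exact main X Y hP hX hY q
  · have := main Y X hP.symm hY hX q
    omega

lemma TC.cn_del (h : TC r E) (hr : IsRank r) (h4 : 4 ≤ E.card) {p : α} (hp : p ∈ E) :
    Cn r (E.erase p) := by
  intro X Y hP hX hY
  have hpX : p ∉ X := fun hh => by have := hP.subL hh; simp at this
  have hpY : p ∉ Y := fun hh => by have := hP.subR hh; simp at this
  have hc := hP.card
  rw [Finset.card_erase_of_mem hp] at hc
  have hX' := Finset.card_pos.2 hX
  have hY' := Finset.card_pos.2 hY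
  have h5 := hr.mono (Finset.erase_subset p E)
  have h6 := hr.one p X
  have h7 := hr.one p Y
  by_cases hY2 : 2 ≤ Y.card
  · have h2 := h.2 _ _ (prt_ins hp hP) (by rw [Finset.card_insert_of_notMem hpX]; omega) hY2
    omega
  · have h2 := h.2 _ _ (prt_ins hp hP.symm) (by rw [Finset.card_insert_of_notMem hpY]; omega)
      (by omega)
    omega

/-- Contraction of two elements. -/
lemma lift_ctr (hr : IsRank r) (h : TC r E) (h4 : 4 ≤ E.card) {x y : α} (hx : x ∈ E)
    (hy : y ∈ E) (hxy : x ≠ y)
    (h2 : TC (ctr (ctr r x) y) ((E.erase x).erase y)) : SI r E y := by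
  have hpr := h.pair hr h4 hx hy hxy
  have hsx := h.single hr h4 hx
  have main : ∀ X Y, Prt X Y (E.erase y) → 2 ≤ X.card → 2 ≤ Y.card →
      r (insert y X) + r (insert y Y) ≤ r E + 2 → x ∈ X →
      r (insert y X) ≤ 2 ∨ r (insert y Y) ≤ 2 := by
    intro X Y hP hX hY hl hxX
    have hXE : X ⊆ E := hP.subL.trans (Finset.erase_subset _ _)
    have hyX : y ∉ X := fun hh => by have := hP.subL hh; simp at this
    have hyY : y ∉ Y := fun hh => by have := hP.subR hh; simp at this
    have hxY : x ∉ Y := fun hh => hP.2 x hxX hh
    by_cases hX2 : X.card = 2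
    · left
      obtain ⟨a, b, hab, rfl⟩ := Finset.card_eq_two.1 hX2
      have h5 := h.compl2 hr h4 (hXE (by simp : a ∈ ({a, b} : Finset α)))
        (hXE (by simp : b ∈ ({a, b} : Finset α))) hab (Y := insert y Y) (by
          intro z hz
          by_cases hzy : z = y
          · subst hzy; simp
          · have := (hP.1 z).1 (Finset.mem_erase.2 ⟨hzy, hz⟩)
            simp only [mem_insert, mem_singleton] at this ⊢; tauto)
      omega
    · have hP' : Prt (X.erase x) Y ((E.erase x).erase y) := by
        obtain ⟨p1, p2⟩ := hP
        refine ⟨fun z => ?_, fun z => ?_⟩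
        · have := p1 z; simp only [mem_erase] at *
          by_cases hz : z = x
          · subst hz; tauto
          · tauto
        · have := p2 z; simp only [mem_erase] at *; tauto
      have h5 := h2.2 _ _ hP' (by rw [Finset.card_erase_of_mem hxX]; omega) hY
      simp only [ctr] at h5
      have e1 : insert x (insert y (X.erase x)) = insert y X := by
        ext z; simp only [mem_insert, mem_erase]
        by_cases hz : z = x
        · subst hz; tauto
        · tauto
      have e2 : insert x (insert y ((E.erase x).erase y)) = E := by
        ext z; simp only [mem_insert, mem_erase]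
        by_cases hz : z = x
        · subst hz; tauto
        · by_cases hz' : z = y
          · subst hz'; tauto
          · tauto
      rw [e1, e2] at h5
      have e3 : insert x {y} = ({x, y} : Finset α) := rfl
      have h6 := hr.one x (insert y Y)
      have h7 := hr.mm (X := {x, y}) (Y := E) (by grind)
      have h8 := hr.mm (X := {x, y}) (Y := insert y X) (by grind)
      have h9 := hr.mm (X := {x, y}) (Y := insert x (insert y Y)) (by grind)
      rw [hpr] at *
      omega
  intro X Y hP hX hY hl
  rcases (hP.1 x).1 (Finset.mem_erase.2 ⟨hxy, hx⟩) with q | q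
  · exact main X Y hP hX hY hl q
  · exact (main Y X hP.symm hY hX (by omega) q).symm

lemma lift_co (hr : IsRank r) (h : TC r E) (h4 : 4 ≤ E.card) {x p : α} (hx : x ∈ E)
    (hp : p ∈ E) (hxp : x ≠ p) (h1 : TC (ctr r x) (E.erase x))
    (hco : CO (ctr r x) (E.erase x) p) : CO r E p := by
  have hsx := h.single hr h4 hx
  have main : ∀ X Y, Prt X Y (E.erase p) → 2 ≤ X.card → 2 ≤ Y.card →
      r X + r Y ≤ r E + 1 → x ∈ X → X.card + r Y ≤ r E + 1 ∨ Y.card + r X ≤ r E + 1 := by
    intro X Y hP hX hY hl hxX
    have hXE : X ⊆ E := hP.subL.trans (Finset.erase_subset _ _)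
    have hpX : p ∉ X := fun hh => by have := hP.subL hh; simp at this
    have hpY : p ∉ Y := fun hh => by have := hP.subR hh; simp at this
    have hxY : x ∉ Y := fun hh => hP.2 x hxX hh
    have hrX := h.two_le hr h4 hXE hX
    by_cases hX2 : X.card = 2
    · left; omega
    · have hP' : Prt (X.erase x) Y ((E.erase x).erase p) := by
        obtain ⟨p1, p2⟩ := hP
        refine ⟨fun z => ?_, fun z => ?_⟩
        · have := p1 z; simp only [mem_erase] at *
          by_cases hz : z = x
          · subst hz; tauto
          · tauto
        · have := p2 z; simp only [mem_erase] at *; tauto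
      have hXc : (X.erase x).card = X.card - 1 := Finset.card_erase_of_mem hxX
      have h8 := hr.mm (X := {x}) (Y := X) (by grind)
      have h9 := hr.mm (X := {x}) (Y := insert x Y) (by grind)
      have h7 := hr.mm (X := {x}) (Y := E) (by grind)
      have h10 := hr.mm (X := {x}) (Y := insert x (insert p Y)) (by grind)
      have h11 := hr.one x Y
      have h12 := hr.mm (X := Y) (Y := insert x Y) (by grind)
      have e1 : insert x (X.erase x) = X := Finset.insert_erase hxX
      have hxE : x ∉ (E.erase p) ∨ x ∈ E.erase p := by tauto
      have h5 := hco _ _ hP' (by omega) hY (by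
        simp only [ctr]; rw [e1, Finset.insert_erase hx]; omega)
      simp only [ctr] at h5
      rw [e1, Finset.insert_erase hx] at h5
      rcases h5 with h5 | h5
      · by_cases hcl : r (insert x Y) = r Y + 1
        · left; omega
        · exfalso
          have hP2 : Prt (X.erase x) (insert p Y) (E.erase x) := by
            obtain ⟨p1, p2⟩ := hP'
            refine ⟨fun z => ?_, fun z => ?_⟩
            · have := p1 z; simp only [mem_erase, mem_insert] at *
              by_cases hz : z = p
              · subst hz; tauto
              · tauto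
            · have := p2 z; simp only [mem_erase, mem_insert] at *
              rintro ⟨q1, q2⟩ (rfl | q3)
              · exact hpX q2
              · tauto
          have h6 := h1.2 _ _ hP2 (by omega)
            (by rw [Finset.card_insert_of_notMem hpY]; omega)
          simp only [ctr] at h6
          rw [e1, Finset.insert_erase hx] at h6
          have h13 := hr.one p (insert x Y)
          rw [Finset.insert_comm] at h13
          omega
      · right; omega
  intro X Y hP hX hY hl
  rcases (hP.1 x).1 (Finset.mem_erase.2 ⟨hxp, hx⟩) with q | q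
  · exact main X Y hP hX hY hl q
  · exact (main Y X hP.symm hY hX (by omega) q).symm

lemma lift_tc (hr : IsRank r) (h : TC r E) (h5 : 5 ≤ E.card) {x y : α} (hx : x ∈ E)
    (hy : y ∈ E) (hxy : x ≠ y) (h2 : TC r (E.erase y))
    (hco : CO (ctr r x) (E.erase x) y) : TC (ctr r x) ((E.erase x).erase y) := by
  have hxy' : x ∈ E.erase y := Finset.mem_erase.2 ⟨hxy, hx⟩
  have hsx := h.single hr (by omega) hx
  have hrE : r E ≤ r (E.erase y) := h.compl1 hr (by omega) hy (by
    intro z hz; simp only [mem_erase]; tauto)
  have hrE' : r (E.erase y) ≤ r E := hr.mono (Finset.erase_subset _ _)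
  have hcomm : (E.erase x).erase y = (E.erase y).erase x := Finset.erase_right_comm
  have hc4 : 4 ≤ (E.erase y).card := by rw [Finset.card_erase_of_mem hy]; omega
  refine ⟨by rw [hcomm]; exact cn_ctr hr h2 hc4 hxy', ?_⟩
  intro X Y hP hX hY
  by_contra hcon
  have hxX : x ∉ X := fun hh => by have := hP.subL hh; simp at this
  have hxY : x ∉ Y := fun hh => by have := hP.subR hh; simp at this
  have h8 := hr.mm (X := {x}) (Y := insert x X) (by grind)
  have h9 := hr.mm (X := {x}) (Y := insert x Y) (by grind)
  have h7 := hr.mm (X := {x}) (Y := E) (by grind)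
  have e2 : insert x ((E.erase x).erase y) = E.erase y := by
    rw [hcomm, Finset.insert_erase hxy']
  simp only [ctr] at hcon
  rw [e2] at hcon
  have hP1 : Prt X (insert x Y) (E.erase y) := by
    rw [hcomm] at hP
    exact (prt_ins hxy' hP.symm).symm
  have hP2 : Prt (insert x X) Y (E.erase y) := by
    rw [hcomm] at hP
    exact prt_ins hxy' hP
  have q1 := h2.2 _ _ hP1 hX (by rw [Finset.card_insert_of_notMem hxY]; omega)
  have q2 := h2.2 _ _ hP2 (by rw [Finset.card_insert_of_notMem hxX]; omega) hY
  have q3 := hr.le_card X
  have q4 := hr.le_card Y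
  have h5 := hco X Y hP hX hY (by
    simp only [ctr]; rw [Finset.insert_erase hx]; omega)
  simp only [ctr] at h5
  rw [Finset.insert_erase hx] at h5
  omega

lemma lift_si (hr : IsRank r) (h : TC r E) (h4 : 4 ≤ E.card) {y g : α} (hy : y ∈ E)
    (hg : g ∈ E) (hyg : y ≠ g) (h1 : TC r (E.erase y)) (hsi : SI r (E.erase y) g) :
    SI r E g := by
  have hrE : r E ≤ r (E.erase y) := h.compl1 hr h4 hy (by
    intro z hz; simp only [mem_erase]; tauto)
  have hrE' : r (E.erase y) ≤ r E := hr.mono (Finset.erase_subset _ _)
  have main : ∀ X Y, Prt X Y (E.erase g) → 2 ≤ X.card → 2 ≤ Y.card →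
      r (insert g X) + r (insert g Y) ≤ r E + 2 → y ∈ X →
      r (insert g X) ≤ 2 ∨ r (insert g Y) ≤ 2 := by
    intro X Y hP hX hY hl hyX
    have hXE : X ⊆ E := hP.subL.trans (Finset.erase_subset _ _)
    have hgX : g ∉ X := fun hh => by have := hP.subL hh; simp at this
    have hgY : g ∉ Y := fun hh => by have := hP.subR hh; simp at this
    have hyY : y ∉ Y := fun hh => hP.2 y hyX hh
    by_cases hX2 : X.card = 2
    · left
      obtain ⟨a, b, hab, rfl⟩ := Finset.card_eq_two.1 hX2
      have h5 := h.compl2 hr h4 (hXE (by simp : a ∈ ({a, b} : Finset α)))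
        (hXE (by simp : b ∈ ({a, b} : Finset α))) hab (Y := insert g Y) (by
          intro z hz
          by_cases hzy : z = g
          · subst hzy; simp
          · have := (hP.1 z).1 (Finset.mem_erase.2 ⟨hzy, hz⟩)
            simp only [mem_insert, mem_singleton] at this ⊢; tauto)
      omega
    · have hXc : (X.erase y).card = X.card - 1 := Finset.card_erase_of_mem hyX
      have hP' : Prt (X.erase y) Y ((E.erase y).erase g) := by
        obtain ⟨p1, p2⟩ := hP
        refine ⟨fun z => ?_, fun z => ?_⟩
        · have := p1 z; simp only [mem_erase] at *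
          by_cases hz : z = y
          · subst hz; tauto
          · tauto
        · have := p2 z; simp only [mem_erase] at *; tauto
      have m1 := hr.mm (X := insert g (X.erase y)) (Y := insert g X) (by grind)
      rcases hsi _ _ hP' (by omega) hY (by omega) with q | q
      · by_cases hXg : r (insert g X) ≤ 2
        · left; exact hXg
        · exfalso
          have hgy : g ∈ E.erase y := Finset.mem_erase.2 ⟨hyg.symm, hg⟩
          have h6 := h1.2 _ _ (prt_ins hgy hP'.symm)
            (by rw [Finset.card_insert_of_notMem hgY]; omega) (by omega)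
          have m2 := hr.mm (X := X.erase y) (Y := insert g (X.erase y)) (by grind)
          omega
      · right; exact q
  intro X Y hP hX hY hl
  rcases (hP.1 y).1 (Finset.mem_erase.2 ⟨hyg, hy⟩) with q | q
  · exact main X Y hP hX hY hl q
  · exact (main Y X hP.symm hY hX (by omega) q).symm

end Pool.Agent.K3h89.QU
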