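import Mathlib
import Pool.Agent.K3h89.QU.Conf
import Pool.Agent.K3h89.QU.Lift

/-!
# Alignment of scalings, and extension lemmas for conformity
-/

set_option autoImplicit false
set_option linter.unusedSectionVars false
set_option linter.unusedSimpArgs false

namespace Pool.Agent.K3h89.QU

open Finset

variable {α : Type*} [DecidableEq α] [Fintype α] {K : Type*} [DivisionRing K] [StarRing K]
  {C : Submodule K (α → K)} {E : Finset α} {R : Subring K} {d d' : α → K}

/-- In a connected chain group a nonempty set closed under the nonzero entries of a frame is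
everything. -/
lemma conn_spread (hS : Supp C E) (hcn : Cn (rk C) E) {B : Finset α} {F : α → α → K}
    (hF : Frame C B F) {X : Finset α} (hXE : X ⊆ E) (hX : X.Nonempty)
    (h : ∀ b ∈ B, ∀ e ∈ E, F b e ≠ 0 → (b ∈ X ↔ e ∈ X)) : X = E := by
  by_contra hne
  have hY : (E \ X).Nonempty := by
    rw [Finset.sdiff_nonempty]
    intro hh; exact hne (Finset.Subset.antisymm hXE hh)
  have h1 := hcn X (E \ X) (Prt.sdiff hXE) hX hY
  have h2 := hF.rk_eq (X := X) fun b hb hbX e he => by
    by_contra h3
    exact hbX ((h b hb e (hXE he) h3).2 he)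
  have h3 := hF.rk_eq (X := E \ X) fun b hb hbX e he => by
    by_contra h3
    rw [mem_sdiff] at he hbX
    have h4 := h b hb e he.1 h3
    have h5 := hS.sub hF hb
    tauto
  have h4 := hS.card hF
  have h5 : (B ∩ X).card + (B ∩ (E \ X)).card = B.card := by
    have hBE := hS.sub hF
    rw [← Finset.card_union_of_disjoint]
    · congr 1; grind
    · rw [Finset.disjoint_left]; grind
  omega

/-- Any two scalings that make `C` conform to `R` agree up to a common factor normalising `R`. -/
def AL (R : Subring K) (C : Submodule K (α → K)) (E : Finset α) : Prop :=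
  ∀ d d' : α → K, Conf R d C → Conf R d' C → ∃ h ∈ unitary K, (∀ x ∈ R, star h * x * h ∈ R) ∧
    (∀ x ∈ R, h * x * star h ∈ R) ∧
    ∀ e ∈ E, ∃ ρ ∈ R, ρ ∈ unitary K ∧ d' e = d e * ρ * h

/-- Spreading the alignment from one element. -/
lemma AL.of_elem (hQ : QUc C) (hS : Supp C E) (hcn : Cn (rk C) E)
    (hR : StarCl R)
    (h : ∀ d d' : α → K, Conf R d C → Conf R d' C → ∃ e ∈ E,
      (∀ x ∈ R, star (star (d e) * d' e) * x * (star (d e) * d' e) ∈ R) ∧
      (∀ x ∈ R, (star (d e) * d' e) * x * star (star (d e) * d' e) ∈ R)) : AL R C E := by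
  intro d d' hd hd'
  obtain ⟨e0, he0, hn1, hn2⟩ := h d d' hd hd'
  set h := star (d e0) * d' e0 with hh
  have hU : h ∈ unitary K := un_mul (un_star (hd.1 _)) (hd'.1 _)
  refine ⟨h, hU, hn1, hn2, ?_⟩
  obtain ⟨B, F, hF, -⟩ := exists_frame C E
  classical
  set X := E.filter fun e => star (d e) * d' e * star h ∈ R with hX
  have hXE : X = E := by
    refine conn_spread hS hcn hF (Finset.filter_subset _ _) ⟨e0, ?_⟩ ?_
    · rw [hX, mem_filter]
      refine ⟨he0, ?_⟩
      rw [← hh, un_r hU]; exact R.one_mem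
    · intro b hb e he hne
      have hbE := hS.sub hF hb
      have hFu : F b e ∈ unitary K := by
        rcases hQ B F hF b hb e with h2 | h2
        · exact absurd h2 hne
        · exact h2
      have h1 := hd.2 B F hF b hb e
      have h2 := hd'.2 B F hF b hb e
      simp only [hX, mem_filter, hbE, he, true_and]
      have g1 := un_l hU
      have g2 := un_lc hU
      have g3 := un_r (hd.1 b)
      have g4 := un_rc (hd.1 b)
      have g5 := un_r (hd'.1 b)
      have g6 := un_rc (hd'.1 b)
      have g7 := un_lc hFu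
      have g8 := un_rc (hd.1 e)
      have g9 := un_rc (hd'.1 e)
      have g10 := un_rc hFu
      constructor
      · intro h3
        have h4 := R.mul_mem (R.mul_mem (hR _ h1) h3) (hn2 _ h2)
        have e1 : star (star (d b) * F b e * d e) * (star (d b) * d' b * star h) *
            (h * (star (d' b) * F b e * d' e) * star h) = star (d e) * d' e * star h := by
          simp only [star_mul, star_star, mul_assoc, g2, g4, g6, g7]
        rwa [e1] at h4
      · intro h3
        have h4 := R.mul_mem (R.mul_mem h1 h3) (hn2 _ (hR _ h2))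
        have e1 : star (d b) * F b e * d e * (star (d e) * d' e * star h) *
            (h * star (star (d' b) * F b e * d' e) * star h) = star (d b) * d' b * star h := by
          simp only [star_mul, star_star, mul_assoc, g2, g8, g9, g10]
        rwa [e1] at h4
  intro e he
  rw [← hXE, hX, mem_filter] at he
  refine ⟨star (d e) * d' e * star h, he.2,
    un_mul (un_mul (un_star (hd.1 _)) (hd'.1 _)) (un_star hU), ?_⟩
  simp only [mul_assoc, un_rc (hd.1 e), un_l hU, mul_one]

/-- Realign the scaling of a bigger chain group along a minor. -/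
lemma AL.realign {C2 : Submodule K (α → K)} (h : AL R C E) (hR : StarCl R) (hd : Conf R d C)
    (hd' : Conf R d' C) (h2 : Conf R d' C2) :
    ∃ d2, Conf R d2 C2 ∧ ∀ e ∈ E, d2 e = d e := by
  obtain ⟨h, hU, hn1, hn2, hρ⟩ := h d d' hd hd'
  refine ⟨fun e => if e ∈ E then d e else d' e * star h, ⟨fun e => ?_, ?_⟩, fun e he => ?_⟩
  · dsimp only
    split_ifs
    · exact hd.1 e
    · exact un_mul (hd'.1 e) (un_star hU)
  · have key : ∀ e, ∃ σ ∈ R, σ ∈ unitary K ∧
        (if e ∈ E then d e else d' e * star h) = d' e * star h * σ := by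
      intro e
      by_cases he : e ∈ E
      · obtain ⟨ρ, hρR, hρU, hρe⟩ := hρ e he
        have hσ : star ρ ∈ R := hR _ hρR
        refine ⟨star ρ, hσ, un_star hρU, ?_⟩
        rw [if_pos he, hρe]
        simp only [mul_assoc, un_rc hU, un_r hρU, mul_one]
      · exact ⟨1, R.one_mem, one_mem _, by rw [if_neg he, mul_one]⟩
    intro B F hF b hb e
    obtain ⟨σ, hσR, hσU, hσ⟩ := key b
    obtain ⟨τ, hτR, hτU, hτ⟩ := key e
    dsimp only
    rw [hσ, hτ]
    have hσR' : star σ ∈ R := hR _ hσR
    have h3 := R.mul_mem (R.mul_mem hσR' (hn2 _ (h2.2 B F hF b hb e))) hτR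
    have e1 : star σ * (h * (star (d' b) * F b e * d' e) * star h) * τ =
        star (d' b * star h * σ) * F b e * (d' e * star h * τ) := by
      simp only [star_mul, star_star, mul_assoc]
    rwa [e1] at h3
  · dsimp only
    rw [if_pos he]

/-- Two contractions. -/
theorem conf_gamma (hQ : QUc C) (hS : Supp C E) (hR : StarCl R) {x y : α} (hxy : x ≠ y)
    (h2 : 2 ≤ rk C {x, y}) {d1 d2 : α → K} (h1 : Conf R d1 (C ⊓ Zr K {x}))
    (h1' : Conf R d2 (C ⊓ Zr K {y}))
    (hA : AL R (C ⊓ Zr K {x} ⊓ Zr K {y}) ((E.erase x).erase y)) : ∃ d, Conf R d C := by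
  obtain ⟨d3, h3, h4⟩ := hA.realign hR (h1.inf {y}) (by rw [inf_inf_Zr]; exact h1'.inf {x}) h1'
  obtain ⟨B, F, hF, hB⟩ := exists_frame_sup C (X := {x, y}) (by
    rw [Finset.card_pair hxy]; exact h2)
  have hBE := hS.sub hF
  have hxB : x ∈ B := hB (by simp)
  have hyB : y ∈ B := hB (by simp)
  have hFx := hF.inf_sub (T := {x}) (by simpa using hxB)
  have hFy := hF.inf_sub (T := {y}) (by simpa using hyB)
  have hd : ∀ e, (if e = x then d3 x else d1 e) ∈ unitary K := fun e => by
    split_ifs
    · exact h3.1 _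
    · exact h1.1 _
  refine ⟨fun e => if e = x then d3 x else d1 e, Conf.of_frame hQ hR hd hF ?_⟩
  intro b hb e
  by_cases he : e ∈ E
  swap
  · rw [hS _ (hF.mem b hb) e he]; simp
  by_cases hbx : b = x
  · subst hbx
    by_cases heb : e = b
    · subst heb
      rw [hF.diag e hb, mul_one, un_l (hd e)]; exact R.one_mem
    · by_cases hey : e = y
      · rw [hey, hF.off b hb y hyB (Ne.symm hxy)]; simp
      · have h5 := h3.2 _ _ hFy b (by simp [hb, hxy]) e
        simp only [if_true, if_neg heb]
        rwa [h4 e (by simp [heb, hey, he])] at h5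
  · by_cases hex : e = x
    · rw [hex, hF.off b hb x hxB (Ne.symm hbx)]; simp
    · have h5 := h1.2 _ _ hFx b (by simp [hb, hbx]) e
      simpa only [if_neg hbx, if_neg hex] using h5

/-- One contraction and two deletions. -/
theorem conf_alpha (hQ : QUc C) (hS : Supp C E) (hR : StarCl R) {x p q : α}
    (hx : x ∈ E) (hp : p ∈ E) (hq : q ∈ E) (hxp : x ≠ p) (hxq : x ≠ q)
    (hpq : p ≠ q) (hr : rk C E ≤ rk C (E \ {x, p, q})) {d0 d1 d2 : α → K}
    (h0 : Conf R d0 (C ⊓ Zr K {x}))
    (h1 : Conf R d1 (C.map (res K (E.erase p)))) (h2 : Conf R d2 (C.map (res K (E.erase q))))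
    (hA1 : AL R ((C ⊓ Zr K {x}).map (res K ((E.erase p).erase x))) ((E.erase p).erase x))
    (hA2 : AL R ((C ⊓ Zr K {x}).map (res K ((E.erase q).erase x))) ((E.erase q).erase x)) :
    ∃ d, Conf R d C := by
  have e1 := res_inf C (S := E.erase p) (x := x) (by simp [hx, hxp])
  have e2 := res_inf C (S := E.erase q) (x := x) (by simp [hx, hxq])
  obtain ⟨d3, h3, h3'⟩ := hA1.realign hR (h0.res _) (by rw [← e1]; exact h1.inf {x}) h1
  obtain ⟨d4, h4, h4'⟩ := hA2.realign hR (h0.res _) (by rw [← e2]; exact h2.inf {x}) h2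
  obtain ⟨B, F, hF, hB⟩ := exists_frame_sub hS hr
  have hd : ∀ e, (if e = x then d3 x else d0 e) ∈ unitary K := fun e => by
    split_ifs
    · exact h3.1 _
    · exact h0.1 _
  have hBx : ∀ b ∈ B, b ∈ E ∧ b ≠ x ∧ b ≠ p ∧ b ≠ q := fun b hb => by
    have := hB hb
    simp only [mem_sdiff, mem_insert, mem_singleton] at this
    tauto
  have hFp := hF.res (S := E.erase p) fun b hb => by
    have := hBx b hb; simp only [mem_erase]; tauto
  have hFq := hF.res (S := E.erase q) fun b hb => by
    have := hBx b hb; simp only [mem_erase]; tauto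
  refine ⟨fun e => if e = x then d3 x else d0 e, Conf.of_frame hQ hR hd hF ?_⟩
  intro b hb e
  obtain ⟨hbE, hbx, hbp, hbq⟩ := hBx b hb
  by_cases he : e ∈ E
  swap
  · rw [hS _ (hF.mem b hb) e he]; simp
  by_cases hep : e = p
  · subst hep
    have h5 := h4.2 _ _ hFq b hb e
    rw [res_apply, if_pos (by simp [hpq, he])] at h5
    simp only [if_neg hbx, if_neg (Ne.symm hxp)]
    rwa [h4' e (by simp [he, hpq, Ne.symm hxp]), h4' b (by simp [hbE, hbq, hbx])] at h5
  · have h5 := h3.2 _ _ hFp b hb e
    rw [res_apply, if_pos (by simp [hep, he])] at h5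
    simp only [if_neg hbx]
    rw [h3' b (by simp [hbE, hbp, hbx])] at h5
    by_cases hex : e = x
    · simpa only [hex, if_true] using h5
    · simp only [if_neg hex]
      rwa [h3' e (by simp [he, hep, hex])] at h5

/-- Parallel extension. -/
theorem conf_par (hQ : QUc C) (hS : Supp C E) (hR : StarCl R) {e f : α} (he : e ∈ E) (hf : f ∈ E)
    (hef : e ≠ f) (h1 : 1 ≤ rk C {f}) (h1' : 1 ≤ rk C {e}) (h2 : rk C {e, f} ≤ 1)
    (hd : Conf R d (C.map (res K (E.erase e)))) : ∃ d, Conf R d C := by
  obtain ⟨B, F, hF, hB⟩ := exists_frame_sup C (X := {f}) (by simpa using h1)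
  have hfB : f ∈ B := hB (by simp)
  have heB : e ∉ B := by
    intro hh
    have := hF.rk_sub (T := {e, f}) (by intro z hz; simp at hz; rcases hz with rfl | rfl <;> assumption)
    rw [Finset.card_pair hef] at this; omega
  have h0 : ∀ b ∈ B, b ≠ f → F b e = 0 := by
    intro b hb hbf
    by_contra hne
    have h3 := hF.exchange hb heB hne
    have := h3.rk_sub (T := {e, f}) (by
      intro z hz; simp at hz; rcases hz with rfl | rfl
      · simp
      · simp [hfB, Ne.symm hbf])
    rw [Finset.card_pair hef] at this; omega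
  have hc : ∀ c ∈ C, c e = c f * F f e := by
    intro c hc
    rw [hF.span_app hc e, Finset.sum_eq_single f]
    · intro b hb hbf; rw [h0 b hb hbf, mul_zero]
    · intro hh; exact absurd hfB hh
  have hne : F f e ≠ 0 := by
    intro hh
    have h3 := hF.rk_eq (X := {e}) fun b hb _ z hz => by
      rw [mem_singleton] at hz; subst hz
      rw [hc _ (hF.mem b hb), hh, mul_zero]
    have h4 : B ∩ {e} = ∅ := by ext z; simp; rintro hz rfl; exact heB hz
    rw [h4] at h3; simp at h3; omega
  have hU : F f e ∈ unitary K := by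
    rcases hQ B F hF f hfB e with h3 | h3
    · exact absurd h3 hne
    · exact h3
  have hd' : ∀ z, (if z = e then star (F f e) * d f else d z) ∈ unitary K := fun z => by
    split_ifs
    · exact un_mul (un_star hU) (hd.1 _)
    · exact hd.1 _
  refine ⟨fun z => if z = e then star (F f e) * d f else d z, Conf.of_frame hQ hR hd' hF ?_⟩
  intro b hb z
  have hBE := hS.sub hF
  have hbe : b ≠ e := fun hh => heB (hh ▸ hb)
  have hFe := hF.res (S := E.erase e) fun b hb => by
    simp only [mem_erase]; exact ⟨fun hh => heB (hh ▸ hb), hBE hb⟩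
  by_cases hz : z ∈ E
  swap
  · rw [hS _ (hF.mem b hb) z hz]; simp
  simp only [if_neg hbe]
  by_cases hze : z = e
  · subst hze
    rw [hc _ (hF.mem b hb)]
    simp only [if_true, mul_assoc, un_rc hU]
    have h5 := hd.2 _ _ hFe b hb f
    rwa [res_apply, if_pos (by simp [Ne.symm hef, hf]), mul_assoc] at h5
  · simp only [if_neg hze]
    have h5 := hd.2 _ _ hFe b hb z
    rwa [res_apply, if_pos (by simp [hze, hz])] at h5

end Pool.Agent.K3h89.QU
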