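import Mathlib
import Pool.Agent.K3h89.QU.Align

/-!
# The confinement theorem

`Cls R Good k n`: a class of chain groups closed under minors and duality in which the small
3-connected members with a uniform minor `U(k,n)` or `U(n-k,n)` conform to the ring `R`. Then all
3-connected members with such a minor conform to `R`.
-/

set_option autoImplicit false
set_option linter.unusedSectionVars false
set_option linter.unusedSimpArgs false

namespace Pool.Agent.K3h89.QU

open Finset

variable {α : Type*} [DecidableEq α]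

/-- There is a uniform minor or a dual one. -/
def Rich (r : Finset α → ℕ) (E : Finset α) (k n : ℕ) : Prop := HasU r E k n ∨ HasU r E (n - k) n

section rich

variable {r r' : Finset α → ℕ} {E E' : Finset α} {k n : ℕ}

lemma Rich.mono (h : Rich r E k n) (hE : E ⊆ E') : Rich r E' k n :=
  h.imp (fun h => h.mono hE) (fun h => h.mono hE)

lemma Rich.congr (h : Rich r E k n) (hE : ∀ X ⊆ E, r X = r' X) : Rich r' E k n :=
  h.imp (fun h => h.congr hE) (fun h => h.congr hE)

lemma Rich.card_le (h : Rich r E k n) : n ≤ E.card :=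
  h.elim (fun h => h.card_le) (fun h => h.card_le)

lemma Rich.qc (hr : IsRank r) (h : TC r E) (h4 : 4 ≤ E.card) {x : α} (hx : x ∈ E)
    (hk : 2 ≤ k) (hn : k + 2 ≤ n) (hU : Rich (ctr r x) (E.erase x) k n) : Qc r E x :=
  hU.elim (fun hU => hU.qc hr h h4 hx hk hn)
    (fun hU => hU.qc hr h h4 hx (by omega) (by omega))

lemma Rich.of_ctr (hr : IsRank r) {x : α} (hx : x ∈ E)
    (h : Rich (ctr r x) (E.erase x) k n) : Rich r E k n :=
  h.imp (hasU_of_ctr hr hx) (hasU_of_ctr hr hx)

lemma Rich.par (hr : IsRank r) (hk : 2 ≤ k) (hn : k + 2 ≤ n) (h : Rich r E k n)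
    {p p' : α} (hp' : p' ∈ E) (hne : p' ≠ p) (h1 : r {p} = 1) (h1' : r {p'} = 1)
    (h2 : r {p, p'} ≤ 1) : Rich r (E.erase p) k n :=
  h.imp (fun h => h.par hr hk (by omega) hp' hne h1 h1' h2)
    (fun h => h.par hr (by omega) (by omega) hp' hne h1 h1' h2)

lemma Rich.dual (hr : IsRank r) (hkn : k ≤ n) (h : Rich r E k n) : Rich (dl r E) E k n := by
  rcases h with h | h
  · exact Or.inr (h.dual hr hkn)
  · have := h.dual hr (by omega)
    rw [show n - (n - k) = k by omega] at this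
    exact Or.inl this

lemma Rich.conv_del (hr : IsRank r) {x : α} (hx : x ∈ E) (hkn : k ≤ n)
    (h : Rich (ctr r x) (E.erase x) k n) : Rich (dl r E) (E.erase x) k n := by
  rcases h with h | h
  · exact Or.inr (h.conv_del hr hx hkn)
  · have := h.conv_del hr hx (by omega)
    rw [show n - (n - k) = k by omega] at this
    exact Or.inl this

lemma Rich.conv_ctr (hr : IsRank r) {x : α} (hx : x ∈ E) (hkn : k ≤ n)
    (h : Rich r (E.erase x) k n) : Rich (ctr (dl r E) x) (E.erase x) k n := by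
  rcases h with h | h
  · exact Or.inr (h.conv_ctr hr hx hkn)
  · have := h.conv_ctr hr hx (by omega)
    rw [show n - (n - k) = k by omega] at this
    exact Or.inl this

end rich

variable [Fintype α] {K : Type*} [DivisionRing K] [StarRing K]

/-- Hypotheses on a class of chain groups: closure and alignment. -/
structure ClsA (R : Subring K) (Good : Submodule K (α → K) → Finset α → Prop) (k n : ℕ) :
    Prop where
  starcl : StarCl R
  hk : 2 ≤ k
  hn : k + 2 ≤ n
  qu : ∀ C E, Good C E → QUc C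
  supp : ∀ C E, Good C E → Supp C E
  ctr : ∀ C E x, Good C E → x ∈ E → Good (C ⊓ Zr K {x}) (E.erase x)
  del : ∀ C E x, Good C E → x ∈ E → Good (C.map (res K (E.erase x))) (E.erase x)
  dual : ∀ C E, Good C E → Good (perp C E) E
  al : ∀ C E, Good C E → Cn (rk C) E → Rich (rk C) E k n → AL R C E

/-- Hypotheses on a class of chain groups: the small cases. -/
structure Cls (R : Subring K) (Good : Submodule K (α → K) → Finset α → Prop) (k n : ℕ) : Prop
    extends ClsA R Good k n where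
  hb1 : ∀ C E, Good C E → TC (rk C) E → Rich (rk C) E k n → E.card = n → ∃ d, Conf R d C
  hb2 : ∀ C E x, Good C E → TC (rk C) E → x ∈ E → TC (QU.ctr (rk C) x) (E.erase x) →
    Rich (QU.ctr (rk C) x) (E.erase x) k n → E.card = n + 1 → ∃ d, Conf R d C
  hb3 : ∀ C E x y, Good C E → TC (rk C) E → x ∈ E → y ∈ E → x ≠ y →
    TC (QU.ctr (rk C) x) (E.erase x) → TC (rk C) (E.erase y) →
    TC (QU.ctr (rk C) x) ((E.erase x).erase y) →
    Rich (QU.ctr (rk C) x) ((E.erase x).erase y) k n → E.card = n + 2 →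
    (∀ C' E', Good C' E' → TC (rk C') E' → Rich (rk C') E' k n → E'.card < E.card →
      ∃ d, Conf R d C') → ∃ d, Conf R d C

lemma rk_ctr_fun (C : Submodule K (α → K)) (x : α) : rk (C ⊓ Zr K {x}) = ctr (rk C) x :=
  funext fun X => rk_ctr C x X

lemma rk_perp_fun {C : Submodule K (α → K)} {E : Finset α} (hS : Supp C E) :
    rk (perp C E) = dl (rk C) E := funext fun X => rk_perp hS X

lemma rk_del (C : Submodule K (α → K)) {E X : Finset α} (h : X ⊆ E) :
    rk C X = rk (C.map (res K E)) X := (rk_res C h).symm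

lemma commE (E : Finset α) (x y : α) : (E.erase x).erase y = (E.erase y).erase x := by
  ext z; simp only [mem_erase]; tauto

section main

variable {R : Subring K} {Good : Submodule K (α → K) → Finset α → Prop} {k n : ℕ}

/-- The induction hypothesis. -/
def IH (R : Subring K) (Good : Submodule K (α → K) → Finset α → Prop) (k n N : ℕ) : Prop :=
  ∀ C E, Good C E → TC (rk C) E → Rich (rk C) E k n → E.card < N → ∃ d, Conf R d C

lemma IH.mono {N N' : ℕ} (h : IH R Good k n N) (hN : N' ≤ N) : IH R Good k n N' :=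
  fun C E h1 h2 h3 h4 => h C E h1 h2 h3 (by omega)

/-- every 2-separation has a side of rank at most one -/
def SS (r : Finset α → ℕ) (E : Finset α) : Prop :=
  ∀ X Y, Prt X Y E → 2 ≤ X.card → 2 ≤ Y.card → r X + r Y ≤ r E + 1 → r X ≤ 1 ∨ r Y ≤ 1

lemma SS.del {r : Finset α → ℕ} (hr : IsRank r) {E : Finset α} {e f : α} (he : e ∈ E)
    (hf : f ∈ E) (hef : e ≠ f) (h2 : r {e, f} ≤ r {f}) (h : SS r E) : SS r (E.erase e) := by
  intro X Y hXY hX hY hl
  have heX : e ∉ X := fun hh => by have := hXY.subL hh; simp at this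
  have heY : e ∉ Y := fun hh => by have := hXY.subR hh; simp at this
  have hcl : ∀ Z : Finset α, f ∈ Z → r (insert e Z) ≤ r Z := fun Z hZ =>
    hr.cl_mono (A := {f}) (by simpa using hZ) h2
  have hfE : f ∈ E.erase e := by simp [hf, Ne.symm hef]
  have hE : r (E.erase e) ≤ r E := hr.mm (by simp)
  rcases (hXY.1 f).1 hfE with hfX | hfY
  · have h3 := hcl X hfX
    have h4 := h (insert e X) Y (prt_ins he hXY)
      (by rw [Finset.card_insert_of_notMem heX]; omega) hY (by omega)
    have h5 := hr.mm (X := X) (Y := insert e X) (by grind)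
    omega
  · have h3 := hcl Y hfY
    have h4 := h X (insert e Y) (prt_ins he hXY.symm).symm hX
      (by rw [Finset.card_insert_of_notMem heY]; omega) (by omega)
    have h5 := hr.mm (X := Y) (Y := insert e Y) (by grind)
    omega

/-- The core configuration: deletion of two elements on long lines through `x`. -/
theorem two_del (H : ClsA R Good k n) {C : Submodule K (α → K)} {E : Finset α}
    (hG : Good C E)
    {x p q : α} (hx : x ∈ E) (hp : p ∈ E) (hq : q ∈ E) (hxp : x ≠ p) (hxq : x ≠ q) (hpq : p ≠ q)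
    (hc0 : ∃ d, Conf R d (C ⊓ Zr K {x}))
    (hc1 : ∃ d, Conf R d (C.map (res K (E.erase p))))
    (hc2 : ∃ d, Conf R d (C.map (res K (E.erase q))))
    (hn1 : Cn (ctr (rk C) x) ((E.erase x).erase p))
    (hn2 : Cn (ctr (rk C) x) ((E.erase x).erase q))
    (hU1 : Rich (ctr (rk C) x) ((E.erase x).erase p) k n)
    (hU2 : Rich (ctr (rk C) x) ((E.erase x).erase q) k n)
    (hr3 : rk C E ≤ rk C (E \ {x, p, q})) : ∃ d, Conf R d C := by
  obtain ⟨d0, hd0⟩ := hc0
  obtain ⟨d1, hd1⟩ := hc1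
  obtain ⟨d2, hd2⟩ := hc2
  have key : ∀ p ∈ E, x ≠ p → Cn (ctr (rk C) x) ((E.erase x).erase p) →
      Rich (ctr (rk C) x) ((E.erase x).erase p) k n →
      AL R ((C ⊓ Zr K {x}).map (res K ((E.erase p).erase x))) ((E.erase p).erase x) := by
    intro p hp hxp hn1 hU1
    have h1 : ∀ X ⊆ (E.erase x).erase p, ctr (rk C) x X =
        rk ((C ⊓ Zr K {x}).map (res K ((E.erase x).erase p))) X := fun X hX => by
      rw [← rk_ctr_fun]; exact rk_del _ hX
    rw [commE E p x]
    exact H.al _ _ (H.del _ _ p (H.ctr C E x hG hx) (by simp [hp, Ne.symm hxp]))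
      (hn1.congr h1) (hU1.congr h1)
  exact conf_alpha (H.qu C E hG) (H.supp C E hG) H.starcl hx hp hq hxp hxq hpq hr3 hd0 hd1 hd2
    (key p hp hxp hn1 hU1) (key q hq hxq hn2 hU2)

variable (H : Cls R Good k n)
include H

/-- Chain groups whose simplification is 3-connected conform. -/
theorem ss_conf {N : ℕ} (hI : IH R Good k n N) :
    ∀ (m : ℕ) (C : Submodule K (α → K)) (E : Finset α), E.card = m → E.card < N → Good C E →
      Cn (rk C) E → SS (rk C) E → Rich (rk C) E k n → ∃ d, Conf R d C := by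
  intro m
  induction m using Nat.strong_induction_on with
  | _ m ih =>
  intro C E hm hN hG hcn hss hU
  have hr := isRank_rk C
  by_cases hT2 : T2 (rk C) E
  · exact hI C E hG ⟨hcn, hT2⟩ hU hN
  have hkn := H.hk
  have hnn := H.hn
  have hcard := hU.card_le
  unfold T2 at hT2
  push Not at hT2
  obtain ⟨X, Y, hXY, hX, hY, hl⟩ := hT2
  have h1 : ∀ z ∈ E, 1 ≤ rk C {z} := by
    intro z hz
    have h2 := hcn {z} (E \ {z}) (Prt.sdiff (by simpa using hz)) (by simp)
      (by rw [← Finset.card_pos]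
          have := (Prt.sdiff (X := {z}) (E := E) (by simpa using hz)).card
          simp at this; omega)
    have h3 := hr.mm (X := E \ {z}) (Y := E) (by intro w hw; exact (mem_sdiff.1 hw).1)
    omega
  have h1' : ∀ z ∈ E, rk C {z} = 1 := fun z hz => by
    have := h1 z hz; have := hr.le_card {z}; simp at this; omega
  -- a parallel pair
  obtain ⟨e, f, he, hf, hef, h2⟩ : ∃ e f, e ∈ E ∧ f ∈ E ∧ e ≠ f ∧ rk C {e, f} ≤ 1 := by
    rcases hss X Y hXY hX hY (by omega) with h2 | h2
    · obtain ⟨a, ha, b, hb, hab⟩ := Finset.one_lt_card.1 (show 1 < X.card by omega)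
      refine ⟨a, b, hXY.subL ha, hXY.subL hb, hab, ?_⟩
      have := hr.mm (X := {a, b}) (Y := X) (by intro z hz; simp at hz; grind)
      omega
    · obtain ⟨a, ha, b, hb, hab⟩ := Finset.one_lt_card.1 (show 1 < Y.card by omega)
      refine ⟨a, b, hXY.subR ha, hXY.subR hb, hab, ?_⟩
      have := hr.mm (X := {a, b}) (Y := Y) (by intro z hz; simp at hz; grind)
      omega
  have h3 : ∀ X ⊆ E.erase e, rk C X = rk (C.map (res K (E.erase e))) X := fun X hX => rk_del C hX
  have hce : (E.erase e).card = m - 1 := by rw [Finset.card_erase_of_mem he, hm]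
  have h2' : rk C {e, f} ≤ rk C {f} := by rw [h1' f hf]; exact h2
  obtain ⟨d, hd⟩ := ih (m - 1) (by omega) (C.map (res K (E.erase e))) (E.erase e)
    hce (by omega) (H.del C E e hG he)
    ((hcn.par hr he hf (Ne.symm hef) h2').congr h3)
    (by
      have h4 := hss.del hr he hf hef h2'
      intro X' Y' hP hX' hY' hl'
      have h5 := h4 X' Y' hP hX' hY'
      rw [h3 X' hP.subL, h3 Y' hP.subR, h3 _ subset_rfl] at h5
      exact h5 hl')
    ((hU.par hr H.hk H.hn hf (Ne.symm hef) (h1' e he) (h1' f hf) h2).congr h3)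
  exact conf_par (H.qu C E hG) (H.supp C E hG) H.starcl he hf hef (h1 f hf) (h1 e he) h2 hd

variable {N : ℕ} {C : Submodule K (α → K)} {E : Finset α}

/-- Contractions with 3-connected simplification conform. -/
theorem si_conf (hI : IH R Good k n E.card) (hG : Good C E) (hT : TC (rk C) E) {x : α}
    (hx : x ∈ E) (hSI : SI (rk C) E x) (hU : Rich (ctr (rk C) x) (E.erase x) k n) :
    ∃ d, Conf R d (C ⊓ Zr K {x}) := by
  have hr := isRank_rk C
  have hcard := hU.card_le
  have hkn := H.hk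
  have hnn := H.hn
  have hce := Finset.card_erase_of_mem hx
  have h4 : 4 ≤ E.card := by omega
  have hQ := hU.qc hr hT h4 hx H.hk H.hn
  have hs := hT.single hr h4 hx
  refine ss_conf H hI _ (C ⊓ Zr K {x}) (E.erase x) rfl (by omega) (H.ctr C E x hG hx) ?_ ?_ ?_
  · rw [rk_ctr_fun]; exact cn_ctr hr hT h4 hx
  · rw [rk_ctr_fun]
    intro X Y hP hX hY hl
    unfold ctr at hl ⊢
    have h1 : insert x (E.erase x) = E := Finset.insert_erase hx
    rw [h1, hs] at hl
    rw [hs]
    have h2 := hr.mm (X := {x}) (Y := insert x X) (by simp)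
    have h3 := hr.mm (X := {x}) (Y := insert x Y) (by simp)
    have h5 := hr.mm (X := {x}) (Y := E) (by simpa using hx)
    have := hSI X Y hP hX hY (by omega)
    omega
  · rw [rk_ctr_fun]; exact hU

/-- Transfer of facts to the dual. -/
lemma co_dual (hG : Good C E) {x : α} (hx : x ∈ E)
    (hCO : CO (rk C) E x) (hU : Rich (rk C) (E.erase x) k n) :
    SI (rk (perp C E)) E x ∧ Rich (ctr (rk (perp C E)) x) (E.erase x) k n := by
  have hr := isRank_rk C
  have hkn := H.hk
  have hnn := H.hn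
  rw [rk_perp_fun (H.supp C E hG)]
  exact ⟨hCO.dual hr hx, hU.conv_ctr hr hx (by omega)⟩

/-- Deletions with 3-connected cosimplification conform. -/
theorem co_conf (hI : IH R Good k n E.card) (hG : Good C E) (hT : TC (rk C) E) {x : α}
    (hx : x ∈ E) (hCO : CO (rk C) E x) (hU : Rich (rk C) (E.erase x) k n) :
    ∃ d, Conf R d (C.map (res K (E.erase x))) := by
  have hr := isRank_rk C
  have hS := H.supp C E hG
  obtain ⟨h1, h2⟩ := co_dual H hG hx hCO hU
  obtain ⟨d, hd⟩ := si_conf H hI (H.dual C E hG) (by rw [rk_perp_fun hS]; exact hT.dual hr) hx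
    h1 h2
  rw [← perp_del hx] at hd
  exact ⟨d, hd.of_perp (supp_res _ _) H.starcl⟩

lemma rich_long {r : Finset α → ℕ} (hr : IsRank r) (hT : TC r E) (h4 : 4 ≤ E.card) {x : α}
    (hx : x ∈ E) (hU : Rich (ctr r x) (E.erase x) k n) {p : α} (hp : Lng r E x p) :
    Rich (ctr r x) ((E.erase x).erase p) k n ∧ Cn (ctr r x) ((E.erase x).erase p) := by
  obtain ⟨hpE, hpx, p', hp'E, hp'x, hp'p, hl⟩ := hp
  have hs := hT.single hr h4 hx
  have hQ := hU.qc hr hT h4 hx H.hk H.hn
  have h1 : ∀ z ∈ E, z ≠ x → ctr r x {z} = 1 := fun z hz hzx => by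
    have := hT.pair hr h4 hx hz (Ne.symm hzx)
    unfold ctr; omega
  have h2 : ctr r x {p, p'} ≤ 1 := by unfold ctr; omega
  refine ⟨hU.par (isRank_ctr hr x) H.hk H.hn (p' := p') (by simp [hp'E, hp'x]) hp'p
    (h1 p hpE hpx) (h1 p' hp'E hp'x) h2, ?_⟩
  exact (cn_ctr hr hT h4 hx).par (isRank_ctr hr x) (by simp [hpE, hpx]) (by simp [hp'E, hp'x])
    hp'p (by rw [h1 p' hp'E hp'x]; exact h2)

/-- Step F. -/
theorem stepF (hI : IH R Good k n E.card) (hG : Good C E) (hT : TC (rk C) E) {x : α}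
    (hx : x ∈ E) (hSI : SI (rk C) E x) (hU : Rich (ctr (rk C) x) (E.erase x) k n) :
    TC (ctr (rk C) x) (E.erase x) ∨ ∃ d, Conf R d C := by
  have hr := isRank_rk C
  have hcard := hU.card_le
  have hkn := H.hk
  have hnn := H.hn
  have hce := Finset.card_erase_of_mem hx
  have h4 : 4 ≤ E.card := by omega
  by_cases hTC : TC (ctr (rk C) x) (E.erase x)
  · exact Or.inl hTC
  right
  have hQ := hU.qc hr hT h4 hx H.hk H.hn
  obtain ⟨p, q, hpq, hlp, hlq, hcp, hcq, hr3⟩ := tplus hr hT h4 hx hQ hSI hTC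
  have h1 := rich_long H hr hT h4 hx hU hlp
  have h2 := rich_long H hr hT h4 hx hU hlq
  have hUp : Rich (rk C) (E.erase p) k n := by
    refine Rich.of_ctr hr (x := x) (by simp [hx, Ne.symm hlp.2.1]) ?_
    rw [← commE]; exact h1.1
  have hUq : Rich (rk C) (E.erase q) k n := by
    refine Rich.of_ctr hr (x := x) (by simp [hx, Ne.symm hlq.2.1]) ?_
    rw [← commE]; exact h2.1
  exact two_del H.toClsA hG hx hlp.1 hlq.1 (Ne.symm hlp.2.1) (Ne.symm hlq.2.1) hpq
    (si_conf H hI hG hT hx hSI hU) (co_conf H hI hG hT hlp.1 hcp hUp)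
    (co_conf H hI hG hT hlq.1 hcq hUq) h1.2 h2.2 h1.1 h2.1 hr3

/-- Step F for the dual. -/
theorem stepF' (hI : IH R Good k n E.card) (hG : Good C E) (hT : TC (rk C) E) {x : α}
    (hx : x ∈ E) (hCO : CO (rk C) E x) (hU : Rich (rk C) (E.erase x) k n) :
    TC (rk C) (E.erase x) ∨ ∃ d, Conf R d C := by
  have hr := isRank_rk C
  have hS := H.supp C E hG
  obtain ⟨h1, h2⟩ := co_dual H hG hx hCO hU
  rcases stepF H hI (H.dual C E hG) (by rw [rk_perp_fun hS]; exact hT.dual hr) hx h1 h2 with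
    h3 | ⟨d, hd⟩
  · left
    rw [rk_perp_fun hS] at h3
    exact (h3.congr fun X hX => dl_ctr hr hx hX).of_dual hr
  · right; exact ⟨d, hd.of_perp hS H.starcl⟩

/-- Step C1. -/
theorem stepC1 (hI : IH R Good k n E.card) (hG : Good C E) (hT : TC (rk C) E) {x y : α}
    (hx : x ∈ E) (hy : y ∈ E) (hxy : x ≠ y) (hTx : TC (ctr (rk C) x) (E.erase x))
    (hSI : SI (ctr (rk C) x) (E.erase x) y)
    (hU : Rich (ctr (ctr (rk C) x) y) ((E.erase x).erase y) k n) : ∃ d, Conf R d C := by
  have hr := isRank_rk C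
  have hr1 := isRank_ctr hr x
  have hcard := hU.card_le
  have hkn := H.hk
  have hnn := H.hn
  have hyx : y ∈ E.erase x := by simp [hy, Ne.symm hxy]
  have hce := Finset.card_erase_of_mem hx
  have hce2 := Finset.card_erase_of_mem hyx
  have hE1 : 4 ≤ (E.erase x).card := by omega
  have h4 : 4 ≤ E.card := by omega
  have hU1 : Rich (ctr (rk C) x) (E.erase x) k n := hU.of_ctr hr1 hyx
  have hG1 := H.ctr C E x hG hx
  have hc0 : ∃ d, Conf R d (C ⊓ Zr K {x}) := hI _ _ hG1 (by rw [rk_ctr_fun]; exact hTx)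
    (by rw [rk_ctr_fun]; exact hU1) (by omega)
  by_cases hTC : TC (ctr (ctr (rk C) x) y) ((E.erase x).erase y)
  · have hSIy := lift_ctr hr hT h4 hx hy hxy hTC
    have hUy : Rich (ctr (rk C) y) (E.erase y) k n := by
      refine Rich.of_ctr (isRank_ctr hr y) (x := x) (by simp [hx, hxy]) ?_
      rw [← rk_ctr_fun C y, ← rk_ctr_fun _ x, inf_inf_Zr, rk_ctr_fun, rk_ctr_fun, ← commE]
      exact hU
    rcases stepF H hI hG hT hy hSIy hUy with hTy | hdone
    swap
    · exact hdone
    obtain ⟨d0, hd0⟩ := hc0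
    obtain ⟨d1, hd1⟩ := hI _ _ (H.ctr C E y hG hy) (by rw [rk_ctr_fun]; exact hTy)
      (by rw [rk_ctr_fun]; exact hUy) (by rw [Finset.card_erase_of_mem hy]; omega)
    refine conf_gamma (H.qu C E hG) (H.supp C E hG) H.starcl hxy
      (hT.pair hr h4 hx hy hxy).ge hd0 hd1 ?_
    refine H.al _ _ (H.ctr _ _ y hG1 hyx) ?_ ?_
    · rw [rk_ctr_fun, rk_ctr_fun]; exact hTC.1
    · rw [rk_ctr_fun, rk_ctr_fun]; exact hU
  · have hQ := hU.qc hr1 hTx hE1 hyx H.hk H.hn
    obtain ⟨p, q, hpq, hlp, hlq, hcp, hcq, hr3⟩ := tplus hr1 hTx hE1 hyx hQ hSI hTC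
    have hpE : p ∈ E ∧ p ≠ x := by have := hlp.1; simp only [mem_erase] at this; tauto
    have hqE : q ∈ E ∧ q ≠ x := by have := hlq.1; simp only [mem_erase] at this; tauto
    have key : ∀ p, Lng (ctr (rk C) x) (E.erase x) y p → CO (ctr (rk C) x) (E.erase x) p →
        p ∈ E → p ≠ x → (Rich (ctr (rk C) x) ((E.erase x).erase p) k n) ∧
        ((∃ d, Conf R d C) ∨ (TC (rk C) (E.erase p) ∧
          ∃ d, Conf R d (C.map (res K (E.erase p))))) := by
      intro p hlp hcp hpE hpx
      have h1 := rich_long H hr1 hTx hE1 hyx hU hlp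
      have hUp1 : Rich (ctr (rk C) x) ((E.erase x).erase p) k n := by
        refine Rich.of_ctr hr1 (x := y) (by simp [hy, Ne.symm hxy, Ne.symm hlp.2.1]) ?_
        rw [← commE]; exact h1.1
      have hUp : Rich (rk C) (E.erase p) k n := by
        refine Rich.of_ctr hr (x := x) (by simp [hx, Ne.symm hpx]) ?_
        rw [← commE]; exact hUp1
      have hCOp := lift_co hr hT h4 hx hpE (Ne.symm hpx) hTx hcp
      refine ⟨hUp1, ?_⟩
      rcases stepF' H hI hG hT hpE hCOp hUp with h2 | h2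
      · exact Or.inr ⟨h2, co_conf H hI hG hT hpE hCOp hUp⟩
      · exact Or.inl h2
    obtain ⟨hUp, hp2⟩ := key p hlp hcp hpE.1 hpE.2
    obtain ⟨hUq, hq2⟩ := key q hlq hcq hqE.1 hqE.2
    rcases hp2 with hdone | ⟨hTp, hcp'⟩
    · exact hdone
    rcases hq2 with hdone | ⟨hTq, hcq'⟩
    · exact hdone
    refine two_del H.toClsA hG hx hpE.1 hqE.1 (Ne.symm hpE.2) (Ne.symm hqE.2) hpq hc0 hcp' hcq'
      (hTx.cn_del hr1 hE1 hlp.1) (hTx.cn_del hr1 hE1 hlq.1) hUp hUq ?_
    have h1 : rk C E ≤ rk C (E.erase p) := hT.compl1 hr h4 hpE.1 (fun z hz => by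
      simp only [mem_erase]; tauto)
    have hcp3 := Finset.card_erase_of_mem hpE.1
    have h2 := hTp.compl2 hr (by omega) (a := x) (b := q) (by simp [hx, Ne.symm hpE.2])
      (by simp [hqE.1, Ne.symm hpq]) (Ne.symm hqE.2) (Y := E \ {x, p, q}) (fun z hz => by
        simp only [mem_erase] at hz
        simp only [mem_sdiff, mem_insert, mem_singleton]; tauto)
    omega

/-- Step C2. -/
theorem stepC2 (hI : IH R Good k n E.card) (hG : Good C E) (hT : TC (rk C) E) {x y : α}
    (hx : x ∈ E) (hy : y ∈ E) (hxy : x ≠ y) (hTx : TC (ctr (rk C) x) (E.erase x))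
    (hCO : CO (ctr (rk C) x) (E.erase x) y)
    (hU : Rich (ctr (rk C) x) ((E.erase x).erase y) k n) : ∃ d, Conf R d C := by
  have hr := isRank_rk C
  have hr1 := isRank_ctr hr x
  have hS := H.supp C E hG
  have hcard := hU.card_le
  have hkn := H.hk
  have hnn := H.hn
  have hyx : y ∈ E.erase x := by simp [hy, Ne.symm hxy]
  have hxy' : x ∈ E.erase y := by simp [hx, hxy]
  have hce := Finset.card_erase_of_mem hx
  have hce2 := Finset.card_erase_of_mem hyx
  have h4 : 4 ≤ E.card := by omega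
  have hCOy := lift_co hr hT h4 hx hy hxy hTx hCO
  have hUy : Rich (rk C) (E.erase y) k n := by
    refine Rich.of_ctr hr (x := x) hxy' ?_
    rw [← commE]; exact hU
  rcases stepF' H hI hG hT hy hCOy hUy with hTy | hdone
  swap
  · exact hdone
  have hTK := lift_tc hr hT (by omega) hx hy hxy hTy hCO
  by_cases hcn : E.card = n + 2
  · exact H.hb3 C E x y hG hT hx hy hxy hTx hTy hTK hU hcn hI
  have hrem : ∃ g ∈ (E.erase x).erase y,
      (SI (ctr (rk C) x) ((E.erase x).erase y) g ∧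
        Rich (ctr (ctr (rk C) x) g) (((E.erase x).erase y).erase g) k n) ∨
      (CO (ctr (rk C) x) ((E.erase x).erase y) g ∧
        Rich (ctr (rk C) x) (((E.erase x).erase y).erase g) k n) := by
    rcases hU with hU | hU
    · obtain ⟨g, hg, h1 | h1⟩ := removable hr1 hTK H.hk H.hn hU (by omega)
      · exact ⟨g, hg, Or.inl ⟨h1.1, Or.inl h1.2⟩⟩
      · exact ⟨g, hg, Or.inr ⟨h1.1, Or.inl h1.2⟩⟩
    · obtain ⟨g, hg, h1 | h1⟩ := removable hr1 hTK (by omega) (by omega) hU (by omega)
      · exact ⟨g, hg, Or.inl ⟨h1.1, Or.inr h1.2⟩⟩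
      · exact ⟨g, hg, Or.inr ⟨h1.1, Or.inr h1.2⟩⟩
  obtain ⟨g, hg, ⟨hSIg, hUg⟩ | ⟨hCOg, hUg⟩⟩ := hrem
  · have hg' : g ∈ E ∧ g ≠ x ∧ g ≠ y := by simp only [mem_erase] at hg; tauto
    have h1 := lift_si hr1 hTx (by omega) hyx (by simp [hg']) (Ne.symm hg'.2.2) hTK hSIg
    refine stepC1 H hI hG hT hx hg'.1 (Ne.symm hg'.2.1) hTx h1 ?_
    refine hUg.mono ?_
    intro z hz; simp only [mem_erase] at hz ⊢; tauto
  · have hg' : g ∈ E ∧ g ≠ x ∧ g ≠ y := by simp only [mem_erase] at hg; tauto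
    -- dualise
    have hGd := H.dual C E hG
    have hTd : TC (rk (perp C E)) E := by rw [rk_perp_fun hS]; exact hT.dual hr
    have hrd : IsRank (dl (rk C) E) := isRank_dl hr E
    have hTyd : TC (ctr (dl (rk C) E) y) (E.erase y) :=
      (hTy.dual hr).congr fun X hX => (dl_ctr hr hy hX).symm
    have heq : ∀ X ⊆ (E.erase x).erase y, dl (ctr (rk C) x) ((E.erase x).erase y) X =
        ctr (dl (rk C) E) y X := by
      intro X hX
      rw [dl_ctr hr hy (hX.trans (by intro z hz; simp only [mem_erase] at hz ⊢; tauto))]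
      rw [dl_del hr hxy' (by rw [← commE]; exact hX), ← commE]
    have hTKd : TC (ctr (dl (rk C) E) y) ((E.erase y).erase x) := by
      rw [← commE]; exact (hTK.dual hr1).congr heq
    have hSId : SI (ctr (dl (rk C) E) y) ((E.erase y).erase x) g := by
      rw [← commE]; exact (hCOg.dual hr1 hg).congr hg heq
    have hgd : SI (ctr (dl (rk C) E) y) (E.erase y) g :=
      lift_si (isRank_ctr hrd y) hTyd (by rw [Finset.card_erase_of_mem hy]; omega) hxy'
        (by simp [hg']) (Ne.symm hg'.2.1) hTKd hSId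
    have hUd : Rich (ctr (ctr (dl (rk C) E) y) g) ((E.erase y).erase g) k n := by
      have h1 := hUg.conv_ctr hr1 hg (by omega)
      have h2 : Rich (ctr (ctr (dl (rk C) E) y) g) (((E.erase x).erase y).erase g) k n := by
        refine h1.congr fun X hX => ?_
        change dl (ctr (rk C) x) ((E.erase x).erase y) (insert g X) -
          dl (ctr (rk C) x) ((E.erase x).erase y) {g} = ctr (dl (rk C) E) y (insert g X) -
          ctr (dl (rk C) E) y {g}
        rw [heq (insert g X) (by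
          intro z hz
          rcases Finset.mem_insert.1 hz with rfl | hz
          · exact hg
          · exact (Finset.erase_subset _ _) (hX hz)), heq {g} (by intro z hz; rw [mem_singleton] at hz; exact hz ▸ hg)]
      refine h2.mono ?_
      intro z hz; simp only [mem_erase] at hz ⊢; tauto
    obtain ⟨d, hd⟩ := stepC1 H hI hGd hTd hy hg'.1 (Ne.symm hg'.2.2)
      (by rw [rk_perp_fun hS]; exact hTyd) (by rw [rk_perp_fun hS]; exact hgd)
      (by rw [rk_perp_fun hS]; exact hUd)
    exact ⟨d, hd.of_perp hS H.starcl⟩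

/-- The case of a contractible element. -/
theorem main_si (hI : IH R Good k n E.card) (hG : Good C E) (hT : TC (rk C) E) {x : α}
    (hx : x ∈ E) (hSI : SI (rk C) E x) (hU : Rich (ctr (rk C) x) (E.erase x) k n) :
    ∃ d, Conf R d C := by
  have hr := isRank_rk C
  have hr1 := isRank_ctr hr x
  have hcard := hU.card_le
  have hkn := H.hk
  have hnn := H.hn
  have hce := Finset.card_erase_of_mem hx
  rcases stepF H hI hG hT hx hSI hU with hTx | hdone
  swap
  · exact hdone
  by_cases hcn : E.card = n + 1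
  · exact H.hb2 C E x hG hT hx hTx hU hcn
  have hrem : ∃ g ∈ E.erase x,
      (SI (ctr (rk C) x) (E.erase x) g ∧
        Rich (ctr (ctr (rk C) x) g) ((E.erase x).erase g) k n) ∨
      (CO (ctr (rk C) x) (E.erase x) g ∧
        Rich (ctr (rk C) x) ((E.erase x).erase g) k n) := by
    rcases hU with hU | hU
    · obtain ⟨g, hg, h1 | h1⟩ := removable hr1 hTx H.hk H.hn hU (by omega)
      · exact ⟨g, hg, Or.inl ⟨h1.1, Or.inl h1.2⟩⟩
      · exact ⟨g, hg, Or.inr ⟨h1.1, Or.inl h1.2⟩⟩
    · obtain ⟨g, hg, h1 | h1⟩ := removable hr1 hTx (by omega) (by omega) hU (by omega)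
      · exact ⟨g, hg, Or.inl ⟨h1.1, Or.inr h1.2⟩⟩
      · exact ⟨g, hg, Or.inr ⟨h1.1, Or.inr h1.2⟩⟩
  obtain ⟨y, hyE, ⟨h1, h2⟩ | ⟨h1, h2⟩⟩ := hrem
  · have hy' : y ∈ E ∧ y ≠ x := by simp only [mem_erase] at hyE; tauto
    exact stepC1 H hI hG hT hx hy'.1 (Ne.symm hy'.2) hTx h1 h2
  · have hy' : y ∈ E ∧ y ≠ x := by simp only [mem_erase] at hyE; tauto
    exact stepC2 H hI hG hT hx hy'.1 (Ne.symm hy'.2) hTx h1 h2

/-- The confinement theorem. -/
theorem confinement : ∀ (m : ℕ) (C : Submodule K (α → K)) (E : Finset α), E.card = m →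
    Good C E → TC (rk C) E → Rich (rk C) E k n → ∃ d, Conf R d C := by
  intro m
  induction m using Nat.strong_induction_on with
  | _ m ih =>
  intro C E hm hG hT hU
  have hr := isRank_rk C
  have hS := H.supp C E hG
  have hI : IH R Good k n E.card := fun C' E' h1 h2 h3 h4 =>
    ih E'.card (by omega) C' E' rfl h1 h2 h3
  have hcard := hU.card_le
  have hkn := H.hk
  have hnn := H.hn
  by_cases hcn : E.card = n
  · exact H.hb1 C E hG hT hU hcn
  have hrem : ∃ g ∈ E,
      (SI (rk C) E g ∧ Rich (ctr (rk C) g) (E.erase g) k n) ∨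
      (CO (rk C) E g ∧ Rich (rk C) (E.erase g) k n) := by
    rcases hU with hU | hU
    · obtain ⟨g, hg, h1 | h1⟩ := removable hr hT H.hk H.hn hU (by omega)
      · exact ⟨g, hg, Or.inl ⟨h1.1, Or.inl h1.2⟩⟩
      · exact ⟨g, hg, Or.inr ⟨h1.1, Or.inl h1.2⟩⟩
    · obtain ⟨g, hg, h1 | h1⟩ := removable hr hT (by omega) (by omega) hU (by omega)
      · exact ⟨g, hg, Or.inl ⟨h1.1, Or.inr h1.2⟩⟩
      · exact ⟨g, hg, Or.inr ⟨h1.1, Or.inr h1.2⟩⟩
  obtain ⟨x, hx, ⟨h1, h2⟩ | ⟨h1, h2⟩⟩ := hrem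
  · exact main_si H hI hG hT hx h1 h2
  · obtain ⟨h3, h4⟩ := co_dual H hG hx h1 h2
    obtain ⟨d, hd⟩ := main_si H hI (H.dual C E hG) (by rw [rk_perp_fun hS]; exact hT.dual hr) hx
      h3 h4
    exact ⟨d, hd.of_perp hS H.starcl⟩

end main

end Pool.Agent.K3h89.QU
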