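import Mathlib

/-!
# Quaternions: the rings and conjugations that are used
-/

set_option autoImplicit false
set_option linter.unusedSectionVars false
set_option linter.unusedSimpArgs false

namespace Pool.Agent.K3h89.QU

open Quaternion

/-- The real quaternions. -/
abbrev Q4 := Quaternion ℝ

lemma un_iff (u : Q4) : u ∈ unitary Q4 ↔ normSq u = 1 := by
  rw [Unitary.mem_iff, Quaternion.star_mul_self, Quaternion.self_mul_star, and_self]
  constructor
  · intro h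
    have := congrArg (fun q : Q4 => q.re) h
    simpa using this
  · intro h; rw [h]; simp

lemma nsq (u : Q4) : normSq u = u.re ^ 2 + u.imI ^ 2 + u.imJ ^ 2 + u.imK ^ 2 :=
  Quaternion.normSq_def' u

/-- The real numbers `(a + b√5)/2^k`. -/
def AR : Subring ℝ where
  carrier := {x | ∃ (a b : ℤ) (k : ℕ), 2 ^ k * x = a + b * √5}
  zero_mem' := ⟨0, 0, 0, by simp⟩
  one_mem' := ⟨1, 0, 0, by simp⟩
  add_mem' := by
    rintro x y ⟨a, b, k, h⟩ ⟨c, d, l, h'⟩
    refine ⟨2 ^ l * a + 2 ^ k * c, 2 ^ l * b + 2 ^ k * d, k + l, ?_⟩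
    push_cast
    rw [pow_add]
    linear_combination 2 ^ l * h + 2 ^ k * h'
  mul_mem' := by
    rintro x y ⟨a, b, k, h⟩ ⟨c, d, l, h'⟩
    refine ⟨a * c + 5 * b * d, a * d + b * c, k + l, ?_⟩
    push_cast
    rw [pow_add]
    have h5 : (√5 : ℝ) * √5 = 5 := Real.mul_self_sqrt (by norm_num)
    linear_combination (2 ^ l * y) * h + (a + b * √5) * h' + (b * d : ℝ) * h5
  neg_mem' := by
    rintro x ⟨a, b, k, h⟩
    refine ⟨-a, -b, k, ?_⟩
    push_cast
    linear_combination -h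

lemma AR_half : (1 / 2 : ℝ) ∈ AR := ⟨1, 0, 1, by norm_num⟩

lemma AR_int (n : ℤ) : (n : ℝ) ∈ AR := ⟨n, 0, 0, by simp⟩

lemma AR_sqrt : √5 ∈ AR := ⟨0, 1, 0, by simp⟩

lemma AR_two : (2 : ℝ) ∈ AR := ⟨2, 0, 0, by simp⟩

/-- The quaternions with coordinates in `AR`. -/
def DR : Subring Q4 where
  carrier := {x | x.re ∈ AR ∧ x.imI ∈ AR ∧ x.imJ ∈ AR ∧ x.imK ∈ AR}
  zero_mem' := by
    refine ⟨?_, ?_, ?_, ?_⟩ <;> simp
  one_mem' := by
    refine ⟨?_, ?_, ?_, ?_⟩ <;> simp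
  add_mem' := by
    rintro x y ⟨h1, h2, h3, h4⟩ ⟨g1, g2, g3, g4⟩
    exact ⟨AR.add_mem h1 g1, AR.add_mem h2 g2, AR.add_mem h3 g3, AR.add_mem h4 g4⟩
  mul_mem' := by
    rintro x y ⟨h1, h2, h3, h4⟩ ⟨g1, g2, g3, g4⟩
    refine ⟨?_, ?_, ?_, ?_⟩
    · rw [re_mul]
      exact AR.sub_mem (AR.sub_mem (AR.sub_mem (AR.mul_mem h1 g1) (AR.mul_mem h2 g2))
        (AR.mul_mem h3 g3)) (AR.mul_mem h4 g4)
    · rw [imI_mul]
      exact AR.sub_mem (AR.add_mem (AR.add_mem (AR.mul_mem h1 g2) (AR.mul_mem h2 g1))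
        (AR.mul_mem h3 g4)) (AR.mul_mem h4 g3)
    · rw [imJ_mul]
      exact AR.add_mem (AR.add_mem (AR.sub_mem (AR.mul_mem h1 g3) (AR.mul_mem h2 g4))
        (AR.mul_mem h3 g1)) (AR.mul_mem h4 g2)
    · rw [imK_mul]
      exact AR.add_mem (AR.sub_mem (AR.add_mem (AR.mul_mem h1 g4) (AR.mul_mem h2 g3))
        (AR.mul_mem h3 g2)) (AR.mul_mem h4 g1)
  neg_mem' := by
    rintro x ⟨h1, h2, h3, h4⟩
    exact ⟨AR.neg_mem h1, AR.neg_mem h2, AR.neg_mem h3, AR.neg_mem h4⟩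

lemma mem_DR {x : Q4} : x ∈ DR ↔ x.re ∈ AR ∧ x.imI ∈ AR ∧ x.imJ ∈ AR ∧ x.imK ∈ AR := Iff.rfl

lemma DR_star {x : Q4} (h : x ∈ DR) : star x ∈ DR := by
  obtain ⟨h1, h2, h3, h4⟩ := h
  refine ⟨by simpa using h1, ?_, ?_, ?_⟩
  · rw [imI_star]; exact AR.neg_mem h2
  · rw [imJ_star]; exact AR.neg_mem h3
  · rw [imK_star]; exact AR.neg_mem h4

lemma DR_smul {x : Q4} {a : ℝ} (ha : a ∈ AR) (h : x ∈ DR) : a • x ∈ DR := by
  obtain ⟨h1, h2, h3, h4⟩ := h
  exact ⟨AR.mul_mem ha h1, AR.mul_mem ha h2, AR.mul_mem ha h3, AR.mul_mem ha h4⟩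

/-- Basic relation. -/
structure Half (x : Q4) : Prop where
  n : normSq x = 1
  n' : normSq (1 - x) = 1

lemma half_re {x : Q4} (h : normSq x = 1) (h' : normSq (1 - x) = 1) : x.re = 1 / 2 := by
  rw [nsq] at h h'
  simp only [re_sub, imI_sub, imJ_sub, imK_sub, re_one, imI_one, imJ_one, imK_one] at h'
  linarith [h, h', sq_nonneg x.re]

/-- The three unit vectors given by a regular configuration. -/
noncomputable def ee3 (x y : Q4) : Q4 := x - y
noncomputable def ee2 (x y : Q4) : Q4 := (1 / 2 : ℝ) • ((1 + x - y) * (x + y - 1))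
noncomputable def ee1 (x y : Q4) : Q4 := (1 / 2 : ℝ) • ((1 - x + y) * (x + y - 1))

/-- `0, 1, x, y` is a regular tetrahedron. -/
structure Tet (x y : Q4) : Prop where
  nx : normSq x = 1
  ny : normSq y = 1
  nx1 : normSq (1 - x) = 1
  ny1 : normSq (1 - y) = 1
  nxy : normSq (x - y) = 1

lemma Tet.coords {x y : Q4} (h : Tet x y) : x.re = 1 / 2 ∧ y.re = 1 / 2 ∧
    x.imI ^ 2 + x.imJ ^ 2 + x.imK ^ 2 = 3 / 4 ∧ y.imI ^ 2 + y.imJ ^ 2 + y.imK ^ 2 = 3 / 4 ∧
    x.imI * y.imI + x.imJ * y.imJ + x.imK * y.imK = 1 / 4 := by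
  have h1 := half_re h.nx h.nx1
  have h2 := half_re h.ny h.ny1
  have h3 := h.nx
  have h4 := h.ny
  have h5 := h.nxy
  rw [nsq] at h3 h4 h5
  simp only [re_sub, imI_sub, imJ_sub, imK_sub] at h5
  rw [h1] at h3
  rw [h2] at h4
  rw [h1, h2] at h5
  refine ⟨h1, h2, by linarith, by linarith, by nlinarith⟩

/-- Coordinates of the three vectors. -/
lemma Tet.ee_coords {x y : Q4} (h : Tet x y) :
    (ee3 x y = ⟨0, x.imI - y.imI, x.imJ - y.imJ, x.imK - y.imK⟩) ∧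
    (ee2 x y = ⟨0, (x.imI + y.imI) / 2 + (x.imJ * y.imK - x.imK * y.imJ),
      (x.imJ + y.imJ) / 2 + (x.imK * y.imI - x.imI * y.imK),
      (x.imK + y.imK) / 2 + (x.imI * y.imJ - x.imJ * y.imI)⟩) ∧
    (ee1 x y = ⟨0, (x.imI + y.imI) / 2 - (x.imJ * y.imK - x.imK * y.imJ),
      (x.imJ + y.imJ) / 2 - (x.imK * y.imI - x.imI * y.imK),
      (x.imK + y.imK) / 2 - (x.imI * y.imJ - x.imJ * y.imI)⟩) := by
  obtain ⟨h1, h2, h3, h4, h5⟩ := h.coords
  refine ⟨?_, ?_, ?_⟩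
  · unfold ee3
    ext <;> simp [h1, h2]
  · unfold ee2
    ext <;> simp only [re_smul, imI_smul, imJ_smul, imK_smul, re_mul, imI_mul, imJ_mul, imK_mul,
      re_add, imI_add, imJ_add, imK_add, re_sub, imI_sub, imJ_sub, imK_sub,
      re_one, imI_one, imJ_one, imK_one, h1, h2, smul_eq_mul]
    · linear_combination -(1 / 2) * h3 + (1 / 2) * h4
    · ring
    · ring
    · ring
  · unfold ee1
    ext <;> simp only [re_smul, imI_smul, imJ_smul, imK_smul, re_mul, imI_mul, imJ_mul, imK_mul,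
      re_add, imI_add, imJ_add, imK_add, re_sub, imI_sub, imJ_sub, imK_sub,
      re_one, imI_one, imJ_one, imK_one, h1, h2, smul_eq_mul]
    · linear_combination (1 / 2) * h3 - (1 / 2) * h4
    · ring
    · ring
    · ring

lemma orth3 {a1 a2 a3 b1 b2 b3 c1 c2 c3 : ℝ} (h11 : a1 ^ 2 + a2 ^ 2 + a3 ^ 2 = 1)
    (h22 : b1 ^ 2 + b2 ^ 2 + b3 ^ 2 = 1) (h33 : c1 ^ 2 + c2 ^ 2 + c3 ^ 2 = 1)
    (h12 : a1 * b1 + a2 * b2 + a3 * b3 = 0) (h13 : a1 * c1 + a2 * c2 + a3 * c3 = 0)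
    (h23 : b1 * c1 + b2 * c2 + b3 * c3 = 0) :
    (a1 ^ 2 + b1 ^ 2 + c1 ^ 2 = 1 ∧ a2 ^ 2 + b2 ^ 2 + c2 ^ 2 = 1 ∧ a3 ^ 2 + b3 ^ 2 + c3 ^ 2 = 1) ∧
    (a1 * a2 + b1 * b2 + c1 * c2 = 0 ∧ a1 * a3 + b1 * b3 + c1 * c3 = 0 ∧
      a2 * a3 + b2 * b3 + c2 * c3 = 0) := by
  have h : (!![a1, a2, a3; b1, b2, b3; c1, c2, c3] : Matrix (Fin 3) (Fin 3) ℝ) *
      !![a1, b1, c1; a2, b2, c2; a3, b3, c3] = 1 := by
    ext i j
    fin_cases i <;> fin_cases j <;> simp [Matrix.mul_apply, Fin.sum_univ_three] <;>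
      linarith
  rw [mul_eq_one_comm] at h
  have g := fun i j => congrFun (congrFun h i) j
  have g00 := g 0 0
  have g11 := g 1 1
  have g22 := g 2 2
  have g01 := g 0 1
  have g02 := g 0 2
  have g12 := g 1 2
  simp [Matrix.mul_apply, Fin.sum_univ_three] at g00 g11 g22 g01 g02 g12
  refine ⟨⟨?_, ?_, ?_⟩, ?_, ?_, ?_⟩ <;> linarith

/-- The three vectors span. -/
lemma Tet.expand {x y : Q4} (h : Tet x y) (z : Q4) : ∃ c1 c2 c3 : ℝ,
    c1 = z.imI * (ee1 x y).imI + z.imJ * (ee1 x y).imJ + z.imK * (ee1 x y).imK ∧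
    c2 = z.imI * (ee2 x y).imI + z.imJ * (ee2 x y).imJ + z.imK * (ee2 x y).imK ∧
    c3 = z.imI * (ee3 x y).imI + z.imJ * (ee3 x y).imJ + z.imK * (ee3 x y).imK ∧
    z = z.re • (1 : Q4) + c1 • ee1 x y + c2 • ee2 x y + c3 • ee3 x y := by
  obtain ⟨e3, e2, e1⟩ := h.ee_coords
  obtain ⟨h1, h2, h3, h4, h5⟩ := h.coords
  refine ⟨_, _, _, rfl, rfl, rfl, ?_⟩
  rw [e1, e2, e3]
  set a1 := x.imI
  set a2 := x.imJ
  set a3 := x.imK
  set b1 := y.imI
  set b2 := y.imJ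
  set b3 := y.imK
  have o := orth3 (a1 := (a1 + b1) / 2 - (a2 * b3 - a3 * b2))
    (a2 := (a2 + b2) / 2 - (a3 * b1 - a1 * b3)) (a3 := (a3 + b3) / 2 - (a1 * b2 - a2 * b1))
    (b1 := (a1 + b1) / 2 + (a2 * b3 - a3 * b2))
    (b2 := (a2 + b2) / 2 + (a3 * b1 - a1 * b3)) (b3 := (a3 + b3) / 2 + (a1 * b2 - a2 * b1))
    (c1 := a1 - b1) (c2 := a2 - b2) (c3 := a3 - b3)
    (by linear_combination (1/4 + (b1 ^ 2 + b2 ^ 2 + b3 ^ 2)) * h3 + h4 +
          (1/2 - (a1 * b1 + a2 * b2 + a3 * b3 + 1 / 4)) * h5)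
    (by linear_combination (1/4 + (b1 ^ 2 + b2 ^ 2 + b3 ^ 2)) * h3 + h4 +
          (1/2 - (a1 * b1 + a2 * b2 + a3 * b3 + 1 / 4)) * h5)
    (by linear_combination h3 + h4 - 2 * h5)
    (by linear_combination (1/4 - (b1 ^ 2 + b2 ^ 2 + b3 ^ 2)) * h3 + (1 / 4 - 3 / 4) * h4 +
          (1/2 + (a1 * b1 + a2 * b2 + a3 * b3 + 1 / 4)) * h5)
    (by linear_combination (1/2) * h3 - (1 / 2) * h4)
    (by linear_combination (1/2) * h3 - (1 / 2) * h4)
  obtain ⟨⟨o1, o2, o3⟩, o4, o5, o6⟩ := o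
  ext
  · simp
  · simp only [re_smul, imI_smul, imJ_smul, imK_smul, re_add, imI_add, imJ_add, imK_add,
      re_one, imI_one, imJ_one, imK_one, smul_eq_mul]
    linear_combination -z.imI * o1 - z.imJ * o4 - z.imK * o5
  · simp only [re_smul, imI_smul, imJ_smul, imK_smul, re_add, imI_add, imJ_add, imK_add,
      re_one, imI_one, imJ_one, imK_one, smul_eq_mul]
    linear_combination -z.imI * o4 - z.imJ * o2 - z.imK * o6
  · simp only [re_smul, imI_smul, imJ_smul, imK_smul, re_add, imI_add, imJ_add, imK_add,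
      re_one, imI_one, imJ_one, imK_one, smul_eq_mul]
    linear_combination -z.imI * o5 - z.imJ * o6 - z.imK * o3

lemma DR_ee {x y : Q4} (hx : x ∈ DR) (hy : y ∈ DR) :
    ee1 x y ∈ DR ∧ ee2 x y ∈ DR ∧ ee3 x y ∈ DR :=
  ⟨DR_smul AR_half (DR.mul_mem (DR.add_mem (DR.sub_mem DR.one_mem hx) hy)
      (DR.sub_mem (DR.add_mem hx hy) DR.one_mem)),
    DR_smul AR_half (DR.mul_mem (DR.sub_mem (DR.add_mem DR.one_mem hx) hy)
      (DR.sub_mem (DR.add_mem hx hy) DR.one_mem)), DR.sub_mem hx hy⟩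

lemma cj_mul {h : Q4} (hh : h ∈ unitary Q4) (a b : Q4) :
    star h * (a * b) * h = (star h * a * h) * (star h * b * h) := by
  have h1 : h * star h = 1 := (Unitary.mem_iff.1 hh).2
  calc star h * (a * b) * h = star h * a * 1 * b * h := by rw [mul_one]; simp only [mul_assoc]
    _ = _ := by rw [← h1]; simp only [mul_assoc]

lemma cj_one {h : Q4} (hh : h ∈ unitary Q4) : star h * 1 * h = 1 := by
  rw [mul_one]; exact (Unitary.mem_iff.1 hh).1

lemma cj_add (h a b : Q4) : star h * (a + b) * h = star h * a * h + star h * b * h := by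
  rw [mul_add, add_mul]

lemma cj_sub (h a b : Q4) : star h * (a - b) * h = star h * a * h - star h * b * h := by
  rw [mul_sub, sub_mul]

lemma cj_smul (h a : Q4) (c : ℝ) : star h * (c • a) * h = c • (star h * a * h) := by
  rw [mul_smul_comm, smul_mul_assoc]

lemma cj_ee {x y h : Q4} (hh : h ∈ unitary Q4) :
    star h * ee1 x y * h = ee1 (star h * x * h) (star h * y * h) ∧
    star h * ee2 x y * h = ee2 (star h * x * h) (star h * y * h) ∧
    star h * ee3 x y * h = ee3 (star h * x * h) (star h * y * h) := by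
  refine ⟨?_, ?_, ?_⟩
  · unfold ee1
    rw [cj_smul, cj_mul hh, cj_add, cj_sub, cj_sub, cj_add, cj_one hh]
  · unfold ee2
    rw [cj_smul, cj_mul hh, cj_sub, cj_add, cj_sub, cj_add, cj_one hh]
  · unfold ee3
    rw [cj_sub]

/-- A unit quaternion that carries a regular tetrahedron of `DR` into `DR` normalises `DR`. -/
theorem DR_norm {x y h : Q4} (hT : Tet x y) (hx : x ∈ DR) (hy : y ∈ DR) (hh : h ∈ unitary Q4)
    (hx' : star h * x * h ∈ DR) (hy' : star h * y * h ∈ DR) :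
    ∀ z ∈ DR, star h * z * h ∈ DR := by
  intro z hz
  obtain ⟨c1, c2, c3, h1, h2, h3, h4⟩ := hT.expand z
  obtain ⟨d1, d2, d3⟩ := DR_ee hx hy
  obtain ⟨g1, g2, g3⟩ := cj_ee (x := x) (y := y) hh
  obtain ⟨k1, k2, k3⟩ := DR_ee hx' hy'
  rw [← g1] at k1
  rw [← g2] at k2
  rw [← g3] at k3
  have ip : ∀ w ∈ DR, z.imI * w.imI + z.imJ * w.imJ + z.imK * w.imK ∈ AR := fun w hw =>
    AR.add_mem (AR.add_mem (AR.mul_mem hz.2.1 hw.2.1) (AR.mul_mem hz.2.2.1 hw.2.2.1))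
      (AR.mul_mem hz.2.2.2 hw.2.2.2)
  rw [h4, cj_add, cj_add, cj_add, cj_smul, cj_smul, cj_smul, cj_smul, cj_one hh]
  refine DR.add_mem (DR.add_mem (DR.add_mem (DR_smul hz.1 DR.one_mem)
    (DR_smul (h1 ▸ ip _ d1) k1)) (DR_smul (h2 ▸ ip _ d2) k2)) (DR_smul (h3 ▸ ip _ d3) k3)

lemma cj_normSq {h : Q4} (hh : h ∈ unitary Q4) (a : Q4) : normSq (star h * a * h) = normSq a := by
  rw [un_iff] at hh
  rw [map_mul, map_mul, Quaternion.normSq_star, hh]; ring

lemma Tet.cj {x y h : Q4} (hT : Tet x y) (hh : h ∈ unitary Q4) :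
    Tet (star h * x * h) (star h * y * h) where
  nx := by rw [cj_normSq hh]; exact hT.nx
  ny := by rw [cj_normSq hh]; exact hT.ny
  nx1 := by
    have := cj_normSq hh (1 - x)
    rw [cj_sub, cj_one hh] at this
    rw [this]; exact hT.nx1
  ny1 := by
    have := cj_normSq hh (1 - y)
    rw [cj_sub, cj_one hh] at this
    rw [this]; exact hT.ny1
  nxy := by rw [← cj_sub, cj_normSq hh]; exact hT.nxy

/-- The standard units. -/
def qi : Q4 := ⟨0, 1, 0, 0⟩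
def qj : Q4 := ⟨0, 0, 1, 0⟩
def qk : Q4 := ⟨0, 0, 0, 1⟩

/-- Standard tetrahedron. -/
noncomputable def p0 : Q4 := ⟨1/2, 1/2, 1/2, 1/2⟩
noncomputable def q0 : Q4 := ⟨1/2, 1/2, 1/2, -1/2⟩

/-- the intertwiner -/
noncomputable def TT (e1 e2 t : Q4) : Q4 := t - e1 * t * qi - e2 * t * qj - e1 * e2 * t * qk

lemma exists_TT (e1 e2 : Q4) (h1 : e1.re = 0) (h2 : e2.re = 0) (h3 : (e1 * e2).re = 0) :
    ∃ t, TT e1 e2 t ≠ 0 := by
  by_contra hcon
  push Not at hcon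
  have k1 := congrArg (fun q : Q4 => q.re) (hcon 1)
  have k2 := congrArg (fun q : Q4 => q.imI) (hcon qi)
  have k3 := congrArg (fun q : Q4 => q.imJ) (hcon qj)
  have k4 := congrArg (fun q : Q4 => q.imK) (hcon qk)
  rw [re_mul] at h3
  simp only [TT, qi, qj, qk, re_sub, imI_sub, imJ_sub, imK_sub, re_mul, imI_mul, imJ_mul, imK_mul,
    re_one, imI_one, imJ_one, imK_one, re_zero, imI_zero, imJ_zero, imK_zero] at k1 k2 k3 k4
  linarith

lemma TT_comm {e1 e2 : Q4} (h1 : e1 * e1 = -1) (h2 : e2 * e2 = -1) (h12 : e2 * e1 = -(e1 * e2))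
    (t : Q4) : e1 * TT e1 e2 t = TT e1 e2 t * qi ∧ e2 * TT e1 e2 t = TT e1 e2 t * qj := by
  have ii : qi * qi = -1 := by ext <;> simp [qi]
  have jj : qj * qj = -1 := by ext <;> simp [qj]
  have ji : qj * qi = -qk := by ext <;> simp [qi, qj, qk]
  have ij : qi * qj = qk := by ext <;> simp [qi, qj, qk]
  have ki : qk * qi = qj := by ext <;> simp [qi, qj, qk]
  have kj : qk * qj = -qi := by ext <;> simp [qi, qj, qk]
  have a1 : e1 * (e1 * t * qi) = -(t * qi) := by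
    rw [← mul_assoc, ← mul_assoc, h1]; simp
  have a2 : e1 * (e1 * e2 * t * qk) = -(e2 * t * qk) := by
    rw [← mul_assoc, ← mul_assoc, ← mul_assoc, h1]; simp
  have a3 : e2 * (e2 * t * qj) = -(t * qj) := by
    rw [← mul_assoc, ← mul_assoc, h2]; simp
  have a4 : e2 * (e1 * t * qi) = -(e1 * e2 * t * qi) := by
    rw [← mul_assoc, ← mul_assoc, h12]; simp
  have a5 : e2 * (e1 * e2 * t * qk) = e1 * t * qk := by
    rw [← mul_assoc, ← mul_assoc, ← mul_assoc, h12]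
    simp only [neg_mul]
    rw [mul_assoc e1, h2]; simp
  unfold TT
  constructor
  · simp only [mul_sub, sub_mul]
    rw [a1, a2]
    simp only [mul_assoc, ii, ji, ki]
    simp only [mul_neg, mul_one]
    abel
  · simp only [mul_sub, sub_mul]
    rw [a3, a4, a5]
    simp only [mul_assoc, ij, jj, kj]
    simp only [mul_neg, mul_one]
    abel

lemma exists_unit_of {x y x' y' t : Q4} (ht : t ≠ 0) (hx : x * t = t * x') (hy : y * t = t * y') :
    ∃ h ∈ unitary Q4, star h * x * h = x' ∧ star h * y * h = y' := by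
  have hn : 0 < normSq t := lt_of_le_of_ne normSq_nonneg (Ne.symm (normSq_ne_zero.2 ht))
  set c : ℝ := (√(normSq t))⁻¹ with hc
  have hc2 : c ^ 2 * normSq t = 1 := by
    rw [hc, inv_pow, Real.sq_sqrt hn.le]; exact inv_mul_cancel₀ hn.ne'
  have hU : c • t ∈ unitary Q4 := by rw [un_iff, normSq_smul, hc2]
  have h1 : star (c • t) * (c • t) = 1 := (Unitary.mem_iff.1 hU).1
  have key : ∀ z z' : Q4, z * t = t * z' → star (c • t) * z * (c • t) = z' := by
    intro z z' hz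
    have h2 : z * (c • t) = (c • t) * z' := by
      rw [mul_smul_comm, hz, smul_mul_assoc]
    rw [mul_assoc, h2, ← mul_assoc, h1, one_mul]
  exact ⟨c • t, hU, key _ _ hx, key _ _ hy⟩

/-- All regular tetrahedra `0, 1, x, y` are conjugate. -/
theorem Tet.conj {x y : Q4} (h : Tet x y) :
    ∃ u ∈ unitary Q4, star u * x * u = p0 ∧ star u * y * u = q0 := by
  obtain ⟨e3, e2, e1⟩ := h.ee_coords
  obtain ⟨h1, h2, h3, h4, h5⟩ := h.coords
  set a1 := x.imI with ha1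
  set a2 := x.imJ with ha2
  set a3 := x.imK with ha3
  set b1 := y.imI with hb1
  set b2 := y.imJ with hb2
  set b3 := y.imK with hb3
  have n1 : ee1 x y * ee1 x y = -1 := by
    rw [e1]
    ext <;> simp only [re_mul, imI_mul, imJ_mul, imK_mul, re_neg, imI_neg, imJ_neg, imK_neg,
      re_one, imI_one, imJ_one, imK_one]
    · linear_combination -(1/4 + (b1 ^ 2 + b2 ^ 2 + b3 ^ 2)) * h3 - h4 -
          (1/2 - (a1 * b1 + a2 * b2 + a3 * b3 + 1 / 4)) * h5
    · ring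
    · ring
    · ring
  have n2 : ee2 x y * ee2 x y = -1 := by
    rw [e2]
    ext <;> simp only [re_mul, imI_mul, imJ_mul, imK_mul, re_neg, imI_neg, imJ_neg, imK_neg,
      re_one, imI_one, imJ_one, imK_one]
    · linear_combination -(1/4 + (b1 ^ 2 + b2 ^ 2 + b3 ^ 2)) * h3 - h4 -
          (1/2 - (a1 * b1 + a2 * b2 + a3 * b3 + 1 / 4)) * h5
    · ring
    · ring
    · ring
  have n12 : (ee1 x y * ee2 x y) = ee3 x y := by
    rw [e1, e2, e3]
    ext <;> simp only [re_mul, imI_mul, imJ_mul, imK_mul, re_neg, imI_neg, imJ_neg, imK_neg,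
      re_one, imI_one, imJ_one, imK_one]
    · linear_combination -(1/4 - (b1 ^ 2 + b2 ^ 2 + b3 ^ 2)) * h3 - (1 / 4 - 3 / 4) * h4 -
          (1/2 + (a1 * b1 + a2 * b2 + a3 * b3 + 1 / 4)) * h5
    · linear_combination a1 * h4 - b1 * h3 + (a1 - b1) * h5
    · linear_combination a2 * h4 - b2 * h3 + (a2 - b2) * h5
    · linear_combination a3 * h4 - b3 * h3 + (a3 - b3) * h5
  have n21 : ee2 x y * ee1 x y = -(ee1 x y * ee2 x y) := by
    rw [n12, e1, e2, e3]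
    ext <;> simp only [re_mul, imI_mul, imJ_mul, imK_mul, re_neg, imI_neg, imJ_neg, imK_neg,
      re_one, imI_one, imJ_one, imK_one]
    · linear_combination -(1/4 - (b1 ^ 2 + b2 ^ 2 + b3 ^ 2)) * h3 - (1 / 4 - 3 / 4) * h4 -
          (1/2 + (a1 * b1 + a2 * b2 + a3 * b3 + 1 / 4)) * h5
    · linear_combination -(a1 * h4 - b1 * h3 + (a1 - b1) * h5)
    · linear_combination -(a2 * h4 - b2 * h3 + (a2 - b2) * h5)
    · linear_combination -(a3 * h4 - b3 * h3 + (a3 - b3) * h5)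
  obtain ⟨t, ht⟩ := exists_TT (ee1 x y) (ee2 x y) (by rw [e1]) (by rw [e2])
    (by rw [n12, e3])
  obtain ⟨c1, c2⟩ := TT_comm n1 n2 n21 t
  obtain ⟨u, hu, u1, u2⟩ := exists_unit_of ht c1 c2
  refine ⟨u, hu, ?_, ?_⟩
  · have hx : x = (1 / 2 : ℝ) • (1 + ee1 x y + ee2 x y + ee1 x y * ee2 x y) := by
      rw [n12, e1, e2, e3]
      ext <;> simp only [re_smul, imI_smul, imJ_smul, imK_smul, re_add, imI_add, imJ_add, imK_add,
        re_one, imI_one, imJ_one, imK_one, smul_eq_mul, h1, ha1, ha2, ha3] <;> ring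
    rw [hx, cj_smul, cj_add, cj_add, cj_add, cj_mul hu, cj_one hu, u1, u2]
    ext <;> simp [p0, qi, qj]
  · have hy : y = (1 / 2 : ℝ) • (1 + ee1 x y + ee2 x y - ee1 x y * ee2 x y) := by
      rw [n12, e1, e2, e3]
      ext <;> simp only [re_smul, imI_smul, imJ_smul, imK_smul, re_add, imI_add, imJ_add, imK_add,
        re_sub, imI_sub, imJ_sub, imK_sub,
        re_one, imI_one, imJ_one, imK_one, smul_eq_mul, h2, hb1, hb2, hb3] <;> ring
    rw [hy, cj_smul, cj_sub, cj_add, cj_add, cj_mul hu, cj_one hu, u1, u2]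
    ext <;> simp [q0, qi, qj]
    norm_num

/-- Two unit quaternions of real part one half are conjugate. -/
theorem half_conj {x y : Q4} (hx : normSq x = 1) (hy : normSq y = 1) (hx1 : x.re = 1 / 2)
    (hy1 : y.re = 1 / 2) : ∃ u ∈ unitary Q4, star u * x * u = y := by
  set P : Q4 := ⟨0, x.imI, x.imJ, x.imK⟩ with hP
  set P' : Q4 := ⟨0, y.imI, y.imJ, y.imK⟩ with hP'
  rw [nsq, hx1] at hx
  rw [nsq, hy1] at hy
  have hPP : P * P = (-(3 / 4) : ℝ) • (1 : Q4) := by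
    rw [hP]
    ext <;> simp only [re_mul, imI_mul, imJ_mul, imK_mul, re_smul, imI_smul, imJ_smul, imK_smul,
      re_one, imI_one, imJ_one, imK_one, smul_eq_mul]
    · linear_combination -hx
    · ring
    · ring
    · ring
  have hPP' : P' * P' = (-(3 / 4) : ℝ) • (1 : Q4) := by
    rw [hP']
    ext <;> simp only [re_mul, imI_mul, imJ_mul, imK_mul, re_smul, imI_smul, imJ_smul, imK_smul,
      re_one, imI_one, imJ_one, imK_one, smul_eq_mul]
    · linear_combination -hy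
    · ring
    · ring
    · ring
  have hx2 : x = (1 / 2 : ℝ) • 1 + P := by
    ext <;> simp [hP, hx1]
  have hy2 : y = (1 / 2 : ℝ) • 1 + P' := by
    ext <;> simp [hP', hy1]
  have key : ∀ t : Q4, P * ((3 / 4 : ℝ) • t - P * t * P') = ((3 / 4 : ℝ) • t - P * t * P') * P' := by
    intro t
    have e1 : P * (P * t * P') = (-(3 / 4) : ℝ) • (t * P') := by
      rw [← mul_assoc, ← mul_assoc, hPP]; simp
    have e2 : P * t * P' * P' = (-(3 / 4) : ℝ) • (P * t) := by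
      rw [mul_assoc, hPP']; simp
    rw [mul_sub, sub_mul, e1, e2, mul_smul_comm, smul_mul_assoc]
    simp only [neg_smul]
    abel
  have hne : ∃ t : Q4, (3 / 4 : ℝ) • t - P * t * P' ≠ 0 := by
    by_contra hcon
    push Not at hcon
    have k1 := congrArg (fun q : Q4 => q.re) (hcon 1)
    have k2 := congrArg (fun q : Q4 => q.imI) (hcon qi)
    have k3 := congrArg (fun q : Q4 => q.imJ) (hcon qj)
    have k4 := congrArg (fun q : Q4 => q.imK) (hcon qk)
    simp only [hP, hP', qi, qj, qk, re_sub, imI_sub, imJ_sub, imK_sub, re_mul, imI_mul, imJ_mul,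
      imK_mul, re_smul, imI_smul, imJ_smul, imK_smul, smul_eq_mul,
      re_one, imI_one, imJ_one, imK_one, re_zero, imI_zero, imJ_zero, imK_zero] at k1 k2 k3 k4
    linarith
  obtain ⟨t, ht⟩ := hne
  obtain ⟨u, hu, u1, -⟩ := exists_unit_of ht (key t) (key t)
  refine ⟨u, hu, ?_⟩
  rw [hx2, cj_add, cj_smul, cj_one hu, u1, ← hy2]

end Pool.Agent.K3h89.QU
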