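import Mathlib
import Pool.Agent.K3h89.QU.Main
import Pool.Agent.K3h89.QU.Quat

/-!
# Scaling, uniform chain groups of rank two, alignment
-/

set_option autoImplicit false
set_option linter.unusedSectionVars false
set_option linter.unusedSimpArgs false
set_option linter.unusedVariables false

namespace Pool.Agent.K3h89.QU

open Finset

variable {α : Type*} [DecidableEq α] [Fintype α]

section general

variable {K : Type*} [DivisionRing K] [StarRing K] {C : Submodule K (α → K)} {E : Finset α}
  {R : Subring K} {d : α → K} {B : Finset α} {F : α → α → K}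

/-- Multiplication of the coordinates by scalars on the right. -/
def scl (d : α → K) : (α → K) →ₗ[K] (α → K) where
  toFun := fun c e => c e * d e
  map_add' := fun a b => by ext e; simp [add_mul]
  map_smul' := fun k c => by ext e; simp [mul_assoc]

lemma scl_apply (d : α → K) (c : α → K) (e : α) : scl d c e = c e * d e := rfl

lemma Frame.scale (h : Frame C B F) (hd : ∀ e, d e ∈ unitary K) :
    Frame (C.map (scl d)) B (fun b e => star (d b) * F b e * d e) where
  mem := fun b hb => ⟨star (d b) • F b, C.smul_mem _ (h.mem b hb), by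
    funext e; simp [scl_apply]⟩
  diag := fun b hb => by rw [h.diag b hb, mul_one, un_l (hd b)]
  off := fun b hb b' hb' hne => by rw [h.off b hb b' hb' hne]; simp
  inj := by
    rintro c ⟨c', hc', rfl⟩ h0
    rw [h.inj c' hc' fun b hb => by
      have := h0 b hb
      rw [scl_apply] at this
      rcases mul_eq_zero.1 this with h1 | h1
      · exact h1
      · exact absurd h1 (un_ne (hd b))]
    exact map_zero _

lemma scl_back (C : Submodule K (α → K)) (hd : ∀ e, d e ∈ unitary K) :
    (C.map (scl d)).map (scl fun e => star (d e)) = C := by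
  rw [← Submodule.map_comp]
  have : (scl fun e => star (d e)).comp (scl d) = LinearMap.id := by
    refine LinearMap.ext fun c => funext fun e => ?_
    simp only [LinearMap.comp_apply, scl_apply, LinearMap.id_apply, mul_assoc, un_r (hd e), mul_one]
  rw [this, Submodule.map_id]

lemma QUc.scale (h : QUc C) (hd : ∀ e, d e ∈ unitary K) : QUc (C.map (scl d)) := by
  intro B F hF b hb e
  have h1 := hF.scale (d := fun e => star (d e)) fun e => un_star (hd e)
  rw [scl_back C hd] at h1
  rcases h B _ h1 b hb e with h2 | h2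
  · left
    simp only [star_star] at h2
    rcases mul_eq_zero.1 h2 with h3 | h3
    · rcases mul_eq_zero.1 h3 with h4 | h4
      · exact absurd h4 (un_ne (hd b))
      · exact h4
    · exact absurd h3 (un_ne (un_star (hd e)))
  · right
    have h3 := un_mul (un_mul (un_star (hd b)) h2) (hd e)
    simp only [star_star] at h3
    have h4 : star (d b) * (d b * F b e * star (d e)) * d e = F b e := by
      simp only [mul_assoc, un_l (hd e), mul_one, un_lc (hd b)]
    rwa [h4] at h3

lemma rk_scale (C : Submodule K (α → K)) (hd : ∀ e, d e ∈ unitary K) (X : Finset α) :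
    rk (C.map (scl d)) X = rk C X := by
  obtain ⟨B, F, hF, h⟩ := exists_frame C X
  rw [hF.rk_eq h, (hF.scale hd).rk_eq fun b hb hbX e he => by rw [h b hb hbX e he]; simp]

lemma Supp.scale (h : Supp C E) : Supp (C.map (scl d)) E := by
  rintro c ⟨c', hc', rfl⟩ e he
  rw [scl_apply, h c' hc' e he, zero_mul]

lemma Conf.of_scale (hQ : QUc C) (hR : StarCl R) (hd : ∀ e, d e ∈ unitary K)
    (hF : Frame (C.map (scl d)) B F) (h : ∀ b ∈ B, ∀ e, F b e ∈ R) : Conf R d C := by
  have h1 := hF.scale (d := fun e => star (d e)) fun e => un_star (hd e)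
  rw [scl_back C hd] at h1
  refine Conf.of_frame hQ hR hd h1 fun b hb e => ?_
  simp only [star_star]
  have h4 : star (d b) * (d b * F b e * star (d e)) * d e = F b e := by
    simp only [mul_assoc, un_l (hd e), mul_one, un_lc (hd b)]
  rw [h4]; exact h b hb e

/-- Composition of scalings. -/
lemma Conf.scale_back {d' : α → K} (hd : ∀ e, d e ∈ unitary K)
    (h : Conf R d' (C.map (scl d))) : Conf R (fun e => d e * d' e) C := by
  refine ⟨fun e => un_mul (hd e) (h.1 e), fun B F hF b hb e => ?_⟩
  have h1 := h.2 B _ (hF.scale hd) b hb e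
  simpa only [star_mul, mul_assoc] using h1

lemma ne_of_rk (h : Frame C B F) {b e : α} (hb : b ∈ B) (he : e ∉ B)
    (hr : B.card ≤ rk C (insert e (B.erase b))) : F b e ≠ 0 := by
  intro h0
  have h1 := h.rk_eq (X := insert e (B.erase b)) (by
    intro b' hb' hbX z hz
    have hbb : b' = b := by
      by_contra hne
      exact hbX (by simp [hb', hne])
    subst hbb
    rcases Finset.mem_insert.1 hz with rfl | hz
    · exact h0
    · exact h.off b' hb z (Finset.mem_erase.1 hz).2 (Finset.mem_erase.1 hz).1)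
  have h2 : B ∩ insert e (B.erase b) = B.erase b := by
    ext z; simp only [mem_inter, mem_insert, mem_erase]; grind
  rw [h1, h2, Finset.card_erase_of_mem hb] at hr
  have : 0 < B.card := Finset.card_pos.2 ⟨b, hb⟩
  omega

lemma un_of_ne (hQ : QUc C) (h : Frame C B F) {b e : α} (hb : b ∈ B) (h0 : F b e ≠ 0) :
    F b e ∈ unitary K := (hQ B F h b hb e).resolve_left h0

/-- Entries after one exchange. -/
lemma q2 (hQ : QUc C) (h : Frame C B F) {b t u v : α} (hb : b ∈ B) (ht : t ∈ B) (hbt : b ≠ t)
    (hu : u ∉ B) (hne : F t u ≠ 0) :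
    F b v - F b u * star (F t u) * F t v = 0 ∨
      F b v - F b u * star (F t u) * F t v ∈ unitary K := by
  have h1 := hQ _ _ (h.exchange ht hu hne) b (by simp [hb, hbt]) v
  rw [Frame.ex_ne _ _ _ _ (show b ≠ u from fun hh => hu (hh ▸ hb)), un_inv (un_of_ne hQ h ht hne)] at h1
  exact h1

lemma q2' (hQ : QUc C) (h : Frame C B F) {b t u v : α} (hb : b ∈ B) (ht : t ∈ B) (hbt : b ≠ t)
    (hu : u ∉ B) (hv : v ∉ B) (huv : u ≠ v) (hne : F t u ≠ 0)
    (hr : B.card ≤ rk C (insert v ((insert u (B.erase t)).erase b))) :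
    F b v - F b u * star (F t u) * F t v ∈ unitary K := by
  have h1 := ne_of_rk (h.exchange ht hu hne) (b := b) (e := v) (by simp [hb, hbt])
    (by simp [Ne.symm huv, hv]) (by
      rw [Finset.card_insert_of_notMem (by simp [hu]), Finset.card_erase_of_mem ht]
      have : 0 < B.card := Finset.card_pos.2 ⟨b, hb⟩
      omega)
  have h2 := un_of_ne hQ (h.exchange ht hu hne) (b := b) (by simp [hb, hbt]) h1
  rw [Frame.ex_ne _ _ _ _ (show b ≠ u from fun hh => hu (hh ▸ hb)), un_inv (un_of_ne hQ h ht hne)] at h2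
  exact h2

/-- Frames of a uniform chain group of rank two. -/
lemma u2_frame (hQ : QUc C) (hS : Supp C E) (hU : ∀ Z ⊆ E, rk C Z = min Z.card 2) {s t : α}
    (hs : s ∈ E) (ht : t ∈ E) (hst : s ≠ t) :
    ∃ F, Frame C {s, t} F ∧ (∀ u ∈ E, u ≠ s → u ≠ t → F s u ∈ unitary K ∧ F t u ∈ unitary K) ∧
      ∀ u ∈ E, ∀ v ∈ E, u ≠ s → u ≠ t → v ≠ s → v ≠ t → u ≠ v →
        F s v - F s u * star (F t u) * F t v ∈ unitary K := by
  have hc : ({s, t} : Finset α).card = 2 := Finset.card_pair hst
  have hsub : ({s, t} : Finset α) ⊆ E := by intro z hz; simp at hz; rcases hz with rfl | rfl <;> assumption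
  have h1 := hU _ hsub
  have h2 := hU E subset_rfl
  have h3 := Finset.card_le_card hsub
  obtain ⟨F, hF⟩ := exists_frame_eq hS (X := {s, t}) (by omega) (by omega)
  have key : ∀ u ∈ E, u ≠ s → u ≠ t → F s u ∈ unitary K ∧ F t u ∈ unitary K := by
    intro u hu hus hut
    constructor
    · refine un_of_ne hQ hF (by simp) (ne_of_rk hF (by simp) (by simp [hus, hut]) ?_)
      have h4 : (insert u (({s, t} : Finset α).erase s)) = {u, t} := by
        ext z; simp only [mem_insert, mem_erase, mem_singleton]; grind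
      rw [h4, hU _ (by intro z hz; simp at hz; rcases hz with rfl | rfl <;> assumption),
        Finset.card_pair hut, hc]; simp
    · refine un_of_ne hQ hF (by simp) (ne_of_rk hF (by simp) (by simp [hus, hut]) ?_)
      have h4 : (insert u (({s, t} : Finset α).erase t)) = {u, s} := by
        ext z; simp only [mem_insert, mem_erase, mem_singleton]; grind
      rw [h4, hU _ (by intro z hz; simp at hz; rcases hz with rfl | rfl <;> assumption),
        Finset.card_pair hus, hc]; simp
  refine ⟨F, hF, key, ?_⟩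
  intro u hu v hv hus hut hvs hvt huv
  refine q2' hQ hF (by simp) (by simp) hst (by simp [hus, hut]) (by simp [hvs, hvt]) huv
    (un_ne (key u hu hus hut).2) ?_
  have h4 : (insert v ((insert u (({s, t} : Finset α).erase t)).erase s)) = {v, u} := by
    ext z; simp only [mem_insert, mem_erase, mem_singleton]; grind
  rw [h4, hU _ (by intro z hz; simp at hz; rcases hz with rfl | rfl <;> assumption),
    Finset.card_pair (Ne.symm huv), hc]; simp

end general

section quat

open Quaternion

variable {C : Submodule Q4 (α → Q4)} {E : Finset α} {R : Subring Q4} {B : Finset α}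
  {F : α → α → Q4}

/-- The cross ratio. -/
noncomputable def crr (F : α → α → Q4) (s t u v : α) : Q4 := F s u * star (F t u) * F t v * star (F s v)

lemma crr_n {s t u v : α} (h1 : F s u ∈ unitary Q4) (h2 : F t u ∈ unitary Q4)
    (h3 : F s v ∈ unitary Q4) (h4 : F t v ∈ unitary Q4) : normSq (crr F s t u v) = 1 := by
  rw [← un_iff]
  exact un_mul (un_mul (un_mul h1 (un_star h2)) h4) (un_star h3)

lemma crr_n1 {s t u v : α} (h3 : F s v ∈ unitary Q4)
    (h : F s v - F s u * star (F t u) * F t v ∈ unitary Q4) : normSq (1 - crr F s t u v) = 1 := by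
  rw [← un_iff]
  have h1 := un_mul h (un_star h3)
  have h2 : (F s v - F s u * star (F t u) * F t v) * star (F s v) = 1 - crr F s t u v := by
    rw [sub_mul, un_r h3]; rfl
  rwa [h2] at h1

lemma crr_tet {s t u v w : α} (a1 : F s u ∈ unitary Q4) (a2 : F s v ∈ unitary Q4)
    (a3 : F s w ∈ unitary Q4) (b1 : F t u ∈ unitary Q4) (b2 : F t v ∈ unitary Q4)
    (b3 : F t w ∈ unitary Q4) (h1 : F s v - F s u * star (F t u) * F t v ∈ unitary Q4)
    (h2 : F s w - F s u * star (F t u) * F t w ∈ unitary Q4)
    (h3 : F s w - F s v * star (F t v) * F t w ∈ unitary Q4) :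
    Tet (crr F s t u v) (crr F s t u w) where
  nx := crr_n a1 b1 a2 b2
  ny := crr_n a1 b1 a3 b3
  nx1 := crr_n1 a2 h1
  ny1 := crr_n1 a3 h2
  nxy := by
    rw [← un_iff]
    have h4 := un_mul (un_mul (un_mul (un_mul (un_mul a1 (un_star b1)) b2) (un_star a2)) h3)
      (un_star a3)
    have h5 : F s u * star (F t u) * F t v * star (F s v) *
        (F s w - F s v * star (F t v) * F t w) * star (F s w) =
        crr F s t u v - crr F s t u w := by
      unfold crr
      simp only [mul_sub, sub_mul, mul_assoc, un_r a3, un_lc a2, un_rc b2, mul_one]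
    rwa [h5] at h4

/-- Cross ratios after scaling. -/
lemma crr_scale {d : α → Q4} {s t u v : α} (hd : Conf R d C) (hR : StarCl R)
    (hF : Frame C {s, t} F) : star (d s) * crr F s t u v * d s ∈ R := by
  have h1 := hd.2 _ F hF s (by simp) u
  have h2 := hd.2 _ F hF t (by simp) u
  have h3 := hd.2 _ F hF t (by simp) v
  have h4 := hd.2 _ F hF s (by simp) v
  have h5 := R.mul_mem (R.mul_mem (R.mul_mem h1 (hR _ h2)) h3) (hR _ h4)
  have h6 : star (d s) * F s u * d u * star (star (d t) * F t u * d u) *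
      (star (d t) * F t v * d v) * star (star (d s) * F s v * d v) =
      star (d s) * crr F s t u v * d s := by
    unfold crr
    simp only [star_mul, star_star, mul_assoc, un_rc (hd.1 u), un_rc (hd.1 t), un_rc (hd.1 v)]
  rwa [h6] at h5

lemma cj_cj {d1 d2 x : Q4} (h1 : d1 ∈ unitary Q4) :
    star (star d1 * d2) * (star d1 * x * d1) * (star d1 * d2) = star d2 * x * d2 := by
  simp only [star_mul, star_star, mul_assoc, un_rc h1]

/-- The ring of integral combinations of `1` and `p0`. -/
noncomputable def LR : Subring Q4 where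
  carrier := {x | ∃ a b : ℤ, x = (a : Q4) + (b : Q4) * p0}
  zero_mem' := ⟨0, 0, by simp⟩
  one_mem' := ⟨1, 0, by simp⟩
  add_mem' := by
    rintro x y ⟨a, b, rfl⟩ ⟨c, d, rfl⟩
    exact ⟨a + c, b + d, by push_cast; rw [add_mul]; abel⟩
  mul_mem' := by
    rintro x y ⟨a, b, rfl⟩ ⟨c, d, rfl⟩
    refine ⟨a * c - b * d, a * d + b * c + b * d, ?_⟩
    ext <;> simp [p0] <;> ring
  neg_mem' := by
    rintro x ⟨a, b, rfl⟩
    exact ⟨-a, -b, by push_cast; rw [neg_add, neg_mul]⟩

lemma mem_LR {x : Q4} : x ∈ LR ↔ ∃ a b : ℤ, x = (a : Q4) + (b : Q4) * p0 := Iff.rfl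

lemma LR_star : StarCl LR := by
  rintro x ⟨a, b, rfl⟩
  refine ⟨a + b, -b, ?_⟩
  ext <;> simp [p0] <;> ring

lemma p0_DR : p0 ∈ DR := by
  have h := AR_half
  exact ⟨h, h, h, h⟩

lemma q0_DR : q0 ∈ DR := by
  have h := AR_half
  refine ⟨h, h, h, ?_⟩
  have := AR.neg_mem h
  simp only [q0]
  rwa [show (-1 / 2 : ℝ) = -(1 / 2) by norm_num]

lemma DR_starCl : StarCl DR := fun _ h => DR_star h

lemma DR_int (n : ℤ) : (n : Q4) ∈ DR := intCast_mem DR n

lemma LR_le : LR ≤ DR := by
  rintro x ⟨a, b, rfl⟩
  exact DR.add_mem (DR_int a) (DR.mul_mem (DR_int b) p0_DR)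

lemma LR_norm {x h : Q4} (hx1 : normSq x = 1) (hx2 : normSq (1 - x) = 1) (hx : x ∈ LR)
    (hh : h ∈ unitary Q4) (hx' : star h * x * h ∈ LR) : ∀ z ∈ LR, star h * z * h ∈ LR := by
  have hre := half_re hx1 hx2
  obtain ⟨a, b, rfl⟩ := hx
  have h1 : (2 * a + b : ℝ) = 1 := by
    simp [p0] at hre
    linarith
  have h2 : ((a : ℝ) + b / 2) ^ 2 + 3 * (b / 2 : ℝ) ^ 2 = 1 := by
    rw [nsq] at hx1
    simp [p0] at hx1
    linarith
  have h3 : (b : ℝ) ^ 2 = 1 := by
    have : (a : ℝ) = (1 - b) / 2 := by linarith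
    rw [this] at h2
    linarith
  have h4 : b ^ 2 = 1 := by exact_mod_cast h3
  have h5 : 2 * a + b = 1 := by exact_mod_cast h1
  have hc : ∀ c : ℤ, star h * (c : Q4) * h = c := fun c => by
    rw [← (Int.cast_commute c (star h)).eq, mul_assoc, un_l hh, mul_one]
  have hp : star h * p0 * h ∈ LR := by
    have h6 : (b - 1) * (b + 1) = 0 := by linarith
    rcases mul_eq_zero.1 h6 with h7 | h7
    · have hb : b = 1 := by omega
      have ha : a = 0 := by omega
      subst hb ha
      simpa using hx'
    · have hb : b = -1 := by omega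
      have ha : a = 1 := by omega
      subst hb ha
      have h8 := LR.sub_mem LR.one_mem hx'
      have h9 : 1 - star h * (((1 : ℤ) : Q4) + ((-1 : ℤ) : Q4) * p0) * h = star h * p0 * h := by
        have h10 : ((1 : ℤ) : Q4) + ((-1 : ℤ) : Q4) * p0 = 1 - p0 := by push_cast; rw [neg_mul, one_mul, sub_eq_add_neg]
        rw [h10, cj_sub, cj_one hh]; abel
      rwa [h9] at h8
  rintro z ⟨c, e, rfl⟩
  rw [cj_add, cj_mul hh]
  rw [hc, hc]
  exact LR.add_mem (intCast_mem LR c) (LR.mul_mem (intCast_mem LR e) hp)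

end quat

end Pool.Agent.K3h89.QU
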