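import Mathlib
import Pool.Agent.K3h89.QU.Unif

/-!
# Normal forms of small chain groups
-/

set_option autoImplicit false
set_option linter.unusedSectionVars false
set_option linter.unusedSimpArgs false
set_option linter.unusedVariables false

namespace Pool.Agent.K3h89.QU

open Finset Quaternion

variable {α : Type*} [DecidableEq α]

lemma four_elems {E : Finset α} (h : E.card = 4) : ∃ s t u v : α,
    s ≠ t ∧ s ≠ u ∧ s ≠ v ∧ t ≠ u ∧ t ≠ v ∧ u ≠ v ∧ E = {s, t, u, v} := by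
  obtain ⟨s, E1, hs, rfl, h1⟩ := Finset.card_eq_succ.1 h
  obtain ⟨t, u, v, h2, h3, h4, rfl⟩ := Finset.card_eq_three.1 h1
  simp only [mem_insert, mem_singleton, not_or] at hs
  exact ⟨s, t, u, v, hs.1, hs.2.1, hs.2.2, h2, h3, h4, rfl⟩

lemma five_elems {E : Finset α} (h : E.card = 5) : ∃ s t u v w : α,
    (s ≠ t ∧ s ≠ u ∧ s ≠ v ∧ s ≠ w) ∧ (t ≠ u ∧ t ≠ v ∧ t ≠ w) ∧ (u ≠ v ∧ u ≠ w) ∧ v ≠ w ∧
      E = {s, t, u, v, w} := by
  obtain ⟨s, E1, hs, rfl, h1⟩ := Finset.card_eq_succ.1 h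
  obtain ⟨t, u, v, w, h2, h3, h4, h5, h6, h7, rfl⟩ := four_elems h1
  simp only [mem_insert, mem_singleton, not_or] at hs
  exact ⟨s, t, u, v, w, hs, ⟨h2, h3, h4⟩, ⟨h5, h6⟩, h7, rfl⟩

lemma six_elems {E : Finset α} (h : E.card = 6) : ∃ s t u v w z : α,
    (s ≠ t ∧ s ≠ u ∧ s ≠ v ∧ s ≠ w ∧ s ≠ z) ∧ (t ≠ u ∧ t ≠ v ∧ t ≠ w ∧ t ≠ z) ∧
      (u ≠ v ∧ u ≠ w ∧ u ≠ z) ∧ (v ≠ w ∧ v ≠ z) ∧ w ≠ z ∧ E = {s, t, u, v, w, z} := by
  obtain ⟨s, E1, hs, rfl, h1⟩ := Finset.card_eq_succ.1 h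
  obtain ⟨t, u, v, w, z, h2, h3, h4, h5, rfl⟩ := five_elems h1
  simp only [mem_insert, mem_singleton, not_or] at hs
  exact ⟨s, t, u, v, w, z, hs, h2, h3, h4, h5, rfl⟩

/-- Uniform of rank two. -/
def U2 (r : Finset α → ℕ) (E : Finset α) : Prop := ∀ Z ⊆ E, r Z = min Z.card 2

/-- 3-connected of rank two means uniform. -/
lemma TC.u2 {r : Finset α → ℕ} {E : Finset α} (hr : IsRank r) (h : TC r E) (h4 : 4 ≤ E.card)
    (h2 : r E = 2) : U2 r E := by
  intro Z hZ
  have h5 := hr.mm (X := Z) (Y := E) hZ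
  have h6 := hr.le_card Z
  rcases Nat.lt_or_ge Z.card 2 with h7 | h7
  · rcases Nat.eq_zero_or_pos Z.card with h8 | h8
    · rw [Finset.card_eq_zero] at h8; subst h8; simp [hr.empty]
    · obtain ⟨a, rfl⟩ := Finset.card_eq_one.1 (show Z.card = 1 by omega)
      rw [h.single hr h4 (hZ (by simp))]; simp
  · have := h.two_le hr h4 hZ h7
    omega

/-- A spanning uniform minor. -/
lemma HasU.full {r : Finset α → ℕ} {E : Finset α} {k n : ℕ} (hr : IsRank r) (h : HasU r E k n)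
    (hn : E.card = n) : ∀ Z ⊆ E, r Z = min Z.card k := by
  obtain ⟨T, S, h1, h2, h3, h4, h5⟩ := h
  have h6 : S = E := Finset.eq_of_subset_of_card_le h2 (by omega)
  subst h6
  have h7 : T = ∅ := by
    rw [Finset.disjoint_left] at h3
    rw [Finset.eq_empty_iff_forall_notMem]
    intro z hz; exact h3 hz (h1 hz)
  subst h7
  intro Z hZ
  have := h5 Z hZ
  rw [Finset.union_empty, hr.empty] at this
  omega

lemma U2.hasU {r : Finset α → ℕ} {E : Finset α} (hr : IsRank r) (h : U2 r E) :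
    HasU r E 2 E.card :=
  ⟨∅, E, by simp, subset_rfl, by simp, rfl, fun Z hZ => by
    rw [Finset.union_empty, hr.empty, h Z hZ]; omega⟩

variable [Fintype α]

/-- The minor given by a uniform configuration. -/
lemma minor_u2 {K : Type*} [DivisionRing K] {C : Submodule K (α → K)} {E : Finset α} {n : ℕ}
    (h : HasU (rk C) E 2 n) : ∃ T S : Finset α, S ⊆ E ∧ S.card = n ∧
      U2 (rk ((C ⊓ Zr K T).map (res K S))) S := by
  obtain ⟨T, S, h1, h2, h3, h4, h5⟩ := h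
  refine ⟨T, S, h2, h4, fun Z hZ => ?_⟩
  rw [rk_res _ hZ]
  have := rk_inf C T Z
  have := h5 Z hZ
  omega

variable {C : Submodule Q4 (α → Q4)} {E : Finset α} {d d' : α → Q4}

/-- Alignment in `U(2,5)`. -/
lemma u25_norm (hQ : QUc C) (hS : Supp C E) (hU : U2 (rk C) E) (h5 : E.card = 5)
    (hd : Conf DR d C) (hd' : Conf DR d' C) : ∃ e ∈ E,
      (∀ x ∈ DR, star (star (d e) * d' e) * x * (star (d e) * d' e) ∈ DR) ∧
      (∀ x ∈ DR, (star (d e) * d' e) * x * star (star (d e) * d' e) ∈ DR) := by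
  obtain ⟨s, t, u, v, w, ⟨h1, h2, h3, h4⟩, ⟨h6, h7, h8⟩, ⟨h9, h10⟩, h11, rfl⟩ := five_elems h5
  obtain ⟨F, hF, ha, hb⟩ := u2_frame hQ hS hU (s := s) (t := t) (by simp) (by simp) h1
  have au := ha u (by simp) h2.symm h6.symm
  have av := ha v (by simp) h3.symm h7.symm
  have aw := ha w (by simp) h4.symm h8.symm
  have hT := crr_tet au.1 av.1 aw.1 au.2 av.2 aw.2
    (hb u (by simp) v (by simp) h2.symm h6.symm h3.symm h7.symm h9)
    (hb u (by simp) w (by simp) h2.symm h6.symm h4.symm h8.symm h10)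
    (hb v (by simp) w (by simp) h3.symm h7.symm h4.symm h8.symm h11)
  have e1 := crr_scale (u := u) (v := v) hd DR_starCl hF
  have e2 := crr_scale (u := u) (v := w) hd DR_starCl hF
  have e1' := crr_scale (u := u) (v := v) hd' DR_starCl hF
  have e2' := crr_scale (u := u) (v := w) hd' DR_starCl hF
  have hU1 : star (d s) * d' s ∈ unitary Q4 := un_mul (un_star (hd.1 s)) (hd'.1 s)
  refine ⟨s, by simp, ?_, ?_⟩
  · refine DR_norm (hT.cj (hd.1 s)) e1 e2 hU1 ?_ ?_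
    · rw [cj_cj (hd.1 s)]; exact e1'
    · rw [cj_cj (hd.1 s)]; exact e2'
  · have h12 : star (star (d s) * d' s) = star (d' s) * d s := by simp
    have h13 : star (d s) * d' s = star (star (d' s) * d s) := by simp
    intro x hx
    rw [h12, h13]
    refine DR_norm (hT.cj (hd'.1 s)) e1' e2' (h12 ▸ un_star hU1) ?_ ?_ x hx
    · rw [cj_cj (hd'.1 s)]; exact e1
    · rw [cj_cj (hd'.1 s)]; exact e2

/-- Alignment in `U(2,4)`. -/
lemma u24_norm (hQ : QUc C) (hS : Supp C E) (hU : U2 (rk C) E) (h5 : E.card = 4)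
    (hd : Conf LR d C) (hd' : Conf LR d' C) : ∃ e ∈ E,
      (∀ x ∈ LR, star (star (d e) * d' e) * x * (star (d e) * d' e) ∈ LR) ∧
      (∀ x ∈ LR, (star (d e) * d' e) * x * star (star (d e) * d' e) ∈ LR) := by
  obtain ⟨s, t, u, v, h1, h2, h3, h6, h7, h9, rfl⟩ := four_elems h5
  obtain ⟨F, hF, ha, hb⟩ := u2_frame hQ hS hU (s := s) (t := t) (by simp) (by simp) h1
  have au := ha u (by simp) h2.symm h6.symm
  have av := ha v (by simp) h3.symm h7.symm
  have n1 := crr_n au.1 au.2 av.1 av.2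
  have n2 := crr_n1 (t := t) (u := u) av.1
    (hb u (by simp) v (by simp) h2.symm h6.symm h3.symm h7.symm h9)
  have e1 := crr_scale (u := u) (v := v) hd LR_star hF
  have e1' := crr_scale (u := u) (v := v) hd' LR_star hF
  have hU1 : star (d s) * d' s ∈ unitary Q4 := un_mul (un_star (hd.1 s)) (hd'.1 s)
  have m1 : ∀ g ∈ unitary Q4, normSq (star g * crr F s t u v * g) = 1 := fun g hg => by
    rw [cj_normSq hg]; exact n1
  have m2 : ∀ g ∈ unitary Q4, normSq (1 - star g * crr F s t u v * g) = 1 := fun g hg => by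
    have := cj_normSq hg (1 - crr F s t u v)
    rw [cj_sub, cj_one hg] at this
    rw [this]; exact n2
  refine ⟨s, by simp, ?_, ?_⟩
  · refine LR_norm (m1 _ (hd.1 s)) (m2 _ (hd.1 s)) e1 hU1 ?_
    rw [cj_cj (hd.1 s)]; exact e1'
  · have h12 : star (star (d s) * d' s) = star (d' s) * d s := by simp
    have h13 : star (d s) * d' s = star (star (d' s) * d s) := by simp
    intro x hx
    rw [h12, h13]
    refine LR_norm (m1 _ (hd'.1 s)) (m2 _ (hd'.1 s)) e1' (h12 ▸ un_star hU1) ?_ x hx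
    rw [cj_cj (hd'.1 s)]; exact e1

open Classical in
/-- The scaling that normalises a frame of size two. -/
noncomputable def nd (F : α → α → Q4) (s t u : α) (h : Q4) : α → Q4 := fun z =>
  if z = s then h else if z = t then F t u * star (F s u) * h
  else if F s z ∈ unitary Q4 then star (F s z) * h else 1

lemma nd_un {F : α → α → Q4} {s t u : α} {h : Q4} (hh : h ∈ unitary Q4)
    (h1 : F s u ∈ unitary Q4) (h2 : F t u ∈ unitary Q4) (z : α) :
    nd F s t u h z ∈ unitary Q4 := by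
  unfold nd
  split_ifs with h3 h4 h5
  · exact hh
  · exact un_mul (un_mul h2 (un_star h1)) hh
  · exact un_mul (un_star h5) hh
  · exact one_mem _

lemma nd_row1 {F : α → α → Q4} {s t u z : α} {h : Q4} (hh : h ∈ unitary Q4)
    (hzs : z ≠ s) (hzt : z ≠ t) (h1 : F s z ∈ unitary Q4) :
    star (nd F s t u h s) * F s z * nd F s t u h z = 1 := by
  have e1 : nd F s t u h s = h := by simp [nd]
  have e2 : nd F s t u h z = star (F s z) * h := by simp [nd, hzs, hzt, h1]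
  rw [e1, e2]
  simp only [mul_assoc, un_rc h1, un_l hh]

lemma nd_row2 {F : α → α → Q4} {s t u z : α} {h : Q4} (hh : h ∈ unitary Q4) (hst : s ≠ t)
    (hzs : z ≠ s) (hzt : z ≠ t) (h1 : F s z ∈ unitary Q4) :
    star (nd F s t u h t) * F t z * nd F s t u h z = star h * crr F s t u z * h := by
  have e1 : nd F s t u h t = F t u * star (F s u) * h := by simp [nd, Ne.symm hst]
  have e2 : nd F s t u h z = star (F s z) * h := by simp [nd, hzs, hzt, h1]
  rw [e1, e2]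
  unfold crr
  simp only [star_mul, star_star, mul_assoc]

lemma crr_self {F : α → α → Q4} {s t u : α} (h1 : F s u ∈ unitary Q4) (h2 : F t u ∈ unitary Q4) :
    crr F s t u u = 1 := by
  unfold crr
  simp only [mul_assoc, un_lc h2, un_r h1]

/-- Normal form of `U(2,5)`. -/
lemma u25_form (hQ : QUc C) (hS : Supp C E) (hU : U2 (rk C) E) {s t u v w : α}
    (hst : s ≠ t) (hsu : s ≠ u) (hsv : s ≠ v) (hsw : s ≠ w) (htu : t ≠ u) (htv : t ≠ v)
    (htw : t ≠ w) (huv : u ≠ v) (huw : u ≠ w) (hvw : v ≠ w) (hs : s ∈ E) (ht : t ∈ E)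
    (hu : u ∈ E) (hv : v ∈ E) (hw : w ∈ E) :
    ∃ d : α → Q4, (∀ e, d e ∈ unitary Q4) ∧ ∃ G, Frame (C.map (scl d)) {s, t} G ∧
      (∀ z ∈ E, z ≠ s → z ≠ t → G s z = 1) ∧ G t u = 1 ∧ G t v = p0 ∧ G t w = q0 ∧
      (∀ z ∈ E, z ≠ s → z ≠ t → z ≠ u → z ≠ v → z ≠ w →
        Tet p0 (G t z) ∧ Tet q0 (G t z)) := by
  obtain ⟨F, hF, ha, hb⟩ := u2_frame hQ hS hU hs ht hst
  have au := ha u hu hsu.symm htu.symm
  have av := ha v hv hsv.symm htv.symm
  have aw := ha w hw hsw.symm htw.symm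
  have hT := crr_tet au.1 av.1 aw.1 au.2 av.2 aw.2
    (hb u hu v hv hsu.symm htu.symm hsv.symm htv.symm huv)
    (hb u hu w hw hsu.symm htu.symm hsw.symm htw.symm huw)
    (hb v hv w hw hsv.symm htv.symm hsw.symm htw.symm hvw)
  obtain ⟨h, hh, h1, h2⟩ := hT.conj
  have hd := nd_un (t := t) hh au.1 au.2
  refine ⟨nd F s t u h, hd, _, hF.scale hd, ?_, ?_, ?_, ?_, ?_⟩
  · intro z hz hzs hzt
    exact nd_row1 hh hzs hzt (ha z hz hzs hzt).1
  · rw [nd_row2 hh hst hsu.symm htu.symm au.1, crr_self au.1 au.2, cj_one hh]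
  · rw [nd_row2 hh hst hsv.symm htv.symm av.1, h1]
  · rw [nd_row2 hh hst hsw.symm htw.symm aw.1, h2]
  · intro z hz hzs hzt hzu hzv hzw
    have az := ha z hz hzs hzt
    rw [nd_row2 hh hst hzs hzt az.1, ← h1, ← h2]
    constructor
    · exact (crr_tet au.1 av.1 az.1 au.2 av.2 az.2
        (hb u hu v hv hsu.symm htu.symm hsv.symm htv.symm huv)
        (hb u hu z hz hsu.symm htu.symm hzs hzt hzu.symm)
        (hb v hv z hz hsv.symm htv.symm hzs hzt hzv.symm)).cj hh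
    · exact (crr_tet au.1 aw.1 az.1 au.2 aw.2 az.2
        (hb u hu w hw hsu.symm htu.symm hsw.symm htw.symm huw)
        (hb u hu z hz hsu.symm htu.symm hzs hzt hzu.symm)
        (hb w hw z hz hsw.symm htw.symm hzs hzt hzw.symm)).cj hh

lemma AR_root {x : ℝ} (h : 2 * x ^ 2 - x - 1 / 2 = 0) : x ∈ AR := by
  have h5 : (√5 : ℝ) ^ 2 = 5 := Real.sq_sqrt (by norm_num)
  have h1 : (4 * x - 1 - √5) * (4 * x - 1 + √5) = 0 := by
    linear_combination 8 * h - h5
  rcases mul_eq_zero.1 h1 with h2 | h2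
  · exact ⟨1, 1, 2, by push_cast; linarith⟩
  · exact ⟨1, -1, 2, by push_cast; linarith⟩

/-- The apexes of the standard tetrahedron. -/
lemma apex {r : Q4} (h1 : Tet p0 r) (h2 : Tet q0 r) :
    r.re = 1 / 2 ∧ r.imK = 0 ∧ r.imI + r.imJ = 1 / 2 ∧ 2 * r.imI ^ 2 - r.imI - 1 / 2 = 0 := by
  obtain ⟨-, a1, -, a2, a3⟩ := h1.coords
  obtain ⟨-, -, -, -, a4⟩ := h2.coords
  simp only [p0, q0] at a3 a4
  have hK : r.imK = 0 := by linarith
  have hIJ : r.imI + r.imJ = 1 / 2 := by linarith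
  refine ⟨a1, hK, hIJ, ?_⟩
  have hJ : r.imJ = 1 / 2 - r.imI := by linarith
  rw [hK, hJ] at a2
  linarith

lemma apex_DR {r : Q4} (h1 : Tet p0 r) (h2 : Tet q0 r) : r ∈ DR := by
  obtain ⟨a1, a2, a3, a4⟩ := apex h1 h2
  have hI := AR_root a4
  have hJ : r.imJ = 1 / 2 - r.imI := by linarith
  exact ⟨by rw [a1]; exact AR_half, hI, by rw [hJ]; exact AR.sub_mem AR_half hI,
    by rw [a2]; exact AR.zero_mem⟩

/-- Uniform chain groups of rank two with 5 or 6 elements conform. -/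
lemma u2_conf (hQ : QUc C) (hS : Supp C E) (hU : U2 (rk C) E) (h5 : 5 ≤ E.card) :
    ∃ d, Conf DR d C := by
  obtain ⟨E', hE', h5'⟩ := Finset.exists_subset_card_eq h5
  obtain ⟨s, t, u, v, w, ⟨h1, h2, h3, h4⟩, ⟨h6, h7, h8⟩, ⟨h9, h10⟩, h11, rfl⟩ := five_elems h5'
  obtain ⟨d, hd, G, hG, g1, g2, g3, g4, g5⟩ := u25_form hQ hS hU h1 h2 h3 h4 h6 h7 h8 h9 h10 h11
    (hE' (by simp)) (hE' (by simp)) (hE' (by simp)) (hE' (by simp)) (hE' (by simp))
  refine ⟨d, Conf.of_scale hQ DR_starCl hd hG ?_⟩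
  intro b hb e
  by_cases he : e ∈ E
  swap
  · rw [hS.scale _ (hG.mem b hb) e he]; exact DR.zero_mem
  by_cases heb : e ∈ ({s, t} : Finset α)
  · by_cases hbe : e = b
    · rw [hbe, hG.diag b hb]; exact DR.one_mem
    · rw [hG.off b hb e heb hbe]; exact DR.zero_mem
  simp only [mem_insert, mem_singleton, not_or] at heb
  rcases Finset.mem_insert.1 hb with rfl | hb'
  · rw [g1 e he heb.1 heb.2]; exact DR.one_mem
  · rw [mem_singleton] at hb'
    subst hb'
    by_cases e1 : e = u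
    · rw [e1, g2]; exact DR.one_mem
    by_cases e2 : e = v
    · rw [e2, g3]; exact p0_DR
    by_cases e3 : e = w
    · rw [e3, g4]; exact q0_DR
    obtain ⟨t1, t2⟩ := g5 e he heb.1 heb.2 e1 e2 e3
    exact apex_DR t1 t2

/-- `U(2,4)` conforms to `LR`. -/
lemma u24_conf (hQ : QUc C) (hS : Supp C E) (hU : U2 (rk C) E) (h5 : E.card = 4) :
    ∃ d, Conf LR d C := by
  obtain ⟨s, t, u, v, h1, h2, h3, h6, h7, h9, rfl⟩ := four_elems h5
  obtain ⟨F, hF, ha, hb⟩ := u2_frame hQ hS hU (s := s) (t := t) (by simp) (by simp) h1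
  have au := ha u (by simp) h2.symm h6.symm
  have av := ha v (by simp) h3.symm h7.symm
  have n1 := crr_n au.1 au.2 av.1 av.2
  have n2 := crr_n1 (t := t) (u := u) av.1
    (hb u (by simp) v (by simp) h2.symm h6.symm h3.symm h7.symm h9)
  obtain ⟨h, hh, h10⟩ := half_conj (y := p0) n1 (by rw [nsq]; norm_num [p0]) (half_re n1 n2) rfl
  have hd := nd_un (t := t) hh au.1 au.2
  refine ⟨nd F s t u h, Conf.of_scale hQ LR_star hd (hF.scale hd) ?_⟩
  intro b hb e
  by_cases he : e ∈ ({s, t, u, v} : Finset α)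
  swap
  · rw [hS _ (hF.mem b hb) e he]; simp
  by_cases heb : e ∈ ({s, t} : Finset α)
  · by_cases hbe : e = b
    · rw [hbe, hF.diag b hb, mul_one, un_l (hd b)]; exact LR.one_mem
    · rw [hF.off b hb e heb hbe]; simp
  simp only [mem_insert, mem_singleton, not_or] at heb he
  rcases Finset.mem_insert.1 hb with rfl | hb'
  · rw [nd_row1 hh heb.1 heb.2 (ha e (by simp only [mem_insert, mem_singleton]; tauto) heb.1
      heb.2).1]
    exact LR.one_mem
  · rw [mem_singleton] at hb'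
    subst hb'
    rw [nd_row2 hh h1 heb.1 heb.2 (ha e (by simp only [mem_insert, mem_singleton]; tauto) heb.1
      heb.2).1]
    have he' : e = u ∨ e = v := by tauto
    rcases he' with rfl | rfl
    · rw [crr_self au.1 au.2, cj_one hh]; exact LR.one_mem
    · rw [h10]; exact ⟨0, 1, by simp⟩

end Pool.Agent.K3h89.QU
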