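import Mathlib
import Pool.Agent.K3h89.QU.Base

/-!
# One-element extensions of `U(2,5)` of rank three
-/

set_option autoImplicit false
set_option linter.unusedSectionVars false
set_option linter.unusedSimpArgs false
set_option linter.unusedVariables false

namespace Pool.Agent.K3h89.QU

open Finset Quaternion

lemma p0_un : p0 ∈ unitary Q4 := by rw [un_iff, nsq]; norm_num [p0]

lemma q0_un : q0 ∈ unitary Q4 := by rw [un_iff, nsq]; norm_num [q0]

lemma p01_un : p0 - 1 ∈ unitary Q4 := by rw [un_iff, nsq]; norm_num [p0]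

/-- The collinear case. -/
lemma caseA_alg {c : Q4} (h1 : normSq c = 1) (h2 : 1 - c = 0 ∨ normSq (1 - c) = 1)
    (h3 : q0 - p0 * c = 0 ∨ normSq (q0 - p0 * c) = 1)
    (h4 : q0 - p0 * c - (1 - c) = 0 ∨ normSq (q0 - p0 * c - (1 - c)) = 1) : c ∈ DR := by
  rcases h2 with h2 | h2
  · have : c = 1 := (sub_eq_zero.1 h2).symm
    rw [this]; exact DR.one_mem
  rcases h3 with h3 | h3
  · have : c = star p0 * q0 := by rw [sub_eq_zero.1 h3, un_lc p0_un]
    rw [this]; exact DR.mul_mem (DR_star p0_DR) q0_DR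
  rcases h4 with h4 | h4
  · have h5 : q0 - 1 = (p0 - 1) * c := by
      rw [sub_mul, one_mul]
      have := sub_eq_zero.1 h4
      rw [sub_eq_iff_eq_add] at this ⊢
      rw [this]; abel
    have : c = star (p0 - 1) * (q0 - 1) := by rw [h5, un_lc p01_un]
    rw [this]
    exact DR.mul_mem (DR_star (DR.sub_mem p0_DR DR.one_mem)) (DR.sub_mem q0_DR DR.one_mem)
  have hre := half_re h1 h2
  rw [nsq] at h1 h3 h4
  simp only [p0, q0, re_sub, imI_sub, imJ_sub, imK_sub, re_mul, imI_mul, imJ_mul, imK_mul,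
    re_one, imI_one, imJ_one, imK_one] at h3 h4
  rw [hre] at h1 h3 h4
  have e1 : c.imI - c.imJ - c.imK = 1 / 2 := by linarith
  have e2 : c.imI - c.imJ + c.imK = 1 / 2 := by linarith
  have hK : c.imK = 0 := by linarith
  have hJ : c.imJ = c.imI - 1 / 2 := by linarith
  rw [hK, hJ] at h1
  have hI := AR_root (x := c.imI) (by linarith)
  exact ⟨by rw [hre]; exact AR_half, hI, by rw [hJ]; exact AR.sub_mem hI AR_half,
    by rw [hK]; exact AR.zero_mem⟩

lemma AR_sq {x : ℝ} (h : x ^ 2 = 1 / 4) : x ∈ AR := by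
  have h1 : (x - 1 / 2) * (x + 1 / 2) = 0 := by linarith
  rcases mul_eq_zero.1 h1 with h2 | h2
  · have : x = 1 / 2 := by linarith
    rw [this]; exact AR_half
  · have : x = -(1 / 2) := by linarith
    rw [this]; exact AR.neg_mem AR_half

lemma pm_sq {x : ℝ} (h : x ^ 2 = 1 / 4) : x = 1 / 2 ∨ x = -(1 / 2) := by
  have h1 : (x - 1 / 2) * (x + 1 / 2) = 0 := by linarith
  rcases mul_eq_zero.1 h1 with h2 | h2
  · left; linarith
  · right; linarith

/-- The uniform case. -/
lemma caseB_alg {b c : Q4} (hb : normSq b = 1) (hc : normSq c = 1) (hb1 : normSq (b - 1) = 1)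
    (hc1 : normSq (c - 1) = 1) (hcb : normSq (c - b) = 1) (hbp : normSq (b - p0) = 1)
    (hcq : normSq (c - q0) = 1) (h1 : normSq (c - b * star p0 * q0) = 1)
    (h2 : normSq (c - 1 - (b - 1) * star (p0 - 1) * (q0 - 1)) = 1) : b ∈ DR ∧ c ∈ DR := by
  have rb : b.re = 1 / 2 := half_re hb (by rw [← Quaternion.normSq_neg]; simpa using hb1)
  have rc : c.re = 1 / 2 := half_re hc (by rw [← Quaternion.normSq_neg]; simpa using hc1)
  rw [nsq] at hb hc hcb hbp hcq h1 h2
  simp only [p0, q0, re_sub, imI_sub, imJ_sub, imK_sub, re_mul, imI_mul, imJ_mul, imK_mul,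
    re_one, imI_one, imJ_one, imK_one, re_star, imI_star, imJ_star, imK_star] at hcb hbp hcq h1 h2
  rw [rb] at hb hcb hbp h1 h2
  rw [rc] at hc hcb hcq h1 h2
  obtain ⟨b0, b1, b2, b3⟩ := b
  obtain ⟨c0, c1, c2, c3⟩ := c
  simp only at rb rc hb hc hcb hbp hcq h1 h2
  have e1 : b1 = 1 / 2 - b2 - b3 := by linarith
  have e2 : c1 = 1 / 2 + c3 - c2 := by linarith
  subst e1 e2
  have key : (2 * b3 - 1) * (2 * c3 + 1) = 0 := by linarith
  have hh := AR_half
  have fin : b2 ∈ AR → b3 ∈ AR → c2 ∈ AR → c3 ∈ AR →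
      (⟨b0, 1 / 2 - b2 - b3, b2, b3⟩ : Q4) ∈ DR ∧ (⟨c0, 1 / 2 + c3 - c2, c2, c3⟩ : Q4) ∈ DR := by
    intro k1 k2 k3 k4
    refine ⟨⟨?_, AR.sub_mem (AR.sub_mem hh k1) k2, k1, k2⟩,
      ⟨?_, AR.sub_mem (AR.add_mem hh k4) k3, k3, k4⟩⟩
    · rw [rb]; exact hh
    · rw [rc]; exact hh
  rcases mul_eq_zero.1 key with h5 | h5
  · have h6 : b3 = 1 / 2 := by linarith
    subst h6
    have h7 : b2 ^ 2 = 1 / 4 := by linarith
    rcases pm_sq h7 with h8 | h8
    · subst h8
      have h9 : c2 = 1 / 2 := by linarith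
      subst h9
      have h10 : c3 ^ 2 = 1 / 4 := by linarith
      exact fin hh hh hh (AR_sq h10)
    · subst h8
      have h9 : c2 = c3 := by linarith
      subst h9
      have h10 : c2 ^ 2 = 1 / 4 := by linarith
      exact fin (AR.neg_mem hh) hh (AR_sq h10) (AR_sq h10)
  · have h6 : c3 = -(1 / 2) := by linarith
    subst h6
    have h7 : c2 ^ 2 = 1 / 4 := by linarith
    rcases pm_sq h7 with h8 | h8
    · subst h8
      have h9 : b2 = 1 / 2 := by linarith
      subst h9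
      have h10 : b3 ^ 2 = 1 / 4 := by linarith
      exact fin hh (AR_sq h10) hh (AR.neg_mem hh)
    · subst h8
      have h9 : b3 = -b2 := by linarith
      subst h9
      have h10 : b2 ^ 2 = 1 / 4 := by linarith
      exact fin (AR_sq h10) (AR.neg_mem (AR_sq h10)) (AR.neg_mem hh) (AR.neg_mem hh)

end Pool.Agent.K3h89.QU
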