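import Mathlib
import Pool.Agent.K3h89.QU.Rank3

/-!
# One-element extensions of `U(2,5)` of rank three conform
-/

set_option autoImplicit false
set_option linter.unusedSectionVars false
set_option linter.unusedSimpArgs false
set_option linter.unusedVariables false

namespace Pool.Agent.K3h89.QU

open Finset Quaternion

variable {α : Type*} [DecidableEq α] [Fintype α] {C : Submodule Q4 (α → Q4)} {E : Finset α}

lemma scl_inf (C : Submodule Q4 (α → Q4)) {d : α → Q4} (hd : ∀ e, d e ∈ unitary Q4) (x : α) :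
    (C ⊓ Zr Q4 {x}).map (scl d) = C.map (scl d) ⊓ Zr Q4 {x} := by
  ext c
  simp only [Submodule.mem_inf, Submodule.mem_map, mem_Zr, mem_singleton]
  constructor
  · rintro ⟨c', ⟨h1, h2⟩, rfl⟩
    exact ⟨⟨c', h1, rfl⟩, fun e he => by rw [scl_apply, h2 e he, zero_mul]⟩
  · rintro ⟨⟨c', h1, rfl⟩, h2⟩
    refine ⟨c', ⟨h1, fun e he => ?_⟩, rfl⟩
    have := h2 e he
    rw [scl_apply] at this
    rcases mul_eq_zero.1 this with h3 | h3
    · exact h3
    · exact absurd h3 (un_ne (hd e))

lemma r3_setup (hQ : QUc C) (hS : Supp C E) {x : α} (hx : x ∈ E) (hrE : rk C E = 3)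
    (hx1 : rk C {x} = 1)
    (hU : U2 (ctr (rk C) x) (E.erase x)) {s t u v w : α}
    (hst : s ≠ t) (hsu : s ≠ u) (hsv : s ≠ v) (hsw : s ≠ w) (htu : t ≠ u) (htv : t ≠ v)
    (htw : t ≠ w) (huv : u ≠ v) (huw : u ≠ w) (hvw : v ≠ w) (hs : s ∈ E.erase x)
    (ht : t ∈ E.erase x) (hu : u ∈ E.erase x) (hv : v ∈ E.erase x) (hw : w ∈ E.erase x) :
    ∃ d : α → Q4, (∀ e, d e ∈ unitary Q4) ∧ ∃ F, Frame (C.map (scl d)) {x, s, t} F ∧
      F s u = 1 ∧ F s v = 1 ∧ F s w = 1 ∧ F t u = 1 ∧ F t v = p0 ∧ F t w = q0 := by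
  have hU' : U2 (rk (C ⊓ Zr Q4 {x})) (E.erase x) := by rw [rk_ctr_fun]; exact hU
  obtain ⟨d, hd, G, hG, g1, g2, g3, g4, -⟩ := u25_form (hQ.inf {x}) (hS.inf' x) hU' hst hsu hsv
    hsw htu htv htw huv huw hvw hs ht hu hv hw
  rw [scl_inf C hd] at hG
  have hsx : s ≠ x := (mem_erase.1 hs).1
  have htx : t ≠ x := (mem_erase.1 ht).1
  have h3 : rk C {x, s, t} = 3 := by
    have h4 := hU {s, t} (by intro z hz; simp at hz; rcases hz with rfl | rfl <;> assumption)
    rw [Finset.card_pair hst] at h4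
    unfold ctr at h4
    simp at h4
    omega
  have hc : ({x, s, t} : Finset α).card = 3 :=
    Finset.card_eq_three.2 ⟨x, s, t, hsx.symm, htx.symm, hst, rfl⟩
  obtain ⟨F, hF⟩ := exists_frame_eq (C := C.map (scl d)) hS.scale (X := {x, s, t})
    (by rw [rk_scale C hd, rk_scale C hd]; omega) (by rw [rk_scale C hd]; omega)
  have h5 := hF.inf_sub (T := {x}) (by simp)
  have h6 : ({x, s, t} : Finset α) \ {x} = {s, t} := by
    ext z; simp only [mem_sdiff, mem_insert, mem_singleton]; grind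
  rw [h6] at h5
  have hFs : F s = G s := hG.uniq' h5 (by simp)
  have hFt : F t = G t := hG.uniq' h5 (by simp)
  refine ⟨d, hd, F, hF, ?_, ?_, ?_, ?_, ?_, ?_⟩
  · rw [hFs]; exact g1 u hu hsu.symm htu.symm
  · rw [hFs]; exact g1 v hv hsv.symm htv.symm
  · rw [hFs]; exact g1 w hw hsw.symm htw.symm
  · rw [hFt]; exact g2
  · rw [hFt]; exact g3
  · rw [hFt]; exact g4

lemma r3_rowx {C' : Submodule Q4 (α → Q4)} {x s t y : α} (hsx : s ≠ x) (htx : t ≠ x)
    {F : α → α → Q4}
    (hF : Frame C' {x, s, t} F) (hy : F x y ∈ unitary Q4) :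
    ∃ d : α → Q4, (∀ e, d e ∈ unitary Q4) ∧ ∃ G, Frame (C'.map (scl d)) {x, s, t} G ∧
      (∀ e, e ≠ x → G x e = star (F x y) * F x e) ∧ (∀ e, e ≠ x → G s e = F s e) ∧
      (∀ e, e ≠ x → G t e = F t e) := by
  have hd : ∀ e, (if e = x then F x y else 1) ∈ unitary Q4 := fun e => by
    split_ifs
    · exact hy
    · exact one_mem _
  refine ⟨fun e => if e = x then F x y else 1, hd, _, hF.scale hd, ?_, ?_, ?_⟩
  · intro e he; simp [he]
  · intro e he; simp [he, hsx]
  · intro e he; simp [he, htx]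

lemma r3_fin {C' : Submodule Q4 (α → Q4)} (hQ : QUc C') (hS : Supp C' E) {x s t u v w : α}
    (hE : ∀ e ∈ E, e = x ∨ e = s ∨ e = t ∨ e = u ∨ e = v ∨ e = w) {F : α → α → Q4}
    (hF : Frame C' {x, s, t} F) (h1 : F s u = 1) (h2 : F s v = 1) (h3 : F s w = 1)
    (h4 : F t u = 1) (h5 : F t v = p0) (h6 : F t w = q0) (h7 : F x u ∈ DR) (h8 : F x v ∈ DR)
    (h9 : F x w ∈ DR) : Conf DR (fun _ => 1) C' := by
  refine Conf.of_frame hQ DR_starCl (fun _ => one_mem _) hF fun b hb e => ?_
  rw [star_one, one_mul, mul_one]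
  by_cases he : e ∈ E
  swap
  · rw [hS _ (hF.mem b hb) e he]; exact DR.zero_mem
  by_cases heB : e ∈ ({x, s, t} : Finset α)
  · by_cases hbe : e = b
    · rw [hbe, hF.diag b hb]; exact DR.one_mem
    · rw [hF.off b hb e heB hbe]; exact DR.zero_mem
  simp only [mem_insert, mem_singleton, not_or] at heB hb
  have he' : e = u ∨ e = v ∨ e = w := by have := hE e he; tauto
  rcases hb with rfl | rfl | rfl <;> rcases he' with rfl | rfl | rfl
  · exact h7
  · exact h8
  · exact h9
  · rw [h1]; exact DR.one_mem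
  · rw [h2]; exact DR.one_mem
  · rw [h3]; exact DR.one_mem
  · rw [h4]; exact DR.one_mem
  · rw [h5]; exact p0_DR
  · rw [h6]; exact q0_DR

/-- The collinear case. -/
lemma r3_caseA {C' : Submodule Q4 (α → Q4)} (hQ : QUc C') (hS : Supp C' E) {x s t u v w : α}
    (hE : ∀ e ∈ E, e = x ∨ e = s ∨ e = t ∨ e = u ∨ e = v ∨ e = w)
    (hxs : x ≠ s) (hxt : x ≠ t) (hxu : x ≠ u) (hxv : x ≠ v) (hxw : x ≠ w)
    (hst : s ≠ t) (hsu : s ≠ u) (hsv : s ≠ v) (hsw : s ≠ w) (htu : t ≠ u) (htv : t ≠ v)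
    (htw : t ≠ w) (huv : u ≠ v) (huw : u ≠ w) (hvw : v ≠ w) {F : α → α → Q4}
    (hF : Frame C' {x, s, t} F) (h1 : F s u = 1) (h2 : F s v = 1) (h3 : F s w = 1)
    (h4 : F t u = 1) (h5 : F t v = p0) (h6 : F t w = q0) (h7 : F x u = 0) (h8 : F x v = 1)
    (h9 : F x w ≠ 0) : Conf DR (fun _ => 1) C' := by
  have hc : F x w ∈ unitary Q4 := un_of_ne hQ hF (by simp) h9
  refine r3_fin hQ hS hE hF h1 h2 h3 h4 h5 h6 (by rw [h7]; exact DR.zero_mem)
    (by rw [h8]; exact DR.one_mem) ?_
  have a1 := q2 hQ hF (b := s) (t := x) (u := v) (v := w) (by simp) (by simp) hxs.symm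
    (by simp [hxv.symm, hsv.symm, htv.symm]) (by rw [h8]; exact one_ne_zero)
  have a2 := q2 hQ hF (b := t) (t := x) (u := v) (v := w) (by simp) (by simp) hxt.symm
    (by simp [hxv.symm, hsv.symm, htv.symm]) (by rw [h8]; exact one_ne_zero)
  have hF2 := hF.exchange (b := x) (e := v) (by simp) (by simp [hxv.symm, hsv.symm, htv.symm])
    (by rw [h8]; exact one_ne_zero)
  have b1 : Frame.ex F x v s u = 1 := by rw [Frame.ex_ne _ _ _ _ hsv, h1, h2, h8, h7]; simp
  have b2 : Frame.ex F x v s w = 1 - F x w := by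
    rw [Frame.ex_ne _ _ _ _ hsv, h3, h2, h8]; simp
  have b3 : Frame.ex F x v t u = 1 := by rw [Frame.ex_ne _ _ _ _ htv, h4, h5, h8, h7]; simp
  have b4 : Frame.ex F x v t w = q0 - p0 * F x w := by
    rw [Frame.ex_ne _ _ _ _ htv, h6, h5, h8]; simp
  have a3 := q2 hQ hF2 (b := t) (t := s) (u := u) (v := w) (by simp [hxt.symm])
    (by simp [hxs.symm]) hst.symm (by simp [huv, hxu.symm, hsu.symm, htu.symm])
    (by rw [b1]; exact one_ne_zero)
  rw [b1, b2, b3, b4] at a3
  rw [h3, h2, h8] at a1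
  rw [h6, h5, h8] at a2
  simp only [star_one, mul_one, one_mul, un_iff] at a1 a2 a3
  exact caseA_alg ((un_iff _).1 hc) a1 a2 a3

/-- The uniform case. -/
lemma r3_caseB {C' : Submodule Q4 (α → Q4)} (hQ : QUc C') (hS : Supp C' E) {x s t u v w : α}
    (hE : ∀ e ∈ E, e = x ∨ e = s ∨ e = t ∨ e = u ∨ e = v ∨ e = w)
    (hxs : x ≠ s) (hxt : x ≠ t) (hxu : x ≠ u) (hxv : x ≠ v) (hxw : x ≠ w)
    (hst : s ≠ t) (hsu : s ≠ u) (hsv : s ≠ v) (hsw : s ≠ w) (htu : t ≠ u) (htv : t ≠ v)
    (htw : t ≠ w) (huv : u ≠ v) (huw : u ≠ w) (hvw : v ≠ w)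
    (r1 : 3 ≤ rk C' {v, u, t}) (r2 : 3 ≤ rk C' {w, u, t}) (r3 : 3 ≤ rk C' {w, v, t})
    (r4 : 3 ≤ rk C' {v, u, s}) (r5 : 3 ≤ rk C' {w, u, s}) (r6 : 3 ≤ rk C' {w, v, s})
    (r7 : 3 ≤ rk C' {w, v, u}) (r8 : 3 ≤ rk C' {v, s, t}) (r9 : 3 ≤ rk C' {w, s, t})
    {F : α → α → Q4}
    (hF : Frame C' {x, s, t} F) (h1 : F s u = 1) (h2 : F s v = 1) (h3 : F s w = 1)
    (h4 : F t u = 1) (h5 : F t v = p0) (h6 : F t w = q0) (h7 : F x u = 1) :
    Conf DR (fun _ => 1) C' := by
  have hr := isRank_rk C'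
  have hcB : ({x, s, t} : Finset α).card = 3 :=
    Finset.card_eq_three.2 ⟨x, s, t, hxs, hxt, hst, rfl⟩
  have hb : F x v ∈ unitary Q4 := un_of_ne hQ hF (by simp) (ne_of_rk hF (by simp)
    (by simp [hxv.symm, hsv.symm, htv.symm]) (by
      rw [hcB]; refine r8.trans (hr.mm ?_)
      intro z; simp only [mem_insert, mem_erase, mem_singleton]; grind))
  have hc : F x w ∈ unitary Q4 := un_of_ne hQ hF (by simp) (ne_of_rk hF (by simp)
    (by simp [hxw.symm, hsw.symm, htw.symm]) (by
      rw [hcB]; refine r9.trans (hr.mm ?_)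
      intro z; simp only [mem_insert, mem_erase, mem_singleton]; grind))
  have a1 := q2' hQ hF (b := x) (t := s) (u := u) (v := v) (by simp) (by simp) hxs
    (by simp [hxu.symm, hsu.symm, htu.symm]) (by simp [hxv.symm, hsv.symm, htv.symm]) huv
    (by rw [h1]; exact one_ne_zero) (by
      rw [hcB]; refine r1.trans (hr.mm ?_)
      intro z; simp only [mem_insert, mem_erase, mem_singleton]; grind)
  have a2 := q2' hQ hF (b := x) (t := s) (u := u) (v := w) (by simp) (by simp) hxs
    (by simp [hxu.symm, hsu.symm, htu.symm]) (by simp [hxw.symm, hsw.symm, htw.symm]) huw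
    (by rw [h1]; exact one_ne_zero) (by
      rw [hcB]; refine r2.trans (hr.mm ?_)
      intro z; simp only [mem_insert, mem_erase, mem_singleton]; grind)
  have a3 := q2' hQ hF (b := x) (t := s) (u := v) (v := w) (by simp) (by simp) hxs
    (by simp [hxv.symm, hsv.symm, htv.symm]) (by simp [hxw.symm, hsw.symm, htw.symm]) hvw
    (by rw [h2]; exact one_ne_zero) (by
      rw [hcB]; refine r3.trans (hr.mm ?_)
      intro z; simp only [mem_insert, mem_erase, mem_singleton]; grind)
  have a4 := q2' hQ hF (b := x) (t := t) (u := u) (v := v) (by simp) (by simp) hxt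
    (by simp [hxu.symm, hsu.symm, htu.symm]) (by simp [hxv.symm, hsv.symm, htv.symm]) huv
    (by rw [h4]; exact one_ne_zero) (by
      rw [hcB]; refine r4.trans (hr.mm ?_)
      intro z; simp only [mem_insert, mem_erase, mem_singleton]; grind)
  have a5 := q2' hQ hF (b := x) (t := t) (u := u) (v := w) (by simp) (by simp) hxt
    (by simp [hxu.symm, hsu.symm, htu.symm]) (by simp [hxw.symm, hsw.symm, htw.symm]) huw
    (by rw [h4]; exact one_ne_zero) (by
      rw [hcB]; refine r5.trans (hr.mm ?_)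
      intro z; simp only [mem_insert, mem_erase, mem_singleton]; grind)
  have a6 := q2' hQ hF (b := x) (t := t) (u := v) (v := w) (by simp) (by simp) hxt
    (by simp [hxv.symm, hsv.symm, htv.symm]) (by simp [hxw.symm, hsw.symm, htw.symm]) hvw
    (by rw [h5]; exact un_ne p0_un) (by
      rw [hcB]; refine r6.trans (hr.mm ?_)
      intro z; simp only [mem_insert, mem_erase, mem_singleton]; grind)
  have hF2 := hF.exchange (b := s) (e := u) (by simp) (by simp [hxu.symm, hsu.symm, htu.symm])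
    (by rw [h1]; exact one_ne_zero)
  have b1 : Frame.ex F s u x v = F x v - 1 := by
    rw [Frame.ex_ne _ _ _ _ hxu, h7, h1, h2]; simp
  have b2 : Frame.ex F s u x w = F x w - 1 := by
    rw [Frame.ex_ne _ _ _ _ hxu, h7, h1, h3]; simp
  have b3 : Frame.ex F s u t v = p0 - 1 := by
    rw [Frame.ex_ne _ _ _ _ htu, h4, h1, h2, h5]; simp
  have b4 : Frame.ex F s u t w = q0 - 1 := by
    rw [Frame.ex_ne _ _ _ _ htu, h4, h1, h3, h6]; simp
  have hcB2 : (insert u (({x, s, t} : Finset α).erase s)).card = 3 := by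
    rw [Finset.card_insert_of_notMem (by simp [hxu.symm, hsu.symm, htu.symm]),
      Finset.card_erase_of_mem (by simp), hcB]
  have a7 := q2' hQ hF2 (b := x) (t := t) (u := v) (v := w) (by simp [hxs])
    (by simp [hst.symm]) hxt (by simp [huv.symm, hxv.symm, hsv.symm, htv.symm])
    (by simp [huw.symm, hxw.symm, hsw.symm, htw.symm]) hvw
    (by rw [b3]; exact un_ne p01_un) (by
      rw [hcB2]; refine r7.trans (hr.mm ?_)
      intro z; simp only [mem_insert, mem_erase, mem_singleton]; grind)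
  rw [b1, b2, b3, b4] at a7
  rw [h7, h1, h2] at a1
  rw [h7, h1, h3] at a2
  rw [h2, h3] at a3
  rw [h7, h4, h5] at a4
  rw [h7, h4, h6] at a5
  rw [h5, h6] at a6
  simp only [star_one, mul_one, one_mul, un_iff] at a1 a2 a3 a4 a5 a6 a7
  obtain ⟨m1, m2⟩ := caseB_alg ((un_iff _).1 hb) ((un_iff _).1 hc) a1 a2 a3 a4 a5 a6 a7
  exact r3_fin hQ hS hE hF h1 h2 h3 h4 h5 h6 (by rw [h7]; exact DR.one_mem) m1 m2

theorem r3_conf (hQ : QUc C) (hS : Supp C E)
    (hT : TC (rk C) E) (h6 : E.card = 6) {x : α} (hx : x ∈ E)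
    (hU : U2 (ctr (rk C) x) (E.erase x)) : ∃ d, Conf DR d C := by
  have hr := isRank_rk C
  have h4 : 4 ≤ E.card := by omega
  have hx1 := hT.single hr h4 hx
  have hce : (E.erase x).card = 5 := by rw [Finset.card_erase_of_mem hx, h6]
  have hrE : rk C E = 3 := by
    have h7 := hU (E.erase x) subset_rfl
    rw [hce] at h7
    unfold ctr at h7
    rw [Finset.insert_erase hx, hx1] at h7
    simp at h7; omega
  by_cases hcol : ∃ s t u, s ∈ E.erase x ∧ t ∈ E.erase x ∧ u ∈ E.erase x ∧ s ≠ t ∧ s ≠ u ∧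
      t ≠ u ∧ rk C {s, t, u} ≤ 2
  · obtain ⟨s, t, u, hs, ht, hu, hst, hsu, htu, hl⟩ := hcol
    have h7 : ((E.erase x) \ {s, t, u}).card = 2 := by
      rw [Finset.card_sdiff_of_subset (by
        intro z hz; simp only [mem_insert, mem_singleton] at hz
        rcases hz with rfl | rfl | rfl <;> assumption), hce,
        Finset.card_eq_three.2 ⟨s, t, u, hst, hsu, htu, rfl⟩]
    obtain ⟨v, w, hvw, h8⟩ := Finset.card_eq_two.1 h7
    have hv' : v ∈ (E.erase x) \ {s, t, u} := by rw [h8]; simp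
    have hw' : w ∈ (E.erase x) \ {s, t, u} := by rw [h8]; simp
    simp only [mem_sdiff, mem_insert, mem_singleton, not_or] at hv' hw'
    obtain ⟨hv, hvs, hvt, hvu⟩ := hv'
    obtain ⟨hw, hws, hwt, hwu⟩ := hw'
    replace hvs : v ≠ s := hvs
    replace hvt : v ≠ t := hvt
    replace hvu : v ≠ u := hvu
    replace hws : w ≠ s := hws
    replace hwt : w ≠ t := hwt
    replace hwu : w ≠ u := hwu
    have hE : ∀ e ∈ E, e = x ∨ e = s ∨ e = t ∨ e = u ∨ e = v ∨ e = w := by
      intro e he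
      by_contra hcon
      push Not at hcon
      have : e ∈ (E.erase x) \ {s, t, u} := by simp [he, hcon]
      rw [h8] at this
      simp at this; tauto
    have hsx := (mem_erase.1 hs).1
    have htx := (mem_erase.1 ht).1
    have hux := (mem_erase.1 hu).1
    have hvx := (mem_erase.1 hv).1
    have hwx := (mem_erase.1 hw).1
    obtain ⟨d, hd, F, hF, f1, f2, f3, f4, f5, f6⟩ := r3_setup hQ hS hx hrE hx1 hU hst hsu
      hvs.symm hws.symm htu hvt.symm hwt.symm hvu.symm hwu.symm hvw hs ht hu hv hw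
    have hxu0 : F x u = 0 := by
      by_contra hne
      have h9 := (hF.exchange (b := x) (e := u) (by simp) (by simp [hux, hsu.symm, htu.symm])
        hne).rk_sub (T := {s, t, u}) (by
          intro z; simp only [mem_insert, mem_erase, mem_singleton]; grind)
      rw [rk_scale C hd, Finset.card_eq_three.2 ⟨s, t, u, hst, hsu, htu, rfl⟩] at h9
      omega
    -- a fourth point on the line is impossible
    have four : ∀ v w, v ∈ E.erase x → w ∈ E.erase x → v ≠ s → v ≠ t → v ≠ u → w ≠ s → w ≠ t →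
        w ≠ u → w ≠ v → (∀ e ∈ E, e = x ∨ e = s ∨ e = t ∨ e = u ∨ e = v ∨ e = w) →
        F x v ≠ 0 := by
      intro v w hv hw hvs hvt hvu hws hwt hwu hwv hE h0
      have h9 := hF.rk_eq (X := {s, t, u, v}) (by
        intro b hb hbX e he
        have hbx : b = x := by
          simp only [mem_insert, mem_singleton, not_or] at hb hbX; tauto
        subst hbx
        simp only [mem_insert, mem_singleton] at he
        rcases he with rfl | rfl | rfl | rfl
        · exact hF.off b hb _ (by simp) hsx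
        · exact hF.off b hb _ (by simp) htx
        · exact hxu0
        · exact h0)
      rw [rk_scale C hd] at h9
      have h10 : (({x, s, t} : Finset α) ∩ {s, t, u, v}).card ≤ 2 := by
        refine (Finset.card_le_card (t := {s, t}) ?_).trans Finset.card_le_two
        have hvx := (mem_erase.1 hv).1
        intro z; simp only [mem_insert, mem_inter, mem_singleton]; grind
      have hvx := (mem_erase.1 hv).1
      have hwx := (mem_erase.1 hw).1
      have h11 := hT.2 {s, t, u, v} {x, w} (by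
          constructor
          · intro z
            constructor
            · intro hz
              have := hE z hz
              simp only [mem_insert, mem_singleton]; tauto
            · simp only [mem_insert, mem_singleton]
              simp only [mem_erase] at hs ht hu hv hw
              rintro ((rfl | rfl | rfl | rfl) | (rfl | rfl)) <;> tauto
          · intro z; simp only [mem_insert, mem_singleton]; grind)
        (card_two_le (a := s) (b := t) (by simp) (by simp) hst)
        (card_two_le (a := x) (b := w) (by simp) (by simp) hwx.symm)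
      have h12 := hr.le_card {x, w}
      have h13 := Finset.card_le_two (a := x) (b := w)
      omega
    have hxv := four v w hv hw hvs hvt hvu hws hwt hwu hvw.symm hE
    have hxw := four w v hw hv hws hwt hwu hvs hvt hvu hvw (fun e he => by
      have := hE e he; tauto)
    have hQ' := hQ.scale hd
    have hyU := un_of_ne hQ' hF (by simp) hxv
    obtain ⟨d1, hd1, G, hG, g1, g2, g3⟩ := r3_rowx hsx htx hF hyU
    have hc := r3_caseA (hQ'.scale hd1) hS.scale.scale hE hsx.symm htx.symm hux.symm hvx.symm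
      hwx.symm hst hsu hvs.symm hws.symm htu hvt.symm hwt.symm hvu.symm hwu.symm hvw hG
      (by rw [g2 _ hux, f1]) (by rw [g2 _ hvx, f2]) (by rw [g2 _ hwx, f3])
      (by rw [g3 _ hux, f4]) (by rw [g3 _ hvx, f5]) (by rw [g3 _ hwx, f6])
      (by rw [g1 _ hux, hxu0, mul_zero]) (by rw [g1 _ hvx, un_l hyU])
      (by rw [g1 _ hwx]; exact mul_ne_zero (un_ne (un_star hyU)) hxw)
    exact ⟨_, (hc.scale_back hd1).scale_back hd⟩
  · push Not at hcol
    obtain ⟨s, t, u, v, w, ⟨hst, hsu, hsv, hsw⟩, ⟨htu, htv, htw⟩, ⟨huv, huw⟩, hvw, hE0⟩ :=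
      five_elems hce
    have hs : s ∈ E.erase x := by rw [hE0]; simp
    have ht : t ∈ E.erase x := by rw [hE0]; simp
    have hu : u ∈ E.erase x := by rw [hE0]; simp
    have hv : v ∈ E.erase x := by rw [hE0]; simp
    have hw : w ∈ E.erase x := by rw [hE0]; simp
    have hE : ∀ e ∈ E, e = x ∨ e = s ∨ e = t ∨ e = u ∨ e = v ∨ e = w := by
      intro e he
      by_cases h7 : e = x
      · exact Or.inl h7
      · have : e ∈ E.erase x := by simp [h7, he]
        rw [hE0] at this
        simp at this; tauto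
    have hsx := (mem_erase.1 hs).1
    have htx := (mem_erase.1 ht).1
    have hux := (mem_erase.1 hu).1
    have hvx := (mem_erase.1 hv).1
    have hwx := (mem_erase.1 hw).1
    obtain ⟨d, hd, F, hF, f1, f2, f3, f4, f5, f6⟩ := r3_setup hQ hS hx hrE hx1 hU hst hsu
      hsv hsw htu htv htw huv huw hvw hs ht hu hv hw
    have hcB : ({x, s, t} : Finset α).card = 3 :=
      Finset.card_eq_three.2 ⟨x, s, t, hsx.symm, htx.symm, hst, rfl⟩
    have hQ' := hQ.scale hd
    have hxu : F x u ≠ 0 := ne_of_rk hF (by simp) (by simp [hux, hsu.symm, htu.symm]) (by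
      rw [hcB, rk_scale C hd]
      have h9 := hcol u s t hu hs ht hsu.symm htu.symm hst
      have h10 := hr.mm (X := {u, s, t}) (Y := insert u (({x, s, t} : Finset α).erase x)) (by
        intro z; simp only [mem_insert, mem_erase, mem_singleton]; grind)
      omega)
    have hyU := un_of_ne hQ' hF (by simp) hxu
    obtain ⟨d1, hd1, G, hG, g1, g2, g3⟩ := r3_rowx hsx htx hF hyU
    have hrk : ∀ a b c, a ∈ E.erase x → b ∈ E.erase x → c ∈ E.erase x → a ≠ b → a ≠ c → b ≠ c →
        3 ≤ rk ((C.map (scl d)).map (scl d1)) {a, b, c} := by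
      intro a b c ha hb hc hab hac hbc
      rw [rk_scale _ hd1, rk_scale C hd]
      have := hcol a b c ha hb hc hab hac hbc
      omega
    have hc := r3_caseB (hQ'.scale hd1) hS.scale.scale hE hsx.symm htx.symm hux.symm hvx.symm
      hwx.symm hst hsu hsv hsw htu htv htw huv huw hvw
      (hrk v u t hv hu ht huv.symm htv.symm htu.symm)
      (hrk w u t hw hu ht huw.symm htw.symm htu.symm)
      (hrk w v t hw hv ht hvw.symm htw.symm htv.symm)
      (hrk v u s hv hu hs huv.symm hsv.symm hsu.symm)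
      (hrk w u s hw hu hs huw.symm hsw.symm hsu.symm)
      (hrk w v s hw hv hs hvw.symm hsw.symm hsv.symm)
      (hrk w v u hw hv hu hvw.symm huw.symm huv.symm)
      (hrk v s t hv hs ht hsv.symm htv.symm hst)
      (hrk w s t hw hs ht hsw.symm htw.symm hst) hG
      (by rw [g2 _ hux, f1]) (by rw [g2 _ hvx, f2]) (by rw [g2 _ hwx, f3])
      (by rw [g3 _ hux, f4]) (by rw [g3 _ hvx, f5]) (by rw [g3 _ hwx, f6])
      (by rw [g1 _ hux, un_l hyU])
    exact ⟨_, (hc.scale_back hd1).scale_back hd⟩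

end Pool.Agent.K3h89.QU
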