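import Mathlib
import Pool.Agent.K3h89.QU.Rank3b

/-!
# The two levels of the confinement theorem
-/

set_option autoImplicit false
set_option linter.unusedSectionVars false
set_option linter.unusedSimpArgs false
set_option linter.unusedVariables false

namespace Pool.Agent.K3h89.QU

open Finset Quaternion

section findp

variable {α : Type*} [DecidableEq α] {r : Finset α → ℕ} {E : Finset α} {x y : α}

lemma bad_line (hr : IsRank r) (h : TC r E) (h7 : E.card = 7) (h3 : r E = 3) (hx : x ∈ E)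
    (hU : U2 (ctr r x) (E.erase x)) {p : α} (hp : p ∈ E) (hpx : p ≠ x)
    (hn : ¬ TC r (E.erase p)) :
    ∃ L : Finset α, (∀ z ∈ L, z ∈ E ∧ z ≠ x ∧ z ≠ p) ∧ L.card = 4 ∧ r L ≤ 2 := by
  have h4 : 4 ≤ E.card := by omega
  have hs := h.single hr h4 hx
  have hcn := h.cn_del hr h4 hp
  have hT2 : ¬ T2 r (E.erase p) := fun hh => hn ⟨hcn, hh⟩
  unfold T2 at hT2
  push Not at hT2
  obtain ⟨X, Y, hXY, hX, hY, hl⟩ := hT2
  have hle : r (E.erase p) ≤ 3 := by rw [← h3]; exact hr.mono (Finset.erase_subset _ _)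
  have hsub : E.erase p ⊆ E := Finset.erase_subset _ _
  have rX := h.two_le hr h4 (hXY.subL.trans hsub) hX
  have rY := h.two_le hr h4 (hXY.subR.trans hsub) hY
  have hcard := hXY.card
  rw [Finset.card_erase_of_mem hp, h7] at hcard
  have key : ∀ X Y, Prt X Y (E.erase p) → x ∈ X → X.card + Y.card = 6 → 2 ≤ X.card → r X ≤ 2 →
      r Y ≤ 2 → ∃ L : Finset α, (∀ z ∈ L, z ∈ E ∧ z ≠ x ∧ z ≠ p) ∧ L.card = 4 ∧ r L ≤ 2 := by
    intro X Y hP hxX hc h2 rX rY
    have h5 := hU (X.erase x) (by
      intro z hz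
      have := hP.subL (mem_erase.1 hz).2
      simp only [mem_erase] at this hz ⊢; tauto)
    unfold ctr at h5
    rw [Finset.insert_erase hxX, hs, Finset.card_erase_of_mem hxX] at h5
    refine ⟨Y, fun z hz => ?_, by omega, rY⟩
    have := hP.subR hz
    simp only [mem_erase] at this
    exact ⟨this.2, fun hh => hP.2 x hxX (hh ▸ hz), this.1⟩
  rcases (hXY.1 x).1 (by simp [hx, hpx.symm]) with h5 | h5
  · exact key X Y hXY h5 (by omega) hX (by omega) (by omega)
  · exact key Y X hXY.symm h5 (by omega) hY (by omega) (by omega)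

lemma find_p (hr : IsRank r) (h : TC r E) (h7 : E.card = 7) (h3 : r E = 3) (hx : x ∈ E)
    (hy : y ∈ E) (hxy : x ≠ y) (hU : U2 (ctr r x) (E.erase x)) (hTy : TC r (E.erase y)) :
    ∃ p ∈ E, p ≠ x ∧ p ≠ y ∧ TC r (E.erase p) := by
  have h4 : 4 ≤ E.card := by omega
  have hEy : r E ≤ r (E.erase y) := h.compl1 hr h4 hy fun z hz => by
    simp only [mem_erase]; tauto
  have hcy : (E.erase y).card = 6 := by rw [Finset.card_erase_of_mem hy, h7]
  have step2 : ∀ L : Finset α, (∀ z ∈ L, z ∈ E ∧ z ≠ x ∧ z ≠ y) → L.card = 4 → 3 ≤ r L := by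
    intro L hL hL4
    have hP : Prt L (E.erase y \ L) (E.erase y) := Prt.sdiff (fun z hz => by
      have := hL z hz; simp only [mem_erase]; tauto)
    have hc := hP.card
    have h5 := hTy.2 _ _ hP (by omega) (by omega)
    have h6 := hr.le_card (E.erase y \ L)
    omega
  obtain ⟨p0, hp0⟩ : (E \ {x, y}).Nonempty := by
    rw [← Finset.card_pos]
    have h5 := Finset.le_card_sdiff {x, y} E
    have h6 := Finset.card_le_two (a := x) (b := y)
    omega
  simp only [mem_sdiff, mem_insert, mem_singleton, not_or] at hp0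
  obtain ⟨hp0E, hp0x, hp0y⟩ := hp0
  by_cases hT0 : TC r (E.erase p0)
  · exact ⟨p0, hp0E, hp0x, hp0y, hT0⟩
  obtain ⟨L0, hL0, hc0, hr0⟩ := bad_line hr h h7 h3 hx hU hp0E hp0x hT0
  have hyL : ∀ L : Finset α, ∀ p, (∀ z ∈ L, z ∈ E ∧ z ≠ x ∧ z ≠ p) → L.card = 4 → r L ≤ 2 →
      y ∈ L := by
    intro L p hL hc hrL
    by_contra hyL
    have := step2 L (fun z hz => ⟨(hL z hz).1, (hL z hz).2.1, fun hh => hyL (hh ▸ hz)⟩) hc
    omega
  have hyL0 := hyL L0 p0 hL0 hc0 hr0
  obtain ⟨p1, hp1⟩ : (L0.erase y).Nonempty := by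
    rw [← Finset.card_pos, Finset.card_erase_of_mem hyL0]; omega
  rw [mem_erase] at hp1
  obtain ⟨hp1y, hp1L⟩ := hp1
  have hp1E := hL0 p1 hp1L
  refine ⟨p1, hp1E.1, hp1E.2.1, hp1y, ?_⟩
  by_contra hT1
  obtain ⟨L1, hL1, hc1, hr1⟩ := bad_line hr h h7 h3 hx hU hp1E.1 hp1E.2.1 hT1
  have hyL1 := hyL L1 p1 hL1 hc1 hr1
  have hui := Finset.card_union_add_card_inter L0 L1
  have hsub : L0 ∪ L1 ⊆ E.erase x := by
    intro z hz
    rcases Finset.mem_union.1 hz with hz | hz
    · have := hL0 z hz; simp only [mem_erase]; tauto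
    · have := hL1 z hz; simp only [mem_erase]; tauto
  have h5 := Finset.card_le_card hsub
  rw [Finset.card_erase_of_mem hx, h7] at h5
  have hin : L0 ∩ L1 ⊆ E := fun z hz => (hL0 z (mem_inter.1 hz).1).1
  have h6 := h.two_le hr h4 hin (by omega)
  have h8 := hr.sub L0 L1
  have hlt : L1.card < (L0 ∪ L1).card := by
    apply Finset.card_lt_card
    refine ⟨Finset.subset_union_right, fun hh => ?_⟩
    exact (hL1 p1 (hh (by simp [hp1L]))).2.2 rfl
  obtain ⟨L, hL, hLc⟩ := Finset.exists_subset_card_eq (s := (L0 ∪ L1).erase y) (n := 4) (by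
    rw [Finset.card_erase_of_mem (by simp [hyL0])]; omega)
  have h9 := step2 L (fun z hz => by
    have := hL hz
    rw [mem_erase] at this
    have h10 := hsub this.2
    rw [mem_erase] at h10
    exact ⟨h10.2, h10.1, this.1⟩) hLc
  have h10 := hr.mm (X := L) (Y := L0 ∪ L1) (fun z hz => (mem_erase.1 (hL hz)).2)
  omega

end findp

variable {α : Type*} [DecidableEq α] [Fintype α]

/-- The class of all unitary chain groups. -/
def GoodD (C : Submodule Q4 (α → Q4)) (E : Finset α) : Prop := QUc C ∧ Supp C E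

/-- Those without a five-element uniform minor. -/
def GoodL (C : Submodule Q4 (α → Q4)) (E : Finset α) : Prop :=
  QUc C ∧ Supp C E ∧ ¬ Rich (rk C) E 2 5

variable {C : Submodule Q4 (α → Q4)} {E : Finset α}

lemma al_D (hQ : QUc C) (hS : Supp C E) (hcn : Cn (rk C) E) (hU : Rich (rk C) E 2 5) :
    AL DR C E := by
  refine AL.of_elem hQ hS hcn DR_starCl fun d d' hd hd' => ?_
  have key : ∀ C : Submodule Q4 (α → Q4), QUc C → Conf DR d C → Conf DR d' C →
      HasU (rk C) E 2 5 → ∃ e ∈ E,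
      (∀ x ∈ DR, star (star (d e) * d' e) * x * (star (d e) * d' e) ∈ DR) ∧
      (∀ x ∈ DR, (star (d e) * d' e) * x * star (star (d e) * d' e) ∈ DR) := by
    intro C hQ hd hd' hU
    obtain ⟨T, S, h1, h2, h3⟩ := minor_u2 hU
    obtain ⟨e, he, h4⟩ := u25_norm ((hQ.inf T).res S) (supp_res _ _) h3 h2
      ((hd.inf T).res S) ((hd'.inf T).res S)
    exact ⟨e, h1 he, h4⟩
  rcases hU with hU | hU
  · exact key C hQ hd hd' hU
  · refine key (perp C E) (hQ.perp hS) (hd.perp hS DR_starCl) (hd'.perp hS DR_starCl) ?_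
    rw [rk_perp_fun hS]
    exact hU.dual (isRank_rk C) (by norm_num)

lemma al_L (hQ : QUc C) (hS : Supp C E) (hcn : Cn (rk C) E) (hU : Rich (rk C) E 2 4) :
    AL LR C E := by
  refine AL.of_elem hQ hS hcn LR_star fun d d' hd hd' => ?_
  have hU' : HasU (rk C) E 2 4 := hU.elim id id
  obtain ⟨T, S, h1, h2, h3⟩ := minor_u2 hU'
  obtain ⟨e, he, h4⟩ := u24_norm ((hQ.inf T).res S) (supp_res _ _) h3 h2
    ((hd.inf T).res S) ((hd'.inf T).res S)
  exact ⟨e, h1 he, h4⟩

/-- A 3-connected matroid with five elements is uniform. -/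
lemma five_rich {r : Finset α → ℕ} {E : Finset α} (hr : IsRank r) (h : TC r E)
    (h5 : E.card = 5) (h2 : r E = 2 ∨ r E = 3) : Rich r E 2 5 := by
  rcases h2 with h2 | h2
  · left
    have := (h.u2 hr (by omega) h2).hasU hr
    rwa [h5] at this
  · right
    have hd := isRank_dl hr E
    have h3 : dl r E E = 2 := by have := dl_full hr E; omega
    have h4 := ((h.dual hr).u2 hd (by omega) h3).hasU hd
    rw [h5] at h4
    exact (h4.dual hd (by norm_num)).congr fun X hX => dl_dl hr hX

lemma clsA_D : ClsA DR (GoodD (α := α)) 2 5 where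
  starcl := DR_starCl
  hk := by norm_num
  hn := by norm_num
  qu := fun C E h => h.1
  supp := fun C E h => h.2
  ctr := fun C E x h hx => ⟨h.1.inf _, h.2.inf' x⟩
  del := fun C E x h hx => ⟨h.1.res _, supp_res _ _⟩
  dual := fun C E h => ⟨h.1.perp h.2, supp_perp _ _⟩
  al := fun C E h hcn hU => al_D h.1 h.2 hcn hU

/-- The seven-element case of rank three. -/
lemma hb3_rank3 {x y : α} (hG : GoodD C E) (hT : TC (rk C) E) (hx : x ∈ E) (hy : y ∈ E)
    (hxy : x ≠ y) (hTx : TC (ctr (rk C) x) (E.erase x)) (hTy : TC (rk C) (E.erase y))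
    (hK : HasU (ctr (rk C) x) ((E.erase x).erase y) 2 5) (h7 : E.card = 7)
    (hI : ∀ (C' : Submodule Q4 (α → Q4)) (E' : Finset α), GoodD C' E' → TC (rk C') E' →
      Rich (rk C') E' 2 5 → E'.card < E.card → ∃ d, Conf DR d C') : ∃ d, Conf DR d C := by
  have hr := isRank_rk C
  have hr1 := isRank_ctr hr x
  have h4 : 4 ≤ E.card := by omega
  have hs := hT.single hr h4 hx
  have hyx : y ∈ E.erase x := by simp [hy, hxy.symm]
  have hcx : (E.erase x).card = 6 := by rw [Finset.card_erase_of_mem hx, h7]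
  have hcK : ((E.erase x).erase y).card = 5 := by rw [Finset.card_erase_of_mem hyx, hcx]
  have hUK := hK.full hr1 hcK
  have hrK := hUK _ subset_rfl
  rw [hcK] at hrK
  have hrx : ctr (rk C) x (E.erase x) = 2 := by
    have h5 := hTx.compl1 hr1 (by omega) hyx (Y := (E.erase x).erase y) (fun z hz => by
      simp only [mem_erase] at hz ⊢; tauto)
    have h6 := hr1.mm (X := (E.erase x).erase y) (Y := E.erase x)
      (fun z hz => (mem_erase.1 hz).2)
    omega
  have hUx : U2 (ctr (rk C) x) (E.erase x) := hTx.u2 hr1 (by omega) hrx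
  have hrE : rk C E = 3 := by
    unfold ctr at hrx
    rw [Finset.insert_erase hx, hs] at hrx
    omega
  obtain ⟨p, hp, hpx, hpy, hTp⟩ := find_p hr hT h7 hrE hx hy hxy hUx hTy
  have rich : ∀ p ∈ E, p ≠ x → Rich (ctr (rk C) x) ((E.erase x).erase p) 2 5 := by
    intro p hp hpx
    left
    have h5 : U2 (ctr (rk C) x) ((E.erase x).erase p) := fun Z hZ =>
      hUx Z (hZ.trans (Finset.erase_subset _ _))
    have h6 := h5.hasU hr1
    rwa [Finset.card_erase_of_mem (by simp [hp, hpx]), hcx] at h6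
  have hGx : GoodD (C ⊓ Zr Q4 {x}) (E.erase x) := clsA_D.ctr C E x hG hx
  have c0 : ∃ d, Conf DR d (C ⊓ Zr Q4 {x}) := by
    refine hI _ _ hGx ?_ ?_ (by omega)
    · rw [rk_ctr_fun]; exact hTx
    · rw [rk_ctr_fun]
      exact (rich y hy hxy.symm).mono (Finset.erase_subset _ _)
  have cdel : ∀ p ∈ E, p ≠ x → TC (rk C) (E.erase p) →
      ∃ d, Conf DR d (C.map (res Q4 (E.erase p))) := by
    intro p hp hpx hTp
    refine hI _ _ (clsA_D.del C E p hG hp) (hTp.congr fun X hX => rk_del C hX) ?_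
      (by rw [Finset.card_erase_of_mem hp]; omega)
    refine Rich.congr ?_ fun X hX => rk_del C hX
    refine Rich.of_ctr hr (x := x) (by simp [hx, hpx.symm]) ?_
    rw [← commE]; exact rich p hp hpx
  refine two_del clsA_D hG hx hy hp hxy hpx.symm hpy.symm c0 (cdel y hy hxy.symm hTy)
    (cdel p hp hpx hTp) (hTx.cn_del hr1 (by omega) hyx)
    (hTx.cn_del hr1 (by omega) (by simp [hp, hpx])) (rich y hy hxy.symm) (rich p hp hpx) ?_
  have h5 := hT.compl1 hr h4 hy (Y := E.erase y) (fun z hz => by simp only [mem_erase]; tauto)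
  have h6 := hTy.compl2 hr (by rw [Finset.card_erase_of_mem hy]; omega) (a := x) (b := p)
    (by simp [hx, hxy]) (by simp [hp, hpy]) hpx.symm (Y := E \ {x, y, p}) (fun z hz => by
      simp only [mem_erase] at hz
      simp only [mem_sdiff, mem_insert, mem_singleton]; tauto)
  omega

theorem cls_D : Cls DR (GoodD (α := α)) 2 5 where
  toClsA := clsA_D
  hb1 := by
    intro C E hG hT hU h5
    have hr := isRank_rk C
    rcases hU with hU | hU
    · exact u2_conf hG.1 hG.2 (hU.full hr h5) (by omega)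
    · have h1 := hU.dual hr (by norm_num)
      rw [← rk_perp_fun hG.2] at h1
      obtain ⟨d, hd⟩ := u2_conf (hG.1.perp hG.2) (supp_perp _ _) (h1.full (isRank_rk _) h5)
        (by omega)
      exact ⟨d, hd.of_perp hG.2 DR_starCl⟩
  hb2 := by
    intro C E x hG hT hx hTx hU h6
    have hr := isRank_rk C
    have hr1 := isRank_ctr hr x
    have hs := hT.single hr (by omega) hx
    have hcx : (E.erase x).card = 5 := by rw [Finset.card_erase_of_mem hx, h6]
    rcases hU with hU | hU
    · exact r3_conf hG.1 hG.2 hT h6 hx (hU.full hr1 hcx)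
    · have h1 := hU.full hr1 hcx _ subset_rfl
      rw [hcx] at h1
      unfold ctr at h1
      rw [Finset.insert_erase hx, hs] at h1
      have h2 := dl_full hr E
      have h3 : dl (rk C) E E = 2 := by omega
      have h4 := (hT.dual hr).u2 (isRank_dl hr E) (by omega) h3
      rw [← rk_perp_fun hG.2] at h4
      obtain ⟨d, hd⟩ := u2_conf (hG.1.perp hG.2) (supp_perp _ _) h4 (by omega)
      exact ⟨d, hd.of_perp hG.2 DR_starCl⟩
  hb3 := by
    intro C E x y hG hT hx hy hxy hTx hTy hTK hU h7 hI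
    have hr := isRank_rk C
    have hr1 := isRank_ctr hr x
    rcases hU with hU | hU
    · exact hb3_rank3 hG hT hx hy hxy hTx hTy hU h7 hI
    · have hrd : IsRank (dl (rk C) E) := isRank_dl hr E
      have hxy' : x ∈ E.erase y := by simp [hx, hxy]
      have hTyd : TC (ctr (dl (rk C) E) y) (E.erase y) :=
        (hTy.dual hr).congr fun X hX => (dl_ctr hr hy hX).symm
      have hTxd : TC (dl (rk C) E) (E.erase x) :=
        (hTx.dual hr1).congr fun X hX => (dl_del hr hx hX).symm
      have heq : ∀ X ⊆ (E.erase x).erase y, dl (ctr (rk C) x) ((E.erase x).erase y) X =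
          ctr (dl (rk C) E) y X := by
        intro X hX
        rw [dl_ctr hr hy (hX.trans (by intro z hz; simp only [mem_erase] at hz ⊢; tauto))]
        rw [dl_del hr hxy' (by rw [← commE]; exact hX), ← commE]
      have h1 := (hU.dual hr1 (by norm_num)).congr heq
      rw [commE] at h1
      obtain ⟨d, hd⟩ := hb3_rank3 (C := perp C E) (E := E) (x := y) (y := x)
        (clsA_D.dual C E hG) (by rw [rk_perp_fun hG.2]; exact hT.dual hr) hy hx hxy.symm
        (by rw [rk_perp_fun hG.2]; exact hTyd) (by rw [rk_perp_fun hG.2]; exact hTxd)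
        (by rw [rk_perp_fun hG.2]; exact h1) h7 hI
      exact ⟨d, hd.of_perp hG.2 DR_starCl⟩

theorem cls_L : Cls LR (GoodL (α := α)) 2 4 where
  starcl := LR_star
  hk := by norm_num
  hn := by norm_num
  qu := fun C E h => h.1
  supp := fun C E h => h.2.1
  ctr := fun C E x h hx => ⟨h.1.inf _, h.2.1.inf' x, fun hh => h.2.2 (by
    rw [rk_ctr_fun] at hh
    exact hh.of_ctr (isRank_rk C) hx)⟩
  del := fun C E x h hx => ⟨h.1.res _, supp_res _ _, fun hh => h.2.2
    ((hh.congr fun X hX => (rk_del C hX).symm).mono (Finset.erase_subset _ _))⟩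
  dual := fun C E h => ⟨h.1.perp h.2.1, supp_perp _ _, fun hh => h.2.2 (by
    rw [rk_perp_fun h.2.1] at hh
    have hr := isRank_rk C
    exact (hh.dual (isRank_dl hr E) (by norm_num)).congr fun X hX => dl_dl hr hX)⟩
  al := fun C E h hcn hU => al_L h.1 h.2.1 hcn hU
  hb1 := by
    intro C E hG hT hU h4
    have hr := isRank_rk C
    have hU' : HasU (rk C) E 2 4 := hU.elim id id
    exact u24_conf hG.1 hG.2.1 (hU'.full hr h4) h4
  hb2 := by
    intro C E x hG hT hx hTx hU h5
    exfalso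
    have hr := isRank_rk C
    have hr1 := isRank_ctr hr x
    have hs := hT.single hr (by omega) hx
    have hcx : (E.erase x).card = 4 := by rw [Finset.card_erase_of_mem hx, h5]
    have hU' : HasU (ctr (rk C) x) (E.erase x) 2 4 := hU.elim id id
    have h1 := hU'.full hr1 hcx _ subset_rfl
    rw [hcx] at h1
    unfold ctr at h1
    rw [Finset.insert_erase hx, hs] at h1
    exact hG.2.2 (five_rich hr hT h5 (by omega))
  hb3 := by
    intro C E x y hG hT hx hy hxy hTx hTy hTK hU h6 hI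
    exfalso
    have hr := isRank_rk C
    have hr1 := isRank_ctr hr x
    have hyx : y ∈ E.erase x := by simp [hy, hxy.symm]
    have hcx : (E.erase x).card = 5 := by rw [Finset.card_erase_of_mem hx, h6]
    have hcK : ((E.erase x).erase y).card = 4 := by rw [Finset.card_erase_of_mem hyx, hcx]
    have hU' : HasU (ctr (rk C) x) ((E.erase x).erase y) 2 4 := hU.elim id id
    have h1 := hU'.full hr1 hcK _ subset_rfl
    rw [hcK] at h1
    have h5 := hTx.compl1 hr1 (by omega) hyx (Y := (E.erase x).erase y) (fun z hz => by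
      simp only [mem_erase] at hz ⊢; tauto)
    have h6' := hr1.mm (X := (E.erase x).erase y) (Y := E.erase x)
      (fun z hz => (mem_erase.1 hz).2)
    exact hG.2.2 ((five_rich hr1 hTx hcx (by omega)).of_ctr hr hx)

lemma Conf.mono_ring {R R' : Subring Q4} {d : α → Q4} (h : Conf R d C) (hR : R ≤ R') :
    Conf R' d C := ⟨h.1, fun B F hF b hb e => hR (h.2 B F hF b hb e)⟩

/-- All 3-connected unitary chain groups that are not binary conform to `DR`. -/
theorem tc_conf (hQ : QUc C) (hS : Supp C E) (hT : TC (rk C) E) (hU : HasU (rk C) E 2 4) :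
    ∃ d, Conf DR d C := by
  by_cases h5 : Rich (rk C) E 2 5
  · exact confinement cls_D _ C E rfl ⟨hQ, hS⟩ hT h5
  · obtain ⟨d, hd⟩ := confinement cls_L _ C E rfl ⟨hQ, hS, h5⟩ hT (Or.inl hU)
    exact ⟨d, hd.mono_ring LR_le⟩

end Pool.Agent.K3h89.QU
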