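import Mathlib
import Pool.Agent.K3h89.QU.Levels

/-!
# Binary unitary chain groups conform to the integers
-/

set_option autoImplicit false
set_option linter.unusedSectionVars false
set_option linter.unusedSimpArgs false
set_option linter.unusedVariables false

namespace Pool.Agent.K3h89.QU

open Finset Quaternion

variable {α : Type*} [DecidableEq α] [Fintype α]

/-- The integers as a subring. -/
def ZR : Subring Q4 := (Int.castRingHom Q4).range

lemma mem_ZR {x : Q4} : x ∈ ZR ↔ ∃ n : ℤ, (n : Q4) = x := by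
  unfold ZR
  rw [RingHom.mem_range]
  rfl

lemma ZR_star : StarCl ZR := by
  intro x hx
  rw [mem_ZR] at *
  obtain ⟨n, rfl⟩ := hx
  exact ⟨n, by simp⟩

lemma ZR_le : ZR ≤ DR := by
  intro x hx
  rw [mem_ZR] at hx
  obtain ⟨n, rfl⟩ := hx
  exact DR_int n

/-- zero or plus or minus one -/
def PM (x : Q4) : Prop := x = 0 ∨ x = 1 ∨ x = -1

lemma PM.mem {x : Q4} (h : PM x) : x ∈ ZR := by
  rcases h with rfl | rfl | rfl
  · exact ZR.zero_mem
  · exact ZR.one_mem
  · exact ZR.neg_mem ZR.one_mem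

lemma PM.of {x : Q4} (h : x ∈ ZR) (h' : x = 0 ∨ x ∈ unitary Q4) : PM x := by
  rcases h' with h' | h'
  · exact Or.inl h'
  · rw [mem_ZR] at h
    obtain ⟨n, rfl⟩ := h
    rw [un_iff, nsq] at h'
    simp at h'
    have h1 : (n : ℝ) ^ 2 = 1 := by
      rcases h' with h' | h' <;> rw [h'] <;> norm_num
    have h2 : n ^ 2 = 1 := by exact_mod_cast h1
    have h3 : (n - 1) * (n + 1) = 0 := by linarith
    rcases mul_eq_zero.1 h3 with h4 | h4
    · right; left
      have : n = 1 := by omega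
      rw [this]; simp
    · right; right
      have : n = -1 := by omega
      rw [this]; simp

/-- equal up to sign -/
def EqS (x y : Q4) : Prop := x = y ∨ x = -y

lemma EqS.trans {x y z : Q4} (h : EqS x y) (h' : EqS y z) : EqS x z := by
  rcases h with rfl | rfl <;> rcases h' with rfl | rfl
  · exact Or.inl rfl
  · exact Or.inr rfl
  · exact Or.inr rfl
  · left; simp

lemma EqS.symm {x y : Q4} (h : EqS x y) : EqS y x := by
  rcases h with rfl | rfl
  · exact Or.inl rfl
  · right; simp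

variable {C : Submodule Q4 (α → Q4)} {E B : Finset α} {F : α → α → Q4}

/-- A full two-by-two block of rank two gives a `U(2,4)`. -/
lemma hasU24_of (hS : Supp C E) (hF : Frame C B F) {b t u v : α} (hb : b ∈ B) (ht : t ∈ B)
    (hbt : b ≠ t) (hu : u ∉ B) (hv : v ∉ B) (huv : u ≠ v) (huE : u ∈ E) (hvE : v ∈ E)
    (h1 : F b u ≠ 0) (h2 : F b v ≠ 0) (h3 : F t u ≠ 0) (h4 : F t v ≠ 0)
    (h5 : F b v - F b u * (F t u)⁻¹ * F t v ≠ 0) : HasU (rk C) E 2 4 := by
  have hr := isRank_rk C
  have hBE := hS.sub hF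
  have hub : u ≠ b := fun hh => hu (hh ▸ hb)
  have hut : u ≠ t := fun hh => hu (hh ▸ ht)
  have hvb : v ≠ b := fun hh => hv (hh ▸ hb)
  have hvt : v ≠ t := fun hh => hv (hh ▸ ht)
  have hT : rk C (B \ {b, t}) + 2 = B.card := by
    rw [hF.rk_sub Finset.sdiff_subset]
    have h6 := Finset.card_sdiff_add_card_eq_card (s := {b, t}) (t := B) (by
      intro z hz; simp at hz; rcases hz with rfl | rfl <;> assumption)
    rw [Finset.card_pair hbt] at h6
    exact h6
  have hfull := hS.card hF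
  -- the six pairs
  have pair : ∀ B' : Finset α, (∃ F', Frame C B' F') → ∀ a a' : α,
      (∀ z ∈ B', z ∈ B \ {b, t} ∨ z = a ∨ z = a') → B.card ≤ rk C ({a, a'} ∪ (B \ {b, t})) := by
    rintro B' ⟨F', hF'⟩ a a' h
    have h6 := hF'.rk_sub (T := B') subset_rfl
    have h7 := hr.mm (X := B') (Y := {a, a'} ∪ (B \ {b, t})) (fun z hz => by
      have := h z hz
      simp only [mem_union, mem_insert, mem_singleton]; tauto)
    have h8 := hF'.card
    have h9 := hF.card
    omega
  have p1 := pair B ⟨F, hF⟩ b t (fun z hz => by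
    simp only [mem_sdiff, mem_insert, mem_singleton, hz, true_and]; tauto)
  have p2 := pair _ ⟨_, hF.exchange ht hu h3⟩ b u (fun z hz => by
    simp only [mem_insert, mem_erase] at hz
    simp only [mem_sdiff, mem_insert, mem_singleton]; tauto)
  have p3 := pair _ ⟨_, hF.exchange hb hu h1⟩ t u (fun z hz => by
    simp only [mem_insert, mem_erase] at hz
    simp only [mem_sdiff, mem_insert, mem_singleton]; tauto)
  have p4 := pair _ ⟨_, hF.exchange ht hv h4⟩ b v (fun z hz => by
    simp only [mem_insert, mem_erase] at hz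
    simp only [mem_sdiff, mem_insert, mem_singleton]; tauto)
  have p5 := pair _ ⟨_, hF.exchange hb hv h2⟩ t v (fun z hz => by
    simp only [mem_insert, mem_erase] at hz
    simp only [mem_sdiff, mem_insert, mem_singleton]; tauto)
  have p6 := pair _ ⟨_, (hF.exchange ht hu h3).exchange (b := b) (e := v) (by simp [hb, hbt])
    (by simp [huv.symm, hv]) (by rw [Frame.ex_ne _ _ _ _ hub.symm]; exact h5)⟩ u v (fun z hz => by
    simp only [mem_insert, mem_erase] at hz
    simp only [mem_sdiff, mem_insert, mem_singleton]; tauto)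
  have allp : ∀ a ∈ ({b, t, u, v} : Finset α), ∀ a' ∈ ({b, t, u, v} : Finset α), a ≠ a' →
      B.card ≤ rk C ({a, a'} ∪ (B \ {b, t})) := by
    intro a ha a' ha' hne
    simp only [mem_insert, mem_singleton] at ha ha'
    rcases ha with rfl | rfl | rfl | rfl <;> rcases ha' with rfl | rfl | rfl | rfl <;>
      first
        | exact absurd rfl hne
        | assumption
        | (rw [Finset.pair_comm]; assumption)
  refine ⟨B \ {b, t}, {b, t, u, v}, Finset.sdiff_subset.trans hBE, ?_, ?_, ?_, ?_⟩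
  · intro z hz
    simp only [mem_insert, mem_singleton] at hz
    rcases hz with rfl | rfl | rfl | rfl
    · exact hBE hb
    · exact hBE ht
    · exact huE
    · exact hvE
  · rw [Finset.disjoint_left]
    intro z hz hz'
    simp only [mem_sdiff, mem_insert, mem_singleton] at hz hz'
    rcases hz' with rfl | rfl | rfl | rfl
    · exact hz.2 (Or.inl rfl)
    · exact hz.2 (Or.inr rfl)
    · exact hu hz.1
    · exact hv hz.1
  · rw [Finset.card_insert_of_notMem (by simp [hbt, hub.symm, hvb.symm]),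
      Finset.card_insert_of_notMem (by simp [hut.symm, hvt.symm]),
      Finset.card_pair huv]
  · intro Z hZ
    have up1 : rk C (Z ∪ (B \ {b, t})) ≤ rk C (B \ {b, t}) + Z.card := by
      have := hr.sm (X := Z) (Y := B \ {b, t}) (U := Z ∪ (B \ {b, t})) (I := ∅) (by grind)
        (by grind)
      have := hr.le_card Z
      omega
    have up2 : rk C (Z ∪ (B \ {b, t})) ≤ B.card := by
      rw [hfull]
      have h6 := finrank_inf C (Z ∪ (B \ {b, t}))
      have h7 := hS.rk_full
      omega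
    rcases Nat.lt_or_ge Z.card 2 with h6 | h6
    · rcases Nat.eq_zero_or_pos Z.card with h7 | h7
      · rw [Finset.card_eq_zero] at h7; subst h7; simp
      · obtain ⟨z, rfl⟩ := Finset.card_eq_one.1 (show Z.card = 1 by omega)
        have hz : z ∈ ({b, t, u, v} : Finset α) := hZ (by simp)
        obtain ⟨z', hz', hne⟩ : ∃ z' ∈ ({b, t, u, v} : Finset α), z ≠ z' := by
          by_cases h8 : z = b
          · exact ⟨t, by simp, by rw [h8]; exact hbt⟩
          · exact ⟨b, by simp, h8⟩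
        have h8 := allp z hz z' hz' hne
        have h9 := hr.one' (X := {z} ∪ (B \ {b, t})) (Y := {z, z'} ∪ (B \ {b, t})) z' (by
          intro y; simp only [mem_union, mem_insert, mem_singleton]; tauto)
        rw [Finset.card_singleton] at up1 ⊢
        omega
    · obtain ⟨a, ha, a', ha', hne⟩ := Finset.one_lt_card.1 (show 1 < Z.card by omega)
      have h8 := allp a (hZ ha) a' (hZ ha') hne
      have h9 := hr.mm (X := {a, a'} ∪ (B \ {b, t})) (Y := Z ∪ (B \ {b, t})) (by
        intro y; simp only [mem_union, mem_insert, mem_singleton]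
        rintro ((rfl | rfl) | h) <;> tauto)
      omega

/-- Walks between rows. -/
def Wk (F : α → α → Q4) (B : Finset α) (e : α) : ℕ → α → α → Prop
  | 0, b, b' => b = b'
  | n + 1, b, b' => ∃ f b1, f ∉ B ∧ f ≠ e ∧ b1 ∈ B ∧ F b f ≠ 0 ∧ F b1 f ≠ 0 ∧ Wk F B e n b1 b'

/-- The rows of a connected part have the same last entry up to sign. -/
lemma walk_eq (hS : Supp C E) (hn : ¬ HasU (rk C) E 2 4) {e : α} (he : e ∈ E)
    (hZ : ∀ B F, Frame C B F → e ∉ B → ∀ b ∈ B, ∀ f, f ≠ e → PM (F b f)) :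
    ∀ n B F, Frame C B F → e ∉ B → ∀ b ∈ B, ∀ b' ∈ B, Wk F B e n b b' → F b e ≠ 0 →
      F b' e ≠ 0 → EqS (F b e) (F b' e) := by
  have base : ∀ B F, Frame C B F → e ∉ B → ∀ b ∈ B, ∀ b' ∈ B, ∀ f, f ∉ B → f ≠ e →
      F b f ≠ 0 → F b' f ≠ 0 → F b e ≠ 0 → F b' e ≠ 0 → EqS (F b e) (F b' e) := by
    intro B F hF heB b hb b' hb' f hfB hfe h1 h2 h3 h4
    by_cases hbb : b = b'
    · subst hbb; exact Or.inl rfl
    have hfE : f ∈ E := by
      by_contra hh; exact h1 (hS _ (hF.mem b hb) f hh)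
    have h5 : F b e - F b f * (F b' f)⁻¹ * F b' e = 0 := by
      by_contra hne
      exact hn (hasU24_of hS hF hb hb' hbb hfB heB hfe hfE he h1 h3 h2 h4 hne)
    have h6 := sub_eq_zero.1 h5
    have p1 := hZ B F hF heB b hb f hfe
    have p2 := hZ B F hF heB b' hb' f hfe
    rw [h6]
    rcases p1 with p1 | p1 | p1
    · exact absurd p1 h1
    · rcases p2 with p2 | p2 | p2
      · exact absurd p2 h2
      · rw [p1, p2]; left; simp
      · rw [p1, p2]; right; simp
    · rcases p2 with p2 | p2 | p2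
      · exact absurd p2 h2
      · rw [p1, p2]; right; simp
      · rw [p1, p2]; left; simp
  intro n
  induction n using Nat.strong_induction_on with
  | _ n ih =>
  intro B F hF heB b hb b' hb' hW h1 h2
  match n, ih, hW with
  | 0, ih, hW => exact Or.inl (by rw [show b = b' from hW])
  | 1, ih, hW =>
    obtain ⟨f, b1, hfB, hfe, hb1, h3, h4, h5⟩ := hW
    have h5' : b1 = b' := h5
    subst h5'
    exact base B F hF heB b hb b1 hb1 f hfB hfe h3 h4 h1 h2
  | k + 2, ih, hW =>
    obtain ⟨f1, b1, hf1B, hf1e, hb1, h3, h4, hW1⟩ := hW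
    by_cases hm1 : F b1 e = 0
    swap
    · exact (base B F hF heB b hb b1 hb1 f1 hf1B hf1e h3 h4 h1 hm1).trans
        (ih (k + 1) (by omega) B F hF heB b1 hb1 b' hb' hW1 hm1 h2)
    by_cases hshort : ∃ j ≤ k, ∃ b'' ∈ B, Wk F B e j b'' b' ∧ F b'' f1 ≠ 0
    · obtain ⟨j, hj, b'', hb'', h5, h6⟩ := hshort
      exact ih (j + 1) (by omega) B F hF heB b hb b' hb' ⟨f1, b'', hf1B, hf1e, hb'', h3, h6, h5⟩
        h1 h2
    push Not at hshort
    obtain ⟨f2, b2, hf2B, hf2e, hb2, h5, h6, hW2⟩ := hW1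
    by_cases hbf : F b f2 = 0
    swap
    · exact ih (k + 1) (by omega) B F hF heB b hb b' hb' ⟨f2, b2, hf2B, hf2e, hb2, hbf, h6, hW2⟩
        h1 h2
    have hb2f : F b2 f1 = 0 := hshort k le_rfl b2 hb2 hW2
    have hb2b : b2 ≠ b1 := fun hh => h4 (hh ▸ hb2f)
    have hbb1 : b ≠ b1 := fun hh => h1 (hh ▸ hm1)
    have hb'b1 : b' ≠ b1 := fun hh => h2 (hh ▸ hm1)
    have hf12 : f2 ≠ f1 := fun hh => h3 (hh ▸ hbf)
    have hne : ∀ z ∈ B, z ≠ f1 := fun z hz hh => hf1B (hh ▸ hz)
    have hF' := hF.exchange hb1 hf1B h4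
    have heB' : e ∉ insert f1 (B.erase b1) := by
      simp only [mem_insert, mem_erase, not_or, not_and]
      exact ⟨fun hh => hf1e hh.symm, fun _ => heB⟩
    have hrow : ∀ z ∈ B, F z f1 = 0 → ∀ w, Frame.ex F b1 f1 z w = F z w := by
      intro z hz h0 w
      rw [Frame.ex_ne _ _ _ _ (hne z hz), h0]; simp
    have trans : ∀ j ≤ k, ∀ b'' ∈ B, Wk F B e j b'' b' →
        Wk (Frame.ex F b1 f1) (insert f1 (B.erase b1)) e j b'' b' := by
      intro j
      induction j with
      | zero => intro _ b'' _ hw; exact hw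
      | succ j ihj =>
        intro hj b'' hb'' hw
        have h0 := hshort (j + 1) hj b'' hb'' hw
        obtain ⟨f, b3, hfB, hfe, hb3, h7, h8, h9⟩ := hw
        have h0' := hshort j (by omega) b3 hb3 h9
        have hff : f ≠ f1 := fun hh => h7 (hh ▸ h0)
        have hb31 : b3 ≠ b1 := fun hh => h4 (hh ▸ h0')
        refine ⟨f, b3, ?_, hfe, ?_, ?_, ?_, ihj (by omega) b3 hb3 h9⟩
        · simp only [mem_insert, mem_erase, not_or, not_and]
          exact ⟨hff, fun _ => hfB⟩
        · simp [hb3, hb31]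
        · rw [hrow b'' hb'' h0]; exact h7
        · rw [hrow b3 hb3 h0']; exact h8
    have e1 : Frame.ex F b1 f1 b e = F b e := by
      rw [Frame.ex_ne _ _ _ _ (hne b hb), hm1]; simp
    have e2 : Frame.ex F b1 f1 b' e = F b' e := by
      rw [Frame.ex_ne _ _ _ _ (hne b' hb'), hm1]; simp
    have e3 : Frame.ex F b1 f1 b f2 ≠ 0 := by
      rw [Frame.ex_ne _ _ _ _ (hne b hb), hbf, zero_sub, neg_ne_zero]
      exact mul_ne_zero (mul_ne_zero h3 (inv_ne_zero h4)) h5
    have h10 := ih (k + 1) (by omega) _ _ hF' heB' b (by simp [hb, hbb1]) b'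
      (by simp [hb', hb'b1]) ⟨f2, b2, by
        simp only [mem_insert, mem_erase, not_or, not_and]
        exact ⟨hf12, fun _ => hf2B⟩, hf2e, by simp [hb2, hb2b], e3, by
        rw [hrow b2 hb2 hb2f]; exact h6, trans k le_rfl b2 hb2 hW2⟩
      (by rw [e1]; exact h1) (by rw [e2]; exact h2)
    rwa [e1, e2] at h10

lemma Wk.append {e : α} : ∀ {n m : ℕ} {a b c : α}, Wk F B e n a b → Wk F B e m b c →
    Wk F B e (n + m) a c := by
  intro n
  induction n with
  | zero =>
    intro m a b c h1 h2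
    have : a = b := h1
    subst this
    rw [zero_add]; exact h2
  | succ n ih =>
    intro m a b c h1 h2
    obtain ⟨f, b1, k1, k2, k3, k4, k5, k6⟩ := h1
    rw [show n + 1 + m = (n + m) + 1 by omega]
    exact ⟨f, b1, k1, k2, k3, k4, k5, ih k6 h2⟩

lemma Wk.symm' {e : α} : ∀ {n : ℕ} {a b : α}, a ∈ B → Wk F B e n a b → Wk F B e n b a := by
  intro n
  induction n with
  | zero => intro a b _ h; exact Eq.symm h
  | succ n ih =>
    intro a b ha h
    obtain ⟨f, b1, k1, k2, k3, k4, k5, k6⟩ := h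
    exact (ih k3 k6).append (m := 1) ⟨f, a, k1, k2, ha, k5, k4, rfl⟩

/-- Adding a column. -/
lemma add_col (hQ : QUc C) (hS : Supp C E) (hn : ¬ HasU (rk C) E 2 4) {e : α} (he : e ∈ E)
    (hF : Frame C B F) (heB : e ∉ B)
    (hZ : ∀ B F, Frame C B F → e ∉ B → ∀ b ∈ B, ∀ f, f ≠ e → PM (F b f)) :
    ∃ d, Conf ZR d C := by
  classical
  have hW := fun n => walk_eq hS hn he hZ n B F hF heB
  -- the value of a component
  have hμ : ∀ b, ∃ μ ∈ unitary Q4, ∀ b' ∈ B, b ∈ B → ∀ n, Wk F B e n b b' → F b' e ≠ 0 →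
      EqS μ (F b' e) := by
    intro b
    by_cases h : ∃ b' ∈ B, b ∈ B ∧ ∃ n, Wk F B e n b b' ∧ F b' e ≠ 0
    · obtain ⟨b', hb', hb, n, h1, h2⟩ := h
      refine ⟨F b' e, un_of_ne hQ hF hb' h2, fun b'' hb'' _ m h3 h4 => ?_⟩
      exact hW (n + m) b' hb' b'' hb'' ((h1.symm' hb).append h3) h2 h4
    · refine ⟨1, one_mem _, fun b'' hb'' hb m h3 h4 => ?_⟩
      exact absurd ⟨b'', hb'', hb, m, h3, h4⟩ h
  choose μ0 hμU0 hμE0 using hμ
  -- make it canonical
  set μ : α → Q4 := fun b => if ∃ b' ∈ B, ∃ n, Wk F B e n b b' ∧ F b' e ≠ 0 then μ0 b else 1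
    with hμdef
  have hμU : ∀ b, μ b ∈ unitary Q4 := fun b => by
    simp only [hμdef]; split_ifs
    · exact hμU0 b
    · exact one_mem _
  have hμE : ∀ b ∈ B, ∀ b' ∈ B, ∀ n, Wk F B e n b b' → F b' e ≠ 0 → EqS (μ b) (F b' e) := by
    intro b hb b' hb' n h1 h2
    have h3 : ∃ b' ∈ B, ∃ n, Wk F B e n b b' ∧ F b' e ≠ 0 := ⟨b', hb', n, h1, h2⟩
    simp only [hμdef, if_pos h3]
    exact hμE0 b b' hb' hb n h1 h2
  have hμμ : ∀ b ∈ B, ∀ b1 ∈ B, ∀ f, f ∉ B → f ≠ e → F b f ≠ 0 → F b1 f ≠ 0 →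
      EqS (μ b) (μ b1) := by
    intro b hb b1 hb1 f hfB hfe h1 h2
    by_cases h3 : ∃ b' ∈ B, ∃ n, Wk F B e n b b' ∧ F b' e ≠ 0
    · obtain ⟨b', hb', n, h4, h5⟩ := h3
      have h6 : Wk F B e (n + 1) b1 b' := ⟨f, b, hfB, hfe, hb, h2, h1, h4⟩
      exact (hμE b hb b' hb' n h4 h5).trans (hμE b1 hb1 b' hb' (n + 1) h6 h5).symm
    · have h3' : ¬ ∃ b' ∈ B, ∃ n, Wk F B e n b1 b' ∧ F b' e ≠ 0 := by
        rintro ⟨b', hb', n, h4, h5⟩
        exact h3 ⟨b', hb', n + 1, ⟨f, b1, hfB, hfe, hb1, h1, h2, h4⟩, h5⟩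
      simp only [hμdef, if_neg h3, if_neg h3']
      exact Or.inl rfl
  set d : α → Q4 := fun z => if z = e then 1 else if z ∈ B then μ z else
    if h : ∃ b ∈ B, F b z ≠ 0 then μ h.choose else 1 with hd
  have hdU : ∀ z, d z ∈ unitary Q4 := fun z => by
    simp only [hd]; split_ifs
    · exact one_mem _
    · exact hμU _
    · exact hμU _
    · exact one_mem _
  have sgn : ∀ x y : Q4, x ∈ unitary Q4 → EqS x y → PM (star x * y) := by
    intro x y hx h
    have h1 := un_l hx
    rcases h with rfl | rfl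
    · exact Or.inr (Or.inl h1)
    · right; right
      simp only [star_neg, neg_mul] at h1 ⊢
      have : star y * y = 1 := by
        have h2 : star (-y) * (-y) = star y * y := by simp
        rw [← h2]; exact un_l hx
      rw [this]
  refine ⟨d, Conf.of_frame hQ ZR_star hdU hF fun b hb z => ?_⟩
  have hbe : b ≠ e := fun hh => heB (hh ▸ hb)
  have db : d b = μ b := by simp only [hd, if_neg hbe, if_pos hb]
  by_cases hz0 : F b z = 0
  · rw [hz0]; simp
  by_cases hze : z = e
  · subst hze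
    have dz : d z = 1 := by simp only [hd, if_true]
    rw [db, dz, mul_one]
    exact (sgn _ _ (hμU b) (hμE b hb b hb 0 rfl hz0)).mem
  by_cases hzB : z ∈ B
  · by_cases hzb : z = b
    · rw [hzb, hF.diag b hb, mul_one, un_l (hdU b)]; exact ZR.one_mem
    · exact absurd (hF.off b hb z hzB hzb) hz0
  have hex : ∃ b ∈ B, F b z ≠ 0 := ⟨b, hb, hz0⟩
  have dz : d z = μ hex.choose := by simp only [hd, if_neg hze, if_neg hzB, dif_pos hex]
  have hspec := hex.choose_spec
  rw [db, dz]
  have h1 := hμμ b hb _ hspec.1 z hzB hze hz0 hspec.2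
  have h2 := (sgn _ _ (hμU b) h1).mem
  have h3 := (hZ B F hF heB b hb z hze)
  rcases h3 with h3 | h3 | h3
  · exact absurd h3 hz0
  · rw [h3, mul_one]; exact h2
  · rw [h3]; simpa using ZR.neg_mem h2

/-- Unitary chain groups without `U(2,4)` conform to the integers. -/
theorem bin_conf : ∀ (m : ℕ) (C : Submodule Q4 (α → Q4)) (E : Finset α), E.card = m → QUc C →
    Supp C E → ¬ HasU (rk C) E 2 4 → ∃ d, Conf ZR d C := by
  intro m
  induction m with
  | zero =>
    intro C E hm hQ hS hn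
    obtain ⟨B, F, hF, -⟩ := exists_frame C E
    rw [Finset.card_eq_zero] at hm
    subst hm
    have hB : B = ∅ := Finset.subset_empty.1 (hS.sub hF)
    subst hB
    exact ⟨fun _ => 1, Conf.of_frame hQ ZR_star (fun _ => one_mem _) hF (by simp)⟩
  | succ m ih =>
    intro C E hm hQ hS hn
    obtain ⟨B, F, hF, -⟩ := exists_frame C E
    have hBE := hS.sub hF
    by_cases hEB : E ⊆ B
    · refine ⟨fun _ => 1, Conf.of_frame hQ ZR_star (fun _ => one_mem _) hF fun b hb e => ?_⟩
      rw [star_one, one_mul, mul_one]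
      by_cases he : e ∈ E
      · by_cases hbe : e = b
        · rw [hbe, hF.diag b hb]; exact ZR.one_mem
        · rw [hF.off b hb e (hEB he) hbe]; exact ZR.zero_mem
      · rw [hS _ (hF.mem b hb) e he]; exact ZR.zero_mem
    · rw [Finset.not_subset] at hEB
      obtain ⟨e, he, heB⟩ := hEB
      obtain ⟨d, hd⟩ := ih (C.map (res Q4 (E.erase e))) (E.erase e)
        (by rw [Finset.card_erase_of_mem he]; omega) (hQ.res _) (supp_res _ _)
        (fun hh => hn ((hh.congr fun X hX => (rk_del C hX).symm).mono (Finset.erase_subset _ _)))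
      have hQ' := hQ.scale hd.1
      have hS' : Supp (C.map (scl d)) E := hS.scale
      obtain ⟨d1, h1⟩ := add_col hQ' hS' (fun hh => hn (hh.congr fun X _ => rk_scale C hd.1 X))
        he (hF.scale hd.1) heB (by
          intro B' F' hF' heB' b hb f hfe
          refine PM.of ?_ (hQ' B' F' hF' b hb f)
          have h2 := hF'.scale (d := fun e => star (d e)) fun e => un_star (hd.1 e)
          rw [scl_back C hd.1] at h2
          have hB'E := hS.sub h2
          have h3 := h2.res (S := E.erase e) fun z hz => by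
            simp only [mem_erase]; exact ⟨fun hh => heB' (hh ▸ hz), hB'E hz⟩
          by_cases hfE : f ∈ E
          · have h4 := hd.2 _ _ h3 b hb f
            rw [res_apply, if_pos (by simp [hfe, hfE])] at h4
            simp only [star_star] at h4
            have h5 : star (d b) * (d b * F' b f * star (d f)) * d f = F' b f := by
              simp only [mul_assoc, un_l (hd.1 f), mul_one, un_lc (hd.1 b)]
            rwa [h5] at h4
          · rw [hS' _ (hF'.mem b hb) f hfE]; exact ZR.zero_mem)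
      exact ⟨_, h1.scale_back hd.1⟩

/-- All 3-connected unitary chain groups conform to `DR`. -/
theorem all_conf {C : Submodule Q4 (α → Q4)} {E : Finset α} (hQ : QUc C) (hS : Supp C E)
    (hT : TC (rk C) E) : ∃ d, Conf DR d C := by
  by_cases hU : HasU (rk C) E 2 4
  · exact tc_conf hQ hS hT hU
  · obtain ⟨d, hd⟩ := bin_conf _ C E rfl hQ hS hU
    exact ⟨d, hd.mono_ring ZR_le⟩

end Pool.Agent.K3h89.QU
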