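import Mathlib
import Pool.Agent.K3h89.QU.Binary

/-!
# The reduction modulo the square root of five and the icosian group
-/

set_option autoImplicit false
set_option linter.unusedSectionVars false
set_option linter.unusedSimpArgs false
set_option linter.unusedVariables false

namespace Pool.Agent.K3h89.QU

open Quaternion

/-- Quaternions with coordinates `(a + b√5)/4`. -/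
structure IQ where
  (a0 b0 a1 b1 a2 b2 a3 b3 : ℤ)
deriving DecidableEq

/-- Value. -/
noncomputable def IQ.toQ (v : IQ) : Q4 :=
  ⟨(v.a0 + v.b0 * √5) / 4, (v.a1 + v.b1 * √5) / 4, (v.a2 + v.b2 * √5) / 4,
    (v.a3 + v.b3 * √5) / 4⟩

/-- Four times the product. -/
def IQ.raw (x y : IQ) : IQ where
  a0 := (x.a0 * y.a0 + 5 * (x.b0 * y.b0)) - (x.a1 * y.a1 + 5 * (x.b1 * y.b1)) -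
    (x.a2 * y.a2 + 5 * (x.b2 * y.b2)) - (x.a3 * y.a3 + 5 * (x.b3 * y.b3))
  b0 := (x.a0 * y.b0 + x.b0 * y.a0) - (x.a1 * y.b1 + x.b1 * y.a1) -
    (x.a2 * y.b2 + x.b2 * y.a2) - (x.a3 * y.b3 + x.b3 * y.a3)
  a1 := (x.a0 * y.a1 + 5 * (x.b0 * y.b1)) + (x.a1 * y.a0 + 5 * (x.b1 * y.b0)) +
    (x.a2 * y.a3 + 5 * (x.b2 * y.b3)) - (x.a3 * y.a2 + 5 * (x.b3 * y.b2))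
  b1 := (x.a0 * y.b1 + x.b0 * y.a1) + (x.a1 * y.b0 + x.b1 * y.a0) +
    (x.a2 * y.b3 + x.b2 * y.a3) - (x.a3 * y.b2 + x.b3 * y.a2)
  a2 := (x.a0 * y.a2 + 5 * (x.b0 * y.b2)) - (x.a1 * y.a3 + 5 * (x.b1 * y.b3)) +
    (x.a2 * y.a0 + 5 * (x.b2 * y.b0)) + (x.a3 * y.a1 + 5 * (x.b3 * y.b1))
  b2 := (x.a0 * y.b2 + x.b0 * y.a2) - (x.a1 * y.b3 + x.b1 * y.a3) +
    (x.a2 * y.b0 + x.b2 * y.a0) + (x.a3 * y.b1 + x.b3 * y.a1)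
  a3 := (x.a0 * y.a3 + 5 * (x.b0 * y.b3)) + (x.a1 * y.a2 + 5 * (x.b1 * y.b2)) -
    (x.a2 * y.a1 + 5 * (x.b2 * y.b1)) + (x.a3 * y.a0 + 5 * (x.b3 * y.b0))
  b3 := (x.a0 * y.b3 + x.b0 * y.a3) + (x.a1 * y.b2 + x.b1 * y.a2) -
    (x.a2 * y.b1 + x.b2 * y.a1) + (x.a3 * y.b0 + x.b3 * y.a0)

/-- Multiplication by four. -/
def IQ.four (w : IQ) : IQ :=
  ⟨4 * w.a0, 4 * w.b0, 4 * w.a1, 4 * w.b1, 4 * w.a2, 4 * w.b2, 4 * w.a3, 4 * w.b3⟩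

lemma toQ_raw (x y : IQ) : (x.raw y).toQ = (4 : ℝ) • (x.toQ * y.toQ) := by
  have h5 : (√5 : ℝ) * √5 = 5 := Real.mul_self_sqrt (by norm_num)
  ext
  · simp only [IQ.toQ, IQ.raw, re_smul, re_mul, smul_eq_mul]
    push_cast
    linear_combination (-(1 / 4) * (x.b0 * y.b0 - x.b1 * y.b1 - x.b2 * y.b2 - x.b3 * y.b3) : ℝ) * h5
  · simp only [IQ.toQ, IQ.raw, imI_smul, imI_mul, smul_eq_mul]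
    push_cast
    linear_combination (-(1 / 4) * (x.b0 * y.b1 + x.b1 * y.b0 + x.b2 * y.b3 - x.b3 * y.b2) : ℝ) * h5
  · simp only [IQ.toQ, IQ.raw, imJ_smul, imJ_mul, smul_eq_mul]
    push_cast
    linear_combination (-(1 / 4) * (x.b0 * y.b2 - x.b1 * y.b3 + x.b2 * y.b0 + x.b3 * y.b1) : ℝ) * h5
  · simp only [IQ.toQ, IQ.raw, imK_smul, imK_mul, smul_eq_mul]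
    push_cast
    linear_combination (-(1 / 4) * (x.b0 * y.b3 + x.b1 * y.b2 - x.b2 * y.b1 + x.b3 * y.b0) : ℝ) * h5

lemma toQ_four (w : IQ) : w.four.toQ = (4 : ℝ) • w.toQ := by
  ext <;> simp [IQ.toQ, IQ.four] <;> ring

lemma toQ_mul {g v w : IQ} (h : g.raw v = w.four) : g.toQ * v.toQ = w.toQ := by
  have h1 := toQ_raw g v
  rw [h, toQ_four] at h1
  exact (smul_right_injective Q4 (show (4 : ℝ) ≠ 0 by norm_num) h1).symm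

/-- The 120 elements. -/
def tbl : List IQ := [
  ⟨4, 0, 0, 0, 0, 0, 0, 0⟩,
  ⟨-4, 0, 0, 0, 0, 0, 0, 0⟩,
  ⟨2, 0, 2, 0, 2, 0, 2, 0⟩,
  ⟨2, 0, 2, 0, 2, 0, -2, 0⟩,
  ⟨2, 0, 1, 1, 1, -1, 0, 0⟩,
  ⟨-2, 0, -2, 0, -2, 0, -2, 0⟩,
  ⟨-2, 0, -2, 0, -2, 0, 2, 0⟩,
  ⟨-2, 0, -1, -1, -1, 1, 0, 0⟩,
  ⟨-2, 0, 2, 0, 2, 0, 2, 0⟩,
  ⟨0, 0, 4, 0, 0, 0, 0, 0⟩,
  ⟨0, 0, 2, 0, 1, -1, 1, 1⟩,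
  ⟨0, 0, 0, 0, 4, 0, 0, 0⟩,
  ⟨-2, 0, 2, 0, 2, 0, -2, 0⟩,
  ⟨0, 0, 1, 1, 2, 0, -1, 1⟩,
  ⟨0, 0, 1, 1, 2, 0, 1, -1⟩,
  ⟨0, 0, 2, 0, 1, -1, -1, -1⟩,
  ⟨-2, 0, 1, 1, 1, -1, 0, 0⟩,
  ⟨2, 0, -2, 0, -2, 0, -2, 0⟩,
  ⟨0, 0, -4, 0, 0, 0, 0, 0⟩,
  ⟨0, 0, -2, 0, -1, 1, -1, -1⟩,
  ⟨0, 0, 0, 0, -4, 0, 0, 0⟩,
  ⟨2, 0, -2, 0, -2, 0, 2, 0⟩,
  ⟨0, 0, -1, -1, -2, 0, 1, -1⟩,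
  ⟨0, 0, -1, -1, -2, 0, -1, 1⟩,
  ⟨0, 0, -2, 0, -1, 1, 1, 1⟩,
  ⟨2, 0, -1, -1, -1, 1, 0, 0⟩,
  ⟨-2, 0, 2, 0, -2, 0, 2, 0⟩,
  ⟨-2, 0, 1, -1, 0, 0, 1, 1⟩,
  ⟨-2, 0, 2, 0, -2, 0, -2, 0⟩,
  ⟨-1, -1, 2, 0, 0, 0, -1, 1⟩,
  ⟨-1, 1, 2, 0, -1, -1, 0, 0⟩,
  ⟨-2, 0, 0, 0, -1, -1, -1, 1⟩,
  ⟨-2, 0, -2, 0, 2, 0, 2, 0⟩,
  ⟨-1, 1, 0, 0, 2, 0, 1, 1⟩,
  ⟨-2, 0, -2, 0, 2, 0, -2, 0⟩,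
  ⟨-2, 0, 0, 0, 1, 1, -1, 1⟩,
  ⟨-1, -1, -1, 1, 2, 0, 0, 0⟩,
  ⟨-2, 0, -1, 1, 0, 0, 1, 1⟩,
  ⟨-2, 0, 0, 0, 1, 1, 1, -1⟩,
  ⟨-1, -1, 2, 0, 0, 0, 1, -1⟩,
  ⟨-1, 1, 0, 0, 2, 0, -1, -1⟩,
  ⟨-2, 0, 1, -1, 0, 0, -1, -1⟩,
  ⟨-2, 0, -1, 1, 0, 0, -1, -1⟩,
  ⟨-2, 0, 0, 0, -1, -1, 1, -1⟩,
  ⟨2, 0, -2, 0, 2, 0, -2, 0⟩,
  ⟨2, 0, -1, 1, 0, 0, -1, -1⟩,
  ⟨2, 0, -2, 0, 2, 0, 2, 0⟩,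
  ⟨1, 1, -2, 0, 0, 0, 1, -1⟩,
  ⟨1, -1, -2, 0, 1, 1, 0, 0⟩,
  ⟨2, 0, 0, 0, 1, 1, 1, -1⟩,
  ⟨2, 0, 2, 0, -2, 0, -2, 0⟩,
  ⟨1, -1, 0, 0, -2, 0, -1, -1⟩,
  ⟨2, 0, 2, 0, -2, 0, 2, 0⟩,
  ⟨2, 0, 0, 0, -1, -1, 1, -1⟩,
  ⟨1, 1, 1, -1, -2, 0, 0, 0⟩,
  ⟨2, 0, 1, -1, 0, 0, -1, -1⟩,
  ⟨2, 0, 0, 0, -1, -1, -1, 1⟩,
  ⟨1, 1, -2, 0, 0, 0, -1, 1⟩,
  ⟨1, -1, 0, 0, -2, 0, 1, 1⟩,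
  ⟨2, 0, -1, 1, 0, 0, 1, 1⟩,
  ⟨2, 0, 1, -1, 0, 0, 1, 1⟩,
  ⟨2, 0, 0, 0, 1, 1, -1, 1⟩,
  ⟨-1, -1, 1, -1, -2, 0, 0, 0⟩,
  ⟨-1, 1, 0, 0, -2, 0, 1, 1⟩,
  ⟨0, 0, 0, 0, 0, 0, -4, 0⟩,
  ⟨-1, -1, 0, 0, -1, 1, -2, 0⟩,
  ⟨-1, -1, 0, 0, 1, -1, -2, 0⟩,
  ⟨-1, -1, -2, 0, 0, 0, -1, 1⟩,
  ⟨-1, 1, 1, 1, 0, 0, -2, 0⟩,
  ⟨-1, 1, 0, 0, -2, 0, -1, -1⟩,
  ⟨0, 0, -1, 1, -1, -1, -2, 0⟩,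
  ⟨-1, 1, -2, 0, -1, -1, 0, 0⟩,
  ⟨0, 0, 0, 0, 0, 0, 4, 0⟩,
  ⟨-1, 1, -1, -1, 0, 0, 2, 0⟩,
  ⟨-1, 1, 1, 1, 0, 0, 2, 0⟩,
  ⟨-1, 1, -2, 0, 1, 1, 0, 0⟩,
  ⟨-1, -1, -2, 0, 0, 0, 1, -1⟩,
  ⟨-1, -1, 0, 0, 1, -1, 2, 0⟩,
  ⟨-1, -1, -1, 1, -2, 0, 0, 0⟩,
  ⟨0, 0, -1, 1, -1, -1, 2, 0⟩,
  ⟨-1, -1, 0, 0, -1, 1, 2, 0⟩,
  ⟨0, 0, 1, -1, 1, 1, 2, 0⟩,
  ⟨-1, -1, 1, -1, 2, 0, 0, 0⟩,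
  ⟨-1, 1, 2, 0, 1, 1, 0, 0⟩,
  ⟨-1, 1, -1, -1, 0, 0, -2, 0⟩,
  ⟨0, 0, 1, -1, 1, 1, -2, 0⟩,
  ⟨1, 1, -1, 1, 2, 0, 0, 0⟩,
  ⟨1, -1, 0, 0, 2, 0, -1, -1⟩,
  ⟨1, 1, 0, 0, 1, -1, 2, 0⟩,
  ⟨1, 1, 0, 0, -1, 1, 2, 0⟩,
  ⟨1, 1, 2, 0, 0, 0, 1, -1⟩,
  ⟨1, -1, -1, -1, 0, 0, 2, 0⟩,
  ⟨1, -1, 0, 0, 2, 0, 1, 1⟩,
  ⟨1, -1, 2, 0, 1, 1, 0, 0⟩,
  ⟨1, -1, 1, 1, 0, 0, -2, 0⟩,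
  ⟨1, -1, -1, -1, 0, 0, -2, 0⟩,
  ⟨1, -1, 2, 0, -1, -1, 0, 0⟩,
  ⟨1, 1, 2, 0, 0, 0, -1, 1⟩,
  ⟨1, 1, 0, 0, -1, 1, -2, 0⟩,
  ⟨1, 1, 1, -1, 2, 0, 0, 0⟩,
  ⟨1, 1, 0, 0, 1, -1, -2, 0⟩,
  ⟨1, 1, -1, 1, -2, 0, 0, 0⟩,
  ⟨1, -1, -2, 0, -1, -1, 0, 0⟩,
  ⟨1, -1, 1, 1, 0, 0, 2, 0⟩,
  ⟨0, 0, 1, -1, -1, -1, -2, 0⟩,
  ⟨0, 0, 1, 1, -2, 0, -1, 1⟩,
  ⟨0, 0, -1, 1, 1, 1, -2, 0⟩,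
  ⟨0, 0, -2, 0, 1, -1, -1, -1⟩,
  ⟨-2, 0, -1, -1, 1, -1, 0, 0⟩,
  ⟨0, 0, -2, 0, 1, -1, 1, 1⟩,
  ⟨-2, 0, 1, 1, -1, 1, 0, 0⟩,
  ⟨0, 0, 2, 0, -1, 1, -1, -1⟩,
  ⟨0, 0, 1, -1, -1, -1, 2, 0⟩,
  ⟨0, 0, 1, 1, -2, 0, 1, -1⟩,
  ⟨0, 0, -1, 1, 1, 1, 2, 0⟩,
  ⟨0, 0, -1, -1, 2, 0, 1, -1⟩,
  ⟨0, 0, 2, 0, -1, 1, 1, 1⟩,
  ⟨0, 0, -1, -1, 2, 0, -1, 1⟩,
  ⟨2, 0, 1, 1, -1, 1, 0, 0⟩,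
  ⟨2, 0, -1, -1, 1, -1, 0, 0⟩
]

/-- Generators and their inverses. -/
def gens : List IQ := [⟨-4, 0, 0, 0, 0, 0, 0, 0⟩, ⟨2, 0, 2, 0, 2, 0, 2, 0⟩,
  ⟨2, 0, 2, 0, 2, 0, -2, 0⟩, ⟨2, 0, 1, 1, 1, -1, 0, 0⟩, ⟨2, 0, -2, 0, -2, 0, -2, 0⟩,
  ⟨2, 0, -2, 0, -2, 0, 2, 0⟩, ⟨2, 0, -1, -1, -1, 1, 0, 0⟩]

/-- Boolean test for equality. -/
def IQ.eqb (x y : IQ) : Bool :=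
  decide (x.a0 = y.a0) && decide (x.b0 = y.b0) && decide (x.a1 = y.a1) && decide (x.b1 = y.b1) &&
  decide (x.a2 = y.a2) && decide (x.b2 = y.b2) && decide (x.a3 = y.a3) && decide (x.b3 = y.b3)

lemma eqb_iff {x y : IQ} (h : x.eqb y = true) : x = y := by
  unfold IQ.eqb at h
  simp only [Bool.and_eq_true, decide_eq_true_eq] at h
  obtain ⟨⟨⟨⟨⟨⟨⟨h0, h1⟩, h2⟩, h3⟩, h4⟩, h5⟩, h6⟩, h7⟩ := h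
  cases x; cases y
  simp_all

/-- closure check -/
def chk1 : Bool := tbl.all fun v => gens.all fun g => tbl.any fun w => (g.raw v).eqb w.four

/-- generation check -/
def chk2 : List IQ → List IQ → Bool
  | _, [] => true
  | acc, v :: t => (gens.any fun g => acc.any fun w => (g.raw w).eqb v.four) && chk2 (v :: acc) t

/-- surjectivity check -/
def chk3 : Bool := (List.range 5).all fun y0 => (List.range 5).all fun y1 =>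
  (List.range 5).all fun y2 => (List.range 5).all fun y3 =>
    !(decide ((y0 * y0 + y1 * y1 + y2 * y2 + y3 * y3) % 5 = 1)) ||
    tbl.any fun v => decide ((4 * v.a0 - y0) % 5 = 0) && decide ((4 * v.a1 - y1) % 5 = 0) &&
      decide ((4 * v.a2 - y2) % 5 = 0) && decide ((4 * v.a3 - y3) % 5 = 0)

/-- kernel check -/
def chk4 : Bool := tbl.all fun v =>
  !(decide ((4 * v.a0 - 1) % 5 = 0) && decide ((4 * v.a1) % 5 = 0) &&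
    decide ((4 * v.a2) % 5 = 0) && decide ((4 * v.a3) % 5 = 0)) ||
    v.eqb ⟨4, 0, 0, 0, 0, 0, 0, 0⟩

/-- trace check -/
def chk5 : Bool := tbl.all fun v =>
  !(decide ((4 * v.a0 - 3) % 5 = 0)) || (decide (v.a0 = 2) && decide (v.b0 = 0))

lemma chk1_true : chk1 = true := by decide +kernel

lemma chk2_true : chk2 [⟨4, 0, 0, 0, 0, 0, 0, 0⟩] tbl.tail = true := by decide +kernel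

lemma chk3_true : chk3 = true := by decide +kernel

lemma chk4_true : chk4 = true := by decide +kernel

lemma chk5_true : chk5 = true := by decide +kernel

end Pool.Agent.K3h89.QU
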