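import Mathlib
import Pool.Agent.K3h89.QU.Ico

/-!
# The homomorphism from the unit group of `DR` to the icosian group
-/

set_option autoImplicit false
set_option linter.unusedSectionVars false
set_option linter.unusedSimpArgs false
set_option linter.unusedVariables false

namespace Pool.Agent.K3h89.QU

open Quaternion

/-- Irrationality. -/
lemma sqrt5_indep {a b : ℤ} (h : (a : ℝ) + b * √5 = 0) : a = 0 ∧ b = 0 := by
  have h5 : Irrational (√5) := by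
    have := Nat.Prime.irrational_sqrt (show Nat.Prime 5 by norm_num)
    exact_mod_cast this
  by_cases hb : b = 0
  · subst hb
    simp at h
    exact ⟨h, rfl⟩
  · exfalso
    apply h5
    refine ⟨(-a / b : ℚ), ?_⟩
    push_cast
    have hb' : (b : ℝ) ≠ 0 := by exact_mod_cast hb
    field_simp
    linarith

/-- Reduction modulo the square root of five. -/
noncomputable def rho (x : ℝ) : ZMod 5 := by
  classical
  exact if h : ∃ (a b : ℤ) (k : ℕ), 2 ^ k * x = a + b * √5 then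
    (h.choose : ZMod 5) * 3 ^ h.choose_spec.choose_spec.choose else 0

lemma rho_spec {x : ℝ} {a b : ℤ} {k : ℕ} (h : 2 ^ k * x = a + b * √5) :
    rho x = (a : ZMod 5) * 3 ^ k := by
  have hex : ∃ (a b : ℤ) (k : ℕ), 2 ^ k * x = a + b * √5 := ⟨a, b, k, h⟩
  unfold rho
  rw [dif_pos hex]
  set c := hex.choose with hc
  set d := hex.choose_spec.choose with hd
  set l := hex.choose_spec.choose_spec.choose with hl
  have h2 : 2 ^ l * x = c + d * √5 := hex.choose_spec.choose_spec.choose_spec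
  have h3 : (((2 ^ l * a - 2 ^ k * c : ℤ) : ℝ)) + ((2 ^ l * b - 2 ^ k * d : ℤ) : ℝ) * √5 = 0 := by
    push_cast
    linear_combination 2 ^ k * h2 - 2 ^ l * h
  have h4 := (sqrt5_indep h3).1
  have h5 : (2 : ZMod 5) ^ l * a = 2 ^ k * c := by
    have h6 := congrArg (fun z : ℤ => (z : ZMod 5)) h4
    push_cast at h6
    linear_combination h6
  have h6 : (2 : ZMod 5) * 3 = 1 := by decide
  have h7 : ∀ n : ℕ, (2 : ZMod 5) ^ n * 3 ^ n = 1 := fun n => by rw [← mul_pow, h6, one_pow]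
  calc (c : ZMod 5) * 3 ^ l = (2 ^ k * 3 ^ k) * (c * 3 ^ l) := by rw [h7, one_mul]
    _ = (2 ^ k * c) * (3 ^ k * 3 ^ l) := by ring
    _ = (2 ^ l * a) * (3 ^ k * 3 ^ l) := by rw [h5]
    _ = (a * 3 ^ k) * (2 ^ l * 3 ^ l) := by ring
    _ = a * 3 ^ k := by rw [h7, mul_one]

lemma rho_add {x y : ℝ} (hx : x ∈ AR) (hy : y ∈ AR) : rho (x + y) = rho x + rho y := by
  obtain ⟨a, b, k, h⟩ := hx
  obtain ⟨c, d, l, h'⟩ := hy
  have h1 : 2 ^ (k + l) * (x + y) = ((2 ^ l * a + 2 ^ k * c : ℤ) : ℝ) +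
      ((2 ^ l * b + 2 ^ k * d : ℤ) : ℝ) * √5 := by
    push_cast
    rw [pow_add]
    linear_combination 2 ^ l * h + 2 ^ k * h'
  rw [rho_spec h, rho_spec h', rho_spec h1]
  push_cast
  have h6 : (2 : ZMod 5) * 3 = 1 := by decide
  have h7 : ∀ n : ℕ, (2 : ZMod 5) ^ n * 3 ^ n = 1 := fun n => by rw [← mul_pow, h6, one_pow]
  rw [pow_add]
  linear_combination (a * 3 ^ k : ZMod 5) * h7 l + (c * 3 ^ l : ZMod 5) * h7 k

lemma rho_mul {x y : ℝ} (hx : x ∈ AR) (hy : y ∈ AR) : rho (x * y) = rho x * rho y := by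
  obtain ⟨a, b, k, h⟩ := hx
  obtain ⟨c, d, l, h'⟩ := hy
  have h5 : (√5 : ℝ) * √5 = 5 := Real.mul_self_sqrt (by norm_num)
  have h1 : 2 ^ (k + l) * (x * y) = ((a * c + 5 * b * d : ℤ) : ℝ) +
      ((a * d + b * c : ℤ) : ℝ) * √5 := by
    push_cast
    rw [pow_add]
    linear_combination (2 ^ l * y) * h + (a + b * √5) * h' + (b * d : ℝ) * h5
  rw [rho_spec h, rho_spec h', rho_spec h1]
  push_cast
  have h6 : (5 : ZMod 5) = 0 := by decide
  rw [pow_add, h6]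
  ring

lemma rho_neg {x : ℝ} (hx : x ∈ AR) : rho (-x) = -rho x := by
  obtain ⟨a, b, k, h⟩ := hx
  have h1 : 2 ^ k * (-x) = ((-a : ℤ) : ℝ) + ((-b : ℤ) : ℝ) * √5 := by
    push_cast
    linear_combination -h
  rw [rho_spec h, rho_spec h1]
  push_cast
  ring

lemma rho_sub {x y : ℝ} (hx : x ∈ AR) (hy : y ∈ AR) : rho (x - y) = rho x - rho y := by
  rw [sub_eq_add_neg, rho_add hx (AR.neg_mem hy), rho_neg hy, sub_eq_add_neg]

lemma rho_zero : rho 0 = 0 := by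
  rw [rho_spec (x := 0) (a := 0) (b := 0) (k := 0) (by simp)]; simp

lemma rho_one : rho 1 = 1 := by
  rw [rho_spec (x := 1) (a := 1) (b := 0) (k := 0) (by simp)]; simp

/-- Reduction of quaternions. -/
noncomputable def pi5 (x : Q4) : Quaternion (ZMod 5) := ⟨rho x.re, rho x.imI, rho x.imJ, rho x.imK⟩

lemma pi5_mul {x y : Q4} (hx : x ∈ DR) (hy : y ∈ DR) : pi5 (x * y) = pi5 x * pi5 y := by
  obtain ⟨h1, h2, h3, h4⟩ := hx
  obtain ⟨g1, g2, g3, g4⟩ := hy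
  have m := fun {a b : ℝ} (ha : a ∈ AR) (hb : b ∈ AR) => AR.mul_mem ha hb
  ext
  · simp only [pi5, re_mul]
    rw [rho_sub (AR.sub_mem (AR.sub_mem (m h1 g1) (m h2 g2)) (m h3 g3)) (m h4 g4),
      rho_sub (AR.sub_mem (m h1 g1) (m h2 g2)) (m h3 g3), rho_sub (m h1 g1) (m h2 g2),
      rho_mul h1 g1, rho_mul h2 g2, rho_mul h3 g3, rho_mul h4 g4]
  · simp only [pi5, imI_mul]
    rw [rho_sub (AR.add_mem (AR.add_mem (m h1 g2) (m h2 g1)) (m h3 g4)) (m h4 g3),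
      rho_add (AR.add_mem (m h1 g2) (m h2 g1)) (m h3 g4), rho_add (m h1 g2) (m h2 g1),
      rho_mul h1 g2, rho_mul h2 g1, rho_mul h3 g4, rho_mul h4 g3]
  · simp only [pi5, imJ_mul]
    rw [rho_add (AR.add_mem (AR.sub_mem (m h1 g3) (m h2 g4)) (m h3 g1)) (m h4 g2),
      rho_add (AR.sub_mem (m h1 g3) (m h2 g4)) (m h3 g1), rho_sub (m h1 g3) (m h2 g4),
      rho_mul h1 g3, rho_mul h2 g4, rho_mul h3 g1, rho_mul h4 g2]
  · simp only [pi5, imK_mul]
    rw [rho_add (AR.sub_mem (AR.add_mem (m h1 g4) (m h2 g3)) (m h3 g2)) (m h4 g1),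
      rho_sub (AR.add_mem (m h1 g4) (m h2 g3)) (m h3 g2), rho_add (m h1 g4) (m h2 g3),
      rho_mul h1 g4, rho_mul h2 g3, rho_mul h3 g2, rho_mul h4 g1]

lemma pi5_neg {x : Q4} (hx : x ∈ DR) : pi5 (-x) = -pi5 x := by
  obtain ⟨h1, h2, h3, h4⟩ := hx
  ext
  · simp only [pi5, re_neg]; exact rho_neg h1
  · simp only [pi5, imI_neg]; exact rho_neg h2
  · simp only [pi5, imJ_neg]; exact rho_neg h3
  · simp only [pi5, imK_neg]; exact rho_neg h4

lemma pi5_one : pi5 1 = 1 := by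
  ext <;> simp [pi5, rho_one, rho_zero]

lemma pi5_norm {x : Q4} (hx : x ∈ DR) (h : x ∈ unitary Q4) :
    rho x.re ^ 2 + rho x.imI ^ 2 + rho x.imJ ^ 2 + rho x.imK ^ 2 = 1 := by
  rw [un_iff, nsq] at h
  have h0 := congrArg rho h
  obtain ⟨h1, h2, h3, h4⟩ := hx
  have m := fun {a : ℝ} (ha : a ∈ AR) => AR.mul_mem ha ha
  simp only [pow_two] at h0 ⊢
  rw [rho_add (AR.add_mem (AR.add_mem (m h1) (m h2)) (m h3)) (m h4),
    rho_add (AR.add_mem (m h1) (m h2)) (m h3), rho_add (m h1) (m h2),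
    rho_mul h1 h1, rho_mul h2 h2, rho_mul h3 h3, rho_mul h4 h4, rho_one] at h0
  exact h0

lemma toQ_DR (v : IQ) : v.toQ ∈ DR := by
  refine ⟨⟨v.a0, v.b0, 2, ?_⟩, ⟨v.a1, v.b1, 2, ?_⟩, ⟨v.a2, v.b2, 2, ?_⟩, ⟨v.a3, v.b3, 2, ?_⟩⟩ <;>
    simp only [IQ.toQ] <;> ring

lemma rho_coord (a b : ℤ) : rho ((a + b * √5) / 4) = ((4 * a : ℤ) : ZMod 5) := by
  rw [rho_spec (x := (a + b * √5) / 4) (a := a) (b := b) (k := 2) (by ring)]
  push_cast
  have : (3 : ZMod 5) ^ 2 = 4 := by decide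
  rw [this]; ring

lemma pi5_toQ (v : IQ) : pi5 v.toQ =
    ⟨((4 * v.a0 : ℤ) : ZMod 5), ((4 * v.a1 : ℤ) : ZMod 5), ((4 * v.a2 : ℤ) : ZMod 5),
      ((4 * v.a3 : ℤ) : ZMod 5)⟩ := by
  unfold pi5 IQ.toQ
  simp only [rho_coord]

lemma zmod_iff (a : ℤ) : ((a : ℤ) : ZMod 5) = 0 ↔ a % 5 = 0 := by
  rw [ZMod.intCast_zmod_eq_zero_iff_dvd a 5]
  omega

/-- Every norm-one quaternion modulo five lifts. -/
lemma lift_exists {x : Q4} (hx : x ∈ DR) (h : x ∈ unitary Q4) :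
    ∃ v ∈ tbl, pi5 v.toQ = pi5 x := by
  have h0 := pi5_norm hx h
  have hv : ∀ z : ZMod 5, ((z.val : ℕ) : ZMod 5) = z := fun z => by simp
  have hlt : ∀ z : ZMod 5, z.val ∈ List.range 5 := fun z => by
    rw [List.mem_range]; exact ZMod.val_lt z
  have c := chk3_true
  unfold chk3 at c
  rw [List.all_eq_true] at c
  have c0 := c _ (hlt (rho x.re))
  rw [List.all_eq_true] at c0
  have c1 := c0 _ (hlt (rho x.imI))
  rw [List.all_eq_true] at c1
  have c2 := c1 _ (hlt (rho x.imJ))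
  rw [List.all_eq_true] at c2
  have c3 := c2 _ (hlt (rho x.imK))
  have hn : ((rho x.re).val * (rho x.re).val + (rho x.imI).val * (rho x.imI).val +
      (rho x.imJ).val * (rho x.imJ).val + (rho x.imK).val * (rho x.imK).val) % 5 = 1 := by
    have h1 : (((rho x.re).val * (rho x.re).val + (rho x.imI).val * (rho x.imI).val +
      (rho x.imJ).val * (rho x.imJ).val + (rho x.imK).val * (rho x.imK).val : ℕ) : ZMod 5) =
        ((1 : ℕ) : ZMod 5) := by
      push_cast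
      rw [hv, hv, hv, hv]
      simp only [pow_two] at h0
      exact h0
    rw [ZMod.natCast_eq_natCast_iff'] at h1
    exact h1
  rw [Bool.or_eq_true] at c3
  rcases c3 with c3 | c3
  · simp [hn] at c3
  · rw [List.any_eq_true] at c3
    obtain ⟨v, hvt, c4⟩ := c3
    simp only [Bool.and_eq_true, decide_eq_true_eq] at c4
    obtain ⟨⟨⟨k0, k1⟩, k2⟩, k3⟩ := c4
    refine ⟨v, hvt, ?_⟩
    rw [pi5_toQ]
    have key : ∀ (a : ℤ) (z : ZMod 5), (4 * a - (z.val : ℤ)) % 5 = 0 →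
        ((4 * a : ℤ) : ZMod 5) = z := by
      intro a z h
      rw [← zmod_iff] at h
      push_cast at h ⊢
      rw [sub_eq_zero] at h
      rw [h]; exact hv z
    unfold pi5
    rw [key _ _ k0, key _ _ k1, key _ _ k2, key _ _ k3]

/-- The group generated by `-1, p, q, r`. -/
noncomputable def genGrp (p q r : Q4) : Subgroup Q4ˣ :=
  Subgroup.closure {u | (u : Q4) = -1 ∨ (u : Q4) = p ∨ (u : Q4) = q ∨ (u : Q4) = r}

/-- An apex over the standard tetrahedron. -/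
noncomputable def r0 : Q4 := ⟨1/2, (1 + √5)/4, (1 - √5)/4, 0⟩

lemma r0_un : r0 ∈ unitary Q4 := by
  have h5 : (√5 : ℝ) ^ 2 = 5 := Real.sq_sqrt (by norm_num)
  rw [un_iff, nsq]
  simp only [r0]
  linear_combination (1 / 8) * h5

lemma un_unit_inv {u : Q4ˣ} {x : Q4} (h : (u : Q4) = x) (hx : x ∈ unitary Q4) :
    ((u⁻¹ : Q4ˣ) : Q4) = star x := by
  rw [Units.val_inv_eq_inv_val, h, un_inv hx]

/-- The group is contained in the table. -/
lemma grp_sub_tbl (u : Q4ˣ) (hu : u ∈ genGrp p0 q0 r0) : ∃ v ∈ tbl, (u : Q4) = v.toQ := by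
  have step : ∀ g ∈ gens, ∀ y : Q4, (∃ v ∈ tbl, y = v.toQ) → ∃ v ∈ tbl, g.toQ * y = v.toQ := by
    rintro g hg y ⟨v, hv, rfl⟩
    have c := chk1_true
    unfold chk1 at c
    rw [List.all_eq_true] at c
    have c0 := c v hv
    rw [List.all_eq_true] at c0
    have c1 := c0 g hg
    rw [List.any_eq_true] at c1
    obtain ⟨w, hw, c2⟩ := c1
    exact ⟨w, hw, toQ_mul (eqb_iff c2)⟩
  unfold genGrp at hu
  induction hu using Subgroup.closure_induction_left with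
  | one =>
    refine ⟨⟨4, 0, 0, 0, 0, 0, 0, 0⟩, by simp [tbl], ?_⟩
    ext <;> simp [IQ.toQ]
  | mul_left x hx y hy ih =>
    rw [Units.val_mul]
    rcases hx with hx | hx | hx | hx <;> rw [hx]
    · have := step ⟨-4, 0, 0, 0, 0, 0, 0, 0⟩ (by simp [gens]) _ ih
      have e : (-1 : Q4) = (⟨-4, 0, 0, 0, 0, 0, 0, 0⟩ : IQ).toQ := by
        ext <;> simp [IQ.toQ]
      rwa [e]
    · have := step ⟨2, 0, 2, 0, 2, 0, 2, 0⟩ (by simp [gens]) _ ih
      have e : p0 = (⟨2, 0, 2, 0, 2, 0, 2, 0⟩ : IQ).toQ := by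
        ext <;> simp [IQ.toQ, p0] <;> norm_num
      rwa [e]
    · have := step ⟨2, 0, 2, 0, 2, 0, -2, 0⟩ (by simp [gens]) _ ih
      have e : q0 = (⟨2, 0, 2, 0, 2, 0, -2, 0⟩ : IQ).toQ := by
        ext <;> simp [IQ.toQ, q0] <;> norm_num
      rwa [e]
    · have := step ⟨2, 0, 1, 1, 1, -1, 0, 0⟩ (by simp [gens]) _ ih
      have e : r0 = (⟨2, 0, 1, 1, 1, -1, 0, 0⟩ : IQ).toQ := by
        ext <;> simp [IQ.toQ, r0]
        · norm_num
        · ring
      rwa [e]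
  | inv_mul_cancel x hx y hy ih =>
    rw [Units.val_mul]
    rcases hx with hx | hx | hx | hx
    · have := step ⟨-4, 0, 0, 0, 0, 0, 0, 0⟩ (by simp [gens]) _ ih
      have e : ((x⁻¹ : Q4ˣ) : Q4) = (⟨-4, 0, 0, 0, 0, 0, 0, 0⟩ : IQ).toQ := by
        rw [Units.val_inv_eq_inv_val, hx]
        ext <;> simp [IQ.toQ, inv_neg]
      rwa [e]
    · have := step ⟨2, 0, -2, 0, -2, 0, -2, 0⟩ (by simp [gens]) _ ih
      have e : ((x⁻¹ : Q4ˣ) : Q4) = (⟨2, 0, -2, 0, -2, 0, -2, 0⟩ : IQ).toQ := by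
        rw [un_unit_inv hx p0_un]
        ext <;> simp [IQ.toQ, p0] <;> norm_num
      rwa [e]
    · have := step ⟨2, 0, -2, 0, -2, 0, 2, 0⟩ (by simp [gens]) _ ih
      have e : ((x⁻¹ : Q4ˣ) : Q4) = (⟨2, 0, -2, 0, -2, 0, 2, 0⟩ : IQ).toQ := by
        rw [un_unit_inv hx q0_un]
        ext <;> simp [IQ.toQ, q0] <;> norm_num
      rwa [e]
    · have := step ⟨2, 0, -1, -1, -1, 1, 0, 0⟩ (by simp [gens]) _ ih
      have e : ((x⁻¹ : Q4ˣ) : Q4) = (⟨2, 0, -1, -1, -1, 1, 0, 0⟩ : IQ).toQ := by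
        rw [un_unit_inv hx r0_un]
        ext <;> simp [IQ.toQ, r0]
        · norm_num
        · ring
        · ring
      rwa [e]

end Pool.Agent.K3h89.QU
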