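import Mathlib
import Pool.Agent.K3h89.QU.Ico2

/-!
# The transfer function
-/

set_option autoImplicit false
set_option linter.unusedSectionVars false
set_option linter.unusedSimpArgs false
set_option linter.unusedVariables false

namespace Pool.Agent.K3h89.QU

open Quaternion

lemma gens_in_grp : ∀ g ∈ gens, ∃ u ∈ genGrp p0 q0 r0, (u : Q4) = g.toQ := by
  have hsub : ∀ u : Q4ˣ, ((u : Q4) = -1 ∨ (u : Q4) = p0 ∨ (u : Q4) = q0 ∨ (u : Q4) = r0) →
      u ∈ genGrp p0 q0 r0 := fun u hu => Subgroup.subset_closure hu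
  intro g hg
  simp only [gens, List.mem_cons, List.not_mem_nil, or_false] at hg
  rcases hg with rfl | rfl | rfl | rfl | rfl | rfl | rfl
  · refine ⟨-1, hsub _ (by left; simp), ?_⟩
    ext <;> simp [IQ.toQ]
  · refine ⟨Units.mk0 p0 (un_ne p0_un), hsub _ (by right; left; simp), ?_⟩
    ext <;> simp [IQ.toQ, p0] <;> norm_num
  · refine ⟨Units.mk0 q0 (un_ne q0_un), hsub _ (by right; right; left; simp), ?_⟩
    ext <;> simp [IQ.toQ, q0] <;> norm_num
  · refine ⟨Units.mk0 r0 (un_ne r0_un), hsub _ (by right; right; right; simp), ?_⟩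
    ext <;> simp [IQ.toQ, r0]
    · norm_num
    · ring
  · refine ⟨(Units.mk0 p0 (un_ne p0_un))⁻¹,
      (genGrp p0 q0 r0).inv_mem (hsub _ (by right; left; simp)), ?_⟩
    rw [un_unit_inv (x := p0) (by simp) p0_un]
    ext <;> simp [IQ.toQ, p0] <;> norm_num
  · refine ⟨(Units.mk0 q0 (un_ne q0_un))⁻¹,
      (genGrp p0 q0 r0).inv_mem (hsub _ (by right; right; left; simp)), ?_⟩
    rw [un_unit_inv (x := q0) (by simp) q0_un]
    ext <;> simp [IQ.toQ, q0] <;> norm_num
  · refine ⟨(Units.mk0 r0 (un_ne r0_un))⁻¹,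
      (genGrp p0 q0 r0).inv_mem (hsub _ (by right; right; right; simp)), ?_⟩
    rw [un_unit_inv (x := r0) (by simp) r0_un]
    ext <;> simp [IQ.toQ, r0]
    · norm_num
    · ring
    · ring

lemma chk2_sound (P : IQ → Prop) (hP : ∀ g ∈ gens, ∀ w v, P w → g.raw w = v.four → P v) :
    ∀ (t acc : List IQ), chk2 acc t = true → (∀ w ∈ acc, P w) → ∀ v ∈ t, P v := by
  intro t
  induction t with
  | nil => intro acc _ _ v hv; simp at hv
  | cons a t ih =>
    intro acc h hacc v hv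
    simp only [chk2, Bool.and_eq_true] at h
    obtain ⟨h1, h2⟩ := h
    rw [List.any_eq_true] at h1
    obtain ⟨g, hg, h3⟩ := h1
    rw [List.any_eq_true] at h3
    obtain ⟨w, hw, h4⟩ := h3
    have ha : P a := hP g hg w a (hacc w hw) (eqb_iff h4)
    rcases List.mem_cons.1 hv with rfl | hv
    · exact ha
    · exact ih (a :: acc) h2 (by
        intro w hw
        rcases List.mem_cons.1 hw with rfl | hw
        · exact ha
        · exact hacc w hw) v hv

/-- The table is contained in the group. -/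
lemma tbl_sub_grp : ∀ v ∈ tbl, ∃ u ∈ genGrp p0 q0 r0, (u : Q4) = v.toQ := by
  have h1 := chk2_sound (fun v => ∃ u ∈ genGrp p0 q0 r0, (u : Q4) = v.toQ) (by
    rintro g hg w v ⟨u, hu, h⟩ h2
    obtain ⟨u', hu', h'⟩ := gens_in_grp g hg
    refine ⟨u' * u, (genGrp p0 q0 r0).mul_mem hu' hu, ?_⟩
    rw [Units.val_mul, h, h', toQ_mul h2]) _ _ chk2_true (by
    intro w hw
    rw [List.mem_singleton] at hw
    subst hw
    refine ⟨1, (genGrp p0 q0 r0).one_mem, ?_⟩
    ext <;> simp [IQ.toQ])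
  intro v hv
  have h2 : tbl = ⟨4, 0, 0, 0, 0, 0, 0, 0⟩ :: tbl.tail := by rfl
  rw [h2] at hv
  rcases List.mem_cons.1 hv with rfl | hv
  · refine ⟨1, (genGrp p0 q0 r0).one_mem, ?_⟩
    ext <;> simp [IQ.toQ]
  · exact h1 v hv

lemma grp_un {u : Q4ˣ} (hu : u ∈ genGrp p0 q0 r0) : (u : Q4) ∈ unitary Q4 := by
  unfold genGrp at hu
  have m1 : (-1 : Q4) ∈ unitary Q4 := by rw [un_iff]; simp
  induction hu using Subgroup.closure_induction with
  | mem x hx =>
    rcases hx with hx | hx | hx | hx <;> rw [hx]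
    · exact m1
    · exact p0_un
    · exact q0_un
    · exact r0_un
  | one => exact one_mem _
  | mul x y _ _ h1 h2 => rw [Units.val_mul]; exact un_mul h1 h2
  | inv x _ h1 =>
    rw [un_unit_inv rfl h1]; exact un_star h1

lemma grp_DR {u : Q4ˣ} (hu : u ∈ genGrp p0 q0 r0) : (u : Q4) ∈ DR := by
  obtain ⟨v, _, h⟩ := grp_sub_tbl u hu
  rw [h]; exact toQ_DR v

/-- The reduction is injective on the group. -/
lemma grp_inj {u u' : Q4ˣ} (hu : u ∈ genGrp p0 q0 r0) (hu' : u' ∈ genGrp p0 q0 r0)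
    (h : pi5 u = pi5 u') : u = u' := by
  have h1 : pi5 ((u⁻¹ * u' : Q4ˣ) : Q4) = 1 := by
    have k : pi5 ((u⁻¹ * u : Q4ˣ) : Q4) = 1 := by simp [pi5_one]
    rw [Units.val_mul, pi5_mul (grp_DR ((genGrp p0 q0 r0).inv_mem hu)) (grp_DR hu)] at k
    rw [Units.val_mul, pi5_mul (grp_DR ((genGrp p0 q0 r0).inv_mem hu)) (grp_DR hu'), ← h]
    exact k
  obtain ⟨v, hv, h2⟩ := grp_sub_tbl (u⁻¹ * u')
    ((genGrp p0 q0 r0).mul_mem ((genGrp p0 q0 r0).inv_mem hu) hu')
  rw [h2, pi5_toQ] at h1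
  have c := chk4_true
  unfold chk4 at c
  rw [List.all_eq_true] at c
  have c1 := c v hv
  have k0 := congrArg (fun z : Quaternion (ZMod 5) => z.re) h1
  have k1 := congrArg (fun z : Quaternion (ZMod 5) => z.imI) h1
  have k2 := congrArg (fun z : Quaternion (ZMod 5) => z.imJ) h1
  have k3 := congrArg (fun z : Quaternion (ZMod 5) => z.imK) h1
  simp only [re_one, imI_one, imJ_one, imK_one] at k0 k1 k2 k3
  have k0' : ((4 * v.a0 - 1 : ℤ) : ZMod 5) = 0 := by
    push_cast at k0 ⊢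
    rw [k0]; ring
  rw [zmod_iff] at k0' k1 k2 k3
  simp only [k0', k1, k2, k3, decide_true, Bool.and_self, Bool.not_true, Bool.false_or] at c1
  have h3 := eqb_iff c1
  have h4 : ((u⁻¹ * u' : Q4ˣ) : Q4) = 1 := by
    rw [h2, h3]
    ext <;> simp [IQ.toQ]
  have h5 : u⁻¹ * u' = 1 := Units.ext h4
  exact inv_mul_eq_one.1 h5

/-- The lift. -/
lemma exists_lift {x : Q4} (hx : x ∈ DR) (h : x ∈ unitary Q4) :
    ∃ u ∈ genGrp p0 q0 r0, pi5 (u : Q4) = pi5 x := by
  obtain ⟨v, hv, h1⟩ := lift_exists hx h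
  obtain ⟨u, hu, h2⟩ := tbl_sub_grp v hv
  exact ⟨u, hu, by rw [h2, h1]⟩

open Classical in
/-- The transfer function. -/
noncomputable def ff (x : Q4) : Q4 :=
  if h : x ∈ DR ∧ x ∈ unitary Q4 then ((exists_lift h.1 h.2).choose : Q4ˣ) else 0

lemma ff_spec {x : Q4} (hx : x ∈ DR) (h : x ∈ unitary Q4) :
    ∃ u ∈ genGrp p0 q0 r0, ff x = (u : Q4) ∧ pi5 (u : Q4) = pi5 x := by
  unfold ff
  rw [dif_pos ⟨hx, h⟩]
  have := (exists_lift hx h).choose_spec
  exact ⟨_, this.1, rfl, this.2⟩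

lemma ff_unique {x : Q4} (hx : x ∈ DR) (h : x ∈ unitary Q4) {u : Q4ˣ}
    (hu : u ∈ genGrp p0 q0 r0) (hp : pi5 (u : Q4) = pi5 x) : ff x = (u : Q4) := by
  obtain ⟨u', hu', h1, h2⟩ := ff_spec hx h
  rw [h1, grp_inj hu' hu (h2.trans hp.symm)]

/-- A transfer function to the group `G`. -/
structure Tr (f : Q4 → Q4) (G : Subgroup Q4ˣ) : Prop where
  zero : f 0 = 0
  one : f 1 = 1
  mul : ∀ x y, x ∈ DR → y ∈ DR → x ∈ unitary Q4 → y ∈ unitary Q4 → f (x * y) = f x * f y
  mem : ∀ x, x ∈ DR → x ∈ unitary Q4 → ∃ u ∈ G, (u : Q4) = f x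
  un : ∀ x, x ∈ DR → x ∈ unitary Q4 → f x ∈ unitary Q4
  neg : ∀ x, x ∈ DR → x ∈ unitary Q4 → f (-x) = - f x
  half : ∀ x, x ∈ DR → x ∈ unitary Q4 → x.re = 1 / 2 → f (1 - x) = 1 - f x

lemma half_star {x : Q4} (h : x.re = 1 / 2) : 1 - x = star x := by
  ext
  · simp [h]; norm_num
  · simp
  · simp
  · simp

lemma tr_ff : Tr ff (genGrp p0 q0 r0) where
  zero := by
    unfold ff
    rw [dif_neg]
    rintro ⟨-, h⟩
    exact un_ne h rfl
  one := by
    rw [ff_unique DR.one_mem (one_mem _) (genGrp p0 q0 r0).one_mem (by simp)]; simp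
  mul := by
    intro x y hx hy ux uy
    obtain ⟨u, hu, h1, h2⟩ := ff_spec hx ux
    obtain ⟨v, hv, h3, h4⟩ := ff_spec hy uy
    rw [ff_unique (DR.mul_mem hx hy) (un_mul ux uy) ((genGrp p0 q0 r0).mul_mem hu hv) (by
      rw [Units.val_mul, pi5_mul (grp_DR hu) (grp_DR hv), h2, h4, pi5_mul hx hy]), h1, h3,
      Units.val_mul]
  mem := by
    intro x hx ux
    obtain ⟨u, hu, h1, h2⟩ := ff_spec hx ux
    exact ⟨u, hu, h1.symm⟩
  un := by
    intro x hx ux
    obtain ⟨u, hu, h1, h2⟩ := ff_spec hx ux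
    rw [h1]; exact grp_un hu
  neg := by
    intro x hx ux
    obtain ⟨u, hu, h1, h2⟩ := ff_spec hx ux
    have hm : (-1 : Q4ˣ) ∈ genGrp p0 q0 r0 := Subgroup.subset_closure (by left; simp)
    have hux : -x ∈ unitary Q4 := by
      rw [un_iff] at ux ⊢; rw [Quaternion.normSq_neg]; exact ux
    rw [ff_unique (DR.neg_mem hx) hux ((genGrp p0 q0 r0).mul_mem hm hu) (by
      have : (((-1 * u : Q4ˣ)) : Q4) = -(u : Q4) := by simp
      rw [this, pi5_neg (grp_DR hu), h2, pi5_neg hx]), h1]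
    simp
  half := by
    intro x hx ux hre
    obtain ⟨u, hu, h1, h2⟩ := ff_spec hx ux
    obtain ⟨v, hv, h3⟩ := grp_sub_tbl u hu
    have hre2 : (u : Q4).re = 1 / 2 := by
      have k0 := congrArg (fun z : Quaternion (ZMod 5) => z.re) h2
      rw [h3, pi5_toQ] at k0
      simp only [pi5] at k0
      have k1 : rho x.re = 3 := by
        rw [hre, rho_spec (x := 1 / 2) (a := 1) (b := 0) (k := 1) (by norm_num)]; decide
      rw [k1] at k0
      have k2 : ((4 * v.a0 - 3 : ℤ) : ZMod 5) = 0 := by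
        push_cast at k0 ⊢
        rw [k0]; ring
      rw [zmod_iff] at k2
      have c := chk5_true
      unfold chk5 at c
      rw [List.all_eq_true] at c
      have c1 := c v hv
      simp only [k2, decide_true, Bool.not_true, Bool.false_or, Bool.and_eq_true,
        decide_eq_true_eq] at c1
      rw [h3]
      simp only [IQ.toQ, c1.1, c1.2]
      norm_num
    have h4 : ff (star x) * ff x = 1 := by
      have h5 : ff (star x * x) = ff (star x) * ff x := by
        obtain ⟨w, hw, h6, h7⟩ := ff_spec (DR_star hx) (un_star ux)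
        rw [ff_unique (DR.mul_mem (DR_star hx) hx) (un_mul (un_star ux) ux)
          ((genGrp p0 q0 r0).mul_mem hw hu) (by
          rw [Units.val_mul, pi5_mul (grp_DR hw) (grp_DR hu), h7, h2,
            pi5_mul (DR_star hx) hx]), h6, h1, Units.val_mul]
      rw [← h5, un_l ux, ff_unique DR.one_mem (one_mem _) (genGrp p0 q0 r0).one_mem (by simp)]
      simp
    rw [half_star hre, h1, half_star hre2]
    rw [h1] at h4
    have h5 := congrArg (fun z => z * star (u : Q4)) h4
    simp only [mul_assoc, un_r (grp_un hu), mul_one, one_mul] at h5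
    exact h5

/-- Conjugate transfer functions. -/
lemma Tr.conj {f : Q4 → Q4} {G G' : Subgroup Q4ˣ} (h : Tr f G) {g : Q4ˣ}
    (hg : (g : Q4) ∈ unitary Q4) (hG : ∀ u ∈ G, g * u * g⁻¹ ∈ G') :
    Tr (fun x => (g : Q4) * f x * star (g : Q4)) G' where
  zero := by rw [h.zero]; simp
  one := by rw [h.one, mul_one, un_r hg]
  mul := by
    intro x y hx hy ux uy
    rw [h.mul x y hx hy ux uy]
    simp only [mul_assoc, un_lc hg]
  mem := by
    intro x hx ux
    obtain ⟨u, hu, h1⟩ := h.mem x hx ux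
    exact ⟨_, hG u hu, by rw [Units.val_mul, Units.val_mul, un_unit_inv rfl hg, h1]⟩
  un := by
    intro x hx ux
    exact un_mul (un_mul hg (h.un x hx ux)) (un_star hg)
  neg := by
    intro x hx ux
    rw [h.neg x hx ux]; simp
  half := by
    intro x hx ux hre
    rw [h.half x hx ux hre, mul_sub, sub_mul, mul_one, un_r hg]

lemma conj_closure {S : Set Q4ˣ} {G' : Subgroup Q4ˣ} {g : Q4ˣ}
    (h : ∀ u ∈ S, g * u * g⁻¹ ∈ G') : ∀ u ∈ Subgroup.closure S, g * u * g⁻¹ ∈ G' := by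
  intro u hu
  induction hu using Subgroup.closure_induction with
  | mem x hx => exact h x hx
  | one => simp [G'.one_mem]
  | mul x y _ _ h1 h2 =>
    have := G'.mul_mem h1 h2
    have e : g * x * g⁻¹ * (g * y * g⁻¹) = g * (x * y) * g⁻¹ := by group
    rwa [e] at this
  | inv x _ h1 =>
    have := G'.inv_mem h1
    have e : (g * x * g⁻¹)⁻¹ = g * x⁻¹ * g⁻¹ := by group
    rwa [e] at this

/-- The swap. -/
noncomputable def tau : Q4 := ⟨0, √2 / 2, √2 / 2, 0⟩

lemma tau_un : tau ∈ unitary Q4 := by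
  have h2 : (√2 : ℝ) ^ 2 = 2 := Real.sq_sqrt (by norm_num)
  rw [un_iff, nsq]
  simp only [tau]
  linear_combination (1 / 2) * h2

lemma tau_cj (x : Q4) : star tau * x * tau = ⟨x.re, x.imJ, x.imI, -x.imK⟩ := by
  have h2 : (√2 : ℝ) ^ 2 = 2 := Real.sq_sqrt (by norm_num)
  ext <;> simp [tau] <;> ring_nf <;> rw [h2] <;> ring

/-- All regular simplices are conjugate to the standard one, up to the order of the first two. -/
lemma simplex_conj {p q r : Q4} (hpq : Tet p q) (hpr : Tet p r) (hqr : Tet q r) :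
    ∃ g ∈ unitary Q4, ((star g * p * g = p0 ∧ star g * q * g = q0) ∨
      (star g * p * g = q0 ∧ star g * q * g = p0)) ∧ star g * r * g = r0 := by
  obtain ⟨h, hh, h1, h2⟩ := hpq.conj
  have t1 := hpr.cj hh
  have t2 := hqr.cj hh
  rw [h1] at t1
  rw [h2] at t2
  obtain ⟨a1, a2, a3, a4⟩ := apex t1 t2
  have h5 : (√5 : ℝ) ^ 2 = 5 := Real.sq_sqrt (by norm_num)
  set r' := star h * r * h with hr'
  have h6 : (4 * r'.imI - 1 - √5) * (4 * r'.imI - 1 + √5) = 0 := by
    linear_combination 8 * a4 - h5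
  rcases mul_eq_zero.1 h6 with h7 | h7
  · refine ⟨h, hh, Or.inl ⟨h1, h2⟩, ?_⟩
    rw [← hr']
    ext
    · rw [a1]; rfl
    · simp only [r0]; linarith
    · simp only [r0]; linarith
    · rw [a2]; rfl
  · refine ⟨h * tau, un_mul hh tau_un, Or.inr ⟨?_, ?_⟩, ?_⟩
    · have e : star (h * tau) * p * (h * tau) = star tau * (star h * p * h) * tau := by
        simp only [star_mul, mul_assoc]
      rw [e, h1, tau_cj]
      ext <;> simp [p0, q0]
      norm_num
    · have e : star (h * tau) * q * (h * tau) = star tau * (star h * q * h) * tau := by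
        simp only [star_mul, mul_assoc]
      rw [e, h2, tau_cj]
      ext <;> simp [p0, q0]
      norm_num
    · have e : star (h * tau) * r * (h * tau) = star tau * (star h * r * h) * tau := by
        simp only [star_mul, mul_assoc]
      rw [e, tau_cj, ← hr']
      ext
      · simp only [r0]; rw [a1]
      · simp only [r0]; linarith
      · simp only [r0]; linarith
      · simp only [r0]; rw [a2]; simp

/-- For every regular simplex there is a transfer function. -/
theorem exists_tr {p q r : Q4} (hpq : Tet p q) (hpr : Tet p r) (hqr : Tet q r) :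
    ∃ f, Tr f (genGrp p q r) := by
  obtain ⟨g, hg, h1, h2⟩ := simplex_conj hpq hpr hqr
  have hg0 := un_ne hg
  refine ⟨_, tr_ff.conj (g := Units.mk0 g hg0) (G' := genGrp p q r) (by simpa using hg) ?_⟩
  have back : ∀ x y : Q4, star g * x * g = y → g * y * star g = x := by
    intro x y h
    rw [← h]
    simp only [mul_assoc, un_r hg, mul_one, un_rc hg]
  refine conj_closure ?_
  intro u hu
  refine Subgroup.subset_closure ?_
  have e : ((Units.mk0 g hg0 * u * (Units.mk0 g hg0)⁻¹ : Q4ˣ) : Q4) = g * (u : Q4) * star g := by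
    rw [Units.val_mul, Units.val_mul, un_unit_inv (x := g) (by simp) hg]; simp
  show _ = _ ∨ _ = _ ∨ _ = _ ∨ _ = _
  rw [e]
  rcases hu with hu | hu | hu | hu
  · left; rw [hu]; simp [un_r hg]
  · rcases h1 with ⟨k1, k2⟩ | ⟨k1, k2⟩
    · right; left; rw [hu]; exact back _ _ k1
    · right; right; left; rw [hu]; exact back _ _ k2
  · rcases h1 with ⟨k1, k2⟩ | ⟨k1, k2⟩
    · right; right; left; rw [hu]; exact back _ _ k2
    · right; left; rw [hu]; exact back _ _ k1
  · right; right; right; rw [hu]; exact back _ _ h2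

end Pool.Agent.K3h89.QU
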