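import Mathlib
import Pool.Agent.K3h89.QU.Ico3

/-!
# Elementary chains, and transfer of conforming chain groups
-/

set_option autoImplicit false
set_option linter.unusedSectionVars false
set_option linter.unusedSimpArgs false
set_option linter.unusedVariables false

namespace Pool.Agent.K3h89.QU

open Finset Quaternion

variable {α : Type*} [DecidableEq α]

section elem

variable {K : Type*} [DivisionRing K] {C : Submodule K (α → K)} {c : α → K}

/-- Elementary chains. -/
def Elem (C : Submodule K (α → K)) (c : α → K) : Prop :=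
  c ∈ C ∧ c ≠ 0 ∧ ∀ c' ∈ C, c' ≠ 0 → (∀ e, c' e ≠ 0 → c e ≠ 0) → ∀ e, c e ≠ 0 → c' e ≠ 0

/-- Supports of elementary chains. -/
def ElS (C : Submodule K (α → K)) (X : Set α) : Prop := ∃ c, Elem C c ∧ ∀ e, c e ≠ 0 ↔ e ∈ X

lemma Frame.elem {B : Finset α} {F : α → α → K} (h : Frame C B F) {b : α} (hb : b ∈ B) :
    Elem C (F b) := by
  refine ⟨h.mem b hb, fun h0 => ?_, fun c' hc' hne hsub e he => ?_⟩
  · have := h.diag b hb
    rw [h0] at this; simp at this
  · have h0 : ∀ b' ∈ B, b' ≠ b → c' b' = 0 := by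
      intro b' hb' hbb
      by_contra hh
      exact hsub b' hh (h.off b hb b' hb' hbb)
    have h1 : ∀ z, c' z = c' b * F b z := by
      intro z
      rw [h.span_app hc' z, Finset.sum_eq_single b]
      · intro b' hb' hbb; rw [h0 b' hb' hbb, zero_mul]
      · intro hh; exact absurd hb hh
    have h2 : c' b ≠ 0 := by
      intro hh
      apply hne
      funext z
      rw [h1 z, hh, zero_mul]; rfl
    rw [h1 e]; exact mul_ne_zero h2 he

lemma Elem.frame [Fintype α] (h : Elem C c) {e0 : α} (he0 : c e0 ≠ 0) :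
    ∃ B F, Frame C B F ∧ e0 ∈ B ∧ c = c e0 • F e0 := by
  classical
  obtain ⟨hc, hne, hmin⟩ := h
  obtain ⟨B, F, hF, had⟩ := exists_frame C (Finset.univ.filter fun e => c e = 0)
  have hsup : ∀ b ∈ B, c b ≠ 0 → ∀ e, c e ≠ 0 → F b e ≠ 0 := by
    intro b hb hcb
    refine hmin (F b) (hF.mem b hb) (fun h0 => ?_) fun e he => ?_
    · have := hF.diag b hb
      rw [h0] at this; simp at this
    · intro hce
      exact he (had b hb (by simpa using hcb) e (by simpa using hce))
  obtain ⟨b, hb, hcb⟩ : ∃ b ∈ B, c b ≠ 0 := by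
    by_contra hcon
    push Not at hcon
    exact hne (hF.inj c hc hcon)
  have hun : ∀ b' ∈ B, b' ≠ b → c b' = 0 := by
    intro b' hb' hbb
    by_contra hh
    exact hsup b hb hcb b' hh (hF.off b hb b' hb' hbb)
  have h1 : ∀ z, c z = c b * F b z := by
    intro z
    rw [hF.span_app hc z, Finset.sum_eq_single b]
    · intro b' hb' hbb; rw [hun b' hb' hbb, zero_mul]
    · intro hh; exact absurd hb hh
  by_cases heb : e0 = b
  · subst heb
    exact ⟨B, F, hF, hb, funext h1⟩
  · have he0B : e0 ∉ B := fun hh => he0 (hun e0 hh heb)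
    have hFe : F b e0 ≠ 0 := hsup b hb hcb e0 he0
    refine ⟨_, _, hF.exchange hb he0B hFe, by simp, ?_⟩
    funext z
    rw [Pi.smul_apply, smul_eq_mul, Frame.ex_self, h1 e0, ← mul_assoc, mul_assoc (c b),
      mul_inv_cancel₀ hFe, mul_one]
    exact h1 z

lemma elS_iff [Fintype α] {X : Set α} : ElS C X ↔ ∃ B F b, Frame C B F ∧ b ∈ B ∧
    ∀ e, F b e ≠ 0 ↔ e ∈ X := by
  constructor
  · rintro ⟨c, hc, hX⟩
    have hne := hc.2.1
    obtain ⟨e0, he0⟩ : ∃ e0, c e0 ≠ 0 := by
      by_contra hcon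
      push Not at hcon
      exact hne (funext hcon)
    obtain ⟨B, F, hF, hb, hcF⟩ := hc.frame he0
    refine ⟨B, F, e0, hF, hb, fun e => ?_⟩
    rw [← hX e, hcF]
    simp only [Pi.smul_apply, smul_eq_mul]
    constructor
    · intro h
      exact mul_ne_zero he0 h
    · intro h; exact right_ne_zero_of_mul h
  · rintro ⟨B, F, b, hF, hb, hX⟩
    exact ⟨F b, hF.elem hb, hX⟩

end elem

/-- Chain groups over the group `G`. -/
def GCh (G : Subgroup Q4ˣ) (C : Submodule Q4 (α → Q4)) : Prop :=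
  ∀ c, Elem C c → ∃ k : Q4, ∃ c' ∈ C, (∀ e, c' e = 0 ∨ ∃ u ∈ G, (u : Q4) = c' e) ∧ c = k • c'

variable {C : Submodule Q4 (α → Q4)} {E : Finset α}

/-- The chain group spanned by given rows. -/
def fspan (B : Finset α) (F : α → α → Q4) : Submodule Q4 (α → Q4) where
  carrier := {c | ∀ e, c e = ∑ b ∈ B, c b * F b e}
  add_mem' := by
    intro a b ha hb e
    simp only [Pi.add_apply, add_mul, Finset.sum_add_distrib]
    rw [← ha e, ← hb e]
  zero_mem' := by intro e; simp
  smul_mem' := by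
    intro k c hc e
    simp only [Pi.smul_apply, smul_eq_mul, mul_assoc]
    rw [← Finset.mul_sum, ← hc e]

lemma fspan_frame {B : Finset α} {F : α → α → Q4} (h1 : ∀ b ∈ B, F b b = 1)
    (h0 : ∀ b ∈ B, ∀ b' ∈ B, b' ≠ b → F b b' = 0) : Frame (fspan B F) B F where
  mem := by
    intro b hb e
    rw [Finset.sum_eq_single b]
    · rw [h1 b hb, one_mul]
    · intro b' hb' hne; rw [h0 b hb b' hb' hne, zero_mul]
    · intro hh; exact absurd hb hh
  diag := h1
  off := h0
  inj := by
    intro c hc h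
    funext e
    rw [hc e]
    exact Finset.sum_eq_zero fun b hb => by rw [h b hb, zero_mul]

section transfer

variable {f : Q4 → Q4} {G : Subgroup Q4ˣ}

/-- elements of the ring that are zero or unitary -/
def DU (x : Q4) : Prop := x ∈ DR ∧ (x = 0 ∨ x ∈ unitary Q4)

lemma DU.mul {x y : Q4} (hx : DU x) (hy : DU y) : DU (x * y) := by
  refine ⟨DR.mul_mem hx.1 hy.1, ?_⟩
  rcases hx.2 with h | h
  · left; rw [h, zero_mul]
  · rcases hy.2 with h' | h'
    · left; rw [h', mul_zero]
    · right; exact un_mul h h'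

lemma DU.star {x : Q4} (hx : DU x) : DU (star x) := by
  refine ⟨DR_star hx.1, ?_⟩
  rcases hx.2 with h | h
  · left; rw [h, star_zero]
  · right; exact un_star h

lemma Tr.mul' (hf : Tr f G) {x y : Q4} (hx : DU x) (hy : DU y) : f (x * y) = f x * f y := by
  rcases hx.2 with h | h
  · rw [h, zero_mul, hf.zero, zero_mul]
  · rcases hy.2 with h' | h'
    · rw [h', mul_zero, hf.zero, mul_zero]
    · exact hf.mul x y hx.1 hy.1 h h'

lemma Tr.star' (hf : Tr f G) {x : Q4} (hx : DU x) : f (star x) = star (f x) := by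
  rcases hx.2 with h | h
  · rw [h, star_zero, hf.zero, star_zero]
  · have h1 := hf.mul _ _ (DR_star hx.1) hx.1 (un_star h) h
    rw [un_l h, hf.one] at h1
    have h2 := hf.un x hx.1 h
    have h3 := congrArg (fun z => z * star (f x)) h1
    simp only [mul_assoc, un_r h2, mul_one, one_mul] at h3
    exact h3.symm

lemma Tr.ne (hf : Tr f G) {x : Q4} (hx : DU x) : f x = 0 ↔ x = 0 := by
  constructor
  · intro h
    rcases hx.2 with h' | h'
    · exact h'
    · exact absurd h (un_ne (hf.un x hx.1 h'))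
  · intro h; rw [h, hf.zero]

lemma Tr.sub' (hf : Tr f G) {x y : Q4} (hx : DU x) (hy : DU y) (hxy : DU (x - y)) :
    f (x - y) = f x - f y := by
  rcases hy.2 with h | h
  · rw [h, sub_zero, hf.zero, sub_zero]
  rcases hx.2 with h' | h'
  · rw [h', zero_sub, hf.zero, zero_sub, hf.neg y hy.1 h]
  rcases hxy.2 with h0 | h0
  · rw [sub_eq_zero.1 h0, sub_self, sub_self, hf.zero]
  · -- x - y = x (1 - star x * y)
    set z := star x * y with hz
    have hzU : z ∈ unitary Q4 := un_mul (un_star h') h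
    have hzD : z ∈ DR := DR.mul_mem (DR_star hx.1) hy.1
    have h1 : 1 - z = star x * (x - y) := by rw [mul_sub, un_l h']
    have h1U : 1 - z ∈ unitary Q4 := by rw [h1]; exact un_mul (un_star h') h0
    have h1D : 1 - z ∈ DR := DR.sub_mem DR.one_mem hzD
    have hre := half_re ((un_iff _).1 hzU) ((un_iff _).1 h1U)
    have h2 : x - y = x * (1 - z) := by rw [h1, un_rc h']
    have h3 : y = x * z := by rw [hz, un_rc h']
    rw [h2, hf.mul x _ hx.1 h1D h' h1U, hf.half z hzD hzU hre]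
    conv_rhs => rw [h3]
    rw [hf.mul x z hx.1 hzD h' hzU, mul_sub, mul_one]

variable [Fintype α]

/-- Transfer of a chain group with entries in `DR`. -/
theorem transfer1 (hf : Tr f G) (hQ : QUc C) (hS : Supp C E)
    (hD : ∀ B F, Frame C B F → ∀ b ∈ B, ∀ e, F b e ∈ DR) :
    ∃ C' : Submodule Q4 (α → Q4), Supp C' E ∧
      (∀ B F, Frame C B F → ∃ F', Frame C' B F' ∧ ∀ b ∈ B, ∀ e, F' b e = f (F b e)) ∧
      (∀ B F', Frame C' B F' → ∃ F, Frame C B F ∧ ∀ b ∈ B, ∀ e, F' b e = f (F b e)) := by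
  have hDU : ∀ B F, Frame C B F → ∀ b ∈ B, ∀ e, DU (F b e) := fun B F h b hb e =>
    ⟨hD B F h b hb e, hQ B F h b hb e⟩
  obtain ⟨B0, F0, hF0, -⟩ := exists_frame C E
  have hF0' : Frame (fspan B0 fun b e => f (F0 b e)) B0 (fun b e => f (F0 b e)) :=
    fspan_frame (fun b hb => by rw [hF0.diag b hb, hf.one])
      (fun b hb b' hb' hne => by rw [hF0.off b hb b' hb' hne, hf.zero])
  set C' := fspan B0 fun b e => f (F0 b e) with hC'
  -- exchanges commute with f
  have key : ∀ B F F', Frame C B F → Frame C' B F' → (∀ b ∈ B, ∀ e, F' b e = f (F b e)) →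
      ∀ b ∈ B, ∀ e, e ∉ B → F b e ≠ 0 → ∃ F1 F1', Frame C (insert e (B.erase b)) F1 ∧
        Frame C' (insert e (B.erase b)) F1' ∧
        ∀ z ∈ insert e (B.erase b), ∀ w, F1' z w = f (F1 z w) := by
    intro B F F' h h' heq b hb e he hne
    have hne' : F' b e ≠ 0 := by
      rw [heq b hb e, Ne, hf.ne (hDU B F h b hb e)]; exact hne
    have hex := h.exchange hb he hne
    refine ⟨_, _, hex, h'.exchange hb he hne', fun z hz w => ?_⟩
    have hU : F b e ∈ unitary Q4 := un_of_ne hQ h hb hne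
    have hU' : F' b e ∈ unitary Q4 := by rw [heq b hb e]; exact hf.un _ (hD B F h b hb e) hU
    have d1 := hDU B F h b hb e
    have d2 := hDU B F h b hb w
    by_cases hze : z = e
    · subst hze
      rw [Frame.ex_self, Frame.ex_self, un_inv hU, un_inv hU', hf.mul' d1.star d2,
        hf.star' d1, heq b hb, heq b hb]
    · have hzB : z ∈ B := by
        rcases Finset.mem_insert.1 hz with h3 | h3
        · exact absurd h3 hze
        · exact Finset.mem_of_mem_erase h3
      have d3 := hDU B F h z hzB w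
      have d4 := hDU B F h z hzB e
      have d5 := hDU _ _ hex z hz w
      rw [Frame.ex_ne _ _ _ _ hze, un_inv hU] at d5
      rw [Frame.ex_ne _ _ _ _ hze, Frame.ex_ne _ _ _ _ hze, un_inv hU, un_inv hU',
        hf.sub' d3 ((d4.mul d1.star).mul d2) d5, hf.mul' (d4.mul d1.star) d2,
        hf.mul' d4 d1.star, hf.star' d1, heq z hzB, heq z hzB, heq b hb, heq b hb]
  have hP0 : ∃ F F', Frame C B0 F ∧ Frame C' B0 F' ∧ ∀ b ∈ B0, ∀ e, F' b e = f (F b e) :=
    ⟨F0, _, hF0, hF0', fun b _ e => rfl⟩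
  refine ⟨C', ?_, ?_, ?_⟩
  · intro c hc e he
    rw [hC'] at hc
    rw [hc e]
    exact Finset.sum_eq_zero fun b hb => by
      show c b * f (F0 b e) = 0
      rw [hS _ (hF0.mem b hb) e he, hf.zero, mul_zero]
  · intro B F hF
    have h1 := Frame.induct (C := C) (fun B => ∃ F F', Frame C B F ∧ Frame C' B F' ∧
      ∀ b ∈ B, ∀ e, F' b e = f (F b e)) (by
        rintro B F b e h ⟨F1, F1', k1, k2, k3⟩ hb he hne
        rw [h.uniq' k1 hb |>.symm] at hne
        exact key B F1 F1' k1 k2 k3 b hb e he hne) hF0 hF hP0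
    obtain ⟨F1, F1', k1, k2, k3⟩ := h1
    exact ⟨F1', k2, fun b hb e => by rw [k3 b hb e, hF.uniq' k1 hb]⟩
  · intro B F' hF'
    have h1 := Frame.induct (C := C') (fun B => ∃ F F', Frame C B F ∧ Frame C' B F' ∧
      ∀ b ∈ B, ∀ e, F' b e = f (F b e)) (by
        rintro B F b e h ⟨F1, F1', k1, k2, k3⟩ hb he hne
        rw [h.uniq' k2 hb |>.symm, k3 b hb e, Ne, hf.ne (hDU B F1 k1 b hb e)] at hne
        exact key B F1 F1' k1 k2 k3 b hb e he hne) hF0' hF' hP0
    obtain ⟨F1, F1', k1, k2, k3⟩ := h1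
    exact ⟨F1, k1, fun b hb e => by rw [← k3 b hb e, hF'.uniq' k2 hb |>.symm]⟩

/-- Transfer for conforming chain groups, on the level of supports of elementary chains. -/
theorem transfer (hf : Tr f G) (hQ : QUc C) (hS : Supp C E) {d : α → Q4} (hd : Conf DR d C) :
    ∃ C' : Submodule Q4 (α → Q4), Supp C' E ∧ GCh G C' ∧ ∀ X, ElS C X ↔ ElS C' X := by
  have hQ1 := hQ.scale hd.1
  have hS1 : Supp (C.map (scl d)) E := hS.scale
  have hD : ∀ B F, Frame (C.map (scl d)) B F → ∀ b ∈ B, ∀ e, F b e ∈ DR := by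
    intro B F hF b hb e
    have h2 := hF.scale (d := fun e => star (d e)) fun e => un_star (hd.1 e)
    rw [scl_back C hd.1] at h2
    have h4 := hd.2 _ _ h2 b hb e
    simp only [star_star] at h4
    have h5 : star (d b) * (d b * F b e * star (d e)) * d e = F b e := by
      simp only [mul_assoc, un_l (hd.1 e), mul_one, un_lc (hd.1 b)]
    rwa [h5] at h4
  obtain ⟨C', h1, h2, h3⟩ := transfer1 hf hQ1 hS1 hD
  refine ⟨C', h1, ?_, fun X => ?_⟩
  · intro c hc
    obtain ⟨e0, he0⟩ : ∃ e0, c e0 ≠ 0 := by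
      by_contra hcon
      push Not at hcon
      exact hc.2.1 (funext hcon)
    obtain ⟨B, F', hF', hb, hcF⟩ := hc.frame he0
    obtain ⟨F, hF, heq⟩ := h3 B F' hF'
    refine ⟨c e0, F' e0, hF'.mem e0 hb, fun e => ?_, hcF⟩
    rw [heq e0 hb e]
    rcases hQ1 B F hF e0 hb e with h4 | h4
    · left; rw [h4, hf.zero]
    · right; exact hf.mem _ (hD B F hF e0 hb e) h4
  · rw [elS_iff, elS_iff]
    constructor
    · rintro ⟨B, F, b, hF, hb, hX⟩
      have hF1 := hF.scale hd.1
      obtain ⟨F', hF', heq⟩ := h2 B _ hF1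
      refine ⟨B, F', b, hF', hb, fun e => ?_⟩
      rw [← hX e, heq b hb e, Ne, hf.ne ⟨hD _ _ hF1 b hb e, hQ1 _ _ hF1 b hb e⟩]
      have u1 := un_ne (un_star (hd.1 b))
      have u2 := un_ne (hd.1 e)
      simp [mul_eq_zero, u1, u2, un_ne (hd.1 b)]
    · rintro ⟨B, F', b, hF', hb, hX⟩
      obtain ⟨F, hF, heq⟩ := h3 B F' hF'
      have hF1 := hF.scale (d := fun e => star (d e)) fun e => un_star (hd.1 e)
      rw [scl_back C hd.1] at hF1
      refine ⟨B, _, b, hF1, hb, fun e => ?_⟩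
      rw [← hX e, heq b hb e, Ne, Ne, hf.ne ⟨hD _ _ hF b hb e, hQ1 _ _ hF b hb e⟩]
      have u1 := un_ne (hd.1 b)
      have u2 := un_ne (un_star (hd.1 e))
      simp [mul_eq_zero, u1, u2, un_ne (hd.1 e)]

end transfer

end Pool.Agent.K3h89.QU
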