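import Mathlib
import Pool.Agent.K3h89.QU.Transfer

/-!
# Gluing chain groups over separations
-/

set_option autoImplicit false
set_option linter.unusedSectionVars false
set_option linter.unusedSimpArgs false
set_option linter.unusedVariables false

namespace Pool.Agent.K3h89.QU

open Finset Quaternion

variable {α : Type*} [DecidableEq α]

/-- Value `c` on `X`, value `t` at `y0`. -/
noncomputable def mk1 (X : Finset α) (y0 : α) (c : α → Q4) (t : Q4) : α → Q4 := fun e =>
  if e ∈ X then c e else if e = y0 then t else 0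

lemma mk1_add (X : Finset α) (y0 : α) (c c' : α → Q4) (t t' : Q4) :
    mk1 X y0 (c + c') (t + t') = mk1 X y0 c t + mk1 X y0 c' t' := by
  funext e
  simp only [mk1, Pi.add_apply]
  split_ifs <;> simp

lemma mk1_smul (X : Finset α) (y0 : α) (k : Q4) (c : α → Q4) (t : Q4) :
    mk1 X y0 (k • c) (k * t) = k • mk1 X y0 c t := by
  funext e
  simp only [mk1, Pi.smul_apply, smul_eq_mul]
  split_ifs <;> simp

lemma mk1_zero (X : Finset α) (y0 : α) : mk1 X y0 0 0 = 0 := by
  funext e; simp [mk1]

/-- Gluing along the elements `y0` of the first and `x0` of the second chain group. -/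
noncomputable def glue (X Y : Finset α) (x0 y0 : α) (u : Q4) (C1 C2 : Submodule Q4 (α → Q4)) :
    Submodule Q4 (α → Q4) where
  carrier := {c | (∀ e, e ∉ X → e ∉ Y → c e = 0) ∧
    ∃ a, mk1 X y0 c (a * u) ∈ C1 ∧ mk1 Y x0 c a ∈ C2}
  add_mem' := by
    rintro c c' ⟨h1, a, h2, h3⟩ ⟨k1, b, k2, k3⟩
    refine ⟨fun e he he' => by simp [h1 e he he', k1 e he he'], a + b, ?_, ?_⟩
    · rw [add_mul, mk1_add]; exact C1.add_mem h2 k2
    · rw [mk1_add]; exact C2.add_mem h3 k3
  zero_mem' := ⟨fun e _ _ => rfl, 0, by rw [zero_mul, mk1_zero]; exact C1.zero_mem,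
    by rw [mk1_zero]; exact C2.zero_mem⟩
  smul_mem' := by
    rintro k c ⟨h1, a, h2, h3⟩
    refine ⟨fun e he he' => by simp [h1 e he he'], k * a, ?_, ?_⟩
    · rw [mul_assoc, mk1_smul]; exact C1.smul_mem _ h2
    · rw [mk1_smul]; exact C2.smul_mem _ h3

lemma mem_glue {X Y : Finset α} {x0 y0 : α} {u : Q4} {C1 C2 : Submodule Q4 (α → Q4)}
    {c : α → Q4} : c ∈ glue X Y x0 y0 u C1 C2 ↔ (∀ e, e ∉ X → e ∉ Y → c e = 0) ∧
    ∃ a, mk1 X y0 c (a * u) ∈ C1 ∧ mk1 Y x0 c a ∈ C2 := Iff.rfl

/-- Hypotheses for gluing. -/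
structure GH (X Y : Finset α) (x0 y0 : α) (u : Q4) (C1 C2 : Submodule Q4 (α → Q4)) : Prop where
  disj : ∀ z, z ∈ X → z ∈ Y → False
  hx : x0 ∈ X
  hy : y0 ∈ Y
  hu : u ≠ 0
  s1 : Supp C1 (insert y0 X)
  s2 : Supp C2 (insert x0 Y)
  n1 : ∀ c ∈ C1, (∀ e ∈ X, c e = 0) → c = 0
  n2 : ∀ c ∈ C2, (∀ e ∈ Y, c e = 0) → c = 0

section glue

variable {X Y : Finset α} {x0 y0 : α} {u : Q4} {C1 C2 : Submodule Q4 (α → Q4)}
  (H : GH X Y x0 y0 u C1 C2)
include H

lemma GH.yX : y0 ∉ X := fun h => H.disj _ h H.hy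

lemma GH.xY : x0 ∉ Y := fun h => H.disj _ H.hx h

lemma GH.mem1 {c : α → Q4} (hc : c ∈ C1) (h0 : c y0 = 0) :
    c ∈ glue X Y x0 y0 u C1 C2 ∧ mk1 X y0 c 0 = c := by
  have h1 : mk1 X y0 c 0 = c := by
    funext e
    simp only [mk1]
    split_ifs with h2 h3
    · rfl
    · rw [h3, h0]
    · exact (H.s1 c hc e (by simp [h2, h3])).symm
  refine ⟨⟨fun e he he' => H.s1 c hc e ?_, 0, ?_, ?_⟩, h1⟩
  · simp only [mem_insert, not_or]
    exact ⟨fun hh => he' (hh ▸ H.hy), he⟩
  · rw [zero_mul, h1]; exact hc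
  · have : mk1 Y x0 c 0 = 0 := by
      funext e
      simp only [mk1]
      split_ifs with h2 h3
      · by_cases h3 : e = y0
        · rw [h3, h0]; rfl
        · exact H.s1 c hc e (by
            simp only [mem_insert, not_or]
            exact ⟨h3, fun hh => H.disj _ hh h2⟩)
      · rfl
      · rfl
    rw [this]; exact C2.zero_mem

lemma GH.mem2 {c : α → Q4} (hc : c ∈ C2) (h0 : c x0 = 0) :
    c ∈ glue X Y x0 y0 u C1 C2 ∧ mk1 Y x0 c 0 = c := by
  have h1 : mk1 Y x0 c 0 = c := by
    funext e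
    simp only [mk1]
    split_ifs with h2 h3
    · rfl
    · rw [h3, h0]
    · exact (H.s2 c hc e (by simp [h2, h3])).symm
  refine ⟨⟨fun e he he' => H.s2 c hc e ?_, 0, ?_, ?_⟩, h1⟩
  · simp only [mem_insert, not_or]
    exact ⟨fun hh => he (hh ▸ H.hx), he'⟩
  · have : mk1 X y0 c (0 * u) = 0 := by
      funext e
      simp only [mk1, zero_mul]
      split_ifs with h2 h3
      · by_cases h3 : e = x0
        · rw [h3, h0]; rfl
        · exact H.s2 c hc e (by
            simp only [mem_insert, not_or]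
            exact ⟨h3, fun hh => H.disj _ h2 hh⟩)
      · rfl
      · rfl
    rw [this]; exact C1.zero_mem
  · rw [h1]; exact hc

/-- The union of two chains that agree at the gluing element. -/
lemma GH.join {c1 c2 : α → Q4} (h1 : c1 ∈ C1) (h2 : c2 ∈ C2) (h : c1 y0 = c2 x0 * u) :
    (fun e => if e ∈ X then c1 e else if e ∈ Y then c2 e else 0) ∈
      glue X Y x0 y0 u C1 C2 ∧
    mk1 X y0 (fun e => if e ∈ X then c1 e else if e ∈ Y then c2 e else 0) (c2 x0 * u) = c1 ∧
    mk1 Y x0 (fun e => if e ∈ X then c1 e else if e ∈ Y then c2 e else 0) (c2 x0) = c2 := by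
  have e1 : mk1 X y0 (fun e => if e ∈ X then c1 e else if e ∈ Y then c2 e else 0)
      (c2 x0 * u) = c1 := by
    funext e
    simp only [mk1]
    by_cases hX : e ∈ X
    · simp [hX]
    · by_cases hy : e = y0
      · subst hy; simp [hX, h]
      · simp only [hX, hy, if_false]
        exact (H.s1 c1 h1 e (by simp [hX, hy])).symm
  have e2 : mk1 Y x0 (fun e => if e ∈ X then c1 e else if e ∈ Y then c2 e else 0)
      (c2 x0) = c2 := by
    funext e
    simp only [mk1]
    by_cases hY : e ∈ Y
    · have hX : e ∉ X := fun hh => H.disj _ hh hY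
      simp [hX, hY]
    · by_cases hx : e = x0
      · subst hx; simp [hY]
      · simp only [hY, hx, if_false]
        exact (H.s2 c2 h2 e (by simp [hY, hx])).symm
  refine ⟨⟨fun e he he' => by simp [he, he'], c2 x0, ?_, ?_⟩, e1, e2⟩
  · rw [e1]; exact h1
  · rw [e2]; exact h2

lemma GH.elem_cases {c : α → Q4} (hc : Elem (glue X Y x0 y0 u C1 C2) c) :
    (Elem C1 c ∧ c y0 = 0) ∨ (Elem C2 c ∧ c x0 = 0) ∨
      ∃ a, a ≠ 0 ∧ Elem C1 (mk1 X y0 c (a * u)) ∧ Elem C2 (mk1 Y x0 c a) := by
  obtain ⟨⟨hsup, a, h1, h2⟩, hne, hmin⟩ := hc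
  by_cases ha : a = 0
  · subst ha
    rw [zero_mul] at h1
    -- one of the two parts is nonzero
    have hpart : mk1 X y0 c 0 ≠ 0 ∨ mk1 Y x0 c 0 ≠ 0 := by
      by_contra hcon
      push Not at hcon
      apply hne
      funext e
      by_cases hX : e ∈ X
      · have := congrFun hcon.1 e
        simpa [mk1, hX] using this
      · by_cases hY : e ∈ Y
        · have := congrFun hcon.2 e
          simpa [mk1, hY] using this
        · exact hsup e hX hY
    rcases hpart with hp | hp
    · left
      have m := H.mem1 h1 (by simp [mk1, H.yX])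
      have hs := hmin _ m.1 hp (fun e he => by
        by_cases hX : e ∈ X
        · simpa [mk1, hX] using he
        · simp [mk1, hX] at he)
      have hc1 : mk1 X y0 c 0 = c := by
        funext e
        by_cases hX : e ∈ X
        · simp [mk1, hX]
        · have h3 : mk1 X y0 c 0 e = 0 := by simp [mk1, hX]
          rw [h3]
          by_contra hh
          exact hs e (fun h4 => hh h4.symm) h3
      rw [hc1] at h1
      have hcy : c y0 = 0 := by rw [← hc1]; simp [mk1, H.yX]
      refine ⟨⟨h1, hne, fun c' hc' hne' hsub => ?_⟩, hcy⟩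
      have h0 : c' y0 = 0 := by
        by_contra hh
        exact hsub y0 hh hcy
      exact hmin c' (H.mem1 hc' h0).1 hne' hsub
    · right; left
      have m := H.mem2 h2 (by simp [mk1, H.xY])
      have hs := hmin _ m.1 hp (fun e he => by
        by_cases hY : e ∈ Y
        · simpa [mk1, hY] using he
        · simp [mk1, hY] at he)
      have hc1 : mk1 Y x0 c 0 = c := by
        funext e
        by_cases hY : e ∈ Y
        · simp [mk1, hY]
        · have h3 : mk1 Y x0 c 0 e = 0 := by simp [mk1, hY]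
          rw [h3]
          by_contra hh
          exact hs e (fun h4 => hh h4.symm) h3
      rw [hc1] at h2
      have hcx : c x0 = 0 := by rw [← hc1]; simp [mk1, H.xY]
      refine ⟨⟨h2, hne, fun c' hc' hne' hsub => ?_⟩, hcx⟩
      have h0 : c' x0 = 0 := by
        by_contra hh
        exact hsub x0 hh hcx
      exact hmin c' (H.mem2 hc' h0).1 hne' hsub
  · right; right
    have hau : a * u ≠ 0 := mul_ne_zero ha H.hu
    have p1 : mk1 X y0 c (a * u) y0 = a * u := by simp [mk1, H.yX]
    have p2 : mk1 Y x0 c a x0 = a := by simp [mk1, H.xY]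
    -- both parts are nonzero on their sides
    have q1 : ∃ e ∈ X, c e ≠ 0 := by
      by_contra hcon
      push Not at hcon
      have := H.n1 _ h1 (fun e he => by simp [mk1, he, hcon e he])
      rw [this] at p1; exact hau p1.symm
    have q2 : ∃ e ∈ Y, c e ≠ 0 := by
      by_contra hcon
      push Not at hcon
      have := H.n2 _ h2 (fun e he => by simp [mk1, he, hcon e he])
      rw [this] at p2; exact ha p2.symm
    refine ⟨a, ha, ⟨h1, ?_, ?_⟩, ⟨h2, ?_, ?_⟩⟩
    · intro hh; rw [hh] at p1; exact hau p1.symm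
    · intro c' hc' hne' hsub
      have hsX : ∀ e ∈ X, c' e ≠ 0 → c e ≠ 0 := fun e he h => by
        have := hsub e h; simpa [mk1, he] using this
      by_cases h0 : c' y0 = 0
      · exfalso
        have m := H.mem1 hc' h0
        have hs := hmin c' m.1 hne' (fun e he => by
          by_cases hX : e ∈ X
          · exact hsX e hX he
          · exfalso; apply he
            rw [← m.2]; simp [mk1, hX])
        obtain ⟨e, he, hce⟩ := q2
        apply hs e hce
        rw [← m.2]
        have hX : e ∉ X := fun hh => H.disj _ hh he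
        simp [mk1, hX]
      · set k := a * u * (c' y0)⁻¹ with hk
        have hk0 : k ≠ 0 := mul_ne_zero hau (inv_ne_zero h0)
        have hkc : (k • c') y0 = mk1 Y x0 c a x0 * u := by
          rw [p2, Pi.smul_apply, smul_eq_mul, hk, mul_assoc, inv_mul_cancel₀ h0, mul_one]
        obtain ⟨m1, m2, m3⟩ := H.join (C1.smul_mem k hc') h2 hkc
        obtain ⟨e2, he2, hce2⟩ := q2
        have hne2 : (fun e => if e ∈ X then (k • c') e else if e ∈ Y then mk1 Y x0 c a e
            else 0) ≠ 0 := by
          intro hh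
          have := congrFun hh e2
          have hX : e2 ∉ X := fun hh => H.disj _ hh he2
          simp only [hX, he2, if_true, if_false, mk1] at this
          exact hce2 this
        have hs := hmin _ m1 hne2 (fun e he => by
          by_cases hX : e ∈ X
          · simp only [hX, if_true, Pi.smul_apply, smul_eq_mul] at he
            exact hsX e hX (right_ne_zero_of_mul he)
          · by_cases hY : e ∈ Y
            · simpa [hX, hY, mk1] using he
            · simp [hX, hY] at he)
        intro e he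
        by_cases hX : e ∈ X
        · have hce : c e ≠ 0 := by simpa [mk1, hX] using he
          have := hs e hce
          simp only [hX, if_true, Pi.smul_apply, smul_eq_mul] at this
          exact right_ne_zero_of_mul this
        · by_cases hy : e = y0
          · rw [hy]; exact h0
          · simp [mk1, hX, hy] at he
    · intro hh; rw [hh] at p2; exact ha p2.symm
    · intro c' hc' hne' hsub
      have hsY : ∀ e ∈ Y, c' e ≠ 0 → c e ≠ 0 := fun e he h => by
        have := hsub e h; simpa [mk1, he] using this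
      by_cases h0 : c' x0 = 0
      · exfalso
        have m := H.mem2 hc' h0
        have hs := hmin c' m.1 hne' (fun e he => by
          by_cases hY : e ∈ Y
          · exact hsY e hY he
          · exfalso; apply he
            rw [← m.2]; simp [mk1, hY])
        obtain ⟨e, he, hce⟩ := q1
        apply hs e hce
        rw [← m.2]
        have hY : e ∉ Y := fun hh => H.disj _ he hh
        simp [mk1, hY]
      · set k := a * (c' x0)⁻¹ with hk
        have hk0 : k ≠ 0 := mul_ne_zero ha (inv_ne_zero h0)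
        have hkc : mk1 X y0 c (a * u) y0 = (k • c') x0 * u := by
          rw [p1, Pi.smul_apply, smul_eq_mul, hk, mul_assoc a, inv_mul_cancel₀ h0, mul_one]
        obtain ⟨m1, m2, m3⟩ := H.join h1 (C2.smul_mem k hc') hkc
        obtain ⟨e2, he2, hce2⟩ := q1
        have hne2 : (fun e => if e ∈ X then mk1 X y0 c (a * u) e else if e ∈ Y then (k • c') e
            else 0) ≠ 0 := by
          intro hh
          have := congrFun hh e2
          simp only [he2, if_true, mk1] at this
          exact hce2 this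
        have hs := hmin _ m1 hne2 (fun e he => by
          by_cases hX : e ∈ X
          · simpa [hX, mk1] using he
          · by_cases hY : e ∈ Y
            · simp only [hX, hY, if_true, if_false, Pi.smul_apply, smul_eq_mul] at he
              exact hsY e hY (right_ne_zero_of_mul he)
            · simp [hX, hY] at he)
        intro e he
        by_cases hY : e ∈ Y
        · have hX : e ∉ X := fun hh => H.disj _ hh hY
          have hce : c e ≠ 0 := by simpa [mk1, hY] using he
          have := hs e hce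
          simp only [hX, hY, if_true, if_false, Pi.smul_apply, smul_eq_mul] at this
          exact right_ne_zero_of_mul this
        · by_cases hx : e = x0
          · rw [hx]; exact h0
          · simp [mk1, hY, hx] at he

lemma GH.elem1 {c : α → Q4} (hc : Elem C1 c) (h0 : c y0 = 0) :
    Elem (glue X Y x0 y0 u C1 C2) c := by
  obtain ⟨h1, hne, hmin⟩ := hc
  have m := H.mem1 h1 h0
  refine ⟨m.1, hne, fun c' hc' hne' hsub => ?_⟩
  obtain ⟨hsup, a, k1, k2⟩ := hc'
  have hY : ∀ e ∈ Y, c' e = 0 := by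
    intro e he
    by_contra hh
    apply hsub e hh
    rw [← m.2]
    have hX : e ∉ X := fun hh => H.disj _ hh he
    simp [mk1, hX]
  have h2 := H.n2 _ k2 (fun e he => by simp [mk1, he, hY e he])
  have ha : a = 0 := by
    have := congrFun h2 x0
    simpa [mk1, H.xY] using this
  subst ha
  rw [zero_mul] at k1
  have hc1 : mk1 X y0 c' 0 = c' := by
    funext e
    by_cases hX : e ∈ X
    · simp [mk1, hX]
    · have h3 : mk1 X y0 c' 0 e = 0 := by simp [mk1, hX]
      rw [h3]
      by_cases hY' : e ∈ Y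
      · exact (hY e hY').symm
      · exact (hsup e hX hY').symm
  rw [hc1] at k1
  exact hmin c' k1 hne' hsub

lemma GH.elem2 {c : α → Q4} (hc : Elem C2 c) (h0 : c x0 = 0) :
    Elem (glue X Y x0 y0 u C1 C2) c := by
  obtain ⟨h1, hne, hmin⟩ := hc
  have m := H.mem2 h1 h0
  refine ⟨m.1, hne, fun c' hc' hne' hsub => ?_⟩
  obtain ⟨hsup, a, k1, k2⟩ := hc'
  have hX : ∀ e ∈ X, c' e = 0 := by
    intro e he
    by_contra hh
    apply hsub e hh
    rw [← m.2]
    have hY : e ∉ Y := fun hh => H.disj _ he hh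
    simp [mk1, hY]
  have h2 := H.n1 _ k1 (fun e he => by simp [mk1, he, hX e he])
  have ha : a = 0 := by
    have := congrFun h2 y0
    simp [mk1, H.yX] at this
    exact this.resolve_right H.hu
  subst ha
  have hc1 : mk1 Y x0 c' 0 = c' := by
    funext e
    by_cases hY : e ∈ Y
    · simp [mk1, hY]
    · have h3 : mk1 Y x0 c' 0 e = 0 := by simp [mk1, hY]
      rw [h3]
      by_cases hX' : e ∈ X
      · exact (hX e hX').symm
      · exact (hsup e hX' hY).symm
  rw [hc1] at k2
  exact hmin c' k2 hne' hsub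

lemma GH.elem3 {c1 c2 : α → Q4} (h1 : Elem C1 c1) (h2 : Elem C2 c2) (h0 : c2 x0 ≠ 0)
    (h : c1 y0 = c2 x0 * u) :
    Elem (glue X Y x0 y0 u C1 C2) (fun e => if e ∈ X then c1 e else if e ∈ Y then c2 e else 0) := by
  obtain ⟨m1, m2, m3⟩ := H.join h1.1 h2.1 h
  have h0' : c1 y0 ≠ 0 := by rw [h]; exact mul_ne_zero h0 H.hu
  refine ⟨m1, fun hh => ?_, fun c' hc' hne' hsub => ?_⟩
  · have h3 := H.n2 _ h2.1 (fun e he => by
      have := congrFun hh e
      have hX : e ∉ X := fun hh => H.disj _ hh he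
      simpa [hX, he] using this)
    exact h2.2.1 h3
  · obtain ⟨hsup, a, k1, k2⟩ := hc'
    have s1 : ∀ e, mk1 X y0 c' (a * u) e ≠ 0 → c1 e ≠ 0 := by
      intro e he
      by_cases hX : e ∈ X
      · have := hsub e (by simpa [mk1, hX] using he)
        simpa [hX] using this
      · by_cases hy : e = y0
        · rw [hy]; exact h0'
        · simp [mk1, hX, hy] at he
    have s2 : ∀ e, mk1 Y x0 c' a e ≠ 0 → c2 e ≠ 0 := by
      intro e he
      by_cases hY : e ∈ Y
      · have hX : e ∉ X := fun hh => H.disj _ hh hY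
        have := hsub e (by simpa [mk1, hY] using he)
        simpa [hX, hY] using this
      · by_cases hx : e = x0
        · rw [hx]; exact h0
        · simp [mk1, hY, hx] at he
    have ha : a ≠ 0 := by
      intro ha
      subst ha
      apply hne'
      have z1 : mk1 X y0 c' (0 * u) = 0 := by
        by_contra hh
        have := h1.2.2 _ k1 hh s1 y0 h0'
        simp [mk1, H.yX] at this
      have z2 : mk1 Y x0 c' 0 = 0 := by
        by_contra hh
        have := h2.2.2 _ k2 hh s2 x0 h0
        simp [mk1, H.xY] at this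
      funext e
      by_cases hX : e ∈ X
      · have := congrFun z1 e
        simpa [mk1, hX] using this
      · by_cases hY : e ∈ Y
        · have := congrFun z2 e
          simpa [mk1, hY] using this
        · exact hsup e hX hY
    have t1 := h1.2.2 _ k1 (fun hh => by
      have := congrFun hh y0
      simp [mk1, H.yX] at this
      rcases this with h | h
      · exact ha h
      · exact H.hu h) s1
    have t2 := h2.2.2 _ k2 (fun hh => by
      have := congrFun hh x0
      simp [mk1, H.xY] at this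
      exact ha this) s2
    intro e he
    by_cases hX : e ∈ X
    · have := t1 e (by simpa [hX] using he)
      simpa [mk1, hX] using this
    · by_cases hY : e ∈ Y
      · have := t2 e (by simpa [hX, hY] using he)
        simpa [mk1, hY] using this
      · simp [hX, hY] at he

/-- The supports of the elementary chains of a gluing. -/
lemma GH.elS (S : Set α) : ElS (glue X Y x0 y0 u C1 C2) S ↔ (ElS C1 S ∧ y0 ∉ S) ∨
    (ElS C2 S ∧ x0 ∉ S) ∨ ∃ S1 S2, ElS C1 S1 ∧ y0 ∈ S1 ∧ ElS C2 S2 ∧ x0 ∈ S2 ∧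
      ∀ e, e ∈ S ↔ (e ∈ X ∧ e ∈ S1) ∨ (e ∈ Y ∧ e ∈ S2) := by
  constructor
  · rintro ⟨c, hc, hS⟩
    rcases H.elem_cases hc with ⟨h1, h2⟩ | ⟨h1, h2⟩ | ⟨a, ha, h1, h2⟩
    · exact Or.inl ⟨⟨c, h1, hS⟩, fun hh => (hS y0).2 hh h2⟩
    · exact Or.inr (Or.inl ⟨⟨c, h1, hS⟩, fun hh => (hS x0).2 hh h2⟩)
    · refine Or.inr (Or.inr ⟨{e | mk1 X y0 c (a * u) e ≠ 0}, {e | mk1 Y x0 c a e ≠ 0},
        ⟨_, h1, fun e => Iff.rfl⟩, ?_, ⟨_, h2, fun e => Iff.rfl⟩, ?_, fun e => ?_⟩)
      · show mk1 X y0 c (a * u) y0 ≠ 0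
        simp [mk1, H.yX, ha, H.hu]
      · show mk1 Y x0 c a x0 ≠ 0
        simp [mk1, H.xY, ha]
      · rw [← hS e]
        show c e ≠ 0 ↔ (e ∈ X ∧ mk1 X y0 c (a * u) e ≠ 0) ∨ (e ∈ Y ∧ mk1 Y x0 c a e ≠ 0)
        by_cases hX : e ∈ X
        · have hY : e ∉ Y := fun hh => H.disj _ hX hh
          simp [mk1, hX, hY]
        · by_cases hY : e ∈ Y
          · simp [mk1, hX, hY]
          · simp [hX, hY, hc.1.1 e hX hY]
  · rintro (⟨⟨c, h1, hS⟩, h2⟩ | ⟨⟨c, h1, hS⟩, h2⟩ | ⟨S1, S2, ⟨c1, h1, hS1⟩, hy, ⟨c2, h2, hS2⟩,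
      hx, hS⟩)
    · exact ⟨c, H.elem1 h1 (by by_contra hh; exact h2 ((hS y0).1 hh)), hS⟩
    · exact ⟨c, H.elem2 h1 (by by_contra hh; exact h2 ((hS x0).1 hh)), hS⟩
    · have k1 : c1 y0 ≠ 0 := (hS1 y0).2 hy
      have k2 : c2 x0 ≠ 0 := (hS2 x0).2 hx
      set k := c2 x0 * u * (c1 y0)⁻¹ with hk
      have hk0 : k ≠ 0 := mul_ne_zero (mul_ne_zero k2 H.hu) (inv_ne_zero k1)
      have h1' : Elem C1 (k • c1) := by
        refine ⟨C1.smul_mem _ h1.1, fun hh => ?_, fun c' hc' hne' hsub e he => ?_⟩
        · exact h1.2.1 ((smul_eq_zero.1 hh).resolve_left hk0)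
        · refine h1.2.2 c' hc' hne' (fun e he => ?_) e ?_
          · have := hsub e he
            rw [Pi.smul_apply, smul_eq_mul] at this
            exact right_ne_zero_of_mul this
          · rw [Pi.smul_apply, smul_eq_mul] at he
            exact right_ne_zero_of_mul he
      have heq : (k • c1) y0 = c2 x0 * u := by
        rw [Pi.smul_apply, smul_eq_mul, hk, mul_assoc, inv_mul_cancel₀ k1, mul_one]
      refine ⟨_, H.elem3 h1' h2 k2 heq, fun e => ?_⟩
      rw [hS e]
      by_cases hX : e ∈ X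
      · have hY : e ∉ Y := fun hh => H.disj _ hX hh
        simp [hX, hY, hk0, ← hS1 e]
      · by_cases hY : e ∈ Y
        · simp [hX, hY, ← hS2 e]
        · simp [hX, hY]

end glue

/-- Gluing preserves being a chain group over `G`. -/
lemma GH.gch {X Y : Finset α} {x0 y0 : α} {C1 C2 : Submodule Q4 (α → Q4)}
    (H : GH X Y x0 y0 1 C1 C2) {G : Subgroup Q4ˣ} (g1 : GCh G C1) (g2 : GCh G C2) :
    GCh G (glue X Y x0 y0 1 C1 C2) := by
  intro c hc
  rcases H.elem_cases hc with ⟨h1, h2⟩ | ⟨h1, h2⟩ | ⟨a, ha, h1, h2⟩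
  · obtain ⟨k, c', hc', hp, heq⟩ := g1 c h1
    have hk : k ≠ 0 := by
      intro hh; apply h1.2.1; rw [heq, hh, zero_smul]
    refine ⟨k, c', (H.mem1 hc' ?_).1, hp, heq⟩
    rw [heq, Pi.smul_apply, smul_eq_mul] at h2
    exact (mul_eq_zero.1 h2).resolve_left hk
  · obtain ⟨k, c', hc', hp, heq⟩ := g2 c h1
    have hk : k ≠ 0 := by
      intro hh; apply h1.2.1; rw [heq, hh, zero_smul]
    refine ⟨k, c', (H.mem2 hc' ?_).1, hp, heq⟩
    rw [heq, Pi.smul_apply, smul_eq_mul] at h2
    exact (mul_eq_zero.1 h2).resolve_left hk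
  · obtain ⟨k1, c1, hc1, hp1, heq1⟩ := g1 _ h1
    obtain ⟨k2, c2, hc2, hp2, heq2⟩ := g2 _ h2
    have p1 : a = k1 * c1 y0 := by
      have := congrFun heq1 y0
      simpa [mk1, H.yX] using this
    have p2 : a = k2 * c2 x0 := by
      have := congrFun heq2 x0
      simpa [mk1, H.xY] using this
    have n1 : c1 y0 ≠ 0 := by
      intro hh; rw [hh, mul_zero] at p1; exact ha p1
    have n2 : c2 x0 ≠ 0 := by
      intro hh; rw [hh, mul_zero] at p2; exact ha p2
    obtain ⟨u1, hu1, e1⟩ := (hp1 y0).resolve_left n1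
    obtain ⟨u2, hu2, e2⟩ := (hp2 x0).resolve_left n2
    have i1 : ((u1⁻¹ : Q4ˣ) : Q4) = (c1 y0)⁻¹ := by rw [Units.val_inv_eq_inv_val, e1]
    have i2 : ((u2⁻¹ : Q4ˣ) : Q4) = (c2 x0)⁻¹ := by rw [Units.val_inv_eq_inv_val, e2]
    have hj : ((c1 y0)⁻¹ • c1) y0 = ((c2 x0)⁻¹ • c2) x0 * 1 := by
      rw [Pi.smul_apply, smul_eq_mul, Pi.smul_apply, smul_eq_mul, inv_mul_cancel₀ n1,
        inv_mul_cancel₀ n2, mul_one]
    obtain ⟨m1, -, -⟩ := H.join (C1.smul_mem _ hc1) (C2.smul_mem _ hc2) hj
    refine ⟨a, _, m1, fun e => ?_, ?_⟩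
    · by_cases hX : e ∈ X
      · rw [if_pos hX]
        rcases hp1 e with h3 | ⟨u, hu, h3⟩
        · left; rw [Pi.smul_apply, h3, smul_zero]
        · right
          exact ⟨u1⁻¹ * u, G.mul_mem (G.inv_mem hu1) hu, by
            rw [Units.val_mul, i1, h3, Pi.smul_apply, smul_eq_mul]⟩
      · rw [if_neg hX]
        by_cases hY : e ∈ Y
        · rw [if_pos hY]
          rcases hp2 e with h3 | ⟨u, hu, h3⟩
          · left; rw [Pi.smul_apply, h3, smul_zero]
          · right
            exact ⟨u2⁻¹ * u, G.mul_mem (G.inv_mem hu2) hu, by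
              rw [Units.val_mul, i2, h3, Pi.smul_apply, smul_eq_mul]⟩
        · left; rw [if_neg hY]
    · funext e
      rw [Pi.smul_apply, smul_eq_mul]
      by_cases hX : e ∈ X
      · rw [if_pos hX, Pi.smul_apply, smul_eq_mul, p1, mul_assoc, mul_inv_cancel_left₀ n1]
        have := congrFun heq1 e
        simpa [mk1, hX] using this
      · by_cases hY : e ∈ Y
        · rw [if_neg hX, if_pos hY, Pi.smul_apply, smul_eq_mul, p2, mul_assoc,
            mul_inv_cancel_left₀ n2]
          have := congrFun heq2 e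
          simpa [mk1, hY] using this
        · rw [if_neg hX, if_neg hY, mul_zero]
          exact hc.1.1 e hX hY

end Pool.Agent.K3h89.QU
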