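import Mathlib
import Pool.Agent.K3h89.QU.Glue

/-!
# Decomposition along separations and the representation theorem
-/

set_option autoImplicit false
set_option linter.unusedSectionVars false
set_option linter.unusedSimpArgs false
set_option linter.unusedVariables false

namespace Pool.Agent.K3h89.QU

open Finset Quaternion

variable {α : Type*} [DecidableEq α]

/-- Direct sum. -/
def dsum (X Y : Finset α) (C1 C2 : Submodule Q4 (α → Q4)) : Submodule Q4 (α → Q4) where
  carrier := {c | (∀ e, e ∉ X → e ∉ Y → c e = 0) ∧ res Q4 X c ∈ C1 ∧ res Q4 Y c ∈ C2}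
  add_mem' := by
    rintro c c' ⟨h1, h2, h3⟩ ⟨k1, k2, k3⟩
    refine ⟨fun e he he' => by simp [h1 e he he', k1 e he he'], ?_, ?_⟩
    · rw [map_add]; exact C1.add_mem h2 k2
    · rw [map_add]; exact C2.add_mem h3 k3
  zero_mem' := ⟨fun e _ _ => rfl, by rw [map_zero]; exact C1.zero_mem,
    by rw [map_zero]; exact C2.zero_mem⟩
  smul_mem' := by
    rintro k c ⟨h1, h2, h3⟩
    refine ⟨fun e he he' => by simp [h1 e he he'], ?_, ?_⟩
    · rw [map_smul]; exact C1.smul_mem _ h2
    · rw [map_smul]; exact C2.smul_mem _ h3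

section ds

variable {X Y : Finset α} {C1 C2 : Submodule Q4 (α → Q4)}

lemma res_self {X : Finset α} {C1 : Submodule Q4 (α → Q4)} (h1 : Supp C1 X) {c : α → Q4}
    (hc : c ∈ C1) : res Q4 X c = c := by
  funext e
  rw [res_apply]
  split_ifs with h
  · rfl
  · exact (h1 c hc e h).symm

lemma dsum_mem1 (hd : ∀ z, z ∈ X → z ∈ Y → False) (h1 : Supp C1 X) {c : α → Q4} (hc : c ∈ C1) :
    c ∈ dsum X Y C1 C2 := by
  refine ⟨fun e he _ => h1 c hc e he, ?_, ?_⟩
  · rw [res_self h1 hc]; exact hc
  · have : res Q4 Y c = 0 := by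
      funext e
      rw [res_apply]
      split_ifs with h
      · exact h1 c hc e (fun hh => hd _ hh h)
      · rfl
    rw [this]; exact C2.zero_mem

lemma dsum_mem2 (hd : ∀ z, z ∈ X → z ∈ Y → False) (h2 : Supp C2 Y) {c : α → Q4} (hc : c ∈ C2) :
    c ∈ dsum X Y C1 C2 := by
  refine ⟨fun e _ he => h2 c hc e he, ?_, ?_⟩
  · have : res Q4 X c = 0 := by
      funext e
      rw [res_apply]
      split_ifs with h
      · exact h2 c hc e (fun hh => hd _ h hh)
      · rfl
    rw [this]; exact C1.zero_mem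
  · rw [res_self h2 hc]; exact hc

lemma dsum_cases (hd : ∀ z, z ∈ X → z ∈ Y → False) (h1 : Supp C1 X) (h2 : Supp C2 Y)
    {c : α → Q4} (hc : Elem (dsum X Y C1 C2) c) : Elem C1 c ∨ Elem C2 c := by
  obtain ⟨⟨hsup, k1, k2⟩, hne, hmin⟩ := hc
  have hpart : res Q4 X c ≠ 0 ∨ res Q4 Y c ≠ 0 := by
    by_contra hcon
    push Not at hcon
    apply hne
    funext e
    by_cases hX : e ∈ X
    · have := congrFun hcon.1 e
      simpa [res_apply, hX] using this
    · by_cases hY : e ∈ Y
      · have := congrFun hcon.2 e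
        simpa [res_apply, hY] using this
      · exact hsup e hX hY
  rcases hpart with hp | hp
  · left
    have hs := hmin _ (dsum_mem1 hd h1 k1) hp (fun e he => by
      by_cases hX : e ∈ X
      · simpa [res_apply, hX] using he
      · simp [res_apply, hX] at he)
    have hc1 : res Q4 X c = c := by
      funext e
      by_cases hX : e ∈ X
      · simp [res_apply, hX]
      · have h3 : res Q4 X c e = 0 := by simp [res_apply, hX]
        rw [h3]
        by_contra hh
        exact hs e (fun h4 => hh h4.symm) h3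
    rw [hc1] at k1
    exact ⟨k1, hne, fun c' hc' => hmin c' (dsum_mem1 hd h1 hc')⟩
  · right
    have hs := hmin _ (dsum_mem2 hd h2 k2) hp (fun e he => by
      by_cases hY : e ∈ Y
      · simpa [res_apply, hY] using he
      · simp [res_apply, hY] at he)
    have hc1 : res Q4 Y c = c := by
      funext e
      by_cases hY : e ∈ Y
      · simp [res_apply, hY]
      · have h3 : res Q4 Y c e = 0 := by simp [res_apply, hY]
        rw [h3]
        by_contra hh
        exact hs e (fun h4 => hh h4.symm) h3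
    rw [hc1] at k2
    exact ⟨k2, hne, fun c' hc' => hmin c' (dsum_mem2 hd h2 hc')⟩

lemma dsum_elS (hd : ∀ z, z ∈ X → z ∈ Y → False) (h1 : Supp C1 X) (h2 : Supp C2 Y) (S : Set α) :
    ElS (dsum X Y C1 C2) S ↔ ElS C1 S ∨ ElS C2 S := by
  constructor
  · rintro ⟨c, hc, hS⟩
    rcases dsum_cases hd h1 h2 hc with h | h
    · exact Or.inl ⟨c, h, hS⟩
    · exact Or.inr ⟨c, h, hS⟩
  · rintro (⟨c, hc, hS⟩ | ⟨c, hc, hS⟩)
    · refine ⟨c, ⟨dsum_mem1 hd h1 hc.1, hc.2.1, fun c' hc' hne' hsub => ?_⟩, hS⟩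
      have hc1 : res Q4 X c' = c' := by
        funext e
        rw [res_apply]
        split_ifs with h
        · rfl
        · by_contra hh
          exact hsub e (fun h4 => hh h4.symm) (h1 c hc.1 e h)
      have := hc'.2.1
      rw [hc1] at this
      exact hc.2.2 c' this hne' hsub
    · refine ⟨c, ⟨dsum_mem2 hd h2 hc.1, hc.2.1, fun c' hc' hne' hsub => ?_⟩, hS⟩
      have hc1 : res Q4 Y c' = c' := by
        funext e
        rw [res_apply]
        split_ifs with h
        · rfl
        · by_contra hh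
          exact hsub e (fun h4 => hh h4.symm) (h2 c hc.1 e h)
      have := hc'.2.2
      rw [hc1] at this
      exact hc.2.2 c' this hne' hsub

lemma dsum_gch (hd : ∀ z, z ∈ X → z ∈ Y → False) (h1 : Supp C1 X) (h2 : Supp C2 Y)
    {G : Subgroup Q4ˣ} (g1 : GCh G C1) (g2 : GCh G C2) : GCh G (dsum X Y C1 C2) := by
  intro c hc
  rcases dsum_cases hd h1 h2 hc with h | h
  · obtain ⟨k, c', hc', hp, heq⟩ := g1 c h
    exact ⟨k, c', dsum_mem1 hd h1 hc', hp, heq⟩
  · obtain ⟨k, c', hc', hp, heq⟩ := g2 c h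
    exact ⟨k, c', dsum_mem2 hd h2 hc', hp, heq⟩

end ds

variable [Fintype α] {C : Submodule Q4 (α → Q4)} {E X Y B : Finset α} {F : α → α → Q4}

lemma adapted_of_rk (hF : Frame C B F) (h : rk C Y ≤ (B ∩ Y).card) :
    ∀ b ∈ B, b ∉ Y → ∀ e ∈ Y, F b e = 0 := by
  intro b hb hbY e he
  by_contra hne
  have heB : e ∉ B := by
    intro hh
    exact hne (hF.off b hb e hh (fun h2 => hbY (h2 ▸ he)))
  have h1 := (hF.exchange hb heB hne).rk_sub (T := insert e (B ∩ Y)) (by
    intro z hz
    simp only [mem_insert, mem_inter, mem_erase] at hz ⊢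
    rcases hz with rfl | ⟨hz, hz'⟩
    · exact Or.inl rfl
    · exact Or.inr ⟨fun h2 => hbY (h2 ▸ hz'), hz⟩)
  rw [Finset.card_insert_of_notMem (by simp [heB])] at h1
  have h2 := (isRank_rk C).mm (X := insert e (B ∩ Y)) (Y := Y) (by
    intro z hz
    simp only [mem_insert, mem_inter] at hz
    rcases hz with rfl | ⟨_, hz'⟩
    · exact he
    · exact hz')
  omega

/-- Decomposition into a direct sum. -/
lemma eq_dsum (hS : Supp C E) (hP : Prt X Y E) (hr : rk C X + rk C Y ≤ rk C E) :
    C = dsum X Y (C.map (res Q4 X)) (C.map (res Q4 Y)) := by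
  have hle : C ≤ dsum X Y (C.map (res Q4 X)) (C.map (res Q4 Y)) := by
    intro c hc
    refine ⟨fun e h1 h2 => hS c hc e fun he => ?_, Submodule.mem_map_of_mem hc,
      Submodule.mem_map_of_mem hc⟩
    rcases (hP.1 e).1 he with h | h
    · exact h1 h
    · exact h2 h
  refine Submodule.eq_of_le_of_finrank_le hle ?_
  have h1 : dsum X Y (C.map (res Q4 X)) (C.map (res Q4 Y)) ≤
      C.map (res Q4 X) ⊔ C.map (res Q4 Y) := by
    rintro c ⟨h1, h2, h3⟩
    rw [Submodule.mem_sup]
    refine ⟨_, h2, _, h3, ?_⟩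
    funext e
    rw [Pi.add_apply, res_apply, res_apply]
    by_cases hX : e ∈ X
    · have hY : e ∉ Y := fun hh => hP.2 e hX hh
      simp [hX, hY]
    · by_cases hY : e ∈ Y
      · simp [hX, hY]
      · simp [hX, hY, h1 e hX hY]
  have h2 := Submodule.finrank_mono h1
  have h3 := Submodule.finrank_add_le_finrank_add_finrank (C.map (res Q4 X)) (C.map (res Q4 Y))
  rw [rk_add_map, rk_add_map] at h3
  rw [hS.rk_full] at hr
  omega

/-- Decomposition along a 2-separation. -/
lemma eq_glue (hS : Supp C E) (hP : Prt X Y E) (hr : rk C X + rk C Y = rk C E + 1) :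
    ∃ x0 y0 u T1 T2, GH X Y x0 y0 u ((C ⊓ Zr Q4 T1).map (res Q4 (insert y0 X)))
      ((C ⊓ Zr Q4 T2).map (res Q4 (insert x0 Y))) ∧
      C = glue X Y x0 y0 u ((C ⊓ Zr Q4 T1).map (res Q4 (insert y0 X)))
        ((C ⊓ Zr Q4 T2).map (res Q4 (insert x0 Y))) := by
  obtain ⟨B, F, hF, had⟩ := exists_frame C X
  have hBE := hS.sub hF
  have hcB := hS.card hF
  have hrX := hF.rk_eq had
  have hsplit := hP.split hBE
  have hBY : ∀ b ∈ B, b ∉ X → b ∈ Y := fun b hb hbX => by
    rcases (hP.1 b).1 (hBE hb) with h | h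
    · exact absurd h hbX
    · exact h
  obtain ⟨x0, hx0B, hx0X, y0, hy0, hne⟩ : ∃ x0 ∈ B, x0 ∈ X ∧ ∃ y0 ∈ Y, F x0 y0 ≠ 0 := by
    by_contra hcon
    push Not at hcon
    have h1 := hF.rk_eq (X := Y) (fun b hb hbY e he => by
      by_cases hbX : b ∈ X
      · exact hcon b hb hbX e he
      · exact absurd (hBY b hb hbX) hbY)
    omega
  have hx0Y : x0 ∉ Y := fun hh => hP.2 x0 hx0X hh
  have hy0X : y0 ∉ X := fun hh => hP.2 y0 hh hy0
  have hy0B : y0 ∉ B := by
    intro hh
    exact hne (hF.off x0 hx0B y0 hh (fun h2 => hx0Y (h2 ▸ hy0)))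
  set u := F x0 y0 with hu
  -- the rank-one block
  have hone : ∀ b ∈ B, b ∈ X → ∀ e ∈ Y, F b e = F b y0 * u⁻¹ * F x0 e := by
    intro b hb hbX e he
    by_cases hb0 : b = x0
    · subst hb0; rw [← hu, mul_inv_cancel₀ hne, one_mul]
    have hex := hF.exchange hx0B hy0B hne
    have h1 := adapted_of_rk (Y := Y) hex (by
      have h2 : insert y0 (B.erase x0) ∩ Y = insert y0 (B ∩ Y) := by
        ext z
        simp only [mem_inter, mem_insert, mem_erase]
        constructor
        · rintro ⟨rfl | ⟨h3, h4⟩, h5⟩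
          · exact Or.inl rfl
          · exact Or.inr ⟨h4, h5⟩
        · rintro (rfl | ⟨h3, h4⟩)
          · exact ⟨Or.inl rfl, hy0⟩
          · exact ⟨Or.inr ⟨fun h5 => hx0Y (h5 ▸ h4), h3⟩, h4⟩
      rw [h2, Finset.card_insert_of_notMem (by simp [hy0B])]
      omega) b (by simp [hb, hb0]) (fun hh => hP.2 b hbX hh) e he
    rw [Frame.ex_ne _ _ _ _ (show b ≠ y0 from fun hh => hy0B (hh ▸ hb))] at h1
    exact sub_eq_zero.1 h1
  have hspX : ∀ c ∈ C, ∀ e ∈ X, c e = ∑ b ∈ B ∩ X, c b * F b e := by
    intro c hc e he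
    rw [hF.span_app hc e, ← Finset.sum_inter_add_sum_sdiff B X]
    have : ∑ b ∈ B \ X, c b * F b e = 0 := Finset.sum_eq_zero fun b hb => by
      rw [mem_sdiff] at hb
      rw [had b hb.1 hb.2 e he, mul_zero]
    rw [this, add_zero]
  -- partial sums
  have hw : ∀ c : α → Q4, ∃ w ∈ C, (∀ b ∈ B \ X, w b = 0) ∧ (∀ b ∈ B ∩ X, w b = c b) ∧
      (∀ e ∈ Y, w e = w y0 * u⁻¹ * F x0 e) := by
    intro c
    refine ⟨∑ b ∈ B ∩ X, c b • F b, C.sum_mem fun b hb => C.smul_mem _
      (hF.mem b (mem_inter.1 hb).1), ?_, ?_, ?_⟩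
    · intro b hb
      rw [mem_sdiff] at hb
      rw [Finset.sum_apply]
      refine Finset.sum_eq_zero fun b' hb' => ?_
      rw [mem_inter] at hb'
      rw [Pi.smul_apply, hF.off b' hb'.1 b hb.1 (fun h => hb.2 (h ▸ hb'.2)), smul_zero]
    · intro b hb
      rw [Finset.sum_apply, Finset.sum_eq_single b]
      · rw [Pi.smul_apply, hF.diag b (mem_inter.1 hb).1, smul_eq_mul, mul_one]
      · intro b' hb' hbb
        rw [Pi.smul_apply, hF.off b' (mem_inter.1 hb').1 b (mem_inter.1 hb).1 (Ne.symm hbb),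
          smul_zero]
      · intro hh; exact absurd hb hh
    · intro e he
      rw [Finset.sum_apply, Finset.sum_apply, Finset.sum_mul, Finset.sum_mul]
      refine Finset.sum_congr rfl fun b hb => ?_
      rw [mem_inter] at hb
      rw [Pi.smul_apply, Pi.smul_apply, hone b hb.1 hb.2 e he, smul_eq_mul, smul_eq_mul]
      simp only [mul_assoc]
  have heqX : ∀ c c' : α → Q4, c ∈ C → c' ∈ C → (∀ b ∈ B ∩ X, c b = c' b) →
      ∀ e ∈ X, c e = c' e := by
    intro c c' hc hc' h e he
    rw [hspX c hc e he, hspX c' hc' e he]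
    exact Finset.sum_congr rfl fun b hb => by rw [h b hb]
  set T1 := B \ X with hT1
  set T2 := (B ∩ X).erase x0 with hT2
  have hFx0 : F x0 ∈ C := hF.mem x0 hx0B
  refine ⟨x0, y0, u, T1, T2, ⟨hP.2, hx0X, hy0, hne, supp_res _ _, supp_res _ _, ?_, ?_⟩, ?_⟩
  · rintro c ⟨w, ⟨hw1, hw2⟩, rfl⟩ h0
    rw [hF.inj w hw1 fun b hb => by
      by_cases hbX : b ∈ X
      · have := h0 b hbX
        rwa [res_apply, if_pos (by simp [hbX])] at this
      · exact hw2 b (by simp [hT1, hb, hbX])]
    exact map_zero _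
  · rintro c ⟨z, ⟨hz1, hz2⟩, rfl⟩ h0
    have hzY : ∀ e ∈ Y, z e = 0 := fun e he => by
      have := h0 e he
      rwa [res_apply, if_pos (by simp [he])] at this
    have hzx : z x0 = 0 := by
      have h1 := hF.span_app hz1 y0
      rw [hzY y0 hy0, Finset.sum_eq_single x0] at h1
      · rcases mul_eq_zero.1 h1.symm with h2 | h2
        · exact h2
        · exact absurd h2 hne
      · intro b hb hbx
        have : z b = 0 := by
          by_cases hbX : b ∈ X
          · exact hz2 b (by simp [hT2, hb, hbX, hbx])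
          · exact hzY b (hBY b hb hbX)
        rw [this, zero_mul]
      · intro hh; exact absurd hx0B hh
    rw [hF.inj z hz1 fun b hb => by
      by_cases hbx : b = x0
      · rw [hbx]; exact hzx
      · by_cases hbX : b ∈ X
        · exact hz2 b (by simp [hT2, hb, hbX, hbx])
        · exact hzY b (hBY b hb hbX)]
    exact map_zero _
  · ext c
    rw [mem_glue]
    constructor
    · intro hc
      obtain ⟨w, hwC, hw0, hwb, hwY⟩ := hw c
      have hwX : ∀ e ∈ X, w e = c e := heqX w c hwC hc hwb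
      refine ⟨fun e h1 h2 => hS c hc e fun he => ?_, w y0 * u⁻¹, ?_, ?_⟩
      · rcases (hP.1 e).1 he with h | h
        · exact h1 h
        · exact h2 h
      · refine ⟨w, ⟨hwC, fun e he => hw0 e he⟩, ?_⟩
        funext e
        rw [res_apply, mul_assoc, inv_mul_cancel₀ hne, mul_one]
        unfold mk1
        by_cases hX : e ∈ X
        · simp [hX, hwX e hX]
        · by_cases hy : e = y0
          · subst hy; simp [hX]
          · simp [hX, hy]
      · refine ⟨c - w + (w y0 * u⁻¹) • F x0, ⟨C.add_mem (C.sub_mem hc hwC)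
          (C.smul_mem _ hFx0), fun e he => ?_⟩, ?_⟩
        · rw [hT2, mem_erase, mem_inter] at he
          simp only [Pi.add_apply, Pi.sub_apply, Pi.smul_apply, smul_eq_mul]
          rw [hwX e he.2.2, hF.off x0 hx0B e he.2.1 he.1]; simp
        · funext e
          rw [res_apply]
          unfold mk1
          simp only [Pi.add_apply, Pi.sub_apply, Pi.smul_apply, smul_eq_mul]
          by_cases hY : e ∈ Y
          · have := hwY e hY
            simp only [mem_insert, hY, or_true, if_true]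
            rw [← this]; simp
          · by_cases hx : e = x0
            · subst hx
              simp only [mem_insert, hY, true_or, if_true, if_false]
              rw [hwX e hx0X, hF.diag e hx0B]; simp
            · simp [hY, hx]
    · rintro ⟨hsup, a, ⟨w, ⟨hwC, hw0⟩, hw1⟩, ⟨z, ⟨hzC, hz0⟩, hz1⟩⟩
      have wX : ∀ e ∈ X, w e = c e := fun e he => by
        have := congrFun hw1 e
        simpa [res_apply, mk1, he] using this
      have wy : w y0 = a * u := by
        have := congrFun hw1 y0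
        simpa [res_apply, mk1, hy0X] using this
      have zY : ∀ e ∈ Y, z e = c e := fun e he => by
        have := congrFun hz1 e
        simpa [res_apply, mk1, he] using this
      have zx : z x0 = a := by
        have := congrFun hz1 x0
        simpa [res_apply, mk1, hx0Y] using this
      -- w is given by the formula on Y
      obtain ⟨w', hwC', hw0', hwb', hwY'⟩ := hw w
      have hww : w = w' := by
        have h1 := hF.inj (w - w') (C.sub_mem hwC hwC') fun b hb => by
          rw [Pi.sub_apply]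
          by_cases hbX : b ∈ X
          · rw [hwb' b (by simp [hb, hbX]), sub_self]
          · have h2 : w b = 0 := hw0 b (by simp [hT1, hb, hbX])
            rw [h2, hw0' b (by simp [hT1, hb, hbX]), sub_self]
        exact sub_eq_zero.1 h1
      rw [← hww] at hwY'
      -- z on X
      have zX : ∀ e ∈ X, z e = a * F x0 e := by
        intro e he
        have h1 := heqX z (a • F x0) hzC (C.smul_mem _ hFx0) (fun b hb => by
          rw [mem_inter] at hb
          rw [Pi.smul_apply, smul_eq_mul]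
          by_cases hbx : b = x0
          · rw [hbx, zx, hF.diag x0 hx0B, mul_one]
          · have h2 : z b = 0 := hz0 b (by simp [hT2, hb, hbx])
            rw [h2, hF.off x0 hx0B b hb.1 hbx, mul_zero]) e he
        rw [h1]; rfl
      have hcc : c = w + z - a • F x0 := by
        funext e
        simp only [Pi.add_apply, Pi.sub_apply, Pi.smul_apply, smul_eq_mul]
        by_cases hX : e ∈ X
        · rw [wX e hX, zX e hX]; abel
        · by_cases hY : e ∈ Y
          · rw [hwY' e hY, zY e hY, wy, mul_assoc a, mul_inv_cancel₀ hne, mul_one]; abel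
          · have heE : e ∉ E := by
              intro he
              rcases (hP.1 e).1 he with h | h
              · exact hX h
              · exact hY h
            rw [hsup e hX hY, hS w hwC e heE, hS z hzC e heE, hS _ hFx0 e heE]; simp
      rw [hcc]
      exact C.sub_mem (C.add_mem hwC hzC) (C.smul_mem _ hFx0)

lemma n_of_elS {C1 C1' : Submodule Q4 (α → Q4)} {X : Finset α} {y0 : α} (hy : y0 ∉ X)
    (hs : Supp C1' (insert y0 X)) (h : ∀ S, ElS C1 S ↔ ElS C1' S)
    (n1 : ∀ c ∈ C1, (∀ e ∈ X, c e = 0) → c = 0) :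
    ∀ c ∈ C1', (∀ e ∈ X, c e = 0) → c = 0 := by
  intro c hc h0
  by_contra hne
  have hsup : ∀ e, c e ≠ 0 → e = y0 := by
    intro e he
    by_contra hh
    by_cases hX : e ∈ X
    · exact he (h0 e hX)
    · exact he (hs c hc e (by simp [hh, hX]))
  have hy0 : c y0 ≠ 0 := by
    intro hh
    apply hne
    funext e
    by_contra h1
    exact h1 (by rw [hsup e h1]; exact hh)
  have h1 : ElS C1' {y0} := by
    refine ⟨c, ⟨hc, hne, fun c' hc' hne' hsub e he => ?_⟩, fun e => ?_⟩
    · rw [hsup e he]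
      intro hh
      apply hne'
      funext z
      by_contra h2
      exact h2 (by rw [hsup z (hsub z h2)]; exact hh)
    · rw [Set.mem_singleton_iff]
      exact ⟨hsup e, fun hh => hh ▸ hy0⟩
  rw [← h] at h1
  obtain ⟨c1, hc1, h2⟩ := h1
  have h3 := n1 c1 hc1.1 (fun e he => by
    by_contra h4
    have := (h2 e).1 h4
    rw [Set.mem_singleton_iff] at this
    exact hy (this ▸ he))
  exact hc1.2.1 h3

/-- The representation theorem on the level of chain groups. -/
theorem represent {f : Q4 → Q4} {G : Subgroup Q4ˣ} (hf : Tr f G) :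
    ∀ (m : ℕ) (C : Submodule Q4 (α → Q4)) (E : Finset α), E.card = m → QUc C → Supp C E →
      ∃ C' : Submodule Q4 (α → Q4), Supp C' E ∧ GCh G C' ∧ ∀ S, ElS C S ↔ ElS C' S := by
  intro m
  induction m using Nat.strong_induction_on with
  | _ m ih =>
  intro C E hm hQ hS
  have hr := isRank_rk C
  by_cases hcn : Cn (rk C) E
  swap
  · unfold Cn at hcn
    push Not at hcn
    obtain ⟨X, Y, hP, hX, hY, hl⟩ := hcn
    have hc := hP.card
    have hX' := Finset.card_pos.2 hX
    have hY' := Finset.card_pos.2 hY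
    obtain ⟨C1, s1, g1, e1⟩ := ih X.card (by omega) _ X rfl (hQ.res X) (supp_res C X)
    obtain ⟨C2, s2, g2, e2⟩ := ih Y.card (by omega) _ Y rfl (hQ.res Y) (supp_res C Y)
    refine ⟨dsum X Y C1 C2, ?_, dsum_gch hP.2 s1 s2 g1 g2, fun S => ?_⟩
    · intro c hc e he
      exact hc.1 e (fun h => he (hP.subL h)) (fun h => he (hP.subR h))
    · conv_lhs => rw [eq_dsum hS hP (by omega)]
      rw [dsum_elS hP.2 (supp_res C X) (supp_res C Y), dsum_elS hP.2 s1 s2, e1, e2]
  by_cases hT2 : T2 (rk C) E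
  swap
  · unfold T2 at hT2
    push Not at hT2
    obtain ⟨X, Y, hP, hX, hY, hl⟩ := hT2
    have hc := hP.card
    have hcn' := hcn X Y hP (Finset.card_pos.1 (by omega)) (Finset.card_pos.1 (by omega))
    obtain ⟨x0, y0, u, T1, T2, H, heq⟩ := eq_glue hS hP (by omega)
    have c1 := Finset.card_insert_of_notMem H.yX
    have c2 := Finset.card_insert_of_notMem H.xY
    obtain ⟨C1, s1, g1, e1⟩ := ih (insert y0 X).card (by omega) _ _ rfl ((hQ.inf T1).res _)
      (supp_res _ _)
    obtain ⟨C2, s2, g2, e2⟩ := ih (insert x0 Y).card (by omega) _ _ rfl ((hQ.inf T2).res _)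
      (supp_res _ _)
    have H' : GH X Y x0 y0 1 C1 C2 := ⟨H.disj, H.hx, H.hy, one_ne_zero, s1, s2,
      n_of_elS H.yX s1 e1 H.n1, n_of_elS H.xY s2 e2 H.n2⟩
    refine ⟨glue X Y x0 y0 1 C1 C2, ?_, H'.gch g1 g2, fun S => ?_⟩
    · intro c hc e he
      exact hc.1 e (fun h => he (hP.subL h)) (fun h => he (hP.subR h))
    · conv_lhs => rw [heq]
      rw [H.elS, H'.elS]
      simp only [e1, e2]
  obtain ⟨d, hd⟩ := all_conf hQ hS ⟨hcn, hT2⟩
  exact transfer hf hQ hS hd

end Pool.Agent.K3h89.QU
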