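import Pool.Agent.K3h89.QU.Dual

/-!
# Long lines through a contractible element

If the simplification of the contraction of `x` is 3-connected, but the contraction of `x` is not,
then there are two elements `p`, `q` on long lines through `x` such that the cosimplifications of
the deletions of `p` and of `q` are 3-connected, and `x`, `p`, `q` is not a triad.
-/

set_option autoImplicit false
set_option linter.unusedSectionVars false

namespace Pool.Agent.K3h89.QU

open Finset

variable {α : Type*} [DecidableEq α] {r : Finset α → ℕ} {E : Finset α} {x : α}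

lemma TC.t2c (h : TC r E) {Z : Finset α} (hZ : Z ⊆ E) (h1 : 2 ≤ Z.card)
    (h2 : 2 ≤ (E \ Z).card) : r E + 2 ≤ r Z + r (E \ Z) := h.2 _ _ (Prt.sdiff hZ) h1 h2

lemma card_two_le {X : Finset α} {a b : α} (ha : a ∈ X) (hb : b ∈ X) (hab : a ≠ b) :
    2 ≤ X.card := by
  rw [← Finset.card_pair hab]
  exact Finset.card_le_card (by intro z hz; simp at hz; rcases hz with rfl | rfl <;> assumption)

/-- `c` lies on a line through `x` with at least three points. -/
def Lng (r : Finset α → ℕ) (E : Finset α) (x c : α) : Prop :=
  c ∈ E ∧ c ≠ x ∧ ∃ c' ∈ E, c' ≠ x ∧ c' ≠ c ∧ r {x, c, c'} ≤ 2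

/-- The exceptional structure that makes the deletion of `c` bad. -/
def Exc (r : Finset α → ℕ) (E : Finset α) (x c : α) (U : Finset α) : Prop :=
  (∀ z ∈ U, z ∈ E ∧ z ≠ x ∧ z ≠ c) ∧ 2 ≤ U.card ∧ r (insert x U) ≤ 2 ∧
    r (E \ insert x (insert c U)) + 1 ≤ r E

/-- No two lines through `x` cover all but one of the other elements. -/
def Qc (r : Finset α → ℕ) (E : Finset α) (x : α) : Prop :=
  ∀ X Y, (∀ z ∈ X, z ∈ E ∧ z ≠ x) → (∀ z ∈ Y, z ∈ E ∧ z ≠ x) → r (insert x X) ≤ 2 →
    r (insert x Y) ≤ 2 → 2 ≤ (E \ insert x (X ∪ Y)).card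

lemma HasU.qc {k n : ℕ} (hr : IsRank r) (h : TC r E) (h4 : 4 ≤ E.card) (hx : x ∈ E)
    (hk : 2 ≤ k) (hn : k + 2 ≤ n) (hU : HasU (ctr r x) (E.erase x) k n) : Qc r E x := by
  obtain ⟨T, S, hT, hS, hd, hc, hrk⟩ := hU
  have key : ∀ X, (∀ z ∈ X, z ∈ E ∧ z ≠ x) → r (insert x X) ≤ 2 → (S ∩ X).card ≤ 1 := by
    intro X hX hrX
    by_contra hh
    push Not at hh
    obtain ⟨a, ha, b, hb, hab⟩ := Finset.one_lt_card.1 hh
    simp only [mem_inter] at ha hb
    have h1 := hrk {a} (by simpa using ha.1)
    have h2 := hrk {a, b} (by intro z hz; simp at hz; rcases hz with rfl | rfl <;> tauto)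
    rw [Finset.card_singleton] at h1
    rw [Finset.card_pair hab] at h2
    have h3 := h.pair hr h4 hx (hX a ha.2).1 (hX a ha.2).2.symm
    have h5 : r {x, a, b} ≤ 2 := le_trans (hr.mm (by
      intro z hz; simp at hz; rcases hz with rfl | rfl | rfl <;> simp [ha.2, hb.2])) hrX
    have h6 := hr.sm (X := insert x ({a} ∪ T)) (Y := {x, a, b}) (U := insert x ({a, b} ∪ T))
      (I := {x, a}) (by grind) (by grind)
    unfold ctr at h1 h2
    have h7 := hr.mm (X := {x}) (Y := insert x T) (by grind)
    have h8 := hr.mm (X := {x}) (Y := insert x ({a} ∪ T)) (by grind)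
    have h9 := hr.mm (X := {x}) (Y := insert x ({a, b} ∪ T)) (by grind)
    omega
  intro X Y hX hY hrX hrY
  have h1 := key X hX hrX
  have h2 := key Y hY hrY
  have h3 : S ⊆ (E \ insert x (X ∪ Y)) ∪ ((S ∩ X) ∪ (S ∩ Y)) := by
    intro z hz
    have := hS hz
    simp only [mem_erase] at this
    simp only [mem_union, mem_sdiff, mem_insert, mem_inter]
    tauto
  have h4' := Finset.card_le_card h3
  have h5 := Finset.card_union_le (E \ insert x (X ∪ Y)) ((S ∩ X) ∪ (S ∩ Y))
  have h6 := Finset.card_union_le (S ∩ X) (S ∩ Y)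
  omega

section

variable (hr : IsRank r) (h : TC r E) (h4 : 4 ≤ E.card) (hx : x ∈ E) (hQ : Qc r E x)
include hr h h4 hx hQ

lemma exc_partner {c c' : α} {U : Finset α} (hc : c ∈ E) (hcx : c ≠ x) (hU : Exc r E x c U)
    (hc' : c' ∈ E) (hc'x : c' ≠ x) (hcc : c' ≠ c) (hl : r {x, c, c'} ≤ 2) : c' ∉ U := by
  intro hcU
  obtain ⟨hU1, hU2, hU3, hU4⟩ := hU
  have h1 : r {x, c'} = 2 := h.pair hr h4 hx hc' hc'x.symm
  have h2 : r (insert c (insert x U)) ≤ r (insert x U) := by
    apply hr.cl_mono (A := {x, c'})
    · intro z hz; simp at hz; rcases hz with rfl | rfl <;> simp [hcU]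
    · have : insert c {x, c'} = ({x, c, c'} : Finset α) := by grind
      rw [this]; omega
  have h3 : insert x (insert c U) = insert c (insert x U) := Finset.insert_comm _ _ _
  have h5 : insert x (insert c U) ⊆ E := by
    intro z hz; simp only [mem_insert] at hz
    rcases hz with rfl | rfl | hz
    · exact hx
    · exact hc
    · exact (hU1 z hz).1
  have h6 := h.t2c h5 (card_two_le (a := x) (b := c) (by simp) (by simp) hcx.symm) (by
    have h7 := hQ (insert c U) ∅ (by
      intro z hz; simp only [mem_insert] at hz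
      rcases hz with rfl | hz
      · exact ⟨hc, hcx⟩
      · exact ⟨(hU1 z hz).1, (hU1 z hz).2.1⟩) (by simp)
      (by rw [h3]; omega) (by have := hr.le_card (insert x (∅ : Finset α)); simp at this ⊢; omega)
    simpa using h7)
  rw [h3] at h6 hU4
  omega

lemma co_of_not_exc (hSI : SI r E x) {c : α} (hc : Lng r E x c) (hn : ∀ U, ¬ Exc r E x c U) :
    CO r E c := by
  obtain ⟨hcE, hcx, c', hc'E, hc'x, hc'c, hl⟩ := hc
  have main : ∀ X Y, Prt X Y (E.erase c) → 2 ≤ X.card → 2 ≤ Y.card → r X + r Y ≤ r E + 1 →
      x ∈ X → X.card + r Y ≤ r E + 1 ∨ Y.card + r X ≤ r E + 1 := by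
    intro X Y hP hX hY hlam hxX
    have hXE : X ⊆ E := hP.subL.trans (Finset.erase_subset _ _)
    have hYE : Y ⊆ E := hP.subR.trans (Finset.erase_subset _ _)
    have hcX : c ∉ X := fun hh => by have := hP.subL hh; simp at this
    have hcY : c ∉ Y := fun hh => by have := hP.subR hh; simp at this
    have hxY : x ∉ Y := fun hh => hP.2 x hxX hh
    have hrX2 := h.two_le hr h4 hXE hX
    have hrY2 := h.two_le hr h4 hYE hY
    by_cases hX2 : X.card = 2
    · left; omega
    have hX3 : 2 ≤ (X.erase x).card := by
      rw [Finset.card_erase_of_mem hxX]; omega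
    have hpair : r {x, c'} = 2 := h.pair hr h4 hx hc'E hc'x.symm
    have hcl : r (insert c {x, c'}) ≤ r {x, c'} := by
      have : insert c {x, c'} = ({x, c, c'} : Finset α) := by grind
      rw [this]; omega
    have hc'' : c' ∈ X ∨ c' ∈ Y := (hP.1 c').1 (Finset.mem_erase.2 ⟨hc'c, hc'E⟩)
    rcases hc'' with hc'' | hc''
    · exfalso
      have h1 : r (insert c X) ≤ r X := hr.cl_mono (by
        intro z hz; simp at hz; rcases hz with rfl | rfl <;> assumption) hcl
      have h2 := h.2 (insert c X) Y (prt_ins hcE hP)
        (by rw [Finset.card_insert_of_notMem hcX]; omega) hY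
      omega
    · have h1 : r (insert c (insert x Y)) ≤ r (insert x Y) := hr.cl_mono (by
        intro z hz; simp at hz; rcases hz with rfl | rfl <;> simp [hc'']) hcl
      have hPx : Prt (X.erase x) (insert c Y) (E.erase x) := by
        obtain ⟨p1, p2⟩ := hP
        refine ⟨fun z => ?_, fun z => ?_⟩
        · have := p1 z; simp only [mem_erase, mem_insert] at *
          by_cases hz : z = c
          · subst hz; tauto
          · by_cases hz' : z = x
            · subst hz'; tauto
            · tauto
        · have := p2 z; simp only [mem_erase, mem_insert] at *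
          rintro ⟨q1, q2⟩ (rfl | q3)
          · exact hcX q2
          · exact p2 z q2 q3
      have e1 : insert x (X.erase x) = X := Finset.insert_erase hxX
      have e2 : insert x (insert c Y) = insert c (insert x Y) := Finset.insert_comm _ _ _
      have h2 := hr.one x Y
      have h3 := hSI (X.erase x) (insert c Y) hPx hX3
        (by rw [Finset.card_insert_of_notMem hcY]; omega) (by rw [e1, e2]; omega)
      rw [e1, e2] at h3
      rcases h3 with h3 | h3
      · exfalso
        apply hn (X.erase x)
        refine ⟨fun z hz => ?_, hX3, by rw [e1]; exact h3, ?_⟩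
        · simp only [mem_erase] at hz
          exact ⟨hXE hz.2, hz.1, fun hh => hcX (hh ▸ hz.2)⟩
        · have e3 : E \ insert x (insert c (X.erase x)) = Y := by
            ext z; have := hP.1 z; have := hP.2 z
            simp only [mem_erase, mem_sdiff, mem_insert] at *
            by_cases hz : z = x
            · subst hz; tauto
            · tauto
          rw [e3]; omega
      · exfalso
        have h5 : r (insert c Y) ≤ 2 := le_trans (hr.mm (by grind)) h3
        have h6 := h.2 X (insert c Y) (prt_ins hcE hP.symm).symm hX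
          (by rw [Finset.card_insert_of_notMem hcY]; omega)
        have h7 : r Y ≤ r (insert c Y) := hr.mm (by grind)
        omega
  intro X Y hP hX hY hlam
  rcases (hP.1 x).1 (Finset.mem_erase.2 ⟨hcx.symm, hx⟩) with hxX | hxY
  · exact main X Y hP hX hY hlam hxX
  · exact (main Y X hP.symm hY hX (by omega) hxY).symm

lemma key1 (hSI : SI r E x) {c c' u : α} {U U' : Finset α} (hc : c ∈ E) (hcx : c ≠ x)
    (hc' : c' ∈ E) (hc'x : c' ≠ x) (hcc : c' ≠ c) (hl : r {x, c, c'} ≤ 2)
    (hU : Exc r E x c U) (hu : u ∈ U) (hU' : Exc r E x u U')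
    (htr : r E ≤ r (E \ {x, u, c})) : False := by
  have hc'U := exc_partner hr h h4 hx hQ hc hcx hU hc' hc'x hcc hl
  obtain ⟨a1, a2, a3, a4⟩ := id hU
  obtain ⟨b1, b2, b3, b4⟩ := id hU'
  obtain ⟨huE, hux, huc⟩ := a1 u hu
  have hcU : c ∉ U := fun hh => (a1 c hh).2.2 rfl
  have huU' : u ∉ U' := fun hh => (b1 u hh).2.2 rfl
  have hxU' : x ∉ U' := fun hh => (b1 x hh).2.1 rfl
  have hsx := h.single hr h4 hx
  by_cases hA : c ∉ U' ∧ c' ∉ U'
  · set F2 := E \ insert x (insert u U') with hF2
    have hcF : c ∈ F2 := by
      simp only [hF2, mem_sdiff, mem_insert]; tauto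
    have hc'F : c' ∈ F2 := by
      simp only [hF2, mem_sdiff, mem_insert]
      refine ⟨hc', ?_⟩
      rintro (hh | hh | hh)
      · exact hc'x hh
      · exact hc'U (hh ▸ hu)
      · exact hA.2 hh
    have hp : r {c, c'} = 2 := h.pair hr h4 hc hc' hcc.symm
    have hxF : r (insert x F2) ≤ r F2 := hr.cl_mono (A := {c, c'}) (by
      intro z hz; simp only [mem_insert, mem_singleton] at hz
      rcases hz with rfl | rfl <;> assumption) (by omega)
    have hP : Prt (insert u U') F2 (E.erase x) := by
      refine ⟨fun z => ?_, fun z => ?_⟩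
      · simp only [hF2, mem_erase, mem_insert, mem_sdiff]
        constructor
        · tauto
        · rintro ((rfl | hz) | hz)
          · exact ⟨hux, huE⟩
          · exact ⟨(b1 z hz).2.1, (b1 z hz).1⟩
          · tauto
      · simp only [hF2, mem_insert, mem_sdiff]; tauto
    have hcard1 : 2 ≤ (insert u U').card := by
      rw [Finset.card_insert_of_notMem huU']; omega
    have hcard2 : 2 ≤ F2.card := card_two_le hcF hc'F hcc.symm
    have e1 := hr.one' (X := insert x U') (Y := insert x (insert u U')) u (by grind)
    have hs := hSI _ _ hP hcard1 hcard2 (by omega)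
    rcases hs with hs | hs
    · have hZ : insert x (insert u U') ⊆ E := by
        intro z hz; simp only [mem_insert] at hz
        rcases hz with rfl | rfl | hz
        · exact hx
        · exact huE
        · exact (b1 z hz).1
      have := h.t2c hZ (card_two_le (a := x) (b := u) (by simp) (by simp) hux.symm)
        (by rw [← hF2]; exact hcard2)
      rw [← hF2] at this
      omega
    · have h9 := hQ F2 U' (by
        intro z hz; simp only [hF2, mem_sdiff, mem_insert] at hz; tauto)
        (fun z hz => ⟨(b1 z hz).1, (b1 z hz).2.1⟩) hs b3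
      have h10 : E \ insert x (F2 ∪ U') ⊆ {u} := by
        intro z; simp only [hF2, mem_sdiff, mem_insert, mem_union, mem_singleton]; tauto
      have := Finset.card_le_card h10
      simp at this; omega
  · have hlU' : r (insert x (insert c U')) ≤ 2 := by
      by_cases hcU' : c ∈ U'
      · rw [Finset.insert_eq_of_mem hcU']; exact b3
      · have hc'U' : c' ∈ U' := by tauto
        have hp : r {x, c'} = 2 := h.pair hr h4 hx hc' hc'x.symm
        have := hr.cl_mono (A := {x, c'}) (B := insert x U') (x := c) (by
          intro z hz; simp only [mem_insert, mem_singleton] at hz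
          rcases hz with rfl | rfl <;> simp [hc'U']) (by
          have : insert c {x, c'} = ({x, c, c'} : Finset α) := by grind
          rw [this]; omega)
        rw [Finset.insert_comm]; omega
    have hdisj : ∀ z ∈ U, z ∉ U' := by
      intro w hw hw'
      have hp : r {x, w} = 2 := h.pair hr h4 hx (a1 w hw).1 (a1 w hw).2.1.symm
      have h1 := hr.sm (X := insert x U) (Y := insert x (insert c U')) (U := {x, c, u})
        (I := {x, w}) (by
          intro z hz; simp only [mem_insert, mem_singleton] at hz
          rcases hz with rfl | rfl | rfl <;> simp [hu]) (by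
          intro z hz; simp only [mem_insert, mem_singleton] at hz
          rcases hz with rfl | rfl <;> simp [hw, hw'])
      exact exc_partner hr h h4 hx hQ hc hcx hU huE hux huc (by omega) hu
    set Z := insert x (insert c (U ∪ U')) with hZ
    have hZE : Z ⊆ E := by
      intro z hz; simp only [hZ, mem_insert, mem_union] at hz
      rcases hz with rfl | rfl | hz | hz
      · exact hx
      · exact hc
      · exact (a1 z hz).1
      · exact (b1 z hz).1
    have h1 := hr.sm (X := E \ insert x (insert c U)) (Y := E \ insert x (insert u U'))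
      (U := E \ {x, u, c}) (I := E \ Z) (by
        intro z hz
        have := hdisj z
        simp only [mem_sdiff, mem_insert, mem_singleton] at *; tauto) (by
        intro z hz
        simp only [hZ, mem_sdiff, mem_insert, mem_union] at *
        refine ⟨by tauto, hz.1, ?_⟩
        rintro (q | q | q)
        · tauto
        · subst q; tauto
        · tauto)
    have h2 := hr.sm (X := insert x U) (Y := insert x (insert c U')) (U := Z) (I := {x})
      (by intro z hz; simp only [hZ, mem_insert, mem_union] at *; tauto)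
      (by intro z hz; simp only [mem_singleton] at hz; subst hz; simp)
    have h3 := h.t2c hZE (card_two_le (a := x) (b := c) (by simp [hZ]) (by simp [hZ]) hcx.symm)
      (by
        have := hQ U (insert c U') (fun z hz => ⟨(a1 z hz).1, (a1 z hz).2.1⟩) (by
          intro z hz; simp only [mem_insert] at hz
          rcases hz with rfl | hz
          · exact ⟨hc, hcx⟩
          · exact ⟨(b1 z hz).1, (b1 z hz).2.1⟩) a3 hlU'
        have e : insert x (U ∪ insert c U') = Z := by rw [hZ, Finset.union_insert]
        rwa [e] at this)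
    omega

lemma key2 {a a' e e' : α} (ha : a ∈ E) (hax : a ≠ x) (ha' : a' ∈ E) (ha'x : a' ≠ x)
    (haa : a' ≠ a) (hla : r {x, a, a'} ≤ 2) (he : e ∈ E) (hex : e ≠ x) (he' : e' ∈ E)
    (he'x : e' ≠ x) (hee : e' ≠ e) (hle : r {x, e, e'} ≤ 2) (hae : a ≠ e)
    (htr : r (E \ {x, a, e}) + 1 ≤ r E) :
    (∀ U, ¬ Exc r E x a' U) ∧ a' ≠ e' ∧ r E ≤ r (E \ {x, a', e'}) := by
  have hsx := h.single hr h4 hx
  have h0 : 3 ≤ r {x, a, e} := by
    by_contra hh
    have h1 := h.t2c (Z := {x, a, e}) (by
      intro z hz; simp only [mem_insert, mem_singleton] at hz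
      rcases hz with rfl | rfl | rfl <;> assumption)
      (card_two_le (a := x) (b := a) (by simp) (by simp) hax.symm) (by
      have := hQ {a, e} ∅ (by
        intro z hz; simp only [mem_insert, mem_singleton] at hz
        rcases hz with rfl | rfl <;> tauto) (by simp) (by omega)
        (by have := hr.le_card (insert x (∅ : Finset α)); simp at this ⊢; omega)
      simpa using this)
    omega
  have hne1 : a' ≠ e := by
    rintro rfl; omega
  have hne2 : e' ≠ a := by
    rintro rfl
    have : ({x, e, e'} : Finset α) = {x, e', e} := by grind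
    rw [this] at hle; omega
  have hne3 : a' ≠ e' := by
    rintro rfl
    have hp : r {x, a'} = 2 := h.pair hr h4 hx ha' ha'x.symm
    have h1 := hr.sm (X := {x, a, a'}) (Y := {x, e, a'}) (U := {x, a, e}) (I := {x, a'})
      (by grind) (by grind)
    omega
  refine ⟨?_, hne3, ?_⟩
  · intro U hU
    have haU : a ∉ U := exc_partner hr h h4 hx hQ ha' ha'x hU ha hax haa.symm (by
      have : ({x, a', a} : Finset α) = {x, a, a'} := by grind
      rw [this]; exact hla)
    obtain ⟨b1, b2, b3, b4⟩ := hU
    have heU : e ∈ U := by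
      by_contra heU
      obtain ⟨u1, hu1, u2, hu2, hu⟩ := Finset.one_lt_card.1 (by omega : 1 < U.card)
      have hp : r {u1, u2} = 2 := h.pair hr h4 (b1 u1 hu1).1 (b1 u2 hu2).1 hu
      have h1 : r (insert x {u1, u2}) ≤ r {u1, u2} := by
        rw [hp]
        refine le_trans (hr.mm ?_) b3
        intro z hz; simp only [mem_insert, mem_singleton] at hz
        rcases hz with rfl | rfl | rfl <;> simp [hu1, hu2]
      have h2 : r (insert x (E \ {x, a, e})) ≤ r (E \ {x, a, e}) := hr.cl_mono (by
        intro z hz; simp only [mem_insert, mem_singleton] at hz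
        simp only [mem_sdiff, mem_insert, mem_singleton]
        rcases hz with rfl | rfl
        · exact ⟨(b1 _ hu1).1, by rintro (q | q | q)
                                  · exact (b1 _ hu1).2.1 q
                                  · exact haU (q ▸ hu1)
                                  · exact heU (q ▸ hu1)⟩
        · exact ⟨(b1 _ hu2).1, by rintro (q | q | q)
                                  · exact (b1 _ hu2).2.1 q
                                  · exact haU (q ▸ hu2)
                                  · exact heU (q ▸ hu2)⟩) h1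
      have h3 := h.compl2 hr h4 ha he hae (Y := insert x (E \ {x, a, e})) (by
        intro z hz; simp only [mem_sdiff, mem_insert, mem_singleton]; tauto)
      omega
    set Z := insert x (insert a (insert a' U)) with hZ
    have hZE : Z ⊆ E := by
      intro z hz; simp only [hZ, mem_insert] at hz
      rcases hz with rfl | rfl | rfl | hz
      · exact hx
      · exact ha
      · exact ha'
      · exact (b1 z hz).1
    have h1 := hr.sm (X := E \ {x, a, e}) (Y := E \ insert x (insert a' U))
      (U := E \ {x, e}) (I := E \ Z) (by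
        intro z hz
        simp only [mem_sdiff, mem_insert, mem_singleton] at *
        by_cases hza : z = a
        · subst hza; tauto
        · tauto) (by
        intro z hz
        simp only [hZ, mem_sdiff, mem_insert, mem_singleton] at *
        refine ⟨⟨hz.1, ?_⟩, by tauto⟩
        rintro (q | q | q)
        · tauto
        · tauto
        · subst q; tauto)
    have h2 := h.compl2 hr h4 hx he hex.symm (Y := E \ {x, e}) (by
      intro z hz; simp only [mem_sdiff, mem_insert, mem_singleton]; tauto)
    have h3 := hr.sm (X := insert x U) (Y := {x, a, a'}) (U := Z) (I := {x})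
      (by intro z hz; simp only [hZ, mem_insert, mem_singleton] at *; tauto)
      (by intro z hz; simp only [mem_singleton] at hz; subst hz; simp)
    have h5 := h.t2c hZE (card_two_le (a := x) (b := a) (by simp [hZ]) (by simp [hZ]) hax.symm)
      (by
        have := hQ U {a, a'} (fun z hz => ⟨(b1 z hz).1, (b1 z hz).2.1⟩) (by
          intro z hz; simp only [mem_insert, mem_singleton] at hz
          rcases hz with rfl | rfl <;> tauto) b3 hla
        have e : insert x (U ∪ {a, a'}) = Z := by
          ext z; simp only [hZ, mem_insert, mem_union, mem_singleton]; tauto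
        rwa [e] at this)
    omega
  · by_contra hcon
    set Z : Finset α := {x, a, a', e, e'} with hZ
    have hZE : Z ⊆ E := by
      intro z hz; simp only [hZ, mem_insert, mem_singleton] at hz
      rcases hz with rfl | rfl | rfl | rfl | rfl <;> assumption
    have h1 := hr.sm (X := E \ {x, a, e}) (Y := E \ {x, a', e'})
      (U := E.erase x) (I := E \ Z) (by
        intro z hz
        simp only [mem_sdiff, mem_erase, mem_insert, mem_singleton] at *
        by_cases hza : z = a
        · subst hza; right; exact ⟨hz.2, by tauto⟩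
        · by_cases hze : z = e
          · subst hze; right; exact ⟨hz.2, by tauto⟩
          · left; tauto) (by
        intro z hz
        simp only [hZ, mem_sdiff, mem_insert, mem_singleton] at *
        tauto)
    have h2 := h.compl1 hr h4 hx (Y := E.erase x) (by
      intro z hz; simp only [mem_erase]; tauto)
    have h3 := hr.sm (X := {x, e, e'}) (Y := {x, a, a'}) (U := Z) (I := {x})
      (by intro z hz; simp only [hZ, mem_insert, mem_singleton] at *; tauto)
      (by intro z hz; simp only [mem_singleton] at hz; subst hz; simp)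
    have h5 := h.t2c hZE (card_two_le (a := x) (b := a) (by simp [hZ]) (by simp [hZ]) hax.symm)
      (by
        have := hQ {a, a'} {e, e'} (by
          intro z hz; simp only [mem_insert, mem_singleton] at hz
          rcases hz with rfl | rfl <;> tauto) (by
          intro z hz; simp only [mem_insert, mem_singleton] at hz
          rcases hz with rfl | rfl <;> tauto) hla hle
        have e : insert x (({a, a'} : Finset α) ∪ {e, e'}) = Z := by
          ext z; simp only [hZ, mem_insert, mem_union, mem_singleton]; tauto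
        rwa [e] at this)
    omega

omit hQ in
lemma cn_ctr : Cn (ctr r x) (E.erase x) := by
  intro X Y hP hX hY
  have hxX : x ∉ X := fun hh => by have := hP.subL hh; simp at this
  have hxY : x ∉ Y := fun hh => by have := hP.subR hh; simp at this
  have hc := hP.card
  rw [Finset.card_erase_of_mem hx] at hc
  have hX' := Finset.card_pos.2 hX
  have hY' := Finset.card_pos.2 hY
  simp only [ctr]
  rw [Finset.insert_erase hx]
  have hs := h.single hr h4 hx
  have h3 : r X ≤ r (insert x X) := hr.mm (by grind)
  have h6 : r {x} ≤ r E := hr.mm (by grind)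
  have h5 : r Y ≤ r (insert x Y) := hr.mm (by grind)
  by_cases hY2 : 2 ≤ Y.card
  · have h2 := h.2 _ _ (prt_ins hx hP) (by rw [Finset.card_insert_of_notMem hxX]; omega) hY2
    omega
  · have h2 := h.2 _ _ (prt_ins hx hP.symm) (by rw [Finset.card_insert_of_notMem hxY]; omega)
      (by omega)
    omega

theorem tplus (hSI : SI r E x) (hn : ¬ TC (ctr r x) (E.erase x)) :
    ∃ p q, p ≠ q ∧ Lng r E x p ∧ Lng r E x q ∧ CO r E p ∧ CO r E q ∧
      r E ≤ r (E \ {x, p, q}) := by
  have hs := h.single hr h4 hx
  -- there is a long line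
  have hline : ∃ a b, a ∈ E ∧ b ∈ E ∧ a ≠ x ∧ b ≠ x ∧ a ≠ b ∧ r {x, a, b} ≤ 2 := by
    have hn2 : ¬ T2 (ctr r x) (E.erase x) := fun hh => hn ⟨cn_ctr hr h h4 hx, hh⟩
    unfold T2 at hn2
    push Not at hn2
    obtain ⟨X, Y, hP, hX, hY, hlt⟩ := hn2
    have m1 : r {x} ≤ r (insert x X) := hr.mm (by grind)
    have m2 : r {x} ≤ r (insert x Y) := hr.mm (by grind)
    have m3 : r {x} ≤ r E := hr.mm (by grind)
    unfold ctr at hlt
    rw [Finset.insert_erase hx] at hlt
    have key : ∀ W, W ⊆ E.erase x → 2 ≤ W.card → r (insert x W) ≤ 2 →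
        ∃ a b, a ∈ E ∧ b ∈ E ∧ a ≠ x ∧ b ≠ x ∧ a ≠ b ∧ r {x, a, b} ≤ 2 := by
      intro W hW hW2 hWr
      obtain ⟨a, ha, b, hb, hab⟩ := Finset.one_lt_card.1 (by omega : 1 < W.card)
      have ha' := hW ha
      have hb' := hW hb
      simp only [mem_erase] at ha' hb'
      refine ⟨a, b, ha'.2, hb'.2, ha'.1, hb'.1, hab, le_trans (hr.mm ?_) hWr⟩
      intro z hz; simp only [mem_insert, mem_singleton] at hz
      rcases hz with rfl | rfl | rfl <;> simp [ha, hb]
    rcases hSI X Y hP hX hY (by omega) with h1 | h1
    · exact key X hP.subL hX h1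
    · exact key Y hP.subR hY h1
  obtain ⟨a0, b0, ha0, hb0, ha0x, hb0x, hab0, hl0⟩ := hline
  have hl0' : r {x, b0, a0} ≤ 2 := by
    have : ({x, b0, a0} : Finset α) = {x, a0, b0} := by grind
    rw [this]; exact hl0
  by_cases hII : ∃ a e, Lng r E x a ∧ Lng r E x e ∧ a ≠ e ∧ r (E \ {x, a, e}) + 1 ≤ r E
  · obtain ⟨a, e, ⟨ha, hax, a', ha', ha'x, haa, hla⟩, ⟨he, hex, e', he', he'x, hee, hle⟩, hae,
      htr⟩ := hII
    have k1 := key2 hr h h4 hx hQ ha hax ha' ha'x haa hla he hex he' he'x hee hle hae htr
    have htr' : r (E \ {x, e, a}) + 1 ≤ r E := by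
      have : ({x, e, a} : Finset α) = {x, a, e} := by grind
      rw [this]; exact htr
    have k2 := key2 hr h h4 hx hQ he hex he' he'x hee hle ha hax ha' ha'x haa hla hae.symm htr'
    have l1 : Lng r E x a' := ⟨ha', ha'x, a, ha, hax, haa.symm, by
      have : ({x, a', a} : Finset α) = {x, a, a'} := by grind
      rw [this]; exact hla⟩
    have l2 : Lng r E x e' := ⟨he', he'x, e, he, hex, hee.symm, by
      have : ({x, e', e} : Finset α) = {x, e, e'} := by grind
      rw [this]; exact hle⟩
    exact ⟨a', e', k1.2.1, l1, l2, co_of_not_exc hr h h4 hx hQ hSI l1 k1.1,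
      co_of_not_exc hr h h4 hx hQ hSI l2 k2.1, k1.2.2⟩
  · push Not at hII
    by_cases hE : ∃ c U, Lng r E x c ∧ Exc r E x c U
    · obtain ⟨c, U, hcl, hU⟩ := hE
      obtain ⟨hc, hcx, c', hc', hc'x, hcc, hl⟩ := id hcl
      obtain ⟨u1, hu1, u2, hu2, hu⟩ := Finset.one_lt_card.1 (by have := hU.2.1; omega : 1 < U.card)
      have b1 := hU.1
      have hlong : ∀ u ∈ U, ∀ w ∈ U, w ≠ u → Lng r E x u := by
        intro u hu' w hw' hwu
        refine ⟨(b1 u hu').1, (b1 u hu').2.1, w, (b1 w hw').1, (b1 w hw').2.1, hwu,
          le_trans (hr.mm ?_) hU.2.2.1⟩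
        intro z hz; simp only [mem_insert, mem_singleton] at hz
        rcases hz with rfl | rfl | rfl <;> simp [hu', hw']
      have l1 := hlong u1 hu1 u2 hu2 hu.symm
      have l2 := hlong u2 hu2 u1 hu1 hu
      have n1 : ∀ u ∈ U, Lng r E x u → ∀ U', ¬ Exc r E x u U' := by
        intro u hu' hlu U' hU'
        refine key1 hr h h4 hx hQ hSI hc hcx hc' hc'x hcc hl hU hu' hU' ?_
        have := hII u c hlu hcl (b1 u hu').2.2
        omega
      refine ⟨u1, u2, hu, l1, l2, co_of_not_exc hr h h4 hx hQ hSI l1 (n1 u1 hu1 l1),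
        co_of_not_exc hr h h4 hx hQ hSI l2 (n1 u2 hu2 l2), ?_⟩
      have := hII u1 u2 l1 l2 hu
      omega
    · push Not at hE
      have l1 : Lng r E x a0 := ⟨ha0, ha0x, b0, hb0, hb0x, hab0.symm, hl0⟩
      have l2 : Lng r E x b0 := ⟨hb0, hb0x, a0, ha0, ha0x, hab0, hl0'⟩
      refine ⟨a0, b0, hab0, l1, l2,
        co_of_not_exc hr h h4 hx hQ hSI l1 (fun U => hE a0 U l1),
        co_of_not_exc hr h h4 hx hQ hSI l2 (fun U => hE b0 U l2), ?_⟩
      have := hII a0 b0 l1 l2 hab0
      omega

end

end Pool.Agent.K3h89.QU
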