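import Pool.Agent.K3h89.QU.Rank

/-!
# Uniform minors and removable elements

`HasU r E k n`: the matroid has a minor isomorphic to the uniform matroid of rank `k` on `n`
elements. `ctr r x` is the rank function of the contraction of `x`.
-/

set_option autoImplicit false
set_option linter.unusedSectionVars false

namespace Pool.Agent.K3h89.QU

open Finset

variable {α : Type*} [DecidableEq α]

/-- Rank function of the contraction of `x`. -/
def ctr (r : Finset α → ℕ) (x : α) : Finset α → ℕ := fun X => r (insert x X) - r {x}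

/-- There is a uniform minor of rank `k` with `n` elements. -/
def HasU (r : Finset α → ℕ) (E : Finset α) (k n : ℕ) : Prop :=
  ∃ T S : Finset α, T ⊆ E ∧ S ⊆ E ∧ Disjoint T S ∧ S.card = n ∧
    ∀ Z ⊆ S, r (Z ∪ T) = r T + min Z.card k

lemma HasU.mono {r : Finset α → ℕ} {E E' : Finset α} {k n : ℕ} (h : HasU r E k n)
    (hE : E ⊆ E') : HasU r E' k n := by
  obtain ⟨T, S, h1, h2, h3, h4, h5⟩ := h
  exact ⟨T, S, h1.trans hE, h2.trans hE, h3, h4, h5⟩

lemma HasU.congr {r r' : Finset α → ℕ} {E : Finset α} {k n : ℕ} (h : HasU r E k n)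
    (hE : ∀ X ⊆ E, r X = r' X) : HasU r' E k n := by
  obtain ⟨T, S, h1, h2, h3, h4, h5⟩ := h
  refine ⟨T, S, h1, h2, h3, h4, fun Z hZ => ?_⟩
  rw [← hE _ (Finset.union_subset (hZ.trans h2) h1), ← hE _ h1]
  exact h5 Z hZ

lemma HasU.card_le {r : Finset α → ℕ} {E : Finset α} {k n : ℕ} (h : HasU r E k n) :
    n ≤ E.card := by
  obtain ⟨T, S, h1, h2, h3, h4, h5⟩ := h
  rw [← h4]; exact Finset.card_le_card h2

lemma isRank_ctr {r : Finset α → ℕ} (hr : IsRank r) (x : α) : IsRank (ctr r x) where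
  empty := by simp [ctr]
  mono := fun {X Y} h => by
    unfold ctr
    have := hr.mono (X := insert x X) (Y := insert x Y) (by grind)
    omega
  sub := fun X Y => by
    unfold ctr
    have h1 := hr.sm (X := insert x X) (Y := insert x Y) (U := insert x (X ∪ Y))
      (I := insert x (X ∩ Y)) (by grind) (by grind)
    have h2 := hr.mono (X := {x}) (Y := insert x (X ∩ Y)) (by grind)
    have h3 := hr.mono (X := {x}) (Y := insert x (X ∪ Y)) (by grind)
    have h4 := hr.mono (X := {x}) (Y := insert x X) (by grind)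
    have h5 := hr.mono (X := {x}) (Y := insert x Y) (by grind)
    omega
  one := fun e X => by
    unfold ctr
    have h1 := hr.one' (X := insert x X) (Y := insert x (insert e X)) e (by grind)
    omega

lemma hasU_ctr_of {r : Finset α → ℕ} (hr : IsRank r) {E T S : Finset α} {k n : ℕ} {b : α}
    (hb : b ∈ T) (hT : T ⊆ E) (hS : S ⊆ E) (hd : Disjoint T S) (hn : S.card = n)
    (h : ∀ Z ⊆ S, r (Z ∪ T) = r T + min Z.card k) : HasU (ctr r b) (E.erase b) k n := by
  rw [Finset.disjoint_left] at hd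
  refine ⟨T.erase b, S, by grind, by grind, by rw [Finset.disjoint_left]; grind, hn,
    fun Z hZ => ?_⟩
  unfold ctr
  have e1 : insert b (Z ∪ T.erase b) = Z ∪ T := by grind
  have e2 : insert b (T.erase b) = T := by grind
  rw [e1, e2]
  have := h Z hZ
  have h2 : r {b} ≤ r T := hr.mm (by grind)
  omega

/-- Ranks across a 2-separation. -/
lemma two_sep_rank {r : Finset α → ℕ} (hr : IsRank r) {A B E : Finset α} (hAB : Prt A B E)
    (hl : r A + r B = r E + 1) {Z T : Finset α} (hZ : Z ⊆ A) (hT : T ⊆ B) :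
    r (Z ∪ T) + (r Z + r B - r (Z ∪ B)) * (r A + r T - r (A ∪ T)) = r Z + r T ∧
    (r Z + r B - r (Z ∪ B)) ≤ 1 ∧ (r A + r T - r (A ∪ T)) ≤ 1 ∧ r (A ∪ T) ≤ r A + r T := by
  obtain ⟨h1, h2⟩ := hAB
  have a1 := hr.sm (X := Z) (Y := B) (U := Z ∪ B) (I := ∅) (by grind) (by grind)
  have a2 := hr.sm (X := A) (Y := T) (U := A ∪ T) (I := ∅) (by grind) (by grind)
  have a3 := hr.sm (X := Z ∪ B) (Y := A) (U := E) (I := Z) (by grind) (by grind)
  have a4 := hr.sm (X := A ∪ T) (Y := B) (U := E) (I := T) (by grind) (by grind)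
  have a5 := hr.sm (X := Z ∪ B) (Y := A ∪ T) (U := E) (I := Z ∪ T) (by grind) (by grind)
  have a6 := hr.sm (X := Z ∪ T) (Y := A) (U := A ∪ T) (I := Z) (by grind) (by grind)
  have a7 := hr.sm (X := Z ∪ T) (Y := B) (U := Z ∪ B) (I := T) (by grind) (by grind)
  have a8 := hr.sm (X := Z) (Y := T) (U := Z ∪ T) (I := ∅) (by grind) (by grind)
  have a0 := hr.empty
  have c1 : r Z + r B - r (Z ∪ B) = 0 ∨ r Z + r B - r (Z ∪ B) = 1 := by omega
  have c2 : r A + r T - r (A ∪ T) = 0 ∨ r A + r T - r (A ∪ T) = 1 := by omega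
  rcases c1 with c1 | c1 <;> rcases c2 with c2 | c2 <;> rw [c1, c2] <;> omega

/-- In a dependent side `B` of a 2-separation of a deletion there is an element that is neither
in the closure of the other side nor needed for spanning `B`. -/
lemma exists_free {r : Finset α → ℕ} (hr : IsRank r) {E A B : Finset α} {e : α} (h : TC r E)
    (h4 : 4 ≤ E.card) (he : e ∈ E) (hAB : Prt A B (E.erase e))
    (hl : r A + r B ≤ r E + 1) (hB : r B < B.card) :
    ∃ b ∈ B, r A < r (insert b A) ∧ r B ≤ r (B.erase b) := by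
  classical
  have hBE : B ⊆ E := hAB.subR.trans (Finset.erase_subset _ _)
  obtain ⟨Z, hZ, hmin⟩ := Finset.exists_min_image (B.powerset.filter fun Z => r Z < Z.card)
    Finset.card ⟨B, by simp [hB]⟩
  simp only [mem_filter, mem_powerset] at hZ hmin
  obtain ⟨hZB, hZc⟩ := hZ
  have hZe : ∀ z ∈ Z, Z.card ≤ r (Z.erase z) + 1 := by
    intro z hz
    by_contra hcon
    have := hmin (Z.erase z) ⟨(Finset.erase_subset _ _).trans hZB, by
      have := Finset.card_erase_of_mem hz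
      omega⟩
    have := Finset.card_erase_of_mem hz
    have := Finset.card_pos.2 ⟨z, hz⟩
    omega
  have hErase : r E ≤ r (E.erase e) := h.compl1 hr h4 he (by grind)
  have hex : ∃ b ∈ Z, r A < r (insert b A) := by
    by_contra hcon
    push Not at hcon
    have h1 := hr.closure hcon
    have h2 := hr.sm (X := A ∪ Z) (Y := B) (U := E.erase e) (I := Z)
      (fun z hz => by have := (hAB.1 z).1 hz; grind) (by grind)
    have h3 : r Z ≤ 1 := by omega
    have h4' : 1 ≤ Z.card := by omega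
    obtain ⟨z, hz⟩ := Finset.card_pos.1 (by omega : 0 < Z.card)
    have h5 := hZe z hz
    have h6 := hr.mm (X := Z.erase z) (Y := Z) (by grind)
    have h7 : Z.card ≤ 2 := by omega
    rcases (by omega : Z.card = 1 ∨ Z.card = 2) with hc | hc
    · obtain ⟨w, rfl⟩ := Finset.card_eq_one.1 hc
      have := h.single hr h4 (a := w) (hBE (hZB (by simp)))
      omega
    · have := h.two_le hr h4 (hZB.trans hBE) (by omega)
      omega
  obtain ⟨b, hb, hbA⟩ := hex
  refine ⟨b, hZB hb, hbA, ?_⟩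
  have h5 := hZe b hb
  have h6 : r (insert b (Z.erase b)) ≤ r (Z.erase b) := by
    rw [Finset.insert_erase hb]; omega
  have h7 := hr.cl_mono (A := Z.erase b) (B := B.erase b) (by grind) h6
  rwa [Finset.insert_erase (hZB hb)] at h7

section Witness

variable {r : Finset α → ℕ} {E A B T S : Finset α} {k n : ℕ}

lemma wit1 (hr : IsRank r) (hAB : Prt A B E) (hl : r A + r B = r E + 1)
    (hT : T ⊆ E) (hS : S ⊆ A)
    (hrk : ∀ Z ⊆ S, r (Z ∪ T) = r T + min Z.card k) {T2 : Finset α} (hT2 : T2 ⊆ B)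
    (hs : r A + r T2 - r (A ∪ T2) = r A + r (T ∩ B) - r (A ∪ (T ∩ B))) :
    ∀ Z ⊆ S, r (Z ∪ ((T ∩ A) ∪ T2)) = r ((T ∩ A) ∪ T2) + min Z.card k := by
  intro Z hZ
  have hTe : T = (T ∩ A) ∪ (T ∩ B) := by
    ext z; have := @hT z; have := hAB.1 z; simp only [mem_union, mem_inter]; tauto
  have b1 := two_sep_rank hr hAB hl (Z := Z ∪ (T ∩ A)) (T := T2) (by grind) hT2
  have b2 := two_sep_rank hr hAB hl (Z := Z ∪ (T ∩ A)) (T := T ∩ B) (by grind) (by grind)
  have b3 := two_sep_rank hr hAB hl (Z := T ∩ A) (T := T2) (by grind) hT2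
  have b4 := two_sep_rank hr hAB hl (Z := T ∩ A) (T := T ∩ B) (by grind) (by grind)
  have b5 := hrk Z hZ
  rw [← hTe] at b4
  rw [Finset.union_assoc Z (T ∩ A) T2] at b1
  rw [Finset.union_assoc Z (T ∩ A) (T ∩ B), ← hTe] at b2
  rw [← hs] at b2 b4
  obtain ⟨b1, b1', b1'', -⟩ := b1
  obtain ⟨b2, -, -, -⟩ := b2
  obtain ⟨b3, b3', -, -⟩ := b3
  obtain ⟨b4, -, -, -⟩ := b4
  rcases (by omega : r A + r T2 - r (A ∪ T2) = 0 ∨ r A + r T2 - r (A ∪ T2) = 1) with c | c <;>
    rw [c] at b1 b2 b3 b4 <;> omega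

lemma wit2 (hr : IsRank r) (hAB : Prt A B E) (hl : r A + r B = r E + 1)
    (hk : 2 ≤ k) (hn : k + 2 ≤ n) (hT : T ⊆ E) (hS : S ⊆ E) (hd : ∀ z ∈ T, z ∉ S)
    (hc : S.card = n) (hrk : ∀ Z ⊆ S, r (Z ∪ T) = r T + min Z.card k)
    {s0 : α} (hs0 : S ∩ B = {s0}) {T2 : Finset α} {s' : α} (hT2 : T2 ⊆ B) (hs' : s' ∈ B)
    (hsT : s' ∉ T2) (h1 : r A + r T2 - r (A ∪ T2) = 0)
    (h2 : r A + r (insert s' T2) - r (A ∪ insert s' T2) = 1) :
    (insert s' (S.erase s0)).card = n ∧
    ∀ Z ⊆ insert s' (S.erase s0),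
      r (Z ∪ ((T ∩ A) ∪ T2)) = r ((T ∩ A) ∪ T2) + min Z.card k := by
  have hTe : T = (T ∩ A) ∪ (T ∩ B) := by
    ext z; have := @hT z; have := hAB.1 z; simp only [mem_union, mem_inter]; tauto
  have hs0' : s0 ∈ S ∧ s0 ∈ B := by
    have : s0 ∈ S ∩ B := by rw [hs0]; simp
    simpa using this
  have hSA : ∀ z ∈ S, z ≠ s0 → z ∈ A := by
    intro z hz hne
    by_contra hh
    have : z ∈ S ∩ B := by
      have := (hAB.1 z).1 (hS hz); simp only [mem_inter]; tauto
    rw [hs0] at this; simp at this; exact hne this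
  have hBA : ∀ z ∈ B, z ∉ A := fun z h1 h2 => hAB.2 z h2 h1
  have hs'S : s' ∉ S.erase s0 := by
    intro hh
    have := hSA s' (by grind) (by grind)
    exact hBA s' hs' this
  have hcard : (S.erase s0).card = n - 1 := by rw [Finset.card_erase_of_mem hs0'.1, hc]
  refine ⟨by rw [Finset.card_insert_of_notMem hs'S, hcard]; omega, ?_⟩
  -- the original element s0
  have d1 := two_sep_rank hr hAB hl (Z := T ∩ A) (T := T ∩ B) (by grind) (by grind)
  have d2 := two_sep_rank hr hAB hl (Z := T ∩ A) (T := insert s0 (T ∩ B)) (by grind) (by grind)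
  have d3 := two_sep_rank hr hAB hl (Z := S.erase s0 ∪ (T ∩ A)) (T := T ∩ B) (by grind)
    (by grind)
  have d4 := two_sep_rank hr hAB hl (Z := S.erase s0 ∪ (T ∩ A)) (T := insert s0 (T ∩ B))
    (by grind) (by grind)
  have f2 := hrk {s0} (by grind)
  have f3 := hrk (S.erase s0) (by grind)
  have f4 := hrk S (by grind)
  have e2 : T ∩ A ∪ insert s0 (T ∩ B) = {s0} ∪ T := by
    rw [Finset.union_insert, ← hTe, Finset.insert_eq]
  have e3 : S.erase s0 ∪ (T ∩ A) ∪ (T ∩ B) = S.erase s0 ∪ T := by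
    rw [Finset.union_assoc, ← hTe]
  have e4 : S.erase s0 ∪ (T ∩ A) ∪ insert s0 (T ∩ B) = S ∪ T := by
    rw [Finset.union_insert, e3, ← Finset.insert_union, Finset.insert_erase hs0'.1]
  rw [← hTe] at d1
  rw [e2] at d2
  rw [e3] at d3
  rw [e4] at d4
  rw [Finset.card_singleton] at f2
  rw [hcard] at f3
  rw [hc] at f4
  have g1 := hr.sm (X := insert s0 (T ∩ B)) (Y := A ∪ (T ∩ B)) (U := A ∪ insert s0 (T ∩ B))
    (I := T ∩ B) (by grind) (by grind)
  have g2 := hr.one s0 (T ∩ B)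
  have g3 := hr.mm (X := T ∩ B) (Y := insert s0 (T ∩ B)) (by grind)
  obtain ⟨d1, d1a, d1b, d1c⟩ := d1
  obtain ⟨d2, -, d2b, d2c⟩ := d2
  obtain ⟨d3, d3a, -, -⟩ := d3
  obtain ⟨d4, -, -, -⟩ := d4
  have m2 : min 1 k = 1 := by omega
  have m3 : min (n - 1) k = k := by omega
  have m4 : min n k = k := by omega
  rw [m2] at f2
  rw [m3] at f3
  rw [m4] at f4
  have main : r A + r (T ∩ B) - r (A ∪ (T ∩ B)) = 0 ∧
      r A + r (insert s0 (T ∩ B)) - r (A ∪ insert s0 (T ∩ B)) = 1 ∧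
      r (insert s0 (T ∩ B)) = r (T ∩ B) + 1 := by
    rcases (by omega : r A + r (T ∩ B) - r (A ∪ (T ∩ B)) = 0 ∨
      r A + r (T ∩ B) - r (A ∪ (T ∩ B)) = 1) with c1 | c1 <;>
    rcases (by omega : r A + r (insert s0 (T ∩ B)) - r (A ∪ insert s0 (T ∩ B)) = 0 ∨
      r A + r (insert s0 (T ∩ B)) - r (A ∪ insert s0 (T ∩ B)) = 1) with c2 | c2 <;>
    rw [c1] at d1 d3 <;> rw [c2] at d2 d4 <;> omega
  obtain ⟨m1, m2', m3'⟩ := main
  have g4 := hr.one s' T2
  have g5 := hr.mm (X := T2) (Y := insert s' T2) (by grind)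
  have hone : r (insert s' T2) = r T2 + 1 := by
    by_contra hh
    have q1 : r (insert s' T2) ≤ r T2 := by omega
    have q2 := hr.cl_mono (A := T2) (B := A ∪ T2) (by grind) q1
    rw [← Finset.union_insert] at q2
    have q3 := hr.mm (X := A ∪ T2) (Y := A ∪ insert s' T2) (by grind)
    omega
  intro Z hZ
  by_cases hsZ : s' ∈ Z
  · have hZe : Z = insert s' (Z.erase s') := (Finset.insert_erase hsZ).symm
    have hZS : Z.erase s' ⊆ S.erase s0 := by grind
    have hZc : Z.card = (Z.erase s').card + 1 := by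
      rw [Finset.card_erase_of_mem hsZ]
      have := Finset.card_pos.2 ⟨s', hsZ⟩; omega
    have b1 := two_sep_rank hr hAB hl (Z := Z.erase s' ∪ (T ∩ A)) (T := insert s' T2)
      (by grind) (by grind)
    have b2 := two_sep_rank hr hAB hl (Z := Z.erase s' ∪ (T ∩ A)) (T := insert s0 (T ∩ B))
      (by grind) (by grind)
    have b3 := two_sep_rank hr hAB hl (Z := T ∩ A) (T := T2) (by grind) hT2
    have b4 := hrk (insert s0 (Z.erase s')) (by grind)
    have e5 : Z.erase s' ∪ (T ∩ A) ∪ insert s' T2 = Z ∪ (T ∩ A ∪ T2) := by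
      rw [Finset.union_insert, ← Finset.insert_union, ← Finset.insert_union, ← hZe,
        Finset.union_assoc]
    have e6 : Z.erase s' ∪ (T ∩ A) ∪ insert s0 (T ∩ B) = insert s0 (Z.erase s') ∪ T := by
      rw [Finset.union_insert, Finset.union_assoc, ← hTe, Finset.insert_union]
    have e7 : (insert s0 (Z.erase s')).card = Z.card := by
      rw [Finset.card_insert_of_notMem (by grind), hZc]
    rw [e5] at b1
    rw [e6] at b2
    rw [e7] at b4
    rw [h2] at b1
    rw [m2'] at b2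
    rw [h1] at b3
    rw [m1] at d1
    obtain ⟨b1, -, -, -⟩ := b1
    obtain ⟨b2, -, -, -⟩ := b2
    obtain ⟨b3, -, -, -⟩ := b3
    omega
  · have hZS : Z ⊆ S.erase s0 := by grind
    have b1 := two_sep_rank hr hAB hl (Z := Z ∪ (T ∩ A)) (T := T2) (by grind) (by grind)
    have b2 := two_sep_rank hr hAB hl (Z := Z ∪ (T ∩ A)) (T := T ∩ B) (by grind) (by grind)
    have b3 := two_sep_rank hr hAB hl (Z := T ∩ A) (T := T2) (by grind) hT2
    have b4 := hrk Z (by grind)
    rw [Finset.union_assoc] at b1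
    rw [Finset.union_assoc, ← hTe] at b2
    rw [h1] at b1 b3
    rw [m1] at b2 d1
    obtain ⟨b1, -, -, -⟩ := b1
    obtain ⟨b2, -, -, -⟩ := b2
    obtain ⟨b3, -, -, -⟩ := b3
    omega

end Witness

end Pool.Agent.K3h89.QU
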