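import Mathlib

/-!
# Rank functions, 3-connectivity and the lemma of Bixby

A matroid is given by a ground set `E` (a finset) and a rank function `r` on finsets.
`Prt X Y E` says that `X`, `Y` is a partition of `E`. `TC r E` is 3-connectivity.
`SI r E x`: every 2-separation of the contraction of `x` has a side of rank at most one
(the simplification is 3-connected). `CO r E x`: every 2-separation of the deletion of `x` has a
side of corank at most one (the cosimplification is 3-connected).
-/

set_option autoImplicit false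

namespace Pool.Agent.K3h89.QU

open Finset

variable {α : Type*} [DecidableEq α]

/-- `X`, `Y` is a partition of `E`. -/
def Prt (X Y E : Finset α) : Prop :=
  (∀ z, z ∈ E ↔ (z ∈ X ∨ z ∈ Y)) ∧ ∀ z, z ∈ X → z ∈ Y → False

lemma Prt.symm {X Y E : Finset α} (h : Prt X Y E) : Prt Y X E := by
  simp only [Prt] at *; grind

lemma Prt.card {X Y E : Finset α} (h : Prt X Y E) : X.card + Y.card = E.card := by
  have h1 : X ∪ Y = E := by
    ext z; rw [mem_union]; exact (h.1 z).symm
  have h2 : Disjoint X Y := by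
    rw [Finset.disjoint_left]; intro a ha hb; exact h.2 a ha hb
  rw [← h1, Finset.card_union_of_disjoint h2]

lemma Prt.subL {X Y E : Finset α} (h : Prt X Y E) : X ⊆ E := fun z hz => (h.1 z).2 (Or.inl hz)

lemma Prt.subR {X Y E : Finset α} (h : Prt X Y E) : Y ⊆ E := fun z hz => (h.1 z).2 (Or.inr hz)

lemma Prt.sdiff {X E : Finset α} (h : X ⊆ E) : Prt X (E \ X) E := by
  simp only [Prt]; grind

lemma Prt.split {A B E X : Finset α} (h : Prt A B E) (hX : X ⊆ E) :
    (X ∩ A).card + (X ∩ B).card = X.card := by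
  apply Prt.card
  obtain ⟨h1, h2⟩ := h
  refine ⟨fun z => ?_, fun z => ?_⟩
  · have := @hX z
    have := h1 z
    simp only [mem_inter]; tauto
  · have := h2 z
    simp only [mem_inter]; tauto

/-- Axioms of a matroid rank function. -/
structure IsRank (r : Finset α → ℕ) : Prop where
  empty : r ∅ = 0
  mono : ∀ {X Y : Finset α}, X ⊆ Y → r X ≤ r Y
  sub : ∀ X Y : Finset α, r (X ∪ Y) + r (X ∩ Y) ≤ r X + r Y
  one : ∀ (e : α) (X : Finset α), r (insert e X) ≤ r X + 1

namespace IsRank

variable {r : Finset α → ℕ}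

lemma sm (hr : IsRank r) {X Y U I : Finset α} (hU : ∀ z ∈ U, z ∈ X ∨ z ∈ Y)
    (hI : ∀ z ∈ I, z ∈ X ∧ z ∈ Y) : r U + r I ≤ r X + r Y := by
  have h1 : r U ≤ r (X ∪ Y) := hr.mono fun z hz => by simpa using hU z hz
  have h2 : r I ≤ r (X ∩ Y) := hr.mono fun z hz => by simpa using hI z hz
  have := hr.sub X Y
  omega

lemma mm (hr : IsRank r) {X Y : Finset α} (h : ∀ z ∈ X, z ∈ Y) : r X ≤ r Y := hr.mono h

lemma le_card (hr : IsRank r) (X : Finset α) : r X ≤ X.card := by
  induction X using Finset.induction_on with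
  | empty => simp [hr.empty]
  | insert a s ha ih =>
    have := hr.one a s
    rw [Finset.card_insert_of_notMem ha]; omega

/-- The rank grows by at most one when one element is added (membership form). -/
lemma one' (hr : IsRank r) {X Y : Finset α} (e : α) (h : ∀ z ∈ Y, z = e ∨ z ∈ X) :
    r Y ≤ r X + 1 := by
  have h1 : r Y ≤ r (insert e X) := hr.mono fun z hz => by simpa using h z hz
  have := hr.one e X
  omega

/-- If every element of `Z` is in the closure of `A` then so is `Z`. -/
lemma closure (hr : IsRank r) {A Z : Finset α} (h : ∀ z ∈ Z, r (insert z A) ≤ r A) :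
    r (A ∪ Z) ≤ r A := by
  induction Z using Finset.induction_on with
  | empty => simp
  | insert a s ha ih =>
    have ih' := ih fun z hz => h z (by simp [hz])
    have ha' := h a (by simp)
    have := hr.sm (X := A ∪ s) (Y := insert a A) (U := A ∪ insert a s) (I := A)
      (by grind) (by grind)
    omega

/-- Closure transfer: if `x` is spanned by `A` and `A ⊆ B` then `x` is spanned by `B`. -/
lemma cl_mono (hr : IsRank r) {A B : Finset α} {x : α} (hAB : ∀ z ∈ A, z ∈ B)
    (h : r (insert x A) ≤ r A) : r (insert x B) ≤ r B := by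
  by_cases hx : x ∈ B
  · rw [Finset.insert_eq_of_mem hx]
  · have := hr.sm (X := B) (Y := insert x A) (U := insert x B) (I := A) (by grind) (by grind)
    omega

end IsRank

/-- Connectedness. -/
def Cn (r : Finset α → ℕ) (E : Finset α) : Prop :=
  ∀ X Y, Prt X Y E → X.Nonempty → Y.Nonempty → r E + 1 ≤ r X + r Y

/-- No 2-separations with both sides of size at least two. -/
def T2 (r : Finset α → ℕ) (E : Finset α) : Prop :=
  ∀ X Y, Prt X Y E → 2 ≤ X.card → 2 ≤ Y.card → r E + 2 ≤ r X + r Y

/-- 3-connectivity. -/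
def TC (r : Finset α → ℕ) (E : Finset α) : Prop := Cn r E ∧ T2 r E

/-- The simplification of the contraction of `x` is 3-connected. -/
def SI (r : Finset α → ℕ) (E : Finset α) (x : α) : Prop :=
  ∀ X Y, Prt X Y (E.erase x) → 2 ≤ X.card → 2 ≤ Y.card →
    r (insert x X) + r (insert x Y) ≤ r E + 2 → r (insert x X) ≤ 2 ∨ r (insert x Y) ≤ 2

/-- The cosimplification of the deletion of `x` is 3-connected. -/
def CO (r : Finset α → ℕ) (E : Finset α) (x : α) : Prop :=
  ∀ X Y, Prt X Y (E.erase x) → 2 ≤ X.card → 2 ≤ Y.card →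
    r X + r Y ≤ r E + 1 → X.card + r Y ≤ r E + 1 ∨ Y.card + r X ≤ r E + 1

namespace TC

variable {r : Finset α → ℕ} {E : Finset α}

lemma pair_compl (h : TC r E) (hr : IsRank r) (h4 : 4 ≤ E.card) {a b : α} (ha : a ∈ E)
    (hb : b ∈ E) (hab : a ≠ b) : r {a, b} = 2 ∧ r (E \ {a, b}) = r E := by
  have hc : ({a, b} : Finset α).card = 2 := Finset.card_pair hab
  have hP : Prt {a, b} (E \ {a, b}) E := Prt.sdiff (by intro z hz; simp at hz; grind)
  have h1 := h.2 _ _ hP (by omega) (by have := hP.card; omega)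
  have h2 := hr.le_card {a, b}
  have h3 : r (E \ {a, b}) ≤ r E := hr.mono Finset.sdiff_subset
  omega

lemma pair (h : TC r E) (hr : IsRank r) (h4 : 4 ≤ E.card) {a b : α} (ha : a ∈ E)
    (hb : b ∈ E) (hab : a ≠ b) : r {a, b} = 2 := (h.pair_compl hr h4 ha hb hab).1

/-- A set that contains all elements but two spans. -/
lemma compl2 (h : TC r E) (hr : IsRank r) (h4 : 4 ≤ E.card) {a b : α} (ha : a ∈ E)
    (hb : b ∈ E) (hab : a ≠ b) {Y : Finset α} (hY : ∀ z ∈ E, z = a ∨ z = b ∨ z ∈ Y) :
    r E ≤ r Y := by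
  have h1 := (h.pair_compl hr h4 ha hb hab).2
  have h2 : r (E \ {a, b}) ≤ r Y := hr.mm fun z hz => by
    simp only [mem_sdiff, mem_insert, mem_singleton] at hz
    have := hY z hz.1; tauto
  omega

lemma exists_ne (h4 : 4 ≤ E.card) (a : α) : ∃ b ∈ E, b ≠ a := by
  have : 0 < (E.erase a).card := by
    have := Finset.pred_card_le_card_erase (s := E) (a := a); omega
  obtain ⟨b, hb⟩ := Finset.card_pos.1 this
  exact ⟨b, (Finset.mem_erase.1 hb).2, (Finset.mem_erase.1 hb).1⟩

/-- A set that contains all elements but one spans. -/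
lemma compl1 (h : TC r E) (hr : IsRank r) (h4 : 4 ≤ E.card) {a : α} (ha : a ∈ E)
    {Y : Finset α} (hY : ∀ z ∈ E, z = a ∨ z ∈ Y) : r E ≤ r Y := by
  obtain ⟨b, hb, hba⟩ := exists_ne h4 a
  exact h.compl2 hr h4 ha hb (Ne.symm hba) fun z hz => by have := hY z hz; tauto

lemma single (h : TC r E) (hr : IsRank r) (h4 : 4 ≤ E.card) {a : α} (ha : a ∈ E) :
    r {a} = 1 := by
  obtain ⟨b, hb, hba⟩ := exists_ne h4 a
  have h1 := h.pair hr h4 ha hb (Ne.symm hba)
  have h2 := hr.le_card {a}
  have h3 := hr.one' (X := {a}) (Y := {a, b}) b (by grind)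
  simp at h2; omega

lemma two_le (h : TC r E) (hr : IsRank r) (h4 : 4 ≤ E.card) {X : Finset α} (hX : X ⊆ E)
    (h2 : 2 ≤ X.card) : 2 ≤ r X := by
  obtain ⟨a, ha, b, hb, hab⟩ := Finset.one_lt_card.1 h2
  have := h.pair hr h4 (hX ha) (hX hb) hab
  have h3 : r {a, b} ≤ r X := hr.mm (by intro z hz; simp at hz; grind)
  omega

end TC

theorem bixby {r : Finset α → ℕ} {E : Finset α} {e : α} (hr : IsRank r) (h : TC r E)
    (he : e ∈ E) (h4 : 4 ≤ E.card) : SI r E e ∨ CO r E e := by
  by_contra hcon
  push Not at hcon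
  obtain ⟨h1, h2⟩ := hcon
  unfold SI at h1
  unfold CO at h2
  push Not at h1 h2
  obtain ⟨X, Y, hXY, hX, hY, hl, h3, h3'⟩ := h1
  obtain ⟨A, B, hAB, hA, hB, hl2, h5, h5'⟩ := h2
  have heX : e ∉ X := fun hh => by have := hXY.subL hh; simp at this
  have heY : e ∉ Y := fun hh => by have := hXY.subR hh; simp at this
  have heA : e ∉ A := fun hh => by have := hAB.subL hh; simp at this
  have heB : e ∉ B := fun hh => by have := hAB.subR hh; simp at this
  have cX : (insert e X).card = X.card + 1 := Finset.card_insert_of_notMem heX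
  have cY : (insert e Y).card = Y.card + 1 := Finset.card_insert_of_notMem heY
  have pE : ∀ z, z ∈ E.erase e ↔ (z ≠ e ∧ z ∈ E) := fun z => Finset.mem_erase
  have eX : r (insert e X) ≤ r X := by
    have := h.2 X (insert e Y) (by simp only [Prt] at *; grind) hX (by omega)
    omega
  have eY : r (insert e Y) ≤ r Y := by
    have := h.2 Y (insert e X) (by simp only [Prt] at *; grind) hY (by omega)
    omega
  have hX3 : 3 ≤ X.card := by have := hr.le_card X; omega
  have hY3 : 3 ≤ Y.card := by have := hr.le_card Y; omega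
  have hA3 : 3 ≤ A.card := by
    have : 2 ≤ r A := h.two_le hr h4 (hAB.subL.trans (Finset.erase_subset _ _)) hA
    omega
  have hB3 : 3 ≤ B.card := by
    have : 2 ≤ r B := h.two_le hr h4 (hAB.subR.trans (Finset.erase_subset _ _)) hB
    omega
  have sX := hAB.split hXY.subL
  have sY := hAB.split hXY.subR
  have sA := hXY.split hAB.subL
  have sB := hXY.split hAB.subR
  rw [Finset.inter_comm A X, Finset.inter_comm A Y] at sA
  rw [Finset.inter_comm B X, Finset.inter_comm B Y] at sB
  -- uncrossing
  have key1 : (X ∩ A).card ≤ 1 ∨ (Y ∩ B).card ≤ 1 := by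
    by_contra hh
    push Not at hh
    have a1 := h.2 (X ∩ A) (insert e (Y ∪ B)) (by simp only [Prt] at *; grind) (by omega)
      (by have : (insert e Y).card ≤ (insert e (Y ∪ B)).card := Finset.card_le_card (by grind)
          omega)
    have a2 := h.2 (Y ∩ B) (insert e (X ∪ A)) (by simp only [Prt] at *; grind) (by omega)
      (by have : (insert e X).card ≤ (insert e (X ∪ A)).card := Finset.card_le_card (by grind)
          omega)
    have a3 := hr.sm (X := insert e X) (Y := A) (U := insert e (X ∪ A)) (I := X ∩ A)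
      (by grind) (by grind)
    have a4 := hr.sm (X := insert e Y) (Y := B) (U := insert e (Y ∪ B)) (I := Y ∩ B)
      (by grind) (by grind)
    omega
  have key2 : (X ∩ B).card ≤ 1 ∨ (Y ∩ A).card ≤ 1 := by
    by_contra hh
    push Not at hh
    have a1 := h.2 (X ∩ B) (insert e (Y ∪ A)) (by simp only [Prt] at *; grind) (by omega)
      (by have : (insert e Y).card ≤ (insert e (Y ∪ A)).card := Finset.card_le_card (by grind)
          omega)
    have a2 := h.2 (Y ∩ A) (insert e (X ∪ B)) (by simp only [Prt] at *; grind) (by omega)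
      (by have : (insert e X).card ≤ (insert e (X ∪ B)).card := Finset.card_le_card (by grind)
          omega)
    have a3 := hr.sm (X := insert e X) (Y := B) (U := insert e (X ∪ B)) (I := X ∩ B)
      (by grind) (by grind)
    have a4 := hr.sm (X := insert e Y) (Y := A) (U := insert e (Y ∪ A)) (I := Y ∩ A)
      (by grind) (by grind)
    omega
  omega

end Pool.Agent.K3h89.QU
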