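import Pool.Agent.K3h89.QU.Minor

/-!
# Existence of removable elements
-/

set_option autoImplicit false
set_option linter.unusedSectionVars false

namespace Pool.Agent.K3h89.QU

open Finset

variable {α : Type*} [DecidableEq α]

lemma aux_sub {A B T T2 E : Finset α} {b : α} (hA : A ⊆ E) (hB : B ⊆ E) (hbA : b ∉ A)
    (hT2 : T2 ⊆ B) (hbT : b ∉ T2) : (T ∩ A) ∪ T2 ⊆ E.erase b := by
  intro z hz; have := @hA z; have := @hB z; grind

lemma aux_sub' {A B T T2 E : Finset α} (hA : A ⊆ E) (hB : B ⊆ E)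
    (hT2 : T2 ⊆ B) : (T ∩ A) ∪ T2 ⊆ E := by
  intro z hz; have := @hA z; have := @hB z; grind

lemma aux_disj {A B T T2 S : Finset α} {s0 s' : α} (hd : ∀ z ∈ T, z ∉ S)
    (hBA : ∀ z ∈ B, z ∉ A) (hSA : ∀ z ∈ S, z ≠ s0 → z ∈ A) (hsT : s' ∉ T2) (hsB : s' ∈ B)
    (hT2 : T2 ⊆ B) : Disjoint ((T ∩ A) ∪ T2) (insert s' (S.erase s0)) := by
  rw [Finset.disjoint_left]; intro z hz hzS
  have := hd z; have := hBA z; have := hSA z; have := @hT2 z; grind

lemma aux_disj' {A B T T2 S : Finset α} (hd : ∀ z ∈ T, z ∉ S)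
    (hBA : ∀ z ∈ B, z ∉ A) (hSA : S ⊆ A)
    (hT2 : T2 ⊆ B) : Disjoint ((T ∩ A) ∪ T2) S := by
  rw [Finset.disjoint_left]; intro z hz hzS
  have := hd z; have := hBA z; have := @hSA z; have := @hT2 z; grind

lemma aux_ins {A B S E : Finset α} {s0 s' b : α} (hA : A ⊆ E) (hB : B ⊆ E) (hbA : b ∉ A)
    (hSA : ∀ z ∈ S, z ≠ s0 → z ∈ A) (hsB : s' ∈ B) (hsb : s' ≠ b) :
    insert s' (S.erase s0) ⊆ E.erase b := by
  intro z hz; have := @hA z; have := @hB z; have := hSA z; grind

lemma aux_ins' {A B S E : Finset α} {s0 s' : α} (hA : A ⊆ E) (hB : B ⊆ E)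
    (hSA : ∀ z ∈ S, z ≠ s0 → z ∈ A) (hsB : s' ∈ B) :
    insert s' (S.erase s0) ⊆ E := by
  intro z hz; have := @hA z; have := @hB z; have := hSA z; grind

lemma both_minors {r : Finset α → ℕ} (hr : IsRank r) {E A B T S : Finset α} {e : α} {k n : ℕ}
    (h : TC r E) (h4 : 4 ≤ E.card) (he : e ∈ E) (hk : 2 ≤ k) (hn : k + 2 ≤ n)
    (hAB : Prt A B (E.erase e)) (hA : 2 ≤ A.card) (hB2 : 2 ≤ B.card)
    (hl : r A + r B ≤ r E + 1) (hB : r B < B.card)
    (hT : T ⊆ E.erase e) (hS : S ⊆ E.erase e) (hd : Disjoint T S) (hc : S.card = n)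
    (hrk : ∀ Z ⊆ S, r (Z ∪ T) = r T + min Z.card k) (hSB : (S ∩ B).card ≤ 1) :
    ∃ b ∈ B, HasU r (E.erase b) k n ∧ HasU (ctr r b) (E.erase b) k n := by
  classical
  rw [Finset.disjoint_left] at hd
  have hErase : r E ≤ r (E.erase e) := h.compl1 hr h4 he (by grind)
  have hErase' : r (E.erase e) ≤ r E := hr.mono (Finset.erase_subset _ _)
  have heA : e ∉ A := fun hh => by have := hAB.subL hh; simp at this
  have heB : e ∉ B := fun hh => by have := hAB.subR hh; simp at this
  have hlow : r E + 1 ≤ r A + r B := by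
    have h1 := h.2 A (insert e B) (by simp only [Prt, mem_erase] at *; grind) hA
      (by rw [Finset.card_insert_of_notMem heB]; omega)
    have h2 := hr.one e B
    omega
  have hl' : r A + r B = r (E.erase e) + 1 := by omega
  obtain ⟨b, hb, hb1, hb2⟩ := exists_free hr h h4 he hAB hl hB
  have hbA : b ∉ A := fun hh => hAB.2 b hh hb
  have hBA : ∀ z ∈ B, z ∉ A := fun z h1 h2 => hAB.2 z h2 h1
  have hbE : b ∈ E := by have := hAB.subR hb; simp at this; exact this.2
  have hAE : A ⊆ E := hAB.subL.trans (Finset.erase_subset _ _)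
  have hBE : B ⊆ E := hAB.subR.trans (Finset.erase_subset _ _)
  have hsgB := two_sep_rank hr hAB hl' (Z := ∅) (T := B) (by grind) (by grind)
  have hsgBb := two_sep_rank hr hAB hl' (Z := ∅) (T := B.erase b) (by grind) (by grind)
  have hABu : r (A ∪ B) ≤ r (E.erase e) := hr.mm (fun z hz => by
    have := (hAB.1 z).2; grind)
  have hABu2 : r (A ∪ B.erase b) ≤ r (E.erase e) := hr.mm (fun z hz => by
    have := (hAB.1 z).2; grind)
  have s1 : r A + r B - r (A ∪ B) = 1 := by omega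
  have s2 : r A + r (B.erase b) - r (A ∪ B.erase b) = 1 := by omega
  have s3 : r A + r {b} - r (A ∪ {b}) = 0 := by
    have h1 : A ∪ {b} = insert b A := by grind
    have h2 := hr.le_card {b}
    simp at h2
    rw [h1]; omega
  have s4 : r A + r ∅ - r (A ∪ ∅) = 0 := by simp [hr.empty]
  refine ⟨b, hb, ?_⟩
  rcases (by omega : (S ∩ B).card = 0 ∨ (S ∩ B).card = 1) with hc0 | hc1
  · have hSA : S ⊆ A := by
      intro z hz
      by_contra hh
      have h1 : z ∈ S ∩ B := by
        have := (hAB.1 z).1 (hS hz); simp only [mem_inter]; tauto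
      rw [Finset.card_eq_zero] at hc0
      rw [hc0] at h1; simp at h1
    constructor
    · -- deletion
      have hex : ∃ T2 ⊆ B.erase b,
          r A + r T2 - r (A ∪ T2) = r A + r (T ∩ B) - r (A ∪ (T ∩ B)) := by
        have h1 := two_sep_rank hr hAB hl' (Z := ∅) (T := T ∩ B) (by grind) (by grind)
        rcases (by omega : r A + r (T ∩ B) - r (A ∪ (T ∩ B)) = 0 ∨
          r A + r (T ∩ B) - r (A ∪ (T ∩ B)) = 1) with c | c
        · exact ⟨∅, by simp, by rw [s4, c]⟩
        · exact ⟨B.erase b, by simp, by rw [s2, c]⟩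
      obtain ⟨T2, hT2, hs⟩ := hex
      have hT2B : T2 ⊆ B := hT2.trans (Finset.erase_subset _ _)
      have hbT2 : b ∉ T2 := fun hh => by have := hT2 hh; simp at this
      have hw := wit1 hr hAB hl' hT hSA hrk (T2 := T2) hT2B hs
      exact ⟨(T ∩ A) ∪ T2, S, aux_sub hAE hBE hbA hT2B hbT2,
        fun z hz => Finset.mem_erase.2 ⟨fun hh => hbA (hh ▸ hSA hz), hAE (hSA hz)⟩,
        aux_disj' (fun z h1 h2 => hd h1 h2) hBA hSA hT2B, hc, hw⟩
    · have hex : ∃ T2 ⊆ B, b ∈ T2 ∧
          r A + r T2 - r (A ∪ T2) = r A + r (T ∩ B) - r (A ∪ (T ∩ B)) := by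
        have h1 := two_sep_rank hr hAB hl' (Z := ∅) (T := T ∩ B) (by grind) (by grind)
        rcases (by omega : r A + r (T ∩ B) - r (A ∪ (T ∩ B)) = 0 ∨
          r A + r (T ∩ B) - r (A ∪ (T ∩ B)) = 1) with c | c
        · exact ⟨{b}, by simpa using hb, by simp, by rw [s3, c]⟩
        · exact ⟨B, by simp, hb, by rw [s1, c]⟩
      obtain ⟨T2, hT2, hbT, hs⟩ := hex
      have hw := wit1 hr hAB hl' hT hSA hrk (T2 := T2) hT2 hs
      exact hasU_ctr_of hr (T := (T ∩ A) ∪ T2) (S := S)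
        (Finset.mem_union_right _ hbT) (aux_sub' hAE hBE hT2) (hSA.trans hAE)
        (aux_disj' (fun z h1 h2 => hd h1 h2) hBA hSA hT2) hc hw
  · obtain ⟨s0, hs0⟩ := Finset.card_eq_one.1 hc1
    have hs0' : s0 ∈ S ∧ s0 ∈ B := by
      have : s0 ∈ S ∩ B := by rw [hs0]; simp
      simpa using this
    have hSA : ∀ z ∈ S, z ≠ s0 → z ∈ A := by
      intro z hz hne
      by_contra hh
      have : z ∈ S ∩ B := by
        have := (hAB.1 z).1 (hS hz); simp only [mem_inter]; tauto
      rw [hs0] at this; simp at this; exact hne this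
    constructor
    · obtain ⟨T3, hT3, hmin⟩ := Finset.exists_min_image
        ((B.erase b).powerset.filter fun Z => r A + r Z - r (A ∪ Z) = 1)
        Finset.card ⟨B.erase b, by simp [s2]⟩
      simp only [mem_filter, mem_powerset] at hT3 hmin
      obtain ⟨hT3B, hT3s⟩ := hT3
      have hne : T3.Nonempty := by
        rw [Finset.nonempty_iff_ne_empty]
        rintro rfl
        omega
      obtain ⟨s', hs'⟩ := hne
      have h1 := two_sep_rank hr hAB hl' (Z := ∅) (T := T3.erase s') (by grind) (by grind)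
      have h2 : r A + r (T3.erase s') - r (A ∪ T3.erase s') = 0 := by
        by_contra hh
        have := hmin (T3.erase s') ⟨by grind, by omega⟩
        have h3 := Finset.card_erase_of_mem hs'
        have h4 := Finset.card_pos.2 ⟨s', hs'⟩
        omega
      have hT3B' : T3 ⊆ B := hT3B.trans (Finset.erase_subset _ _)
      have hbT3 : b ∉ T3 := fun hh => by have := hT3B hh; simp at this
      have hT3e : T3.erase s' ⊆ B := (Finset.erase_subset _ _).trans hT3B'
      have hw := wit2 hr hAB hl' hk hn hT hS (fun z h1 h2 => hd h1 h2) hc hrk hs0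
        (T2 := T3.erase s') (s' := s') hT3e (hT3B' hs') (by simp) h2
        (by rw [Finset.insert_erase hs']; exact hT3s)
      exact ⟨(T ∩ A) ∪ T3.erase s', insert s' (S.erase s0),
        aux_sub hAE hBE hbA hT3e (fun hh => hbT3 (Finset.erase_subset _ _ hh)),
        aux_ins hAE hBE hbA hSA (hT3B' hs') (fun hh => hbT3 (hh ▸ hs')),
        aux_disj (fun z h1 h2 => hd h1 h2) hBA hSA (by simp) (hT3B' hs') hT3e, hw.1, hw.2⟩
    · obtain ⟨T2, hT2, hmax⟩ := Finset.exists_max_image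
        (B.powerset.filter fun Z => b ∈ Z ∧ r A + r Z - r (A ∪ Z) = 0)
        Finset.card ⟨{b}, by
          rw [mem_filter, mem_powerset, Finset.singleton_subset_iff]
          exact ⟨hb, by simp, s3⟩⟩
      simp only [mem_filter, mem_powerset] at hT2 hmax
      obtain ⟨hT2B, hbT, hT2s⟩ := hT2
      have hex : ∃ s' ∈ B, s' ∉ T2 := by
        by_contra hh
        push Not at hh
        have : T2 = B := Finset.Subset.antisymm hT2B hh
        rw [this] at hT2s; omega
      obtain ⟨s', hs', hsT⟩ := hex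
      have h1 := two_sep_rank hr hAB hl' (Z := ∅) (T := insert s' T2) (by grind) (by grind)
      have h2 : r A + r (insert s' T2) - r (A ∪ insert s' T2) = 1 := by
        by_contra hh
        have := hmax (insert s' T2) ⟨by grind, by grind, by omega⟩
        rw [Finset.card_insert_of_notMem hsT] at this
        omega
      have hw := wit2 hr hAB hl' hk hn hT hS (fun z h1 h2 => hd h1 h2) hc hrk hs0
        (T2 := T2) (s' := s') hT2B hs' hsT hT2s h2
      exact hasU_ctr_of hr (T := (T ∩ A) ∪ T2) (S := insert s' (S.erase s0))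
        (Finset.mem_union_right _ hbT) (aux_sub' hAE hBE hT2B)
        (aux_ins' hAE hBE hSA hs')
        (aux_disj (fun z h1 h2 => hd h1 h2) hBA hSA hsT hs' hT2B) hw.1 hw.2

lemma small_side {r : Finset α → ℕ} (hr : IsRank r) {E A B T S : Finset α} {k n : ℕ}
    (hk : 2 ≤ k) (hn : k + 2 ≤ n) (hAB : Prt A B E) (hl : r A + r B ≤ r E + 1)
    (hT : T ⊆ E) (hS : S ⊆ E) (hc : S.card = n)
    (hrk : ∀ Z ⊆ S, r (Z ∪ T) = r T + min Z.card k) :
    (S ∩ A).card ≤ 1 ∨ (S ∩ B).card ≤ 1 := by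
  by_contra hh
  push Not at hh
  have hsp := hAB.split hS
  have f1 := hrk (S ∩ A) (by grind)
  have f2 := hrk (S ∩ B) (by grind)
  have f3 := hrk S (by grind)
  have hE : ∀ z ∈ E, z ∈ A ∨ z ∈ B := fun z hz => (hAB.1 z).1 hz
  have b1 := hr.sm (X := A) (Y := T) (U := A ∪ T) (I := T ∩ A) (by grind) (by grind)
  have b2 := hr.sm (X := B) (Y := T) (U := B ∪ T) (I := T ∩ B) (by grind) (by grind)
  have b3 := hr.sm (X := T ∩ A) (Y := T ∩ B) (U := T) (I := ∅)
    (by intro z hz; have := hE z (hT hz); grind)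
    (by grind)
  have b4 := hr.sm (X := S ∪ T) (Y := A ∪ T) (U := A ∪ T ∪ (S ∩ B)) (I := (S ∩ A) ∪ T)
    (by grind) (by grind)
  have b5 := hr.sm (X := A ∪ T ∪ (S ∩ B)) (Y := B ∪ T) (U := E) (I := (S ∩ B) ∪ T)
    (by intro z hz; have := hE z hz; grind) (by grind)
  rw [hc] at f3
  rw [f1] at b4
  rw [f2] at b5
  rw [f3] at b4
  have := hr.empty
  omega

/-- Removable elements, when some element can be deleted keeping the uniform minor. -/
theorem removable_del {r : Finset α → ℕ} (hr : IsRank r) {E : Finset α} {e : α} {k n : ℕ}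
    (h : TC r E) (he : e ∈ E) (hk : 2 ≤ k) (hn : k + 2 ≤ n) (hU : HasU r (E.erase e) k n) :
    ∃ x ∈ E, (SI r E x ∧ HasU (ctr r x) (E.erase x) k n) ∨ (CO r E x ∧ HasU r (E.erase x) k n) := by
  by_cases hCO : CO r E e
  · exact ⟨e, he, Or.inr ⟨hCO, hU⟩⟩
  have h4 : 4 ≤ E.card := by
    have := hU.card_le
    have h2 := Finset.card_le_card (Finset.erase_subset e E)
    omega
  unfold CO at hCO
  push Not at hCO
  obtain ⟨A, B, hAB, hA, hB, hl, h5, h5'⟩ := hCO
  obtain ⟨T, S, hT, hS, hd, hc, hrk⟩ := hU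
  have hErase : r E ≤ r (E.erase e) := h.compl1 hr h4 he (by grind)
  have hss := small_side hr hk hn hAB (by omega) hT hS hc hrk
  have hcl := hr.le_card A
  have hcr := hr.le_card B
  have : ∃ b ∈ E, HasU r (E.erase b) k n ∧ HasU (ctr r b) (E.erase b) k n := by
    rcases hss with hss | hss
    · obtain ⟨b, hb, hb1, hb2⟩ := both_minors hr h h4 he hk hn hAB.symm hB hA (by omega)
        (by omega) hT hS hd hc hrk hss
      exact ⟨b, Finset.erase_subset _ _ (hAB.subL hb), hb1, hb2⟩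
    · obtain ⟨b, hb, hb1, hb2⟩ := both_minors hr h h4 he hk hn hAB hA hB (by omega)
        (by omega) hT hS hd hc hrk hss
      exact ⟨b, Finset.erase_subset _ _ (hAB.subR hb), hb1, hb2⟩
  obtain ⟨b, hb, hb1, hb2⟩ := this
  rcases bixby hr h hb h4 with hbx | hbx
  · exact ⟨b, hb, Or.inl ⟨hbx, hb2⟩⟩
  · exact ⟨b, hb, Or.inr ⟨hbx, hb1⟩⟩

end Pool.Agent.K3h89.QU
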